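import Pool.Agent.H8.QS.AlgE

/-! # QS.Alg : identities for the coefficients `qc` (about 150 lines; pure algebra, given `QS.AlgE`)

`ev_smul`, `dg_self` (Euler), `dg_smul`: from `ev_lc` (e.g. `ev f (lc c 0 x x)`), or `MvPolynomial.IsHomogeneous` lemmas (`IsHomogeneous.eval₂`, `IsHomogeneous.pderiv`, Euler: `MvPolynomial.IsHomogeneous.sum_X_mul_pderiv`).
`qc_resc` (change of the vectors): `lin f (ρ x) (θ x + κ u)` is `ev f` of the vector `(C ρ + C θ X) x + (C κ X) u` over `F[X]`: `ev_lc` over `F[X]` with `α = C ρ + C θ * X`, `β = C κ * X` and the constant vectors `C (x i)`, `C (u i)` (`qc` of constant vectors is `C (qc ..)`: `qc_map` for `Algebra.ofId`/`C` as an algebra homomorphism).  With `qc_0 = qc_1 = 0`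
(`qc_zero`, `qc_one`) compare the coefficients 2, 3, 4: `κ² ρ² Q2`, `κ² (2 ρ θ Q2 + ρ κ Q3)`, `κ² (θ² Q2 + θ κ Q3 + κ² Q4)`. -/

namespace H8.QS

open H68.BB H77.AF Polynomial

variable {K0 : Type} [Field K0] {f : MvPolynomial (Fin 4) K0} {F : Type} [CommRing F] [Algebra K0 F]

private theorem alg_hom {n : ℕ} {g : MvPolynomial (Fin 4) K0} (hg : g.IsHomogeneous n) (c : F) (x : Fin 4 → F) :
    ev g (fun i => c * x i) = c ^ n * ev g x := by
  unfold ev
  rw [MvPolynomial.aeval_def, MvPolynomial.eval₂_eq', MvPolynomial.aeval_def, MvPolynomial.eval₂_eq', Finset.mul_sum]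
  refine Finset.sum_congr rfl fun m hm => ?_
  have hd : ∑ i, m i = n := by
    have h := hg.degree_eq_sum_deg_support hm
    rw [h]
    exact (Finset.sum_subset (Finset.subset_univ _) (fun i _ hi => by simpa using hi)).symm
  simp_rw [mul_pow]
  rw [Finset.prod_mul_distrib, Finset.prod_pow_eq_pow_sum, hd]
  ring

/-- values at multiples -/
theorem ev_smul (hf : f.IsHomogeneous 4) (c : F) (x : Fin 4 → F) : ev f (fun i => c * x i) = c ^ 4 * ev f x :=
  alg_hom hf c x

theorem dg_lc (x u v : Fin 4 → F) (m n : F) : dg f x (lc m n u v) = m * dg f x u + n * dg f x v := by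
  unfold dg lc
  rw [Finset.mul_sum, Finset.mul_sum, ← Finset.sum_add_distrib]
  exact Finset.sum_congr rfl fun i _ => by ring

/-- Euler's identity -/
theorem dg_self (hf : f.IsHomogeneous 4) (x : Fin 4 → F) : dg f x x = 4 * ev f x := by
  have h := congrArg (MvPolynomial.aeval x) hf.sum_X_mul_pderiv
  rw [map_sum, map_nsmul] at h
  unfold dg ev
  rw [show (4 : F) * (MvPolynomial.aeval x) f = 4 • (MvPolynomial.aeval x) f by
    rw [nsmul_eq_mul]; norm_num]
  rw [← h]
  exact Finset.sum_congr rfl fun i _ => by rw [map_mul, MvPolynomial.aeval_X, mul_comm]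

theorem dg_smul (hf : f.IsHomogeneous 4) (c : F) (x u : Fin 4 → F) : dg f (fun i => c * x i) u = c ^ 3 * dg f x u := by
  unfold dg
  rw [Finset.mul_sum]
  refine Finset.sum_congr rfl fun i _ => ?_
  have h : (MvPolynomial.pderiv i f).IsHomogeneous 3 := hf.pderiv
  rw [alg_hom h]
  ring

private theorem alg_lin (hf : f.IsHomogeneous 4) {x u : Fin 4 → F} (hx : ev f x = 0) (hu : dg f x u = 0) (ρ κ θ : F) :
    lin f (fun i => ρ * x i) (lc θ κ x u) = C (κ ^ 2 * ρ ^ 2 * qc f x u 2) * X ^ 2 +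
      C (κ ^ 2 * (2 * ρ * θ * qc f x u 2 + ρ * κ * qc f x u 3)) * X ^ 3 +
      C (κ ^ 2 * (θ ^ 2 * qc f x u 2 + θ * κ * qc f x u 3 + κ ^ 2 * qc f x u 4)) * X ^ 4 := by
  have h1 : lin f (fun i => ρ * x i) (lc θ κ x u) =
      ev f (lc (C ρ + C θ * X) (C κ * X) (fun i => C (x i)) (fun i => C (u i))) := by
    unfold lin ev
    congr 2
    funext i
    simp only [lc, map_mul, map_add]
    ring
  have hq : ∀ j, qc f (fun i => (C (x i) : F[X])) (fun i => C (u i)) j = C (qc f x u j) := by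
    intro j
    exact (qc_map (Polynomial.CAlgHom : F →ₐ[K0] F[X]) f x u j).symm
  rw [h1, ev_lc hf, hq, hq, hq, hq, hq, qc_zero, qc_one, hx, hu]
  simp only [map_zero, map_mul, map_add, map_pow, map_ofNat]
  ring

/-- change of the vectors of a tangent line -/
theorem qc_resc (hf : f.IsHomogeneous 4) {x u : Fin 4 → F} (hx : ev f x = 0) (hu : dg f x u = 0) (ρ κ θ : F) :
    qc f (fun i => ρ * x i) (lc θ κ x u) 2 = κ ^ 2 * ρ ^ 2 * qc f x u 2 ∧
      qc f (fun i => ρ * x i) (lc θ κ x u) 3 = κ ^ 2 * (2 * ρ * θ * qc f x u 2 + ρ * κ * qc f x u 3) ∧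
      qc f (fun i => ρ * x i) (lc θ κ x u) 4 =
        κ ^ 2 * (θ ^ 2 * qc f x u 2 + θ * κ * qc f x u 3 + κ ^ 2 * qc f x u 4) := by
  have h := alg_lin hf hx hu ρ κ θ
  refine ⟨?_, ?_, ?_⟩
  · rw [qc, h]
    simp only [coeff_add, coeff_C_mul, coeff_X_pow]
    norm_num
  · rw [qc, h]
    simp only [coeff_add, coeff_C_mul, coeff_X_pow]
    norm_num
  · rw [qc, h]
    simp only [coeff_add, coeff_C_mul, coeff_X_pow]
    norm_num

theorem dv_resc (hf : f.IsHomogeneous 4) {x u : Fin 4 → F} (hx : ev f x = 0) (hu : dg f x u = 0) (ρ κ θ : F) :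
    dv f (fun i => ρ * x i) (lc θ κ x u) = ρ ^ 2 * κ ^ 6 * dv f x u := by
  obtain ⟨h2, h3, h4⟩ := qc_resc hf hx hu ρ κ θ
  unfold dv
  rw [h2, h3, h4]
  ring

end H8.QS
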