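import Pool.Agent.H8.QS.Def

/-! # QS.AlgE : the expansion of `f(α x + β u)` (about 120 lines; pure algebra)

`f` homogeneous of degree 4.  `ev_lc`: degree of `lin` is at most 4 (see `lb_deg` in `Pool/Agent/H25/EX/LinC.lean`).  Both sides are additive in `f`: write `f` as the sum of its monomials (`MvPolynomial.as_sum`, or `MvPolynomial.induction_on'`-like; for the homogeneity: `f.support`, `|m| = 4`), it is enough to prove it for one
monomial: a product of four linear forms: for a list (multiset) of `n` linear polynomials `x_i + T u_i` with product `P`: `∑_(j ≤ n) (coeff_j P) α^(n-j) β^j = ∏ (α x_i + β u_i)` (induction on `n`: multiply by one linear polynomial), and `coeff_j P = 0` for `j > n`.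
`qc_zero`: `(lin f x u).coeff 0` = value at `0`: `Polynomial.coeff_zero_eq_aeval_zero`, `MvPolynomial.aeval` of `C (x i) + C (u i) * X` at `X = 0`.
`qc_one`: both sides are derivations in `f` over the evaluation at `x` (`MvPolynomial.induction_on`: constants, sums, products with a variable; `coeff 1` of a product: `Polynomial.mul_coeff_one`). -/

namespace H8.QS

open H68.BB H77.AF Polynomial

variable {K0 : Type} [Field K0] {f : MvPolynomial (Fin 4) K0} {F : Type} [CommRing F] [Algebra K0 F]

private noncomputable def hm (n : ℕ) (P : F[X]) (α β : F) : F :=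
  ∑ j ∈ Finset.range (n + 1), P.coeff j * α ^ (n - j) * β ^ j

private theorem hm_mul (n : ℕ) (P : F[X]) (hP : P.natDegree ≤ n) (a b α β : F) :
    hm (n + 1) ((C a + C b * X) * P) α β = (α * a + β * b) * hm n P α β := by
  have e1 : ∀ j, ((C a + C b * X) * P).coeff j =
      a * P.coeff j + b * (X * P).coeff j := by
    intro j
    rw [add_mul, mul_assoc, coeff_add, coeff_C_mul, coeff_C_mul]
  have e2 : ∑ j ∈ Finset.range (n + 1 + 1), P.coeff j * α ^ (n + 1 - j) * β ^ j =
      α * hm n P α β := by
    rw [Finset.sum_range_succ, coeff_eq_zero_of_natDegree_lt (by omega : P.natDegree < n + 1),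
      zero_mul, zero_mul, add_zero, hm, Finset.mul_sum]
    refine Finset.sum_congr rfl fun j hj => ?_
    have hj' : j < n + 1 := Finset.mem_range.1 hj
    rw [show n + 1 - j = (n - j) + 1 by omega, pow_succ]
    ring
  have e3 : ∑ j ∈ Finset.range (n + 1 + 1), (X * P).coeff j * α ^ (n + 1 - j) * β ^ j =
      β * hm n P α β := by
    rw [Finset.sum_range_succ', hm, Finset.mul_sum]
    rw [mul_coeff_zero, coeff_X_zero, zero_mul, zero_mul, zero_mul, add_zero]
    refine Finset.sum_congr rfl fun j hj => ?_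
    rw [coeff_X_mul, show n + 1 - (j + 1) = n - j by omega, pow_succ]
    ring
  rw [hm]
  simp only [e1]
  calc ∑ j ∈ Finset.range (n + 1 + 1), (a * P.coeff j + b * (X * P).coeff j) * α ^ (n + 1 - j) * β ^ j
      = a * ∑ j ∈ Finset.range (n + 1 + 1), P.coeff j * α ^ (n + 1 - j) * β ^ j +
        b * ∑ j ∈ Finset.range (n + 1 + 1), (X * P).coeff j * α ^ (n + 1 - j) * β ^ j := by
        rw [Finset.mul_sum, Finset.mul_sum, ← Finset.sum_add_distrib]
        exact Finset.sum_congr rfl fun j _ => by ring
    _ = _ := by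
        rw [e2, e3]
        ring

private theorem lin_deg (a b : F) : (C a + C b * X : F[X]).natDegree ≤ 1 := by
  rw [add_comm]
  exact natDegree_linear_le

private theorem hm_pow (n : ℕ) (P : F[X]) (hP : P.natDegree ≤ n) (a b α β : F) (k : ℕ) :
    ((C a + C b * X) ^ k * P).natDegree ≤ n + k ∧
      hm (n + k) ((C a + C b * X) ^ k * P) α β = (α * a + β * b) ^ k * hm n P α β := by
  induction k with
  | zero => simpa using hP
  | succ k ih =>
    obtain ⟨h1, h2⟩ := ih
    have e : (C a + C b * X : F[X]) ^ (k + 1) * P =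
        (C a + C b * X) * ((C a + C b * X) ^ k * P) := by ring
    rw [e]
    constructor
    · refine natDegree_mul_le.trans ?_
      have := lin_deg a b
      omega
    · rw [← Nat.add_assoc, hm_mul _ _ h1, h2]
      ring

private theorem hm_four (x u : Fin 4 → F) (α β : F) (d : Fin 4 → ℕ) :
    hm (∑ i, d i) (∏ i, (C (x i) + C (u i) * X : F[X]) ^ d i) α β =
      ∏ i, (α * x i + β * u i) ^ d i := by
  obtain ⟨a1, b1⟩ := hm_pow 0 (1 : F[X]) (by simp) (x 0) (u 0) α β (d 0)
  obtain ⟨a2, b2⟩ := hm_pow _ _ a1 (x 1) (u 1) α β (d 1)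
  obtain ⟨a3, b3⟩ := hm_pow _ _ a2 (x 2) (u 2) α β (d 2)
  obtain ⟨a4, b4⟩ := hm_pow _ _ a3 (x 3) (u 3) α β (d 3)
  have h0 : hm 0 (1 : F[X]) α β = 1 := by simp [hm]
  have e1 : (∑ i, d i) = 0 + d 0 + d 1 + d 2 + d 3 := by
    rw [Fin.sum_univ_four]
    ring
  have e2 : (∏ i, (C (x i) + C (u i) * X : F[X]) ^ d i) = (C (x 3) + C (u 3) * X) ^ d 3 *
      ((C (x 2) + C (u 2) * X) ^ d 2 * ((C (x 1) + C (u 1) * X) ^ d 1 *
        ((C (x 0) + C (u 0) * X) ^ d 0 * 1))) := by
    rw [Fin.prod_univ_four]
    ring
  rw [e1, e2, b4, b3, b2, b1, h0, Fin.prod_univ_four]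
  ring

/-- the expansion of `f(α x + β u)` -/
theorem ev_lc (hf : f.IsHomogeneous 4) (x u : Fin 4 → F) (α β : F) :
    ev f (lc α β x u) = qc f x u 0 * α ^ 4 + qc f x u 1 * α ^ 3 * β + qc f x u 2 * α ^ 2 * β ^ 2 +
      qc f x u 3 * α * β ^ 3 + qc f x u 4 * β ^ 4 := by
  have h1 : hm 4 (lin f x u) α β = qc f x u 0 * α ^ 4 + qc f x u 1 * α ^ 3 * β +
      qc f x u 2 * α ^ 2 * β ^ 2 + qc f x u 3 * α * β ^ 3 + qc f x u 4 * β ^ 4 := by
    unfold hm qc
    simp only [Finset.sum_range_succ, Finset.sum_range_zero]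
    ring
  rw [← h1]
  unfold ev lin
  rw [MvPolynomial.aeval_def, MvPolynomial.aeval_def, MvPolynomial.eval₂_eq', MvPolynomial.eval₂_eq']
  have h2 : hm 4 (∑ d ∈ f.support, algebraMap K0 F[X] (MvPolynomial.coeff d f) *
      ∏ i, (C (x i) + C (u i) * X : F[X]) ^ d i) α β =
      ∑ d ∈ f.support, algebraMap K0 F (MvPolynomial.coeff d f) *
        hm 4 (∏ i, (C (x i) + C (u i) * X : F[X]) ^ d i) α β := by
    unfold hm
    simp only [finsetSum_coeff, Finset.sum_mul, Finset.mul_sum]
    rw [Finset.sum_comm]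
    refine Finset.sum_congr rfl fun d _ => Finset.sum_congr rfl fun j _ => ?_
    rw [IsScalarTower.algebraMap_apply K0 F F[X], ← C_eq_algebraMap, coeff_C_mul]
    ring
  rw [h2]
  refine Finset.sum_congr rfl fun d hd => ?_
  have h3 : (∑ i, d i) = 4 := by
    have h4 := hf (MvPolynomial.mem_support_iff.1 hd)
    rw [Finsupp.weight_apply] at h4
    have h5 : (d.sum fun i c => c • (1 : Fin 4 → ℕ) i) = ∑ i, d i := by
      rw [Finsupp.sum_fintype]
      · simp
      · simp
    exact h5.symm.trans h4
  have h6 := hm_four x u α β d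
  rw [h3] at h6
  rw [h6]
  rfl

theorem qc_zero (x u : Fin 4 → F) : qc f x u 0 = ev f x := by
  unfold qc ev lin
  rw [coeff_zero_eq_eval_zero]
  have h := MvPolynomial.comp_aeval_apply (f := fun i => (C (x i) + C (u i) * X : F[X]))
    ((Polynomial.aeval (0 : F)).restrictScalars K0) f
  have h2 : ((Polynomial.aeval (0 : F)).restrictScalars K0)
      (MvPolynomial.aeval (fun i => (C (x i) + C (u i) * X : F[X])) f) =
      (MvPolynomial.aeval (fun i => (C (x i) + C (u i) * X : F[X])) f).eval 0 := by
    rw [AlgHom.restrictScalars_apply, ← coe_aeval_eq_eval]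
  rw [← h2, h]
  congr 2
  funext i
  simp

theorem qc_one (x u : Fin 4 → F) : qc f x u 1 = dg f x u := by
  induction f using MvPolynomial.induction_on with
  | C a =>
    unfold qc dg lin ev
    rw [MvPolynomial.aeval_C, IsScalarTower.algebraMap_apply K0 F F[X], ← C_eq_algebraMap,
      coeff_C_succ]
    simp
  | add p q hp hq =>
    have e1 : qc (p + q) x u 1 = qc p x u 1 + qc q x u 1 := by
      unfold qc lin
      rw [map_add, coeff_add]
    have e2 : dg (p + q) x u = dg p x u + dg q x u := by
      unfold dg ev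
      rw [← Finset.sum_add_distrib]
      exact Finset.sum_congr rfl fun i _ => by rw [map_add, map_add, add_mul]
    rw [e1, e2, hp, hq]
  | mul_X p k hp =>
    have e1 : qc (p * MvPolynomial.X k) x u 1 = ev p x * u k + qc p x u 1 * x k := by
      have h0 := qc_zero (f := p) x u
      unfold qc lin at h0 ⊢
      rw [map_mul, MvPolynomial.aeval_X, mul_coeff_one, h0]
      simp
    have e2 : dg (p * MvPolynomial.X k) x u = ev p x * u k + dg p x u * x k := by
      unfold dg
      have h1 : ∀ i, ev (MvPolynomial.pderiv i (p * MvPolynomial.X k)) x * u i =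
          (if i = k then ev p x * u k else 0) + ev (MvPolynomial.pderiv i p) x * u i * x k := by
        intro i
        unfold ev
        rw [Derivation.leibniz, MvPolynomial.pderiv_X]
        simp only [smul_eq_mul, map_add, map_mul, MvPolynomial.aeval_X]
        by_cases hik : i = k
        · subst hik
          simp
          ring
        · rw [Pi.single_eq_of_ne (Ne.symm hik), if_neg hik]
          simp
          ring
      rw [Finset.sum_congr rfl fun i _ => h1 i, Finset.sum_add_distrib, ← Finset.sum_mul]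
      simp
    rw [e1, e2, hp]

end H8.QS
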