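import Pool.Agent.H8.QS.Alg

/-! # QS.AlgF : the binary sextic `dv f x (m d + n e)` of a tangent plane (about 200 lines, given `QS.Alg`)

`x` on `X`, `d`, `e` tangent.  `sx f x d e i` = the coefficient of `m^(6-i) n^i` of `dv f x (m d + n e)`.
Over an infinite field: `dp f x d e` has degree at most 6 (the coefficients in `X` of `qc f x (X d + e) j` have degree at most `j`: `j = 2, 3, 4`; e.g. `natDegree` of `lin` over `F[X]` coefficientwise, or: by `ev_lc`-like expansion `qc f x u j` is a form of degree `j` in `u`), so put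
`sx f x d e i = (dp f x d e).coeff (6 - i)`; for `n ≠ 0`: `m d + n e = n ((m/n) d + e)`, `dv_resc` with `ρ = 1`, `κ = n`, `θ = 0` gives `dv f x (m d + n e) = n^6 dp(m/n) = ∑ sx_i m^(6-i) n^i`.
For `n = 0` both sides are polynomials in `n` for fixed `m` (`dv f x (m d + n e)` is the value at `n` of `dp f x e' d'` with `d' = m d`, `e' = e`: a polynomial in `n`), equal for all `n ≠ 0`, so equal at `n = 0` as well (`Polynomial.eq_of_infinite_eval_eq`). -/

namespace H8.QS

open H68.BB H77.AF Polynomial

variable {K0 : Type} [Field K0] {f : MvPolynomial (Fin 4) K0} {F : Type} [Field F] [Algebra K0 F]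

/-- the value of the binary sextic with the coefficients `c` -/
def bf {R : Type} [CommRing R] (c : Fin 7 → R) (m n : R) : R := ∑ i : Fin 7, c i * (m ^ (6 - (i : ℕ)) * n ^ (i : ℕ))

/-- the binary sextic with the coefficients `c` is `k² r` with quadratic forms `k`, `r` -/
def Deg6 {K : Type} [Field K] (c : Fin 7 → K) : Prop :=
  ∃ k0 k1 k2 r0 r1 r2 : K, ∀ m n : K,
    bf c m n = (k0 * m ^ 2 + k1 * m * n + k2 * n ^ 2) ^ 2 * (r0 * m ^ 2 + r1 * m * n + r2 * n ^ 2)

/-- the coefficients of the binary sextic of a tangent plane -/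
noncomputable def sx (f : MvPolynomial (Fin 4) K0) {R : Type} [CommRing R] [Algebra K0 R] (x d e : Fin 4 → R) : Fin 7 → R :=
  fun i => (dp f x d e).coeff (6 - (i : ℕ))

private theorem algf_deg {R : Type} [CommRing R] [Algebra K0 R] (x d e : Fin 4 → R) (g : MvPolynomial (Fin 4) K0) (j : ℕ) :
    ((MvPolynomial.aeval (fun i => C (C (x i)) + C (C (d i) * X + C (e i)) * X) g : R[X][X]).coeff j).natDegree ≤ j := by
  induction g using MvPolynomial.induction_on generalizing j with
  | C a =>
    rw [MvPolynomial.aeval_C, IsScalarTower.algebraMap_apply K0 R[X] R[X][X], Polynomial.algebraMap_eq,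
      Polynomial.coeff_C, IsScalarTower.algebraMap_apply K0 R R[X], Polynomial.algebraMap_eq]
    split_ifs
    · rw [Polynomial.natDegree_C]
      exact Nat.zero_le _
    · rw [Polynomial.natDegree_zero]
      exact Nat.zero_le _
  | add p q hp hq =>
    rw [map_add, Polynomial.coeff_add]
    exact (Polynomial.natDegree_add_le _ _).trans (max_le (hp j) (hq j))
  | mul_X p i hp =>
    rw [map_mul, MvPolynomial.aeval_X, mul_add, Polynomial.coeff_add, Polynomial.coeff_mul_C]
    refine (Polynomial.natDegree_add_le _ _).trans (max_le ?_ ?_)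
    · refine (Polynomial.natDegree_mul_le).trans ?_
      rw [Polynomial.natDegree_C, add_zero]
      exact hp j
    · rw [← mul_assoc]
      cases j with
      | zero =>
        rw [Polynomial.mul_coeff_zero, Polynomial.coeff_X_zero, mul_zero, Polynomial.natDegree_zero]
      | succ j =>
        rw [Polynomial.coeff_mul_X, Polynomial.coeff_mul_C]
        refine (Polynomial.natDegree_mul_le).trans ?_
        have h1 : (C (d i) * X + C (e i) : R[X]).natDegree ≤ 1 := Polynomial.natDegree_linear_le
        exact Nat.add_le_add (hp j) h1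

private theorem algf_dp {R : Type} [CommRing R] [Algebra K0 R] (x d e : Fin 4 → R) : (dp f x d e).natDegree ≤ 6 := by
  have h := algf_deg x d e f
  have hq : ∀ j, (qc f (fun i => (C (x i) : R[X])) (fun i => C (d i) * X + C (e i)) j).natDegree ≤ j := fun j => h j
  unfold dp dv
  refine (Polynomial.natDegree_sub_le _ _).trans (max_le ?_ ?_)
  · refine (Polynomial.natDegree_pow_le).trans ?_
    have := hq 3
    omega
  · refine (Polynomial.natDegree_mul_le).trans ?_
    have h2 : (4 * qc f (fun i => (C (x i) : R[X])) (fun i => C (d i) * X + C (e i)) 2).natDegree ≤ 2 := by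
      have h3 : (4 : R[X]) = C 4 := (map_ofNat (C : R →+* R[X]) 4).symm
      rw [h3]
      exact (Polynomial.natDegree_C_mul_le _ _).trans (hq 2)
    have := hq 4
    omega

private theorem algf_eval {R : Type} [CommRing R] [Algebra K0 R] (x d e : Fin 4 → R) (t : R) :
    (dp f x d e).eval t = dv f x (lc t 1 d e) := by
  have h := dv_map ((Polynomial.aeval t : R[X] →ₐ[R] R).restrictScalars K0) f (fun i => C (x i))
    (fun i => C (d i) * X + C (e i))
  have h1 : ((Polynomial.aeval t : R[X] →ₐ[R] R).restrictScalars K0) (dv f (fun i => C (x i)) (fun i => C (d i) * X + C (e i))) =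
      (dp f x d e).eval t := by
    rw [AlgHom.restrictScalars_apply, Polynomial.coe_aeval_eq_eval]
    rfl
  rw [← h1, h]
  congr 1
  · funext i
    exact Polynomial.aeval_C t (x i)
  · funext i
    rw [AlgHom.restrictScalars_apply, map_add, map_mul, Polynomial.aeval_C, Polynomial.aeval_X, Polynomial.aeval_C]
    change d i * t + e i = t * d i + 1 * e i
    ring

private theorem algf_scale (hf : f.IsHomogeneous 4) {x d e : Fin 4 → F} (hx : ev f x = 0) (hd : dg f x d = 0)
    (he : dg f x e = 0) (m : F) {n : F} (hn : n ≠ 0) :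
    dv f x (lc m n d e) = n ^ 6 * (dp f x d e).eval (m / n) := by
  have hu : dg f x (lc (m / n) 1 d e) = 0 := by
    rw [dg_lc, hd, he, mul_zero, mul_zero, add_zero]
  have h := dv_resc hf hx hu 1 n 0
  rw [algf_eval]
  have h1 : (fun i => (1 : F) * x i) = x := by
    funext i
    rw [one_mul]
  have h2 : lc 0 n x (lc (m / n) 1 d e) = lc m n d e := by
    funext i
    simp only [lc]
    field_simp
    ring
  rw [h1, h2] at h
  rw [h]
  ring

private theorem algf_ext [Infinite F] {P Q : F[X]} (h : ∀ n : F, n ≠ 0 → P.eval n = Q.eval n) : P = Q := by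
  refine Polynomial.eq_of_infinite_eval_eq P Q ?_
  have h1 : (({0} : Set F)ᶜ).Infinite := (Set.finite_singleton (0 : F)).infinite_compl
  exact h1.mono fun n hn => h n hn

private theorem algf_all [Infinite F] (hf : f.IsHomogeneous 4) {x d e : Fin 4 → F} (hx : ev f x = 0) (hd : dg f x d = 0)
    (he : dg f x e = 0) (m : F) (Q : F[X]) (h : ∀ n : F, n ≠ 0 → n ^ 6 * (dp f x d e).eval (m / n) = Q.eval n) (n : F) :
    dv f x (lc m n d e) = Q.eval n := by
  have h1 : ∀ n : F, (dp f x e (fun i => m * d i)).eval n = dv f x (lc m n d e) := by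
    intro n
    rw [algf_eval]
    congr 1
    funext i
    simp only [lc]
    ring
  have h2 : dp f x e (fun i => m * d i) = Q := by
    refine algf_ext fun n hn => ?_
    rw [h1, algf_scale hf hx hd he m hn, h n hn]
  rw [← h1, h2]

theorem dv_sx [Infinite F] (hf : f.IsHomogeneous 4) {x d e : Fin 4 → F} (hx : ev f x = 0) (hd : dg f x d = 0)
    (he : dg f x e = 0) (m n : F) : dv f x (lc m n d e) = bf (sx f x d e) m n := by
  have h := algf_all hf hx hd he m (∑ i : Fin 7, C (sx f x d e i * m ^ (6 - (i : ℕ))) * X ^ (i : ℕ)) (fun n hn => ?_) n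
  · rw [h, Polynomial.eval_finsetSum]
    unfold bf
    refine Finset.sum_congr rfl fun i _ => ?_
    simp only [Polynomial.eval_mul, Polynomial.eval_C, Polynomial.eval_pow, Polynomial.eval_X]
    ring
  · rw [Polynomial.eval_eq_sum_range' (Nat.lt_succ_of_le (algf_dp (f := f) x d e)), Polynomial.eval_finsetSum]
    simp only [Polynomial.eval_mul, Polynomial.eval_C, Polynomial.eval_pow, Polynomial.eval_X, sx,
      Finset.sum_range_succ, Finset.sum_range_zero, Fin.sum_univ_succ, Fin.sum_univ_zero]
    simp only [Fin.val_zero, Fin.val_succ]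
    norm_num
    field_simp
    ring

/-- the sextic of a frame -/
theorem Fr.dvl [Infinite F] (hf : f.IsHomogeneous 4) (r : Fr f F) (m n : F) :
    dv f r.x (lc m n r.d r.e) = (r.s * m + r.t * n) ^ 2 * (n * (m ^ 3 - 3 * r.a * m * n ^ 2 - 2 * r.b * n ^ 3)) := by
  have h := algf_all hf r.onx r.tgd r.tge m
    ((C (r.s * m) + C r.t * X) ^ 2 * (X * (C (m ^ 3) - C (3 * r.a * m) * X ^ 2 - C (2 * r.b) * X ^ 3))) (fun n hn => ?_) n
  · rw [h]
    simp only [Polynomial.eval_mul, Polynomial.eval_C, Polynomial.eval_pow, Polynomial.eval_X, Polynomial.eval_add,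
      Polynomial.eval_sub]
  · rw [r.line]
    simp only [Polynomial.eval_mul, Polynomial.eval_C, Polynomial.eval_pow, Polynomial.eval_X, Polynomial.eval_add,
      Polynomial.eval_sub]
    field_simp

/-- a frame from the values of the sextic -/
theorem fr_mk [Infinite F] (hf : f.IsHomogeneous 4) {x d e : Fin 4 → F} (hx : ev f x = 0) (hd : dg f x d = 0)
    (he : dg f x e = 0) {s t a b : F} (hab : b ^ 2 - a ^ 3 = 1)
    (h : ∀ l : F, dv f x (lc l 1 d e) = (s * l + t) ^ 2 * (l ^ 3 - 3 * a * l - 2 * b)) :
    ∃ r : Fr f F, r.x = x ∧ r.d = d ∧ r.e = e ∧ r.s = s ∧ r.t = t ∧ r.a = a ∧ r.b = b := by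
  have hl : dp f x d e = (C s * X + C t) ^ 2 * (X ^ 3 - C (3 * a) * X - C (2 * b)) := by
    refine algf_ext fun n _ => ?_
    rw [algf_eval, h]
    simp only [Polynomial.eval_mul, Polynomial.eval_C, Polynomial.eval_pow, Polynomial.eval_X, Polynomial.eval_add,
      Polynomial.eval_sub]
  exact ⟨⟨x, d, e, s, t, a, b, hx, hd, he, hl, hab⟩, rfl, rfl, rfl, rfl, rfl, rfl, rfl⟩

end H8.QS
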