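import Pool.Agent.H8.QS.BadP
import Pool.Agent.H8.QS.AlgF

/-! # QS.Bad : residual pairs of a degenerate tangent plane (about 150 lines, given `QS.BadP`, `QS.OnU`, `QS.OnA`, `QS.AlgF`)

`dv f x (m d + n e) = k(m, n)² r(m, n)`, `k`, `r` quadratic forms (`dv_sx`).  Then `R ~ S` for every residual pair.
(1) `w = 0`: `R` and `S` are both in the relation with `w = 0`: `on_uniq`.
(2) `w ≠ 0`: `k(m, n) ≠ 0`, `r(m, n) ≠ 0`.  Let `(p, q) ≠ 0` be a zero of `r` (`K` algebraically closed), `l(m, n) = m q - n p`, `r = l v` with a linear form `v` (explicit: if `q ≠ 0`, ...), `l(m, n) ≠ 0`, `v(m, n) ≠ 0`.  Let `R1` be a point of the relation of `(p, q)` with `0` (`on_ex`, `dv = 0` there).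
(2a) `v(p, q) = 0`: `v = c l`, `r = c l²`, `ε² = c`, `w = ± ε k(m, n) l(m, n)`: choose the sign of `ε` such that `w = ε k l`.  Path (`path`): `(M, N) = (m, n) + t (p - m, q - n)`, `W = ε k(M, N) l(M, N)`, `W(0) = w`, `W(1) = 0`.  It joins `R` to `R1`; with `- W` it joins `S` to `R1`.
(2b) `v(p, q) ≠ 0`: `l`, `v` independent, `(p', q')` the zero of `v`.  `(m, n) = A (p, q) + B (p', q')` with `B ≠ 0` (`l ≠ 0`), `A ≠ 0`; `l(p', q') ≠ 0`, `v(p, q) ≠ 0`.  Path `(M, N) = A (1 - t)² (p, q) + B (p', q')`: `r(M, N) = l(B (p', q')) v(A (1 - t)² (p, q)) = (1 - t)² r(m, n)`, `W = k(M, N) (1 - t) w / k(m, n)` (`w² = k(m, n)² r(m, n)`), `W(0) = w`,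
`W(1) = 0`, `(M, N)(1) = B (p', q') ≠ 0`.  It joins `R` to a point `R1` of the relation of `B (p', q')` with `0` (`on_ex`), and with `- W` it joins `S` to `R1`. -/

namespace H8.QS

open H68.BB H77.AF Polynomial

variable {K0 : Type} [Field K0] {f : MvPolynomial (Fin 4) K0} {K : Type} [Field K] [Algebra K0 K]

/-- a binary quadratic form over an algebraically closed field is a product of two linear forms -/
private theorem bad_fac [IsAlgClosed K] (h2 : (2 : K) ≠ 0) (r0 r1 r2 : K) : ∃ l1 l2 v1 v2 : K, ∀ m n : K,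
    r0 * m ^ 2 + r1 * m * n + r2 * n ^ 2 = (l1 * m + l2 * n) * (v1 * m + v2 * n) := by
  by_cases h0 : r0 = 0
  · refine ⟨0, 1, r1, r2, fun m n => ?_⟩
    rw [h0]
    ring
  · obtain ⟨s, hs⟩ := IsAlgClosed.exists_pow_nat_eq (r1 ^ 2 - 4 * r0 * r2) (n := 2) (by norm_num)
    have ha : r0 * ((-r1 + s) / (2 * r0)) ^ 2 + r1 * ((-r1 + s) / (2 * r0)) + r2 = 0 := by
      have h3 : (2 * r0) ^ 2 * (r0 * ((-r1 + s) / (2 * r0)) ^ 2 + r1 * ((-r1 + s) / (2 * r0)) + r2) = 0 := by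
        field_simp
        linear_combination r0 * hs
      exact (mul_eq_zero.1 h3).resolve_left (pow_ne_zero 2 (mul_ne_zero h2 h0))
    refine ⟨1, -((-r1 + s) / (2 * r0)), r0, r1 + r0 * ((-r1 + s) / (2 * r0)), fun m n => ?_⟩
    linear_combination n ^ 2 * ha

/-- the path of degree at most two along which a product of two linear forms is `(1 - t) ^ 2` times its value at `0` -/
private theorem bad_lin {l1 l2 v1 v2 m n : K} (hl : l1 * m + l2 * n ≠ 0) (hv : v1 * m + v2 * n ≠ 0) : ∃ M N : K[X],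
    (∀ t : K, (l1 * M.eval t + l2 * N.eval t) * (v1 * M.eval t + v2 * N.eval t) =
      (1 - t) ^ 2 * ((l1 * m + l2 * n) * (v1 * m + v2 * n))) ∧
    M.eval 0 = m ∧ N.eval 0 = n ∧ (M.eval 1 ≠ 0 ∨ N.eval 1 ≠ 0) := by
  by_cases hD : l1 * v2 - l2 * v1 = 0
  · refine ⟨C m + X * C (l2 - m), C n + X * C (-l1 - n), fun t => ?_, ?_, ?_, ?_⟩
    · simp only [eval_add, eval_mul, eval_C, eval_X]
      linear_combination (-t * (1 - t) * (l1 * m + l2 * n)) * hD
    · simp only [eval_add, eval_mul, eval_C, eval_X]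
      ring
    · simp only [eval_add, eval_mul, eval_C, eval_X]
      ring
    · simp only [eval_add, eval_mul, eval_C, eval_X]
      by_contra hc
      push Not at hc
      obtain ⟨c1, c2⟩ := hc
      apply hl
      linear_combination (-n) * (-c1) + (-m) * c2 + 0 * hD
  · obtain ⟨i, hi⟩ : ∃ i : K, (l1 * v2 - l2 * v1) * i = 1 := ⟨(l1 * v2 - l2 * v1)⁻¹, mul_inv_cancel₀ hD⟩
    refine ⟨C i * (C (v2 * (l1 * m + l2 * n)) * (1 - X) ^ 2 - C (l2 * (v1 * m + v2 * n))),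
      C i * (C (l1 * (v1 * m + v2 * n)) - C (v1 * (l1 * m + l2 * n)) * (1 - X) ^ 2), fun t => ?_, ?_, ?_, ?_⟩
    · simp only [eval_sub, eval_mul, eval_C, eval_X, eval_pow, eval_one]
      linear_combination (((l1 * v2 - l2 * v1) * i + 1) * ((1 - t) ^ 2 * ((l1 * m + l2 * n) * (v1 * m + v2 * n)))) * hi
    · simp only [eval_sub, eval_mul, eval_C, eval_X, eval_pow, eval_one]
      linear_combination m * hi
    · simp only [eval_sub, eval_mul, eval_C, eval_X, eval_pow, eval_one]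
      linear_combination n * hi
    · simp only [eval_sub, eval_mul, eval_C, eval_X, eval_pow, eval_one]
      by_contra hc
      push Not at hc
      obtain ⟨c1, c2⟩ := hc
      apply hv
      linear_combination v1 * c1 + v2 * c2 - (v1 * m + v2 * n) * hi

private theorem bad_path [IsAlgClosed K] (h2 : (2 : K) ≠ 0) {k0 k1 k2 r0 r1 r2 m n w : K} (hmn : m ≠ 0 ∨ n ≠ 0)
    (hw : w ^ 2 = (k0 * m ^ 2 + k1 * m * n + k2 * n ^ 2) ^ 2 * (r0 * m ^ 2 + r1 * m * n + r2 * n ^ 2)) :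
    ∃ M N W : K[X], (∀ t : K, W.eval t ^ 2 =
      (k0 * M.eval t ^ 2 + k1 * M.eval t * N.eval t + k2 * N.eval t ^ 2) ^ 2 *
        (r0 * M.eval t ^ 2 + r1 * M.eval t * N.eval t + r2 * N.eval t ^ 2)) ∧
      M.eval 0 = m ∧ N.eval 0 = n ∧ W.eval 0 = w ∧ W.eval 1 = 0 ∧ (M.eval 1 ≠ 0 ∨ N.eval 1 ≠ 0) := by
  by_cases h0 : w = 0
  · refine ⟨C m, C n, 0, fun t => ?_, eval_C, eval_C, ?_, eval_zero, ?_⟩
    · rw [eval_C, eval_C, eval_zero, ← hw, h0]
    · rw [eval_zero, h0]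
    · rw [eval_C, eval_C]
      exact hmn
  · obtain ⟨l1, l2, v1, v2, hlv⟩ := bad_fac h2 r0 r1 r2
    have hk : k0 * m ^ 2 + k1 * m * n + k2 * n ^ 2 ≠ 0 := by
      intro h
      rw [h] at hw
      apply h0
      have h3 : w ^ 2 = 0 := by linear_combination hw
      exact pow_eq_zero_iff (two_ne_zero) |>.1 h3
    have hr : (l1 * m + l2 * n) * (v1 * m + v2 * n) ≠ 0 := by
      intro h
      rw [hlv, h] at hw
      apply h0
      have h3 : w ^ 2 = 0 := by linear_combination hw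
      exact pow_eq_zero_iff (two_ne_zero) |>.1 h3
    obtain ⟨M, N, hMN, hM, hN, h1⟩ := bad_lin (left_ne_zero_of_mul hr) (right_ne_zero_of_mul hr)
    obtain ⟨q, hq⟩ : ∃ q : K, (k0 * m ^ 2 + k1 * m * n + k2 * n ^ 2) * q = w :=
      ⟨w / (k0 * m ^ 2 + k1 * m * n + k2 * n ^ 2), mul_div_cancel₀ w hk⟩
    have h4 : q ^ 2 = (l1 * m + l2 * n) * (v1 * m + v2 * n) := by
      apply mul_left_cancel₀ (pow_ne_zero 2 hk)
      rw [← hlv, ← hw, ← hq]
      ring
    refine ⟨M, N, (C k0 * M ^ 2 + C k1 * M * N + C k2 * N ^ 2) * (C q * (1 - X)), fun t => ?_, hM, hN, ?_, ?_, h1⟩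
    · simp only [eval_add, eval_sub, eval_mul, eval_C, eval_X, eval_pow, eval_one]
      rw [hlv (M.eval t) (N.eval t), hMN t, mul_pow, mul_pow, h4]
      ring
    · simp only [eval_add, eval_sub, eval_mul, eval_C, eval_X, eval_pow, eval_one, hM, hN]
      rw [sub_zero, mul_one, hq]
    · simp only [eval_add, eval_sub, eval_mul, eval_C, eval_X, eval_pow, eval_one]
      ring

theorem bad [IsAlgClosed K] (hf : f.IsHomogeneous 4) (h2 : (2 : K) ≠ 0) {x d e : Fin 4 → K} (hi : Ind x d e) (hx : ev f x = 0)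
    (hd : dg f x d = 0) (he : dg f x e = 0) (hD : Deg6 (sx f x d e)) {m n w : K} (hmn : m ≠ 0 ∨ n ≠ 0)
    (hw : w ^ 2 = dv f x (lc m n d e)) {R S : XQ f K} (hR : On f x (lc m n d e) w R.p)
    (hS : On f x (lc m n d e) (-w) S.p) : pt R - pt S ∈ RatEq (xqd K f) 1 := by
  have : Infinite K := IsAlgClosed.instInfinite
  obtain ⟨k0, k1, k2, r0, r1, r2, hk⟩ := hD
  have hv : ∀ M N : K, dv f x (lc M N d e) =
      (k0 * M ^ 2 + k1 * M * N + k2 * N ^ 2) ^ 2 * (r0 * M ^ 2 + r1 * M * N + r2 * N ^ 2) := fun M N => by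
    rw [dv_sx hf hx hd he, hk]
  have hw' := hw
  rw [hv] at hw'
  obtain ⟨M, N, W, hW, hM, hN, hW0, hW1, h1⟩ := bad_path h2 hmn hw'
  have hW' : ∀ t : K, W.eval t ^ 2 = dv f x (lc (M.eval t) (N.eval t) d e) := fun t => by rw [hW, hv]
  have hWn : ∀ t : K, (-W).eval t ^ 2 = dv f x (lc (M.eval t) (N.eval t) d e) := fun t => by
    rw [eval_neg, neg_sq, hW']
  have h0 : M.eval 0 ≠ 0 ∨ N.eval 0 ≠ 0 := by
    rw [hM, hN]
    exact hmn
  have hu : dg f x (lc (M.eval 1) (N.eval 1) d e) = 0 := by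
    rw [dg_lc, hd, he, mul_zero, mul_zero, add_zero]
  obtain ⟨R1, hR1⟩ := on_ex hf h2 hx hu (ind_lc hi h1) (hW' 1)
  have a1 : pt R - pt R1 ∈ RatEq (xqd K f) 1 := by
    refine path hf h2 hi hx hd he hW' h0 h1 ?_ hR1
    rw [hM, hN, hW0]
    exact hR
  have a2 : pt S - pt R1 ∈ RatEq (xqd K f) 1 := by
    refine path hf h2 hi hx hd he hWn h0 h1 ?_ ?_
    · rw [hM, hN, eval_neg, hW0]
      exact hS
    · rw [eval_neg, hW1, neg_zero]
      rw [hW1] at hR1
      exact hR1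
  have a3 : pt R - pt S = (pt R - pt R1) - (pt S - pt R1) := by abel
  rw [a3]
  exact AddSubgroup.sub_mem _ a1 a2

end H8.QS
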