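import Pool.Agent.H8.QS.Alg

/-! # QS.OnA : the relation `On` (about 150 lines, given `QS.Alg`)

`x` on `X`, `u` tangent.  `on_inv`: with `R = α x + β u = α' (ρ x) + β' (θ x + κ u)`, `β = β' κ`, `α = α' ρ + β' θ` the first relation for the new vectors is `κ² ρ` times the old one, the second one is `κ² θ` times the first old one plus `κ³` times the second old one
(`qc_resc`; `linear_combination`); in the other direction `α' = (α - β' θ) / ρ`, `β' = β / κ`.
`on_ev`: multiply the first relation by `α`, the second by `β` and add: `2 (Q2 α² + Q3 α β + Q4 β²) = 0`; `ev_lc` with `qc_0 = qc_1 = 0`.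
`on_ex`: the determinant of the two relations is `4 Q2 Q4 - Q3² + w² = 0`: take `(α, β) = (w - Q3, 2 Q2)` if this is not zero, else `(2 Q4, - Q3 - w)` if this is not zero, else `(1, 0)`; `R ≠ 0` as `x`, `u` are independent. -/

namespace H8.QS

open H68.BB H77.AF Polynomial

variable {K0 : Type} [Field K0] {f : MvPolynomial (Fin 4) K0} {F : Type} [Field F] [Algebra K0 F]

theorem on_smul {x u R : Fin 4 → F} {w c : F} (hc : c ≠ 0) (h : On f x u w R) : On f x u w (fun i => c * R i) := by
  obtain ⟨α, β, h0, h1, h2, h3⟩ := h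
  refine ⟨c * α, c * β, ?_, ?_, ?_, ?_⟩
  · rcases h0 with h0 | h0
    · exact Or.inl (mul_ne_zero hc h0)
    · exact Or.inr (mul_ne_zero hc h0)
  · funext i
    rw [h1]
    simp only [lc]
    ring
  · linear_combination c * h2
  · linear_combination c * h3

theorem on_inv (hf : f.IsHomogeneous 4) {x u R : Fin 4 → F} {w : F} (hx : ev f x = 0) (hu : dg f x u = 0) {ρ κ θ : F}
    (hρ : ρ ≠ 0) (hκ : κ ≠ 0) : On f (fun i => ρ * x i) (lc θ κ x u) (ρ * κ ^ 3 * w) R ↔ On f x u w R := by
  obtain ⟨q2, q3, q4⟩ := qc_resc hf hx hu ρ κ θ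
  unfold On
  rw [q2, q3, q4]
  constructor
  · rintro ⟨α, β, h0, h1, h2, h3⟩
    have e1 : κ ^ 2 * ρ * (2 * qc f x u 2 * (α * ρ + β * θ) + (qc f x u 3 - w) * (β * κ)) = 0 := by
      linear_combination h2
    have e2 : 2 * qc f x u 2 * (α * ρ + β * θ) + (qc f x u 3 - w) * (β * κ) = 0 := by
      rcases mul_eq_zero.1 e1 with h | h
      · exact absurd h (mul_ne_zero (pow_ne_zero 2 hκ) hρ)
      · exact h
    have e3 : κ ^ 3 * ((qc f x u 3 + w) * (α * ρ + β * θ) + 2 * qc f x u 4 * (β * κ)) = 0 := by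
      linear_combination h3 - κ ^ 2 * θ * e2
    have e4 : (qc f x u 3 + w) * (α * ρ + β * θ) + 2 * qc f x u 4 * (β * κ) = 0 := by
      rcases mul_eq_zero.1 e3 with h | h
      · exact absurd h (pow_ne_zero 3 hκ)
      · exact h
    refine ⟨α * ρ + β * θ, β * κ, ?_, ?_, e2, e4⟩
    · by_cases hβ : β = 0
      · left
        rcases h0 with h0 | h0
        · rw [hβ, zero_mul, add_zero]
          exact mul_ne_zero h0 hρ
        · exact absurd hβ h0
      · right
        exact mul_ne_zero hβ hκ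
    · funext i
      rw [h1]
      simp only [lc]
      ring
  · rintro ⟨α, β, h0, h1, h2, h3⟩
    have a1 : (α - β / κ * θ) / ρ * ρ = α - β / κ * θ := div_mul_cancel₀ _ hρ
    have a2 : β / κ * κ = β := div_mul_cancel₀ _ hκ
    generalize (α - β / κ * θ) / ρ = α' at a1 ⊢
    generalize β / κ = β' at a1 a2 ⊢
    have a3 : α = α' * ρ + β' * θ := by linear_combination -a1
    subst a2
    subst a3
    clear a1
    refine ⟨α', β', ?_, ?_, ?_, ?_⟩
    · by_cases hβ : β' = 0
      · left
        intro hα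
        rw [hα, hβ] at h0
        simp at h0
      · right
        exact hβ
    · funext i
      rw [h1]
      simp only [lc]
      ring
    · linear_combination κ ^ 2 * ρ * h2
    · linear_combination κ ^ 2 * θ * h2 + κ ^ 3 * h3

theorem on_ev (hf : f.IsHomogeneous 4) (h2 : (2 : F) ≠ 0) {x u R : Fin 4 → F} {w : F} (hx : ev f x = 0)
    (hu : dg f x u = 0) (h : On f x u w R) : ev f R = 0 := by
  obtain ⟨α, β, h0, h1, e1, e2⟩ := h
  rw [h1, ev_lc hf, qc_zero, qc_one, hx, hu]
  have e3 : (2 : F) * (qc f x u 2 * α ^ 2 + qc f x u 3 * α * β + qc f x u 4 * β ^ 2) = 0 := by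
    linear_combination α * e1 + β * e2
  have e4 : qc f x u 2 * α ^ 2 + qc f x u 3 * α * β + qc f x u 4 * β ^ 2 = 0 := by
    rcases mul_eq_zero.1 e3 with h | h
    · exact absurd h h2
    · exact h
  linear_combination β ^ 2 * e4

private theorem ona_ne {x u : Fin 4 → F} (hi : LinearIndependent F ![x, u]) {α β : F} (h : α ≠ 0 ∨ β ≠ 0) :
    lc α β x u ≠ 0 := by
  intro h0
  rw [LinearIndependent.pair_iff] at hi
  have h1 := hi α β (by
    funext i
    have h2 := congrFun h0 i
    simpa [lc] using h2)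
  rcases h with h | h
  · exact h h1.1
  · exact h h1.2

theorem on_ex (hf : f.IsHomogeneous 4) (h2 : (2 : F) ≠ 0) {x u : Fin 4 → F} {w : F} (hx : ev f x = 0)
    (hu : dg f x u = 0) (hi : LinearIndependent F ![x, u]) (hw : w ^ 2 = dv f x u) : ∃ R : XQ f F, On f x u w R.p := by
  have key : ∃ α β : F, (α ≠ 0 ∨ β ≠ 0) ∧ 2 * qc f x u 2 * α + (qc f x u 3 - w) * β = 0 ∧
      (qc f x u 3 + w) * α + 2 * qc f x u 4 * β = 0 := by
    unfold dv at hw
    by_cases c1 : (w - qc f x u 3 ≠ 0 ∨ 2 * qc f x u 2 ≠ 0)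
    · refine ⟨w - qc f x u 3, 2 * qc f x u 2, c1, ?_, ?_⟩
      · ring
      · linear_combination hw
    · by_cases c2 : (2 * qc f x u 4 ≠ 0 ∨ -qc f x u 3 - w ≠ 0)
      · refine ⟨2 * qc f x u 4, -qc f x u 3 - w, c2, ?_, ?_⟩
        · linear_combination hw
        · ring
      · push Not at c1 c2
        refine ⟨1, 0, Or.inl one_ne_zero, ?_, ?_⟩
        · rw [c1.2]
          ring
        · linear_combination -c2.2
  obtain ⟨α, β, h0, e1, e2⟩ := key
  have h3 : On f x u w (lc α β x u) := ⟨α, β, h0, rfl, e1, e2⟩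
  exact ⟨⟨lc α β x u, ona_ne hi h0, on_ev hf h2 hx hu h3⟩, h3⟩

theorem on_map {G : Type} [Field G] [Algebra K0 G] (φ : F →ₐ[K0] G) {x u R : Fin 4 → F} {w : F} (h : On f x u w R) :
    On f (fun i => φ (x i)) (fun i => φ (u i)) (φ w) (fun i => φ (R i)) := by
  obtain ⟨α, β, h0, h1, e1, e2⟩ := h
  have hne : ∀ c : F, c ≠ 0 → φ c ≠ 0 := fun c hc h =>
    hc ((map_eq_zero_iff φ (RingHom.injective (φ : F →+* G))).1 h)
  refine ⟨φ α, φ β, ?_, ?_, ?_, ?_⟩
  · rcases h0 with h0 | h0
    · exact Or.inl (hne _ h0)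
    · exact Or.inr (hne _ h0)
  · funext i
    rw [h1]
    simp only [lc, map_add, map_mul]
  · have h := congrArg φ e1
    rw [map_zero, map_add, map_mul, map_mul, map_mul, map_sub, map_ofNat, qc_map, qc_map] at h
    exact h
  · have h := congrArg φ e2
    rw [map_zero, map_add, map_mul, map_mul, map_mul, map_add, map_ofNat, qc_map, qc_map] at h
    exact h

/-- two vectors of the span of independent tangent vectors are independent of `x` -/
theorem ind_lc {x d e : Fin 4 → F} (hi : Ind x d e) {m n : F} (h : m ≠ 0 ∨ n ≠ 0) : LinearIndependent F ![x, lc m n d e] := by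
  rw [LinearIndependent.pair_iff]
  intro s t hst
  unfold Ind at hi
  rw [Fintype.linearIndependent_iff] at hi
  have h1 := hi ![s, t * m, t * n] (by
    rw [Fin.sum_univ_three]
    funext i
    have h2 := congrFun hst i
    simp only [lc, Pi.add_apply, Pi.smul_apply, smul_eq_mul, Pi.zero_apply] at h2
    simp only [Matrix.cons_val_zero, Matrix.cons_val_one, Matrix.cons_val, Pi.add_apply, Pi.smul_apply, smul_eq_mul,
      Pi.zero_apply]
    linear_combination h2)
  have a0 : s = 0 := h1 0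
  have a1 : t * m = 0 := h1 1
  have a2 : t * n = 0 := h1 2
  refine ⟨a0, ?_⟩
  rcases h with h | h
  · rcases mul_eq_zero.1 a1 with h3 | h3
    · exact h3
    · exact absurd h3 h
  · rcases mul_eq_zero.1 a2 with h3 | h3
    · exact h3
    · exact absurd h3 h

end H8.QS
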