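import Pool.Agent.H8.QS.RdA
import Pool.Agent.H8.QS.OnA

/-! # QS.Rdx : reduction of the relation `On` and of frames (about 150 lines, given `QS.RdA`, `QS.OnA`)

`sp_uniq`: `c P` and `c' P` reduce to nonzero vectors: `c'/c` and `c/c'` are in `V` (look at a coordinate with nonzero reduction), `p' = k p` (compare `sp_uniq` in `Pool/Agent/H25/DP/Prp.lean`).
`sc_ex`: choose the coordinate of maximal valuation, `c` = its inverse (compare `prp_max`, `prp` in `Pool/Agent/H25/DP/Prp.lean`).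
`on_rd`: `R = α x + β u`; choose `γ` with `γ α`, `γ β` in `V`, one of them with nonzero reduction (`sc_ex` for `![α, β]`), reductions `α0`, `β0`; `γ R` reduces to `α0 x0 + β0 u0 ≠ 0`; `sp_uniq`: `R0 = k (α0 x0 + β0 u0)`.  The relations reduce (`rd_qc`, `Rd.two`).
`fr_rd`: the frame over `V` (the identity `line` holds over `V` because `V[X] → F[X]` is injective; or: compare the coefficients of `line`: `rd_sx`-like for `dp`: the coefficients of `dp f r.x r.d r.e` reduce to those of `dp f x0 d0 e0`; the coefficients of the right side reduce as well; `Polynomial.ext`; `disc`, `onx`, `tgd`, `tge`: `Rd.unique`). -/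

namespace H8.QS

open H68.BB H77.AF Polynomial

variable {K0 : Type} [Field K0] {f : MvPolynomial (Fin 4) K0} {F κ : Type} [Field F] [Algebra K0 F] [Field κ] [Algebra K0 κ]
  {V : ValuationSubring F} {φ : V →+* κ}

omit [Algebra K0 F] [Algebra K0 κ] in
/-- reductions of two multiples of a vector are proportional -/
theorem sp_uniq [IsLocalHom φ] {P : Fin 4 → F} {p p' : Fin 4 → κ} {c c' : F} (hp : p ≠ 0) (hp' : p' ≠ 0)
    (h : ∀ i, Rd V φ (c * P i) (p i)) (h' : ∀ i, Rd V φ (c' * P i) (p' i)) : ∃ k : κ, k ≠ 0 ∧ ∀ i, p' i = k * p i := by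
  obtain ⟨i, hi⟩ : ∃ i, p i ≠ 0 := by
    by_contra hno
    apply hp
    funext i
    by_contra hi
    exact hno ⟨i, hi⟩
  have hcP : c * P i ≠ 0 := (h i).ne_zero hi
  have hPi : P i ≠ 0 := right_ne_zero_of_mul hcP
  have hc0 : c ≠ 0 := left_ne_zero_of_mul hcP
  have hg := (h' i).div (h i) hi
  have hγ : c' * P i / (c * P i) = c' / c := by
    field_simp
  rw [hγ] at hg
  have hp2 : ∀ j, p' j = p' i / p i * p j := by
    intro j
    have h3 := hg.mul (h j)
    have h4 : c' / c * (c * P j) = c' * P j := by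
      field_simp
    rw [h4] at h3
    exact (h' j).unique h3
  refine ⟨p' i / p i, ?_, hp2⟩
  intro h0
  apply hp'
  funext j
  rw [hp2 j, h0, zero_mul]
  rfl

/-- a vector has a multiple with a nonzero reduction -/
theorem sc_ex {F κ : Type} [Field F] [Field κ] (V : ValuationSubring F) (φ : V →+* κ) {n : ℕ} {v : Fin n → F} (hv : v ≠ 0) :
    ∃ (c : F) (v0 : Fin n → κ), c ≠ 0 ∧ v0 ≠ 0 ∧ ∀ i, Rd V φ (c * v i) (v0 i) := by
  obtain ⟨i1, hi1⟩ := Function.ne_iff.1 hv
  have : Nonempty (Fin n) := ⟨i1⟩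
  obtain ⟨i, hi⟩ := Finite.exists_max (fun j => V.valuation (v j))
  have hi0 : v i ≠ 0 := by
    intro h
    apply hi1
    have h1 := hi i1
    rw [h, map_zero] at h1
    have h2 : V.valuation (v i1) = 0 := le_antisymm h1 zero_le
    exact (map_eq_zero V.valuation).1 h2
  have hu : ∀ j, (v i)⁻¹ * v j ∈ V := fun j => by
    rw [← ValuationSubring.valuation_le_one_iff, mul_comm, ← div_eq_mul_inv, map_div₀]
    exact div_le_one_of_le₀ (hi j) zero_le
  refine ⟨(v i)⁻¹, fun j => φ ⟨(v i)⁻¹ * v j, hu j⟩, inv_ne_zero hi0, ?_, fun j => Rd.of_mem (hu j)⟩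
  intro h
  have h1 := congrFun h i
  have h2 : Rd V φ ((v i)⁻¹ * v i) (1 : κ) := by
    rw [inv_mul_cancel₀ hi0]
    exact Rd.one
  have h3 := (Rd.of_mem (hu i)).unique h2
  rw [h3] at h1
  exact one_ne_zero h1

theorem on_rd [IsLocalHom φ] (hc : Cst K0 V φ) {x u R : Fin 4 → F} {x0 u0 R0 : Fin 4 → κ} {w : F} {w0 : κ}
    (hx : ∀ i, Rd V φ (x i) (x0 i)) (hu : ∀ i, Rd V φ (u i) (u0 i)) (hi : LinearIndependent κ ![x0, u0])
    (hw : Rd V φ w w0) (h : On f x u w R) {c : F} (hR0 : R0 ≠ 0) (hR : ∀ i, Rd V φ (c * R i) (R0 i)) :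
    On f x0 u0 w0 R0 := by
  obtain ⟨α, β, hab, hRe, e1, e2⟩ := h
  have hv : (![α, β] : Fin 2 → F) ≠ 0 := by
    intro h0
    rcases hab with h1 | h1
    · exact h1 (by simpa using congrFun h0 0)
    · exact h1 (by simpa using congrFun h0 1)
  obtain ⟨γ, v0, hγ, hv0, hγv⟩ := sc_ex (κ := κ) V φ hv
  have hα : Rd V φ (γ * α) (v0 0) := hγv 0
  have hβ : Rd V φ (γ * β) (v0 1) := hγv 1
  have hP : ∀ i, Rd V φ (γ * R i) (lc (v0 0) (v0 1) x0 u0 i) := fun i => by
    have h1 := (hα.mul (hx i)).add (hβ.mul (hu i))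
    have h2 : γ * R i = γ * α * x i + γ * β * u i := by
      rw [hRe]
      unfold lc
      ring
    rw [h2]
    exact h1
  have hne : lc (v0 0) (v0 1) x0 u0 ≠ 0 := by
    intro h0
    rw [LinearIndependent.pair_iff] at hi
    have h1 := hi (v0 0) (v0 1) (by
      funext i
      have h2 := congrFun h0 i
      simpa [lc, smul_eq_mul] using h2)
    apply hv0
    funext j
    fin_cases j
    · exact h1.1
    · exact h1.2
  obtain ⟨k, hk, hk2⟩ := sp_uniq hne hR0 hP hR
  have q2 := rd_qc (f := f) hc hx hu 2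
  have q3 := rd_qc (f := f) hc hx hu 3
  have q4 := rd_qc (f := f) hc hx hu 4
  have r1 : 2 * qc f x0 u0 2 * v0 0 + (qc f x0 u0 3 - w0) * v0 1 = 0 := by
    have h1 := ((Rd.two.mul q2).mul hα).add ((q3.sub hw).mul hβ)
    have h2 : 2 * qc f x u 2 * (γ * α) + (qc f x u 3 - w) * (γ * β) = 0 := by
      linear_combination γ * e1
    rw [h2] at h1
    exact h1.unique Rd.zero
  have r2 : (qc f x0 u0 3 + w0) * v0 0 + 2 * qc f x0 u0 4 * v0 1 = 0 := by
    have h1 := ((q3.add hw).mul hα).add ((Rd.two.mul q4).mul hβ)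
    have h2 : (qc f x u 3 + w) * (γ * α) + 2 * qc f x u 4 * (γ * β) = 0 := by
      linear_combination γ * e2
    rw [h2] at h1
    exact h1.unique Rd.zero
  refine ⟨k * v0 0, k * v0 1, ?_, ?_, ?_, ?_⟩
  · by_contra hno
    push Not at hno
    apply hv0
    funext j
    fin_cases j
    · exact (mul_eq_zero.1 hno.1).resolve_left hk
    · exact (mul_eq_zero.1 hno.2).resolve_left hk
  · funext i
    rw [hk2 i]
    unfold lc
    ring
  · linear_combination k * r1
  · linear_combination k * r2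

/-- the frame `r0` is the reduction of the frame `r` -/
def RdF (V : ValuationSubring F) (φ : V →+* κ) (r : Fr f F) (r0 : Fr f κ) : Prop :=
  (∀ i, Rd V φ (r.x i) (r0.x i)) ∧ (∀ i, Rd V φ (r.d i) (r0.d i)) ∧ (∀ i, Rd V φ (r.e i) (r0.e i)) ∧
    Rd V φ r.s r0.s ∧ Rd V φ r.t r0.t ∧ Rd V φ r.a r0.a ∧ Rd V φ r.b r0.b

theorem fr_rd (hc : Cst K0 V φ) (r : Fr f F) {x0 d0 e0 : Fin 4 → κ} {s0 t0 a0 b0 : κ}
    (hx : ∀ i, Rd V φ (r.x i) (x0 i)) (hd : ∀ i, Rd V φ (r.d i) (d0 i)) (he : ∀ i, Rd V φ (r.e i) (e0 i))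
    (hs : Rd V φ r.s s0) (ht : Rd V φ r.t t0) (ha : Rd V φ r.a a0) (hb : Rd V φ r.b b0) :
    ∃ r0 : Fr f κ, RdF V φ r r0 ∧ r0.x = x0 ∧ r0.d = d0 ∧ r0.e = e0 := by
  let _ : Algebra K0 V := ((algebraMap K0 F).codRestrict V.toSubring (fun c => (hc c).mem)).toAlgebra
  let inc : V →ₐ[K0] F := { V.subtype with commutes' := fun c => rfl }
  let φ' : V →ₐ[K0] κ := { φ with commutes' := fun c => (hc c).2 }
  have hinj : Function.Injective inc := Subtype.val_injective
  let rV : Fr f V :=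
    { x := fun i => ⟨r.x i, (hx i).mem⟩
      d := fun i => ⟨r.d i, (hd i).mem⟩
      e := fun i => ⟨r.e i, (he i).mem⟩
      s := ⟨r.s, hs.mem⟩
      t := ⟨r.t, ht.mem⟩
      a := ⟨r.a, ha.mem⟩
      b := ⟨r.b, hb.mem⟩
      onx := by
        apply hinj
        rw [ev_map, map_zero]
        exact r.onx
      tgd := by
        apply hinj
        rw [dg_map, map_zero]
        exact r.tgd
      tge := by
        apply hinj
        rw [dg_map, map_zero]
        exact r.tge
      line := by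
        apply Polynomial.map_injective (inc : V →+* F) hinj
        rw [dp_map]
        refine r.line.trans ?_
        simp only [Polynomial.map_sub, Polynomial.map_mul, Polynomial.map_add, Polynomial.map_pow, Polynomial.map_C,
          Polynomial.map_X, RingHom.coe_coe, map_mul, map_ofNat, Polynomial.map_ofNat]
        rfl
      disc := by
        apply hinj
        rw [map_sub, map_pow, map_pow, map_one]
        exact r.disc }
  refine ⟨rV.map φ', ⟨fun i => Rd.of_mem _, fun i => Rd.of_mem _, fun i => Rd.of_mem _, Rd.of_mem _, Rd.of_mem _,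
    Rd.of_mem _, Rd.of_mem _⟩, ?_, ?_, ?_⟩
  · funext i
    exact (Rd.of_mem (hx i).mem).unique (hx i)
  · funext i
    exact (Rd.of_mem (hd i).mem).unique (hd i)
  · funext i
    exact (Rd.of_mem (he i).mem).unique (he i)

end H8.QS
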