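import Pool.Agent.H8.QS.OnU
import Pool.Agent.H8.QS.Rdx

/-! # QS.BadP : paths of tangent lines with a square root of the discriminant (about 150 lines, given `QS.OnU`, `QS.OnA`, `QS.Rdx`)

`M`, `N`, `W` polynomials in `t` over `K` with `W(t)² = dv f x (M(t) d + N(t) e)` for all `t ∈ K`.  Over `Om K` (`t = tt K`, the ring homomorphism `K[X] → Om K`, `X ↦ tt`, `aeval (tt K)`): `m`, `n`, `w`, and `w² = dv f x (m d + n e)` (constants): the identity `W² = dv f (C x) (M d + N e)` holds in `K[X]` (`K` infinite, values: `dv_map` for the evaluation), map it to `Om K`.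
`u = m d + n e`, `(α, β) = (w - Q3, 2 Q2)` if this is not zero, else `(2 Q4, - Q3 - w)` if this is not zero, else `(1, 0)`: `R_t = α x + β u` is in the relation `On f x u w` (as in `on_ex`), `R_t ≠ 0` (`Ind x d e`, `(m, n) ≠ 0`: the values at `0` are not zero; `ind_lc` over `Om K`), its entries are in the image of `K[X]`, so they are fixed by the automorphisms
over `K(t)`: the multiset `{R_t}` is stable.  At the places `tt ↦ 0` and `tt ↦ 1` (`place_exists K 0`, `place_exists K 1`, `Place.isLocal`): a polynomial reduces to its value; `sc_ex` for `R_t`: `c R_t` reduces to `R0 ≠ 0` on `X` (`ev_smul`, `rd_ev`); `on_rd` (`ind_lc` over `K`): `R0` is in the relation with the values at `0` (at `1`); `on_uniq`. -/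

namespace H8.QS

open H68.BB H77.AF Polynomial

variable {K0 : Type} [Field K0] {f : MvPolynomial (Fin 4) K0} {K : Type} [Field K] [Algebra K0 K]

/-- reduction of a polynomial in `t` -/
private theorem bp_rd {K : Type} [Field K] {π : Place K (Om K)} {u : K} (h : Rd π.V π.φ (tt K) u) (q : K[X]) :
    Rd π.V π.φ (Polynomial.aeval (tt K) q) (q.eval u) := by
  have hc : ∀ c : K, Rd π.V π.φ (algebraMap K (Om K) c) c := fun c => π.const c
  induction q using Polynomial.induction_on with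
  | C a =>
    rw [Polynomial.aeval_C, Polynomial.eval_C]
    exact hc a
  | add p q hp hq =>
    rw [map_add, Polynomial.eval_add]
    exact hp.add hq
  | monomial n a _ =>
    rw [map_mul, Polynomial.aeval_C, map_pow, Polynomial.aeval_X, Polynomial.eval_mul, Polynomial.eval_C,
      Polynomial.eval_pow, Polynomial.eval_X]
    exact (hc a).mul (h.pow _)

private theorem bp_fix {K : Type} [Field K] (σ : Om K ≃ₐ[RatFunc K] Om K) (q : K[X]) :
    σ (Polynomial.aeval (tt K) q) = Polynomial.aeval (tt K) q := by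
  unfold tt
  rw [Polynomial.aeval_algebraMap_apply, σ.commutes]

/-- a one-point family -/
private theorem bp_one {K : Type} [Field K] {D : PD K} {P : D.Y} {P0 P1 : D.X} {π π' : Place K (Om K)}
    (hσ : ∀ σ, D.act σ P = P) (h0 : D.sp π P P0) (h1 : D.sp π' P P1) :
    (Finsupp.single (fun _ => P0) 1 - Finsupp.single (fun _ => P1) 1 : Cyc D 1) ∈ RatEq D 1 := by
  refine AddSubgroup.subset_closure ⟨{fun _ => P}, π, π', {fun _ => P0}, {fun _ => P1}, ?_, ?_, ?_, ?_⟩
  · intro σ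
    rw [Multiset.map_singleton]
    congr 1
    funext _
    exact hσ σ
  · refine ⟨{fun _ => P}, 0, (add_zero _).symm, ?_, fun Q hQ => absurd hQ (Multiset.notMem_zero Q)⟩
    exact Multiset.Rel.cons (fun _ => h0) Multiset.Rel.zero
  · refine ⟨{fun _ => P}, 0, (add_zero _).symm, ?_, fun Q hQ => absurd hQ (Multiset.notMem_zero Q)⟩
    exact Multiset.Rel.cons (fun _ => h1) Multiset.Rel.zero
  · unfold cyc
    rw [Multiset.map_singleton, Multiset.map_singleton, Multiset.sum_singleton, Multiset.sum_singleton]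

/-- the coefficients of the point of the relation -/
private theorem bp_coef {F : Type} [Field F] {q2 q3 q4 w : F} (hw : w ^ 2 = q3 ^ 2 - 4 * q2 * q4) :
    ∃ α β : F, (α ≠ 0 ∨ β ≠ 0) ∧ 2 * q2 * α + (q3 - w) * β = 0 ∧ (q3 + w) * α + 2 * q4 * β = 0 ∧
      ∀ σ : F →+* F, σ w = w → σ q2 = q2 → σ q3 = q3 → σ q4 = q4 → σ α = α ∧ σ β = β := by
  by_cases c1 : (w - q3 ≠ 0 ∨ 2 * q2 ≠ 0)
  · refine ⟨w - q3, 2 * q2, c1, ?_, ?_, ?_⟩
    · ring
    · linear_combination hw
    · intro σ a b c _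
      rw [map_sub, map_mul, a, b, c, map_ofNat]
      exact ⟨rfl, rfl⟩
  · by_cases c2 : (2 * q4 ≠ 0 ∨ -q3 - w ≠ 0)
    · refine ⟨2 * q4, -q3 - w, c2, ?_, ?_, ?_⟩
      · linear_combination hw
      · ring
      · intro σ a _ c d
        rw [map_sub, map_neg, map_mul, a, c, d, map_ofNat]
        exact ⟨rfl, rfl⟩
    · push Not at c1 c2
      refine ⟨1, 0, Or.inl one_ne_zero, ?_, ?_, ?_⟩
      · rw [c1.2]
        ring
      · linear_combination -c2.2
      · intro σ _ _ _ _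
        exact ⟨map_one σ, map_zero σ⟩

private theorem bp_ne {F : Type} [Field F] {x u : Fin 4 → F} (hi : LinearIndependent F ![x, u]) {α β : F}
    (h : α ≠ 0 ∨ β ≠ 0) : lc α β x u ≠ 0 := by
  intro h0
  rw [LinearIndependent.pair_iff] at hi
  have h1 := hi α β (by
    funext i
    have h2 := congrFun h0 i
    simpa [lc] using h2)
  rcases h with h | h
  · exact h h1.1
  · exact h h1.2

/-- the fibre of the family at a place -/
private theorem bp_fib [IsAlgClosed K] (hf : f.IsHomogeneous 4) {x' u' : Fin 4 → Om K} {w α β : Om K} {x u : Fin 4 → K} {w0 : K}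
    {π : Place K (Om K)} (hx' : ∀ i, Rd π.V π.φ (x' i) (x i)) (hu' : ∀ i, Rd π.V π.φ (u' i) (u i))
    (hw : Rd π.V π.φ w w0) (hi : LinearIndependent K ![x, u]) (hab : α ≠ 0 ∨ β ≠ 0)
    (hon : On f x' u' w (lc α β x' u')) (hev : ev f (lc α β x' u') = 0) :
    lc α β x' u' ≠ 0 ∧ ∃ (c : Om K) (Q : XQ f K), c ≠ 0 ∧ (∀ i, Rd π.V π.φ (c * lc α β x' u' i) (Q.p i)) ∧
      On f x u w0 Q.p := by
  have : IsLocalHom π.φ := π.isLocal
  have hcst : Cst K0 π.V π.φ := by
    intro c
    rw [IsScalarTower.algebraMap_apply K0 K (Om K)]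
    exact π.const (algebraMap K0 K c)
  have hv : (![α, β] : Fin 2 → Om K) ≠ 0 := by
    intro h0
    rcases hab with h1 | h1
    · exact h1 (by simpa using congrFun h0 0)
    · exact h1 (by simpa using congrFun h0 1)
  obtain ⟨γ, v0, hγ, hv0, hγv⟩ := sc_ex (κ := K) π.V π.φ hv
  have hα : Rd π.V π.φ (γ * α) (v0 0) := hγv 0
  have hβ : Rd π.V π.φ (γ * β) (v0 1) := hγv 1
  have hv01 : v0 0 ≠ 0 ∨ v0 1 ≠ 0 := by
    by_contra hno
    push Not at hno
    apply hv0
    funext j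
    fin_cases j
    · exact hno.1
    · exact hno.2
  have hP : ∀ i, Rd π.V π.φ (γ * lc α β x' u' i) (lc (v0 0) (v0 1) x u i) := fun i => by
    have h1 := (hα.mul (hx' i)).add (hβ.mul (hu' i))
    have h2 : γ * lc α β x' u' i = γ * α * x' i + γ * β * u' i := by
      unfold lc
      ring
    rw [h2]
    exact h1
  have hne : lc (v0 0) (v0 1) x u ≠ 0 := bp_ne hi hv01
  refine ⟨?_, γ, ⟨lc (v0 0) (v0 1) x u, hne, ?_⟩, hγ, hP, ?_⟩
  · intro h0
    apply hne
    funext i
    have h1 := hP i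
    rw [h0, Pi.zero_apply, mul_zero] at h1
    rw [Pi.zero_apply]
    exact h1.unique Rd.zero
  · have h1 := rd_ev (f := f) hcst hP
    rw [ev_smul hf, hev, mul_zero] at h1
    exact h1.unique Rd.zero
  · exact on_rd hcst hx' hu' hi hw hon hne hP

theorem path [IsAlgClosed K] (hf : f.IsHomogeneous 4) (h2 : (2 : K) ≠ 0) {x d e : Fin 4 → K} (hi : Ind x d e)
    (hx : ev f x = 0) (hd : dg f x d = 0) (he : dg f x e = 0) {M N W : K[X]}
    (hW : ∀ t : K, W.eval t ^ 2 = dv f x (lc (M.eval t) (N.eval t) d e)) (h0 : M.eval 0 ≠ 0 ∨ N.eval 0 ≠ 0)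
    (h1 : M.eval 1 ≠ 0 ∨ N.eval 1 ≠ 0) {R R1 : XQ f K} (hR : On f x (lc (M.eval 0) (N.eval 0) d e) (W.eval 0) R.p)
    (hR1 : On f x (lc (M.eval 1) (N.eval 1) d e) (W.eval 1) R1.p) : pt R - pt R1 ∈ RatEq (xqd K f) 1 := by
  have : Infinite K := IsAlgClosed.instInfinite
  -- the polynomial identity
  let Cx : Fin 4 → K[X] := fun i => C (x i)
  let Cu : Fin 4 → K[X] := fun i => M * C (d i) + N * C (e i)
  have hpol : W ^ 2 = dv f Cx Cu := by
    refine Polynomial.funext fun r => ?_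
    have e1 := dv_map ((Polynomial.aeval r : K[X] →ₐ[K] K).restrictScalars K0) f Cx Cu
    have e2 : ((Polynomial.aeval r : K[X] →ₐ[K] K).restrictScalars K0) (dv f Cx Cu) = (dv f Cx Cu).eval r := by
      change Polynomial.aeval r (dv f Cx Cu) = _
      rw [Polynomial.coe_aeval_eq_eval]
    have e3 : (fun i => ((Polynomial.aeval r : K[X] →ₐ[K] K).restrictScalars K0) (Cx i)) = x := by
      funext i
      change Polynomial.aeval r (C (x i)) = _
      rw [Polynomial.aeval_C]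
      rfl
    have e4 : (fun i => ((Polynomial.aeval r : K[X] →ₐ[K] K).restrictScalars K0) (Cu i)) =
        lc (M.eval r) (N.eval r) d e := by
      funext i
      change Polynomial.aeval r (M * C (d i) + N * C (e i)) = _
      rw [Polynomial.coe_aeval_eq_eval]
      simp only [eval_add, eval_mul, eval_C, lc]
    rw [e2, e3, e4] at e1
    rw [eval_pow, hW r, e1]
  let θ : K[X] →ₐ[K0] Om K := (Polynomial.aeval (tt K) : K[X] →ₐ[K] Om K).restrictScalars K0
  have hθ : ∀ q : K[X], θ q = Polynomial.aeval (tt K) q := fun q => rfl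
  obtain ⟨x', hx'd⟩ : ∃ x' : Fin 4 → Om K, x' = fun i => algebraMap K (Om K) (x i) := ⟨_, rfl⟩
  obtain ⟨d', hd'd⟩ : ∃ d' : Fin 4 → Om K, d' = fun i => algebraMap K (Om K) (d i) := ⟨_, rfl⟩
  obtain ⟨e', he'd⟩ : ∃ e' : Fin 4 → Om K, e' = fun i => algebraMap K (Om K) (e i) := ⟨_, rfl⟩
  obtain ⟨m, hm⟩ : ∃ m : Om K, m = Polynomial.aeval (tt K) M := ⟨_, rfl⟩
  obtain ⟨n, hn⟩ : ∃ n : Om K, n = Polynomial.aeval (tt K) N := ⟨_, rfl⟩
  obtain ⟨w, hw⟩ : ∃ w : Om K, w = Polynomial.aeval (tt K) W := ⟨_, rfl⟩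
  obtain ⟨u', hu'd⟩ : ∃ u' : Fin 4 → Om K, u' = lc m n d' e' := ⟨_, rfl⟩
  have hθx : (fun i => θ (Cx i)) = x' := by
    rw [hx'd]
    funext i
    change Polynomial.aeval (tt K) (C (x i)) = _
    rw [Polynomial.aeval_C]
  have hθu : (fun i => θ (Cu i)) = u' := by
    rw [hu'd, hd'd, he'd, hm, hn]
    funext i
    change Polynomial.aeval (tt K) (M * C (d i) + N * C (e i)) = _
    rw [map_add, map_mul, map_mul, Polynomial.aeval_C, Polynomial.aeval_C]
    rfl
  have hdvw : w ^ 2 = dv f x' u' := by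
    have e1 := congrArg θ hpol
    rw [map_pow, dv_map, hθx, hθu, hθ W, ← hw] at e1
    exact e1
  -- the point of the family
  obtain ⟨α, β, hab, r1, r2, hfix⟩ := bp_coef (q2 := qc f x' u' 2) (q3 := qc f x' u' 3) (q4 := qc f x' u' 4) hdvw
  have hon : On f x' u' w (lc α β x' u') := ⟨α, β, hab, rfl, r1, r2⟩
  let ι : K →ₐ[K0] Om K := IsScalarTower.toAlgHom K0 K (Om K)
  have hιx : (fun i => ι (x i)) = x' := by rw [hx'd]; rfl
  have hιd : (fun i => ι (d i)) = d' := by rw [hd'd]; rfl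
  have hιe : (fun i => ι (e i)) = e' := by rw [he'd]; rfl
  have hx0 : ev f x' = 0 := by rw [← hιx, ← ev_map, hx, map_zero]
  have hd0 : dg f x' d' = 0 := by rw [← hιx, ← hιd, ← dg_map, hd, map_zero]
  have he0 : dg f x' e' = 0 := by rw [← hιx, ← hιe, ← dg_map, he, map_zero]
  have hu0 : dg f x' u' = 0 := by rw [hu'd, dg_lc, hd0, he0, mul_zero, mul_zero, add_zero]
  have h2' : (2 : Om K) ≠ 0 := by
    have e1 : (algebraMap K (Om K)) 2 = 2 := map_ofNat _ 2
    rw [← e1]
    intro e2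
    exact h2 ((map_eq_zero_iff (algebraMap K (Om K)) (algebraMap K (Om K)).injective).1 e2)
  have hev : ev f (lc α β x' u') = 0 := on_ev hf h2' hx0 hu0 hon
  -- the places
  obtain ⟨π, hπ⟩ := H68.BB.place_exists K (0 : K)
  obtain ⟨π', hπ'⟩ := H68.BB.place_exists K (1 : K)
  have hr : Rd π.V π.φ (tt K) 0 := hπ
  have hr' : Rd π'.V π'.φ (tt K) 1 := hπ'
  have hcx : ∀ (ρ : Place K (Om K)) i, Rd ρ.V ρ.φ (x' i) (x i) := fun ρ i => by
    rw [hx'd]
    exact ρ.const (x i)
  have hcu : ∀ (ρ : Place K (Om K)) (r : K), Rd ρ.V ρ.φ (tt K) r → ∀ i, Rd ρ.V ρ.φ (u' i)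
      (lc (M.eval r) (N.eval r) d e i) := fun ρ r hρ i => by
    rw [hu'd, hd'd, he'd, hm, hn]
    exact ((bp_rd hρ M).mul (ρ.const (d i))).add ((bp_rd hρ N).mul (ρ.const (e i)))
  have hcw : ∀ (ρ : Place K (Om K)) (r : K), Rd ρ.V ρ.φ (tt K) r → Rd ρ.V ρ.φ w (W.eval r) := fun ρ r hρ => by
    rw [hw]
    exact bp_rd hρ W
  obtain ⟨hne, c, Q, hc, hcQ, hQ⟩ := bp_fib hf (hcx π) (hcu π 0 hr) (hcw π 0 hr) (ind_lc hi h0) hab hon hev
  obtain ⟨-, c', Q', hc', hcQ', hQ'⟩ := bp_fib hf (hcx π') (hcu π' 1 hr') (hcw π' 1 hr') (ind_lc hi h1) hab hon hev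
  have hdg : ∀ r : K, dg f x (lc (M.eval r) (N.eval r) d e) = 0 := fun r => by
    rw [dg_lc, hd, he, mul_zero, mul_zero, add_zero]
  have s1 : pt R - pt Q ∈ RatEq (xqd K f) 1 := on_uniq hf h2 hx (hdg 0) hR hQ
  have s3 : pt Q' - pt R1 ∈ RatEq (xqd K f) 1 := on_uniq hf h2 hx (hdg 1) hQ' hR1
  have s2 : pt Q - pt Q' ∈ RatEq (xqd K f) 1 := by
    refine bp_one (D := xqd K f) (P := (⟨lc α β x' u', hne, hev⟩ : XQ f (Om K))) (π := π) (π' := π') ?_ ⟨c, hc, hcQ⟩
      ⟨c', hc', hcQ'⟩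
    intro σ
    have hσc : ∀ z : K, σ (algebraMap K (Om K) z) = algebraMap K (Om K) z := fun z => by
      rw [IsScalarTower.algebraMap_apply K (RatFunc K) (Om K), AlgEquiv.commutes]
    have hσx : (fun i => (σ.toAlgHom.restrictScalars K0) (x' i)) = x' := by
      funext i
      rw [hx'd]
      exact hσc (x i)
    have hσu : (fun i => (σ.toAlgHom.restrictScalars K0) (u' i)) = u' := by
      funext i
      rw [hu'd, hd'd, he'd, hm, hn]
      change σ (Polynomial.aeval (tt K) M * algebraMap K (Om K) (d i) +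
        Polynomial.aeval (tt K) N * algebraMap K (Om K) (e i)) = _
      rw [map_add, map_mul, map_mul, bp_fix, bp_fix, hσc, hσc]
      rfl
    have hσq : ∀ j, σ (qc f x' u' j) = qc f x' u' j := fun j => by
      have e1 := qc_map (σ.toAlgHom.restrictScalars K0) f x' u' j
      rw [hσx, hσu] at e1
      exact e1
    obtain ⟨hα, hβ⟩ := hfix (σ : Om K →+* Om K) (by
      rw [hw]
      exact bp_fix σ W) (hσq 2) (hσq 3) (hσq 4)
    refine XQ.ext ?_
    funext i
    have ex : σ (x' i) = x' i := congrFun hσx i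
    have eu : σ (u' i) = u' i := congrFun hσu i
    have eα : σ α = α := hα
    have eβ : σ β = β := hβ
    change σ (α * x' i + β * u' i) = α * x' i + β * u' i
    rw [map_add, map_mul, map_mul, eα, eβ, ex, eu]
  have s4 := AddSubgroup.add_mem _ (AddSubgroup.add_mem _ s1 s2) s3
  have e5 : pt R - pt Q + (pt Q - pt Q') + (pt Q' - pt R1) = pt R - pt R1 := by abel
  rw [e5] at s4
  exact s4

end H8.QS
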