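import Pool.Agent.H8.QS.Bd

/-! # QS.Base : closed points and valuations of the curve `Spec A` (about 200 lines; commutative algebra, given the properties in `QS.Bd`)

`cl_ne`: `algebraMap K0[X] A (X - C (β X))` (nonzero: `FaithfulSMul`).
`cl_pt`: a nonzero element of the kernel is integral over `K0[X]`, so `ker φ ∩ K0[X] ≠ 0` (`Ideal.comap_ne_bot_of_integral_mem`): `φ(X)` is a root of a nonzero polynomial over `K0`, so `φ(X) ∈ K0` (`IsAlgClosed`); every `φ(q)` is integral over the image of `K0[X]`, so algebraic over `K0`, so in `K0`.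
`vb_ex`: `V = {q | ∃ n m, β m ≠ 0 ∧ q * i m = i n}` is a valuation subring by `frac` and `val`, `π q = β n / β m` (well defined: `i` injective).
`int_V`: every `φ q` is a root of a monic polynomial with coefficients in `φ(K0[X]) ⊆ V`; `V` is integrally closed.
`hat_ex`: `φ` injective extends to the fractions: `ψ q = φ n / φ m`. -/

namespace H8.QS

open H68.BB Polynomial

variable {K0 A Q : Type} [Field K0] [CommRing A] [IsDomain A] [Algebra K0 A] [Algebra K0[X] A] [IsScalarTower K0 K0[X] A]
  [Module.Finite K0[X] A] [FaithfulSMul K0[X] A] [Field Q] [Algebra K0 Q] [Algebra (RatFunc K0) Q]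

omit [IsDomain A] [Module.Finite K0[X] A] [FaithfulSMul K0[X] A] in
private theorem hom_poly {E : Type} [CommRing E] [Algebra K0 E] (φ : A →ₐ[K0] E) (p : K0[X]) :
    φ (algebraMap K0[X] A p) = aeval (φ (algebraMap K0[X] A X)) p := by
  have h : (φ.comp (IsScalarTower.toAlgHom K0 K0[X] A)) = aeval (φ (algebraMap K0[X] A X)) := by
    apply Polynomial.algHom_ext
    simp
  have := congrArg (fun g : K0[X] →ₐ[K0] E => g p) h
  simpa using this

/-- a nonzero function which vanishes at a closed point -/
theorem cl_ne (β : A →ₐ[K0] K0) : ∃ q : A, q ≠ 0 ∧ β q = 0 := by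
  refine ⟨algebraMap K0[X] A (X - C (β (algebraMap K0[X] A X))), ?_, ?_⟩
  · intro h
    have h1 := (FaithfulSMul.algebraMap_injective K0[X] A) (h.trans (map_zero _).symm)
    exact X_sub_C_ne_zero _ h1
  · rw [hom_poly β]
    simp

/-- a point of the curve with a nonzero function in the kernel is a closed point -/
theorem cl_pt [IsAlgClosed K0] {E : Type} [Field E] [Algebra K0 E] (φ : A →ₐ[K0] E) {q : A} (hq : q ≠ 0)
    (h : φ q = 0) : ∃ β : A →ₐ[K0] K0, ∀ c, φ c = algebraMap K0 E (β c) := by
  have hrange : ∀ x : E, IsIntegral K0 x → ∃ c : K0, algebraMap K0 E c = x := by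
    intro x hx
    have h1 : (minpoly K0 x).degree = 1 :=
      IsAlgClosed.degree_eq_one_of_irreducible K0 (minpoly.irreducible hx)
    exact minpoly.mem_range_of_degree_eq_one K0 x h1
  -- the variable
  have hint : Algebra.IsIntegral K0[X] A := inferInstance
  have hker : q ∈ RingHom.ker (φ : A →+* E) := by
    rw [RingHom.mem_ker]; exact h
  have hne := Ideal.comap_ne_bot_of_integral_mem (R := K0[X]) (I := RingHom.ker (φ : A →+* E)) hq hker
    (Algebra.IsIntegral.isIntegral q)
  obtain ⟨p, hp, hp0⟩ := Submodule.exists_mem_ne_zero_of_ne_bot hne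
  have hp' : aeval (φ (algebraMap K0[X] A X)) p = 0 := by
    rw [← hom_poly φ]
    rw [Ideal.mem_comap, RingHom.mem_ker] at hp
    exact hp
  have halg : IsAlgebraic K0 (φ (algebraMap K0[X] A X)) := ⟨p, hp0, hp'⟩
  obtain ⟨c, hc⟩ := hrange _ halg.isIntegral
  have hall : ∀ a : A, ∃ d : K0, algebraMap K0 E d = φ a := by
    intro a
    apply hrange
    obtain ⟨f, hf, hfa⟩ := Algebra.IsIntegral.isIntegral (R := K0[X]) a
    refine ⟨f.map (evalRingHom c), hf.map _, ?_⟩
    have h2 : (algebraMap K0 E).comp (evalRingHom c) = (φ : A →+* E).comp (algebraMap K0[X] A) := by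
      apply Polynomial.ringHom_ext
      · intro x
        have := hom_poly φ (C x)
        simp only [RingHom.coe_comp, Function.comp_apply, coe_evalRingHom, eval_C, RingHom.coe_coe]
        rw [this]; simp
      · simp only [RingHom.coe_comp, Function.comp_apply, coe_evalRingHom, eval_X, RingHom.coe_coe]
        exact hc
    rw [eval₂_map, h2]
    have h3 := congrArg (fun y => φ y) hfa
    simp only [map_zero] at h3
    rw [← h3]
    exact (Polynomial.hom_eval₂ f (algebraMap K0[X] A) (φ : A →+* E) a).symm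
  choose g hg using hall
  have hinj : Function.Injective (algebraMap K0 E) := (algebraMap K0 E).injective
  refine ⟨{ toFun := g, map_one' := ?_, map_mul' := ?_, map_zero' := ?_, map_add' := ?_, commutes' := ?_ }, ?_⟩
  · apply hinj; rw [hg]; simp
  · intro x y; apply hinj; rw [hg, map_mul, map_mul, hg, hg]
  · apply hinj; rw [hg]; simp
  · intro x y; apply hinj; rw [hg, map_add, map_add, hg, hg]
  · intro x; apply hinj; simp [hg]
  · intro x; exact (hg x).symm

/-- the valuation ring of a closed point -/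
theorem vb_ex (bd : BD K0 A Q) (β : A →ₐ[K0] K0) :
    ∃ (V : ValuationSubring Q) (π : V →+* K0), IsLocalHom π ∧ (∀ c : K0, Rd V π (algebraMap K0 Q c) c) ∧
      (∀ q, Rd V π (bd.i q) (β q)) ∧ ∀ (q : Q) (c : K0), Rd V π q c → ∃ n m : A, β m ≠ 0 ∧ q * bd.i m = bd.i n ∧ β n = c * β m := by
  have hz : ∀ m : A, β m ≠ 0 → m ≠ 0 := by
    intro m hm h; rw [h, map_zero] at hm; exact hm rfl
  have hiz : ∀ m : A, m ≠ 0 → bd.i m ≠ 0 := by
    intro m hm h; exact hm (bd.inj (h.trans (map_zero _).symm))
  let V : ValuationSubring Q :=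
    { carrier := {q | ∃ n m : A, β m ≠ 0 ∧ q * bd.i m = bd.i n}
      mul_mem' := by
        rintro a b ⟨n, m, hm, h⟩ ⟨n', m', hm', h'⟩
        refine ⟨n * n', m * m', ?_, ?_⟩
        · rw [map_mul]; exact mul_ne_zero hm hm'
        · rw [map_mul, map_mul, ← h, ← h']; ring
      one_mem' := ⟨1, 1, by simp, by simp⟩
      add_mem' := by
        rintro a b ⟨n, m, hm, h⟩ ⟨n', m', hm', h'⟩
        refine ⟨n * m' + n' * m, m * m', ?_, ?_⟩
        · rw [map_mul]; exact mul_ne_zero hm hm'
        · rw [map_mul, map_add, map_mul, map_mul, ← h, ← h']; ring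
      zero_mem' := ⟨0, 1, by simp, by simp⟩
      neg_mem' := by
        rintro a ⟨n, m, hm, h⟩
        exact ⟨-n, m, hm, by rw [map_neg, ← h]; ring⟩
      mem_or_inv_mem' := by
        intro q
        obtain ⟨n, m, hm, h⟩ := bd.frac q
        obtain ⟨n', m', h1, h2⟩ := bd.val β n m (Or.inr hm)
        have h3 : q * bd.i m' = bd.i n' := by
          have h4 : bd.i m * (q * bd.i m') = bd.i m * bd.i n' := by
            have h5 := congrArg bd.i h2
            rw [map_mul, map_mul] at h5
            calc bd.i m * (q * bd.i m') = (q * bd.i m) * bd.i m' := by ring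
              _ = bd.i n * bd.i m' := by rw [h]
              _ = bd.i n' * bd.i m := h5
              _ = _ := by ring
          exact mul_left_cancel₀ (hiz m hm) h4
        rcases h1 with h1 | h1
        · right
          refine ⟨m', n', h1, ?_⟩
          have hn' := hiz n' (hz n' h1)
          have hq : q ≠ 0 := by
            intro hq; rw [hq, zero_mul] at h3; exact hn' h3.symm
          rw [← h3]; field_simp
        · left
          exact ⟨n', m', h1, h3⟩ }
  have hV : ∀ q : Q, q ∈ V ↔ ∃ n m : A, β m ≠ 0 ∧ q * bd.i m = bd.i n := fun q => Iff.rfl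
  have hex : ∀ q : V, ∃ c : K0, ∀ n m : A, β m ≠ 0 → (q : Q) * bd.i m = bd.i n → c = β n / β m := by
    rintro ⟨q, n, m, hm, h⟩
    refine ⟨β n / β m, ?_⟩
    intro n' m' hm' h'
    have h1 : n * m' = n' * m := by
      apply bd.inj
      rw [map_mul, map_mul, ← h, ← h']
      show q * bd.i m * bd.i m' = q * bd.i m' * bd.i m
      ring
    have h2 := congrArg β h1
    rw [map_mul, map_mul] at h2
    rw [div_eq_div_iff hm hm', h2]
  choose g hg using hex
  let π : V →+* K0 :=
    { toFun := g
      map_one' := by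
        rw [hg 1 1 1 (by simp) (by simp)]; simp
      map_mul' := by
        rintro ⟨x, n, m, hm, h⟩ ⟨y, n', m', hm', h'⟩
        have e1 := hg ⟨x, n, m, hm, h⟩ n m hm h
        have e2 := hg ⟨y, n', m', hm', h'⟩ n' m' hm' h'
        have e3 := hg (⟨x, n, m, hm, h⟩ * ⟨y, n', m', hm', h'⟩) (n * n') (m * m')
          (by rw [map_mul]; exact mul_ne_zero hm hm')
          (by show x * y * _ = _; rw [map_mul, map_mul, ← h, ← h']; ring)
        rw [e1, e2, e3, map_mul, map_mul, div_mul_div_comm]
      map_zero' := by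
        rw [hg 0 0 1 (by simp) (by simp)]; simp
      map_add' := by
        rintro ⟨x, n, m, hm, h⟩ ⟨y, n', m', hm', h'⟩
        have e1 := hg ⟨x, n, m, hm, h⟩ n m hm h
        have e2 := hg ⟨y, n', m', hm', h'⟩ n' m' hm' h'
        have e3 := hg (⟨x, n, m, hm, h⟩ + ⟨y, n', m', hm', h'⟩) (n * m' + n' * m) (m * m')
          (by rw [map_mul]; exact mul_ne_zero hm hm')
          (by show (x + y) * _ = _; rw [map_mul, map_add, map_mul, map_mul, ← h, ← h']; ring)
        rw [e1, e2, e3, map_mul, map_add, map_mul, map_mul, div_add_div _ _ hm hm']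
        ring }
  have hπ : ∀ (q : V) (n m : A), β m ≠ 0 → (q : Q) * bd.i m = bd.i n → π q = β n / β m := hg
  refine ⟨V, π, ⟨?_⟩, ?_, ?_, ?_⟩
  · rintro ⟨q, n, m, hm, h⟩ hu
    rw [hπ _ n m hm h] at hu
    have hn : β n ≠ 0 := by
      intro h0; rw [h0, zero_div] at hu; exact not_isUnit_zero hu
    have hn0 := hiz n (hz n hn)
    have hq : q ≠ 0 := by
      intro hq; rw [hq, zero_mul] at h; exact hn0 h.symm
    have hinv : q⁻¹ ∈ V := ⟨m, n, hn, by rw [← h]; field_simp⟩
    refine isUnit_iff_exists_inv.2 ⟨⟨q⁻¹, hinv⟩, ?_⟩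
    apply Subtype.ext
    show q * q⁻¹ = 1
    exact mul_inv_cancel₀ hq
  · intro c
    have h1 : algebraMap K0 Q c * bd.i 1 = bd.i (algebraMap K0 A c) := by simp
    refine ⟨⟨algebraMap K0 A c, 1, by simp, h1⟩, ?_⟩
    rw [hπ _ (algebraMap K0 A c) 1 (by simp) h1]
    simp
  · intro q
    refine ⟨⟨q, 1, by simp, by simp⟩, ?_⟩
    rw [hπ _ q 1 (by simp) (by simp)]
    simp
  · rintro q c ⟨⟨n, m, hm, h⟩, hc⟩
    refine ⟨n, m, hm, h, ?_⟩
    rw [hπ _ n m hm h] at hc
    rw [← hc]; field_simp

/-- if the variable is integral then all functions are -/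
theorem int_V {E : Type} [Field E] [Algebra K0 E] {V : ValuationSubring E} (hV : ∀ c : K0, algebraMap K0 E c ∈ V)
    (φ : A →ₐ[K0] E) (h : φ (algebraMap K0[X] A X) ∈ V) (q : A) : φ q ∈ V := by
  have hmem : ∀ p : K0[X], φ (algebraMap K0[X] A p) ∈ V := by
    intro p
    rw [hom_poly φ]
    induction p using Polynomial.induction_on' with
    | add p r hp hr => rw [map_add]; exact V.add_mem _ _ hp hr
    | monomial n a =>
      rw [aeval_monomial]
      exact V.mul_mem _ _ (hV a) (V.toSubring.pow_mem h n)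
  let ψ : K0[X] →+* V :=
    { toFun := fun p => ⟨φ (algebraMap K0[X] A p), hmem p⟩
      map_one' := by apply Subtype.ext; simp
      map_mul' := by intro x y; apply Subtype.ext; simp
      map_zero' := by apply Subtype.ext; simp
      map_add' := by intro x y; apply Subtype.ext; simp }
  have hint : Algebra.IsIntegral K0[X] A := inferInstance
  obtain ⟨f, hf, hfa⟩ := Algebra.IsIntegral.isIntegral (R := K0[X]) q
  have hI : IsIntegral V (φ q) := by
    refine ⟨f.map ψ, hf.map _, ?_⟩
    have h2 : (algebraMap V E).comp ψ = (φ : A →+* E).comp (algebraMap K0[X] A) := by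
      ext x <;> rfl
    rw [eval₂_map, h2]
    have h3 := congrArg (fun y => φ y) hfa
    simp only [map_zero] at h3
    rw [← h3]
    exact (Polynomial.hom_eval₂ f (algebraMap K0[X] A) (φ : A →+* E) q).symm
  obtain ⟨y, hy⟩ := IsIntegrallyClosed.algebraMap_eq_of_integral hI
  rw [← hy]
  exact y.2

/-- an injective point extends to the field of functions -/
theorem hat_ex (bd : BD K0 A Q) {E : Type} [Field E] [Algebra K0 E] (φ : A →ₐ[K0] E) (h : ∀ q, φ q = 0 → q = 0) :
    ∃ ψ : Q →ₐ[K0] E, ∀ q, ψ (bd.i q) = φ q := by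
  letI : Algebra A Q := (bd.i : A →+* Q).toAlgebra
  have hal : ∀ a : A, algebraMap A Q a = bd.i a := fun _ => rfl
  haveI : FaithfulSMul A Q := (faithfulSMul_iff_algebraMap_injective A Q).2 bd.inj
  haveI : IsFractionRing A Q := by
    apply IsFractionRing.of_field
    intro z
    obtain ⟨n, m, hm, hz⟩ := bd.frac z
    refine ⟨n, m, ?_⟩
    rw [hal, hal, ← hz]
    have : bd.i m ≠ 0 := fun h0 => hm (bd.inj (h0.trans (map_zero _).symm))
    field_simp
  have hinj : Function.Injective (φ : A →+* E) := (injective_iff_map_eq_zero _).2 h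
  have hlift : ∀ a : A, IsFractionRing.lift hinj (algebraMap A Q a) = φ a := fun a =>
    IsFractionRing.lift_algebraMap hinj a
  refine ⟨{ toRingHom := IsFractionRing.lift hinj, commutes' := ?_ }, ?_⟩
  · intro c
    have h1 : algebraMap K0 Q c = algebraMap A Q (algebraMap K0 A c) := by
      rw [hal]; simp
    show IsFractionRing.lift hinj (algebraMap K0 Q c) = _
    rw [h1, hlift]; simp
  · intro q
    exact hlift q

end H8.QS
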