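import Pool.Agent.H8.QS.Bd

/-! # QS.BaseE : the integral closure of `K0[X]` in a finite extension of `RatFunc K0` (about 150 lines; commutative algebra, Mathlib only)

`A = integralClosure K0[X] Q` with `Algebra K0[X] Q` = the composition `K0[X] → RatFunc K0 → Q` (`((algebraMap (RatFunc K0) Q).comp (algebraMap K0[X] (RatFunc K0))).toAlgebra`, scalar towers by `IsScalarTower.of_algebraMap_eq`; the given `Algebra K0 Q` agrees with it by the tower `K0`, `RatFunc K0`, `Q`).
`IsIntegralClosure.finite` (`K0[X]` integrally closed noetherian, `Q` separable over `RatFunc K0`, characteristic 0), `integralClosure.isDedekindDomain`, `IsIntegralClosure.isFractionRing_of_finite_extension` (for `frac`).  `Algebra K0 A`: from `K0[X]` (`Algebra.compHom`-like, or the subalgebra structure), `IsScalarTower K0 K0[X] A`.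
`FaithfulSMul K0[X] A`: `K0[X] → Q` is injective.  `sqr`: `q` is integral over `A`, so over `K0[X]` (`IsIntegral.of_pow`, `isIntegral_trans`).
`val`: `P = ker β` is a maximal ideal of the Dedekind domain `A`, `P ≠ 0` (`β (X - C (β X)) = 0`); the localisation at `P` is a discrete valuation ring (`IsLocalization.AtPrime.isDiscreteValuationRing_of_dedekind_domain`), so a valuation ring of `Q`: `n / m` or `m / n` is in it (for `n`, `m ≠ 0`): `n / m = n' / m'` with `m' ∉ P`.  If `m = 0`: `(n', m') = (1, 0)`, if `n = 0`: `(0, 1)`. -/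

namespace H8.QS

open H68.BB Polynomial

private theorem BaseE_val {K0 A : Type} [Field K0] [CommRing A] [IsDedekindDomain A]
    [Algebra K0 A] (β : A →ₐ[K0] K0) (hP : RingHom.ker (β : A →+* K0) ≠ ⊥) (n m : A)
    (_h : n ≠ 0 ∨ m ≠ 0) : ∃ n' m' : A, (β n' ≠ 0 ∨ β m' ≠ 0) ∧ n * m' = n' * m := by
  by_cases hm : m = 0
  · exact ⟨1, 0, Or.inl (by rw [map_one]; exact one_ne_zero), by rw [hm, mul_zero, mul_zero]⟩
  by_cases hn : n = 0
  · exact ⟨0, 1, Or.inr (by rw [map_one]; exact one_ne_zero), by rw [hn, zero_mul, zero_mul]⟩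
  have hPp : (RingHom.ker (β : A →+* K0)).IsPrime := RingHom.ker_isPrime _
  have := IsLocalization.AtPrime.isDiscreteValuationRing_of_dedekind_domain A hP
    (Localization.AtPrime (RingHom.ker (β : A →+* K0)))
  have hinj : Function.Injective (algebraMap A (Localization.AtPrime (RingHom.ker (β : A →+* K0)))) :=
    IsLocalization.injective _ (Ideal.primeCompl_le_nonZeroDivisors (RingHom.ker (β : A →+* K0)))
  have key : ∀ a b : A, (∃ c, algebraMap A (Localization.AtPrime (RingHom.ker (β : A →+* K0))) a * c =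
      algebraMap A _ b) → ∃ x y : A, β y ≠ 0 ∧ a * x = b * y := by
    rintro a b ⟨c, hc⟩
    obtain ⟨⟨x, y⟩, hxy⟩ := IsLocalization.surj (RingHom.ker (β : A →+* K0)).primeCompl c
    refine ⟨x, y, ?_, ?_⟩
    · intro hy
      exact y.2 (by rw [SetLike.mem_coe, RingHom.mem_ker]; exact hy)
    · apply hinj
      rw [map_mul, map_mul, ← hxy, ← hc]
      ring
  obtain ⟨c, hc⟩ := ValuationRing.cond (algebraMap A (Localization.AtPrime (RingHom.ker (β : A →+* K0))) n)
    (algebraMap A _ m)
  rcases hc with hc | hc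
  · obtain ⟨x, y, h1, h2⟩ := key n m ⟨c, hc⟩
    exact ⟨y, x, Or.inl h1, by rw [h2, mul_comm]⟩
  · obtain ⟨x, y, h1, h2⟩ := key m n ⟨c, hc⟩
    exact ⟨x, y, Or.inr h1, by rw [← h2, mul_comm]⟩

theorem base_ex {K0 Q : Type} [Field K0] [IsAlgClosed K0] [CharZero K0] [Field Q] [Algebra (RatFunc K0) Q]
    [FiniteDimensional (RatFunc K0) Q] [Algebra K0 Q] [IsScalarTower K0 (RatFunc K0) Q] :
    ∃ (A : Type) (_ : CommRing A) (_ : IsDomain A) (_ : Algebra K0 A) (_ : Algebra K0[X] A) (_ : IsScalarTower K0 K0[X] A)
      (_ : Module.Finite K0[X] A) (_ : FaithfulSMul K0[X] A), Nonempty (BD K0 A Q) := by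
  classical
  let iX : Algebra K0[X] Q := ((algebraMap (RatFunc K0) Q).comp (algebraMap K0[X] (RatFunc K0))).toAlgebra
  have t1 : IsScalarTower K0[X] (RatFunc K0) Q := IsScalarTower.of_algebraMap_eq (fun _ => rfl)
  have t2 : IsScalarTower K0 K0[X] Q := IsScalarTower.of_algebraMap_eq (fun a => by
    rw [IsScalarTower.algebraMap_apply K0 (RatFunc K0) Q a,
      IsScalarTower.algebraMap_apply K0 K0[X] (RatFunc K0) a]
    rfl)
  have cz : CharZero (RatFunc K0) := charZero_of_injective_algebraMap (algebraMap K0 (RatFunc K0)).injective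
  have hsep : Algebra.IsSeparable (RatFunc K0) Q := inferInstance
  have hded : IsDedekindDomain (integralClosure K0[X] Q) := integralClosure.isDedekindDomain K0[X] (RatFunc K0) Q
  have hfr : IsFractionRing (integralClosure K0[X] Q) Q :=
    IsIntegralClosure.isFractionRing_of_finite_extension K0[X] (RatFunc K0) Q (integralClosure K0[X] Q)
  have hfin : Module.Finite K0[X] (integralClosure K0[X] Q) :=
    IsIntegralClosure.finite K0[X] (RatFunc K0) Q (integralClosure K0[X] Q)
  have hinjQ : Function.Injective (algebraMap K0[X] Q) := by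
    have h1 : (algebraMap K0[X] Q : K0[X] → Q) = (algebraMap (RatFunc K0) Q) ∘ (algebraMap K0[X] (RatFunc K0)) := rfl
    rw [h1]
    exact (algebraMap (RatFunc K0) Q).injective.comp (IsFractionRing.injective K0[X] (RatFunc K0))
  have hinjA : Function.Injective (algebraMap K0[X] (integralClosure K0[X] Q)) := by
    intro a b hab
    exact hinjQ (congrArg Subtype.val hab)
  refine ⟨integralClosure K0[X] Q, inferInstance, inferInstance, inferInstance, inferInstance, inferInstance,
    hfin, (faithfulSMul_iff_algebraMap_injective _ _).2 hinjA, ⟨?_⟩⟩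
  refine
    { i := (integralClosure K0[X] Q).val.restrictScalars K0
      inj := Subtype.val_injective
      gen := ?_
      frac := ?_
      sqr := ?_
      val := ?_ }
  · change algebraMap K0[X] Q X = _
    change algebraMap (RatFunc K0) Q (algebraMap K0[X] (RatFunc K0) X) = _
    rw [RatFunc.algebraMap_X]
  · intro q
    obtain ⟨⟨x, y⟩, hxy⟩ := IsLocalization.surj (nonZeroDivisors (integralClosure K0[X] Q)) q
    exact ⟨x, y, nonZeroDivisors.ne_zero y.2, hxy⟩
  · intro q c hq
    have h1 : IsIntegral K0[X] (q ^ 2) := by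
      rw [hq]
      exact c.2
    have h2 : IsIntegral K0[X] q := IsIntegral.of_pow (by norm_num) h1
    exact ⟨⟨q, h2⟩, rfl⟩
  · intro β n m h
    refine BaseE_val β ?_ n m h
    intro hbot
    have h1 : β (algebraMap K0[X] (integralClosure K0[X] Q) X -
        algebraMap K0 (integralClosure K0[X] Q) (β (algebraMap K0[X] (integralClosure K0[X] Q) X))) = 0 := by
      rw [map_sub, AlgHom.commutes]
      exact sub_self _
    have h2 : algebraMap K0[X] (integralClosure K0[X] Q) X -
        algebraMap K0 (integralClosure K0[X] Q) (β (algebraMap K0[X] (integralClosure K0[X] Q) X)) ∈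
        RingHom.ker (β : (integralClosure K0[X] Q) →+* K0) := h1
    rw [hbot, Ideal.mem_bot, sub_eq_zero,
      IsScalarTower.algebraMap_apply K0 K0[X] (integralClosure K0[X] Q)] at h2
    have h3 := hinjA h2
    rw [Polynomial.algebraMap_apply, Algebra.algebraMap_self, RingHom.id_apply] at h3
    exact Polynomial.X_ne_C _ h3

end H8.QS
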