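import Pool.Agent.H68.BB.Red
import Mathlib

/-! # QS.Bd : the coordinate ring of an affine curve and its closed points (definitions only, no sorry)

`Q` finite over `RatFunc K0`, `A` = the integral closure of `K0[X]` in `Q`, `i : A → Q`. -/

namespace H8.QS

open Polynomial

/-- the properties of the integral closure `A` of `K0[X]` in `Q` -/
structure BD (K0 A Q : Type) [Field K0] [CommRing A] [Algebra K0 A] [Algebra K0[X] A] [Field Q] [Algebra K0 Q]
    [Algebra (RatFunc K0) Q] where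
  i : A →ₐ[K0] Q
  inj : Function.Injective i
  gen : i (algebraMap K0[X] A X) = algebraMap (RatFunc K0) Q RatFunc.X
  frac : ∀ q : Q, ∃ n m : A, m ≠ 0 ∧ q * i m = i n
  sqr : ∀ (q : Q) (c : A), q ^ 2 = i c → ∃ c' : A, i c' = q
  val : ∀ (β : A →ₐ[K0] K0) (n m : A), (n ≠ 0 ∨ m ≠ 0) → ∃ n' m' : A, (β n' ≠ 0 ∨ β m' ≠ 0) ∧ n * m' = n' * m

end H8.QS
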