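import Pool.Agent.H8.QS.BinD
import Pool.Agent.H8.QS.AlgF
import Pool.Agent.H68.BB.Red

/-! # QS.BinA : reduction of a binary sextic with a double factor (about 120 lines; uses `bf`, `bq`)

`c = l² q` with `l`, `q ≠ 0`.  Divide `l` by its coefficient `λ` of maximal valuation, `q` by its one `μ`: `l = λ l'`, `q = μ q'` over `V`, one coefficient of `l'` and one of `q'` is `1`; reductions `l0' ≠ 0`, `q0' ≠ 0`; `c = γ l'² q'`, `γ = λ² μ`.  `γ ∈ V`: otherwise `γ⁻¹` reduces to `0` (`Rd.inv_zero`) and for all `m`, `n` in `κ` which are reductions: `0 = l0'(m, n)² q0'(m, n)`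
as polynomials: compare coefficients (the coefficients of `l'² q'` are polynomials in those of `l'` and `q'`: write them down: `e_i`; `c i = γ e_i`, `e_i` reduces to the coefficient of `l0'² q0'`; not all of them are `0`: a product of nonzero forms over an infinite field).  If `φ` is not known to be surjective, work with coefficients, not with values.
So `γ` reduces to `γ0` and `c0 = γ0 l0'² q0'`: if `γ0 = 0`: `c0 = 0`.  Otherwise take `a = l0'`, and the factor `γ0` into `q`: here the statement has `q = μ q'`: choose `q' := γ0`-multiple?  No: keep `q'` and put `γ0` in front (`g0`). -/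

namespace H8.QS

open H68.BB

/-- the coefficients of `(l0 m + l1 n)² q(m, n)` -/
private def ec {R : Type} [CommRing R] (l0 l1 : R) (q : Fin 5 → R) : Fin 7 → R :=
  ![l0 ^ 2 * q 0, l0 ^ 2 * q 1 + 2 * (l0 * l1) * q 0, l0 ^ 2 * q 2 + 2 * (l0 * l1) * q 1 + l1 ^ 2 * q 0,
    l0 ^ 2 * q 3 + 2 * (l0 * l1) * q 2 + l1 ^ 2 * q 1, l0 ^ 2 * q 4 + 2 * (l0 * l1) * q 3 + l1 ^ 2 * q 2,
    2 * (l0 * l1) * q 4 + l1 ^ 2 * q 3, l1 ^ 2 * q 4]

private lemma bf_ec {R : Type} [CommRing R] (l0 l1 : R) (q : Fin 5 → R) (m n : R) :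
    bf (ec l0 l1 q) m n = (l0 * m + l1 * n) ^ 2 * bq q m n := by
  unfold bf ec bq
  simp only [Fin.sum_univ_succ, Fin.sum_univ_zero, Matrix.cons_val_zero, Matrix.cons_val_succ,
    Fin.val_zero, Fin.val_succ]
  norm_num
  ring

private lemma bf_one {R : Type} [CommRing R] (c : Fin 7 → R) (m : R) :
    bf c m 1 = c 0 * m ^ 6 + c 1 * m ^ 5 + c 2 * m ^ 4 + c 3 * m ^ 3 + c 4 * m ^ 2 + c 5 * m + c 6 := by
  unfold bf
  simp only [Fin.sum_univ_succ, Fin.sum_univ_zero, Fin.val_zero, Fin.val_succ]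
  norm_num
  ring_nf
  rfl

open Polynomial in
private lemma pol6 {K : Type} [Field K] [Infinite K] {c : Fin 7 → K} (h : ∀ m : K, bf c m 1 = 0) : ∀ i, c i = 0 := by
  have hp : (C (c 0) * X ^ 6 + C (c 1) * X ^ 5 + C (c 2) * X ^ 4 + C (c 3) * X ^ 3 + C (c 4) * X ^ 2 + C (c 5) * X
      + C (c 6) : K[X]) = 0 := by
    refine Polynomial.funext (fun m => ?_)
    have := h m
    rw [bf_one] at this
    simpa using this
  intro i
  have hc := fun k : ℕ => congrArg (fun p : K[X] => p.coeff k) hp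
  fin_cases i
  · have := hc 6; simpa [coeff_X, coeff_C, coeff_X_pow] using this
  · have := hc 5; simpa [coeff_X, coeff_C, coeff_X_pow] using this
  · have := hc 4; simpa [coeff_X, coeff_C, coeff_X_pow] using this
  · have := hc 3; simpa [coeff_X, coeff_C, coeff_X_pow] using this
  · have := hc 2; simpa [coeff_X, coeff_C, coeff_X_pow] using this
  · have := hc 1; simpa [coeff_X, coeff_C, coeff_X_pow] using this
  · have := hc 0; simpa [coeff_X, coeff_C, coeff_X_pow] using this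

private lemma bf_inj {K : Type} [Field K] [Infinite K] {c c' : Fin 7 → K} (h : ∀ m n : K, bf c m n = bf c' m n) :
    c = c' := by
  have h1 : ∀ i, (fun i => c i - c' i) i = 0 := by
    apply pol6
    intro m
    have := h m 1
    rw [bf_one] at this ⊢
    rw [bf_one] at this
    linear_combination this
  funext i
  exact sub_eq_zero.1 (h1 i)

open Polynomial in
private lemma ec_ne {K : Type} [Field K] [Infinite K] {a0 a1 : K} {q : Fin 5 → K} (ha : a0 ≠ 0 ∨ a1 ≠ 0)
    (hq : q ≠ 0) : ∃ i, ec a0 a1 q i ≠ 0 := by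
  by_contra hcon
  push Not at hcon
  have h0 : ∀ m : K, (a0 * m + a1) ^ 2 * bq q m 1 = 0 := by
    intro m
    have h1 := bf_ec a0 a1 q m 1
    rw [mul_one] at h1
    rw [← h1]
    unfold bf
    exact Finset.sum_eq_zero (fun i _ => by rw [hcon i, zero_mul])
  set P : K[X] := C a0 * X + C a1 with hP
  set Q : K[X] := C (q 0) * X ^ 4 + C (q 1) * X ^ 3 + C (q 2) * X ^ 2 + C (q 3) * X + C (q 4) with hQ
  have hPQ : P ^ 2 * Q = 0 := by
    refine Polynomial.funext (fun m => ?_)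
    have := h0 m
    unfold bq at this
    rw [hP, hQ]
    simpa using this
  rcases mul_eq_zero.1 hPQ with h | h
  · have h1 : P = 0 := pow_eq_zero_iff (two_ne_zero) |>.1 h
    have hc := fun k : ℕ => congrArg (fun p : K[X] => p.coeff k) h1
    have c1 := hc 1
    have c0 := hc 0
    rw [hP] at c1 c0
    simp [coeff_X, coeff_C] at c1 c0
    rcases ha with h2 | h2
    · exact h2 c1
    · exact h2 c0
  · apply hq
    have hc := fun k : ℕ => congrArg (fun p : K[X] => p.coeff k) h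
    rw [hQ] at hc
    funext i
    fin_cases i
    · have := hc 4; simpa [coeff_X, coeff_C, coeff_X_pow] using this
    · have := hc 3; simpa [coeff_X, coeff_C, coeff_X_pow] using this
    · have := hc 2; simpa [coeff_X, coeff_C, coeff_X_pow] using this
    · have := hc 1; simpa [coeff_X, coeff_C, coeff_X_pow] using this
    · have := hc 0; simpa [coeff_X, coeff_C, coeff_X_pow] using this

private lemma ec_rd {F κ : Type} [Field F] [Field κ] {V : ValuationSubring F} {φ : V →+* κ}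
    {l0 l1 : F} {a0 a1 : κ} {q : Fin 5 → F} {q0 : Fin 5 → κ} (h0 : Rd V φ l0 a0) (h1 : Rd V φ l1 a1)
    (hq : ∀ i, Rd V φ (q i) (q0 i)) (i : Fin 7) : Rd V φ (ec l0 l1 q i) (ec a0 a1 q0 i) := by
  have hl := Rd.two.mul (h0.mul h1)
  fin_cases i
  · exact (h0.pow 2).mul (hq 0)
  · exact ((h0.pow 2).mul (hq 1)).add (hl.mul (hq 0))
  · exact (((h0.pow 2).mul (hq 2)).add (hl.mul (hq 1))).add ((h1.pow 2).mul (hq 0))
  · exact (((h0.pow 2).mul (hq 3)).add (hl.mul (hq 2))).add ((h1.pow 2).mul (hq 1))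
  · exact (((h0.pow 2).mul (hq 4)).add (hl.mul (hq 3))).add ((h1.pow 2).mul (hq 2))
  · exact (hl.mul (hq 4)).add ((h1.pow 2).mul (hq 3))
  · exact (h1.pow 2).mul (hq 4)

private lemma ec_smul {R : Type} [CommRing R] (x y l0 l1 : R) (q : Fin 5 → R) (i : Fin 7) :
    ec (x * l0) (x * l1) (fun i => y * q i) i = x ^ 2 * y * ec l0 l1 q i := by
  fin_cases i <;> simp only [ec] <;> simp <;> ring

/-- normalise a linear form -/
private lemma nrm_lin {F : Type} [Field F] {V : ValuationSubring F} {l0 l1 : F} (hl : l0 ≠ 0 ∨ l1 ≠ 0) :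
    ∃ x u v : F, x ≠ 0 ∧ l0 = x * u ∧ l1 = x * v ∧ u ∈ V ∧ v ∈ V ∧ (u = 1 ∨ v = 1) := by
  by_cases h0 : l0 = 0
  · have h1 : l1 ≠ 0 := hl.resolve_left (fun h => h h0)
    exact ⟨l1, 0, 1, h1, by rw [h0, mul_zero], by rw [mul_one], V.zero_mem, V.one_mem, Or.inr rfl⟩
  · rcases V.mem_or_inv_mem (l1 / l0) with h | h
    · exact ⟨l0, 1, l1 / l0, h0, by rw [mul_one], by field_simp, V.one_mem, h, Or.inl rfl⟩
    · by_cases h1 : l1 = 0
      · exact ⟨l0, 1, 0, h0, by rw [mul_one], by rw [h1, mul_zero], V.one_mem, V.zero_mem, Or.inl rfl⟩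
      · rw [inv_div] at h
        exact ⟨l1, l0 / l1, 1, h1, by field_simp, by rw [mul_one], h, V.one_mem, Or.inr rfl⟩

private lemma nrm_q {F : Type} [Field F] {V : ValuationSubring F} {q : Fin 5 → F} (hq : q ≠ 0) :
    ∃ (y : F) (q' : Fin 5 → F) (j : Fin 5), y ≠ 0 ∧ (∀ i, q i = y * q' i) ∧ (∀ i, q' i ∈ V) ∧ q' j = 1 := by
  obtain ⟨j, hj⟩ := Finite.exists_max (fun i => V.valuation (q i))
  have hj0 : q j ≠ 0 := by
    intro h
    apply hq
    funext i
    have := hj i
    rw [h, map_zero] at this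
    exact (map_eq_zero V.valuation).1 (le_antisymm this zero_le)
  refine ⟨q j, fun i => q i / q j, j, hj0, fun i => by field_simp, fun i => ?_, div_self hj0⟩
  rw [← V.valuation_le_one_iff, map_div₀]
  exact div_le_one_of_le₀ (hj i) zero_le

theorem bin_fac {F κ : Type} [Field F] [Infinite F] [Field κ] [Infinite κ] {V : ValuationSubring F} {φ : V →+* κ}
    [IsLocalHom φ] {c : Fin 7 → F} {c0 : Fin 7 → κ} (hc : ∀ i, Rd V φ (c i) (c0 i)) {l0 l1 : F} {q : Fin 5 → F}
    (hl : l0 ≠ 0 ∨ l1 ≠ 0) (hq : q ≠ 0) (h : ∀ m n : F, bf c m n = (l0 * m + l1 * n) ^ 2 * bq q m n) :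
    ∃ (μ : F) (q' : Fin 5 → F) (q0' : Fin 5 → κ) (a0 a1 g0 : κ), μ ≠ 0 ∧ (∀ i, q i = μ * q' i) ∧
      (∀ i, Rd V φ (q' i) (q0' i)) ∧ ∀ m n : κ, bf c0 m n = g0 * ((a0 * m + a1 * n) ^ 2 * bq q0' m n) := by
  obtain ⟨x, u, v, hx, hu, hv, huV, hvV, huv⟩ := nrm_lin (V := V) hl
  obtain ⟨y, q', j, hy, hq', hqV, hj⟩ := nrm_q (V := V) hq
  set q0' : Fin 5 → κ := fun i => φ ⟨q' i, hqV i⟩ with hq0'
  set a0 : κ := φ ⟨u, huV⟩ with ha0
  set a1 : κ := φ ⟨v, hvV⟩ with ha1
  have hqr : ∀ i, Rd V φ (q' i) (q0' i) := fun i => Rd.of_mem (hqV i)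
  have hur : Rd V φ u a0 := Rd.of_mem huV
  have hvr : Rd V φ v a1 := Rd.of_mem hvV
  have haa : a0 ≠ 0 ∨ a1 ≠ 0 := by
    rcases huv with h1 | h1
    · left
      rw [h1] at hur
      rw [hur.unique Rd.one]
      exact one_ne_zero
    · right
      rw [h1] at hvr
      rw [hvr.unique Rd.one]
      exact one_ne_zero
  have hq0 : q0' ≠ 0 := by
    intro h1
    have h2 := hqr j
    rw [hj] at h2
    have h3 := h2.unique Rd.one
    rw [h1] at h3
    exact zero_ne_one h3
  have hce : c = ec l0 l1 q := bf_inj (fun m n => by rw [h m n, bf_ec])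
  have hce' : ∀ i, c i = x ^ 2 * y * ec u v q' i := by
    intro i
    rw [hce, hu, hv, ← ec_smul]
    congr 1
    exact funext hq'
  obtain ⟨i, hi⟩ := ec_ne haa hq0
  have her := ec_rd hur hvr hqr
  have hei : ec u v q' i ≠ 0 := (her i).ne_zero hi
  have hg : Rd V φ (x ^ 2 * y) (c0 i / ec a0 a1 q0' i) := by
    have h1 := (hc i).div (her i) hi
    have h2 : c i / ec u v q' i = x ^ 2 * y := by
      rw [hce' i]
      field_simp
    rwa [h2] at h1
  refine ⟨y, q', q0', a0, a1, c0 i / ec a0 a1 q0' i, hy, hq', hqr, fun m n => ?_⟩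
  have hc0 : ∀ k, c0 k = c0 i / ec a0 a1 q0' i * ec a0 a1 q0' k := by
    intro k
    have h1 := hg.mul (her k)
    rw [← hce' k] at h1
    exact (hc k).unique h1
  rw [← bf_ec]
  unfold bf
  rw [Finset.mul_sum]
  refine Finset.sum_congr rfl (fun k _ => ?_)
  rw [hc0 k, mul_assoc]

end H8.QS
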