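import Pool.Agent.H8.QS.BinG
import Pool.Agent.H8.QS.BinA

/-! # QS.Bin : reduction of a binary sextic with a double root (about 120 lines, given `QS.BinD`, `QS.BinG`, `QS.BinA`)

`c(m g11 + n g21, m g12 + n g22) = ρ (s m + t n)² ψ(m, n)`, `ψ = n (m³ - 3 a m n² - 2 b n³)`, `b² - a³ = 1`.  Then `c0 = k² r` with quadratic forms, or `a, b ∈ V` and `g` is a scalar times an invertible matrix over `V`.
If `s = t = 0` then `bf c = 0` (`g` invertible), `c = 0` (`F` infinite: coefficients), `c0 = 0`: `Deg6`.  Otherwise, with `(m, n) = (M, N) g⁻¹`: `c(M, N) = l(M, N)² q(M, N)`, `l` linear nonzero, `q = bs (ρ (0, 1, 0, -3a, -2b))` of the entries of `g⁻¹`, nonzero.  `bin_fac`: `q = μ q'`, reduction `q0'`, `c0 = g0 (a0 M + a1 N)² q0'`.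
If `4 I³ = J²` for `q0'`: `dbl`: `q0' = (l0 m + l1 n)² (r)`: `c0 = ((a0 m + a1 n)(l0 m + l1 n))² (g0 r)`: `Deg6`.  Otherwise `bin_good` for `q'`: `q'(g(m, n)) = μ⁻¹ q(g(m, n)) = μ⁻¹ ρ ψ(m, n)`. -/

namespace H8.QS

open H68.BB H77.AF Polynomial

private lemma bin_bf_one {R : Type} [CommRing R] (c : Fin 7 → R) (m : R) :
    bf c m 1 = c 0 * m ^ 6 + c 1 * m ^ 5 + c 2 * m ^ 4 + c 3 * m ^ 3 + c 4 * m ^ 2 + c 5 * m + c 6 := by
  unfold bf
  simp only [Fin.sum_univ_succ, Fin.sum_univ_zero, Fin.val_zero, Fin.val_succ]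
  norm_num
  ring_nf
  rfl

private lemma bin_zero {K : Type} [Field K] [Infinite K] {c : Fin 7 → K} (h : ∀ m : K, bf c m 1 = 0) : ∀ i, c i = 0 := by
  have hp : (C (c 0) * X ^ 6 + C (c 1) * X ^ 5 + C (c 2) * X ^ 4 + C (c 3) * X ^ 3 + C (c 4) * X ^ 2 + C (c 5) * X
      + C (c 6) : K[X]) = 0 := by
    refine Polynomial.funext (fun m => ?_)
    have := h m
    rw [bin_bf_one] at this
    simpa using this
  intro i
  have hc := fun k : ℕ => congrArg (fun p : K[X] => p.coeff k) hp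
  fin_cases i
  · have := hc 6; simpa [coeff_X, coeff_C, coeff_X_pow] using this
  · have := hc 5; simpa [coeff_X, coeff_C, coeff_X_pow] using this
  · have := hc 4; simpa [coeff_X, coeff_C, coeff_X_pow] using this
  · have := hc 3; simpa [coeff_X, coeff_C, coeff_X_pow] using this
  · have := hc 2; simpa [coeff_X, coeff_C, coeff_X_pow] using this
  · have := hc 1; simpa [coeff_X, coeff_C, coeff_X_pow] using this
  · have := hc 0; simpa [coeff_X, coeff_C, coeff_X_pow] using this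

theorem bin {F κ : Type} [Field F] [CharZero F] [Field κ] [IsAlgClosed κ] [CharZero κ] {V : ValuationSubring F} {φ : V →+* κ}
    [IsLocalHom φ] {c : Fin 7 → F} {c0 : Fin 7 → κ} (hc : ∀ i, Rd V φ (c i) (c0 i)) {g11 g12 g21 g22 ρ s t a b : F}
    (hg : g11 * g22 - g12 * g21 ≠ 0) (hρ : ρ ≠ 0) (hab : b ^ 2 - a ^ 3 = 1)
    (h : ∀ m n : F, bf c (m * g11 + n * g21) (m * g12 + n * g22) =
      ρ * ((s * m + t * n) ^ 2 * (n * (m ^ 3 - 3 * a * m * n ^ 2 - 2 * b * n ^ 3)))) :
    Deg6 c0 ∨ (a ∈ V ∧ b ∈ V ∧ ∃ l : F, l ≠ 0 ∧ g11 / l ∈ V ∧ g12 / l ∈ V ∧ g21 / l ∈ V ∧ g22 / l ∈ V ∧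
      ∃ δ : κ, δ ≠ 0 ∧ Rd V φ ((g11 * g22 - g12 * g21) / l ^ 2) δ) := by
  set D := g11 * g22 - g12 * g21 with hD
  have hpq : ∀ m n : F, bq (![0, ρ, 0, -3 * a * ρ, -2 * b * ρ] : Fin 5 → F) m n =
      ρ * (n * (m ^ 3 - 3 * a * m * n ^ 2 - 2 * b * n ^ 3)) := by
    intro m n
    simp only [bq, Matrix.cons_val]
    ring
  set p : Fin 5 → F := ![0, ρ, 0, -3 * a * ρ, -2 * b * ρ] with hp
  have hinv : ∀ M N : F, bf c M N = ((s * g22 - t * g12) / D * M + (t * g11 - s * g21) / D * N) ^ 2 *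
      bq p (M * (g22 / D) + N * (-g21 / D)) (M * (-g12 / D) + N * (g11 / D)) := by
    intro M N
    have h1 := h (M * (g22 / D) + N * (-g21 / D)) (M * (-g12 / D) + N * (g11 / D))
    have e1 : (M * (g22 / D) + N * (-g21 / D)) * g11 + (M * (-g12 / D) + N * (g11 / D)) * g21 = M := by
      field_simp
      rw [hD]
      ring
    have e2 : (M * (g22 / D) + N * (-g21 / D)) * g12 + (M * (-g12 / D) + N * (g11 / D)) * g22 = N := by
      field_simp
      rw [hD]
      ring
    rw [e1, e2] at h1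
    rw [h1, hpq]
    have e3 : (s * g22 - t * g12) / D * M + (t * g11 - s * g21) / D * N =
        s * (M * (g22 / D) + N * (-g21 / D)) + t * (M * (-g12 / D) + N * (g11 / D)) := by
      ring
    rw [e3]
    ring
  set q : Fin 5 → F := bs p (g22 / D) (-g12 / D) (-g21 / D) (g11 / D) with hq
  have hfac : ∀ M N : F, bf c M N =
      ((s * g22 - t * g12) / D * M + (t * g11 - s * g21) / D * N) ^ 2 * bq q M N := by
    intro M N
    rw [hinv, hq, bq_bs]
  have hqg : ∀ m n : F, bq q (m * g11 + n * g21) (m * g12 + n * g22) =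
      ρ * (n * (m ^ 3 - 3 * a * m * n ^ 2 - 2 * b * n ^ 3)) := by
    intro m n
    rw [hq, bq_bs, ← hpq]
    have e1 : (m * g11 + n * g21) * (g22 / D) + (m * g12 + n * g22) * (-g21 / D) = m := by
      field_simp
      rw [hD]
      ring
    have e2 : (m * g11 + n * g21) * (-g12 / D) + (m * g12 + n * g22) * (g11 / D) = n := by
      field_simp
      rw [hD]
      ring
    rw [e1, e2]
  have hq0 : q ≠ 0 := by
    intro h0
    have h1 : p = 0 := by
      apply bq_inj
      intro m n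
      rw [hpq, ← hqg, h0]
      simp [bq]
    have h2 := congrFun h1 1
    apply hρ
    simpa [hp] using h2
  by_cases hl : (s * g22 - t * g12) / D ≠ 0 ∨ (t * g11 - s * g21) / D ≠ 0
  · obtain ⟨μ, q', q0', a0, a1, g0, hμ, hqq, hqr, h0⟩ := bin_fac hc hl hq0 hfac
    by_cases hd : 4 * qi q0' ^ 3 = qj q0' ^ 2
    · left
      obtain ⟨l0, l1, r0, r1, r2, hr⟩ := dbl hd
      refine ⟨a0 * l0, a0 * l1 + a1 * l0, a1 * l1, g0 * r0, g0 * r1, g0 * r2, fun m n => ?_⟩
      rw [h0, hr]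
      ring
    · right
      refine bin_good hqr hd hg (C := ρ / μ) (div_ne_zero hρ hμ) hab (fun m n => ?_)
      have h1 := hqg m n
      have h2 : bq q (m * g11 + n * g21) (m * g12 + n * g22) =
          μ * bq q' (m * g11 + n * g21) (m * g12 + n * g22) := by
        simp only [bq, hqq]
        ring
      rw [h2] at h1
      rw [div_mul_eq_mul_div, eq_div_iff hμ, ← h1]
      ring
  · left
    push Not at hl
    have h1 : ∀ i, c i = 0 := by
      apply bin_zero
      intro m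
      rw [hfac, hl.1, hl.2]
      ring
    have h2 : ∀ i, c0 i = 0 := by
      intro i
      have h3 := hc i
      rw [h1 i] at h3
      exact h3.unique Rd.zero
    refine ⟨0, 0, 0, 0, 0, 0, fun m n => ?_⟩
    unfold bf
    rw [Finset.sum_eq_zero (fun i _ => by rw [h2 i, zero_mul])]
    ring

end H8.QS
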