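import Mathlib

/-! # QS.BinD : binary quartic forms, the invariants `I`, `J` (about 150 lines, Mathlib only)

`bq q m n = ∑ q_j m^(4-j) n^j`, `bs q g..` the coefficients of `q(m g11 + n g21, m g12 + n g22)` (define them explicitly: expand), `qi_bs`, `qj_bs`: `I(q ∘ g) = det⁴ I(q)`, `J(q ∘ g) = det⁶ J(q)` (`ring` on the explicit coefficients; split if too slow: e.g. prove it for the generators `(m, n) ↦ (m + c n, n)`, `(n, m)`, diagonal is not needed if `ring` works).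
`dbl`: `4 I³ = J²` for a nonzero quartic over an algebraically closed field of characteristic 0: `q = (l0 m + l1 n)² (r0 m² + r1 m n + r2 n²)`.  If `q 0 = 0` then `n` divides `q`; otherwise take a root `ξ` of `q(X, 1)` and substitute `m = m' + ξ n'`, `n = n'`: in the new coordinates `q 4 = 0`, i.e. `m'` divides; in both cases (exchange `m`, `n`) we may assume `q 0 = 0`:
`q = n (q1 m³ + q2 m² n + q3 m n² + q4 n³)`; then `4 I³ - J² = 27 q1² disc(q1, q2, q3, q4)` (check with `ring`: `I = q2² - 3 q1 q3`, `J = 9 q1 q2 q3 - 27 q1² q4 - 2 q2³`).  `q1 = 0`: `n²` divides `q`.  `q1 ≠ 0`: the cubic has a double root: take a root, `cubic = (m - ξ n) (quadratic)`, the discriminant of the cubic is (the value of the quadratic at `ξ`)² times the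
discriminant of the quadratic: if the value is `0` then `(m - ξ n)²` divides, otherwise the quadratic is `q1 (m - η n)²` (characteristic not 2). -/

namespace H8.QS

/-- the binary quartic form with the coefficients `q` -/
def bq {R : Type} [CommRing R] (q : Fin 5 → R) (m n : R) : R :=
  q 0 * m ^ 4 + q 1 * m ^ 3 * n + q 2 * m ^ 2 * n ^ 2 + q 3 * m * n ^ 3 + q 4 * n ^ 4

/-- the invariant of degree 2 -/
def qi {R : Type} [CommRing R] (q : Fin 5 → R) : R := 12 * q 0 * q 4 - 3 * q 1 * q 3 + q 2 ^ 2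

/-- the invariant of degree 3 -/
def qj {R : Type} [CommRing R] (q : Fin 5 → R) : R :=
  72 * q 0 * q 2 * q 4 + 9 * q 1 * q 2 * q 3 - 27 * q 0 * q 3 ^ 2 - 27 * q 1 ^ 2 * q 4 - 2 * q 2 ^ 3

/-- the coefficients of the transformed form -/
def bs {R : Type} [CommRing R] (q : Fin 5 → R) (g11 g12 g21 g22 : R) : Fin 5 → R :=
  ![bq q g11 g12,
    4 * q 0 * g11 ^ 3 * g21 + q 1 * (3 * g11 ^ 2 * g21 * g12 + g11 ^ 3 * g22) +
      q 2 * (2 * g11 * g21 * g12 ^ 2 + 2 * g11 ^ 2 * g12 * g22) + q 3 * (g21 * g12 ^ 3 + 3 * g11 * g12 ^ 2 * g22) +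
      4 * q 4 * g12 ^ 3 * g22,
    6 * q 0 * g11 ^ 2 * g21 ^ 2 + q 1 * (3 * g11 * g21 ^ 2 * g12 + 3 * g11 ^ 2 * g21 * g22) +
      q 2 * (g21 ^ 2 * g12 ^ 2 + 4 * g11 * g21 * g12 * g22 + g11 ^ 2 * g22 ^ 2) +
      q 3 * (3 * g21 * g12 ^ 2 * g22 + 3 * g11 * g12 * g22 ^ 2) + 6 * q 4 * g12 ^ 2 * g22 ^ 2,
    4 * q 0 * g11 * g21 ^ 3 + q 1 * (g21 ^ 3 * g12 + 3 * g11 * g21 ^ 2 * g22) +
      q 2 * (2 * g21 ^ 2 * g12 * g22 + 2 * g11 * g21 * g22 ^ 2) + q 3 * (3 * g21 * g12 * g22 ^ 2 + g11 * g22 ^ 3) +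
      4 * q 4 * g12 * g22 ^ 3,
    bq q g21 g22]

theorem bs0 {R : Type} [CommRing R] (q : Fin 5 → R) (g11 g12 g21 g22 : R) : bs q g11 g12 g21 g22 0 = bq q g11 g12 := rfl
theorem bs1 {R : Type} [CommRing R] (q : Fin 5 → R) (g11 g12 g21 g22 : R) : bs q g11 g12 g21 g22 1 =
    4 * q 0 * g11 ^ 3 * g21 + q 1 * (3 * g11 ^ 2 * g21 * g12 + g11 ^ 3 * g22) +
      q 2 * (2 * g11 * g21 * g12 ^ 2 + 2 * g11 ^ 2 * g12 * g22) + q 3 * (g21 * g12 ^ 3 + 3 * g11 * g12 ^ 2 * g22) +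
      4 * q 4 * g12 ^ 3 * g22 := rfl
theorem bs2 {R : Type} [CommRing R] (q : Fin 5 → R) (g11 g12 g21 g22 : R) : bs q g11 g12 g21 g22 2 =
    6 * q 0 * g11 ^ 2 * g21 ^ 2 + q 1 * (3 * g11 * g21 ^ 2 * g12 + 3 * g11 ^ 2 * g21 * g22) +
      q 2 * (g21 ^ 2 * g12 ^ 2 + 4 * g11 * g21 * g12 * g22 + g11 ^ 2 * g22 ^ 2) +
      q 3 * (3 * g21 * g12 ^ 2 * g22 + 3 * g11 * g12 * g22 ^ 2) + 6 * q 4 * g12 ^ 2 * g22 ^ 2 := rfl
theorem bs3 {R : Type} [CommRing R] (q : Fin 5 → R) (g11 g12 g21 g22 : R) : bs q g11 g12 g21 g22 3 =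
    4 * q 0 * g11 * g21 ^ 3 + q 1 * (g21 ^ 3 * g12 + 3 * g11 * g21 ^ 2 * g22) +
      q 2 * (2 * g21 ^ 2 * g12 * g22 + 2 * g11 * g21 * g22 ^ 2) + q 3 * (3 * g21 * g12 * g22 ^ 2 + g11 * g22 ^ 3) +
      4 * q 4 * g12 * g22 ^ 3 := rfl
theorem bs4 {R : Type} [CommRing R] (q : Fin 5 → R) (g11 g12 g21 g22 : R) : bs q g11 g12 g21 g22 4 = bq q g21 g22 := rfl

theorem bq_bs {R : Type} [CommRing R] (q : Fin 5 → R) (g11 g12 g21 g22 m n : R) :
    bq (bs q g11 g12 g21 g22) m n = bq q (m * g11 + n * g21) (m * g12 + n * g22) := by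
  simp only [bq, bs0, bs1, bs2, bs3, bs4]
  ring

theorem qi_bs {R : Type} [CommRing R] (q : Fin 5 → R) (g11 g12 g21 g22 : R) :
    qi (bs q g11 g12 g21 g22) = (g11 * g22 - g12 * g21) ^ 4 * qi q := by
  simp only [qi, bq, bs0, bs1, bs2, bs3, bs4]
  ring

set_option maxRecDepth 10000 in
theorem qj_bs {R : Type} [CommRing R] (q : Fin 5 → R) (g11 g12 g21 g22 : R) :
    qj (bs q g11 g12 g21 g22) = (g11 * g22 - g12 * g21) ^ 6 * qj q := by
  simp only [qj, bq, bs0, bs1, bs2, bs3, bs4]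
  ring

/-- a form over an infinite field is determined by its values -/
theorem bq_inj {F : Type} [Field F] [Infinite F] {q q' : Fin 5 → F} (h : ∀ m n, bq q m n = bq q' m n) : q = q' := by
  open Polynomial in
  have h1 : (C (q 0) * X ^ 4 + C (q 1) * X ^ 3 + C (q 2) * X ^ 2 + C (q 3) * X + C (q 4) : F[X]) =
      C (q' 0) * X ^ 4 + C (q' 1) * X ^ 3 + C (q' 2) * X ^ 2 + C (q' 3) * X + C (q' 4) := by
    refine Polynomial.funext fun m => ?_
    have h2 := h m 1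
    simp only [bq] at h2
    simp only [Polynomial.eval_add, Polynomial.eval_mul, Polynomial.eval_pow, Polynomial.eval_C, Polynomial.eval_X]
    linear_combination h2
  have hc : ∀ j, (Polynomial.coeff (Polynomial.C (q 0) * Polynomial.X ^ 4 + Polynomial.C (q 1) * Polynomial.X ^ 3 + Polynomial.C (q 2) * Polynomial.X ^ 2 +
      Polynomial.C (q 3) * Polynomial.X + Polynomial.C (q 4)) j) = (Polynomial.coeff (Polynomial.C (q' 0) * Polynomial.X ^ 4 + Polynomial.C (q' 1) * Polynomial.X ^ 3 + Polynomial.C (q' 2) * Polynomial.X ^ 2 +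
      Polynomial.C (q' 3) * Polynomial.X + Polynomial.C (q' 4)) j) := fun j => by rw [h1]
  have c0 := hc 0
  have c1 := hc 1
  have c2 := hc 2
  have c3 := hc 3
  have c4 := hc 4
  simp [Polynomial.coeff_X, Polynomial.coeff_C] at c0 c1 c2 c3 c4
  funext i
  fin_cases i
  · exact c4
  · exact c3
  · exact c2
  · exact c1
  · exact c0

theorem dbl0 {κ : Type} [Field κ] [IsAlgClosed κ] [CharZero κ] {q : Fin 5 → κ} (h0 : q 0 = 0) (hd : 4 * qi q ^ 3 = qj q ^ 2) :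
    ∃ l0 l1 r0 r1 r2 : κ, ∀ m n : κ, bq q m n = (l0 * m + l1 * n) ^ 2 * (r0 * m ^ 2 + r1 * m * n + r2 * n ^ 2) := by
  by_cases h1 : q 1 = 0
  · refine ⟨0, 1, q 2, q 3, q 4, fun m n => ?_⟩
    simp only [bq, h0, h1]
    ring
  · obtain ⟨ξ, hξ⟩ : ∃ ξ : κ, q 1 * ξ ^ 3 + q 2 * ξ ^ 2 + q 3 * ξ + q 4 = 0 := by
      have hdeg : (Polynomial.C (q 1) * Polynomial.X ^ 3 + Polynomial.C (q 2) * Polynomial.X ^ 2 + Polynomial.C (q 3) * Polynomial.X +
          Polynomial.C (q 4) : Polynomial κ).degree = 3 := Polynomial.degree_cubic h1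
      obtain ⟨ξ, hξ⟩ := IsAlgClosed.exists_root (Polynomial.C (q 1) * Polynomial.X ^ 3 + Polynomial.C (q 2) * Polynomial.X ^ 2 + Polynomial.C (q 3) * Polynomial.X +
          Polynomial.C (q 4) : Polynomial κ) (by rw [hdeg]; norm_num)
      refine ⟨ξ, ?_⟩
      simpa [Polynomial.IsRoot] using hξ
    set A := q 1 with hA
    set B := q 2 + A * ξ with hB
    set D := q 3 + ξ * B with hD
    have h4 : q 4 = - ξ * D := by
      rw [hD, hB]
      linear_combination hξ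
    have h2 : q 2 = B - A * ξ := by rw [hB]; ring
    have h3 : q 3 = D - ξ * B := by rw [hD]; ring
    have hf : ∀ m n : κ, bq q m n = n * (m - ξ * n) * (A * m ^ 2 + B * m * n + D * n ^ 2) := by
      intro m n
      simp only [bq, h0, ← hA, h2, h3, h4]
      ring
    have hdis : 27 * A ^ 2 * ((A * ξ ^ 2 + B * ξ + D) ^ 2 * (B ^ 2 - 4 * A * D)) = 0 := by
      simp only [qi, qj, h0, ← hA, h2, h3, h4] at hd
      linear_combination hd
    have h27 : (27 : κ) ≠ 0 := by norm_num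
    have hdis2 : (A * ξ ^ 2 + B * ξ + D) ^ 2 * (B ^ 2 - 4 * A * D) = 0 :=
      (mul_eq_zero.1 hdis).resolve_left (mul_ne_zero h27 (pow_ne_zero 2 h1))
    rcases mul_eq_zero.1 hdis2 with h5 | h5
    · have h6 := pow_eq_zero_iff (two_ne_zero) |>.1 h5
      refine ⟨1, -ξ, 0, A, B + A * ξ, fun m n => ?_⟩
      have h7 : D = - ξ * (B + A * ξ) := by linear_combination h6
      rw [hf, h7]
      ring
    · refine ⟨1, B / (2 * A), 0, A, - A * ξ, fun m n => ?_⟩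
      have h2A : (2 * A) ≠ 0 := mul_ne_zero two_ne_zero h1
      have h7 : D = A * (B / (2 * A)) ^ 2 := by
        field_simp
        linear_combination -h5
      have h8 : B = 2 * A * (B / (2 * A)) := by field_simp
      rw [hf, h7]
      generalize B / (2 * A) = t at *
      rw [h8]
      ring

theorem dbl {κ : Type} [Field κ] [IsAlgClosed κ] [CharZero κ] {q : Fin 5 → κ} (hd : 4 * qi q ^ 3 = qj q ^ 2) :
    ∃ l0 l1 r0 r1 r2 : κ, ∀ m n : κ, bq q m n = (l0 * m + l1 * n) ^ 2 * (r0 * m ^ 2 + r1 * m * n + r2 * n ^ 2) := by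
  by_cases h0 : q 0 = 0
  · exact dbl0 h0 hd
  · obtain ⟨ξ, hξ⟩ : ∃ ξ : κ, bq q ξ 1 = 0 := by
      have hdeg : 4 ≤ (Polynomial.C (q 0) * Polynomial.X ^ 4 + Polynomial.C (q 1) * Polynomial.X ^ 3 + Polynomial.C (q 2) * Polynomial.X ^ 2 +
          Polynomial.C (q 3) * Polynomial.X + Polynomial.C (q 4) : Polynomial κ).degree := by
        refine Polynomial.le_degree_of_ne_zero ?_
        simp
        exact h0
      obtain ⟨ξ, hξ⟩ := IsAlgClosed.exists_root (Polynomial.C (q 0) * Polynomial.X ^ 4 + Polynomial.C (q 1) * Polynomial.X ^ 3 + Polynomial.C (q 2) * Polynomial.X ^ 2 +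
          Polynomial.C (q 3) * Polynomial.X + Polynomial.C (q 4) : Polynomial κ) (by intro h; rw [h] at hdeg; norm_num at hdeg)
      refine ⟨ξ, ?_⟩
      simpa [Polynomial.IsRoot, bq] using hξ
    have hd' : 4 * qi (bs q ξ 1 1 0) ^ 3 = qj (bs q ξ 1 1 0) ^ 2 := by
      rw [qi_bs, qj_bs]
      linear_combination hd
    obtain ⟨l0, l1, r0, r1, r2, h⟩ := dbl0 (q := bs q ξ 1 1 0) hξ hd'
    refine ⟨l1, l0 - l1 * ξ, r2, r1 - 2 * ξ * r2, r0 - ξ * r1 + ξ ^ 2 * r2, fun u w => ?_⟩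
    have h1 := h w (u - ξ * w)
    rw [bq_bs] at h1
    have e1 : w * ξ + (u - ξ * w) * 1 = u := by ring
    have e2 : w * 1 + (u - ξ * w) * 0 = w := by ring
    rw [e1, e2] at h1
    rw [h1]
    ring

end H8.QS
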