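import Pool.Agent.H8.QS.BinD
import Pool.Agent.H68.BB.Red

/-! # QS.BinG : a quartic form with good reduction (about 200 lines, given `QS.BinD`)

`q` with coefficients in `V`, `4 I³ - J² ≠ 0` for the reduction `q0`; `q(g(m, n)) = C ψ(m, n)`, `ψ = n (m³ - 3 a m n² - 2 b n³) = m³ n - 3 a m n³ - 2 b n⁴`, `b² - a³ = 1`.  Let `l` be an entry of `g` with `g = l g'`, `g'` over `V` (maximal valuation), `C' = C / l⁴`, `δ = det g'`, `q(g'(m, n)) = C' ψ(m, n)`.  `bq_bs`, `bq_inj`: `bs q g' = C' (0, 1, 0, -3a, -2b)`;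
`qi_bs`, `qj_bs`: `δ⁴ I(q) = 9 a C'²`, `δ⁶ J(q) = 54 b C'³`, so `δ¹² (4 I³ - J²)(q) = 2916 (a³ - b²) C'⁶ = - 2916 C'⁶`: `(C' / δ²)⁶ = -(4 I³ - J²)(q) / 2916` is a unit of `V` (characteristic of `κ` is 0), so `C' / δ²` and `δ² / C'` are in `V` (a valuation ring), `a = δ⁴ I(q) / (9 C'²) ∈ V`, `b ∈ V`.
`δ` is a unit: `g'(m, n) = m g1 + n g2`, `g1 = (g11', g12')`, `g2 = (g21', g22')`.  If `g1` has a unit entry (one of the entries of `g'` is `1`) there is `h1` over `V` with `det(g1, h1) = 1` (`h1 = (0, 1/g11')` or `(-1/g12', 0)`), and `g2 = c1 g1 + δ h1` with `c1 ∈ V`; `p = bs q g11' g12' h11 h12` (the form `q(X g1 + Y h1)`) has coefficients in `V` and the same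
`4 I³ - J²` (determinant 1); `∑ p_j (m + c1 n)^(4-j) (δ n)^j = C' ψ(m, n)`; substitute `m - c1 n` for `m`: `∑ p_j m^(4-j) (δ n)^j = C' ψ(m - c1 n, n)`, compare coefficients (`bq_inj`): `p_0 = 0`, `p_1 δ = C'`, so `p_1 = (C'/δ²) δ`: if `δ` reduces to `0` then `p_0`, `p_1` reduce to `0` and `4 I³ - J²` of the reduction is `0`
(`I = p2²`, `J = - 2 p2³`), a contradiction.  If `g2` has a unit entry: `g1 = c1 g2 + δ h1` up to sign (`det(h1, g2) = 1`), `p = q(X g2 + Y h1)`: `∑ p_j (n + c1 m)^(4-j) (± δ m)^j = C' ψ(m, n)`, substitute `n - c1 m` for `n`: `p_j δ^j = ± C' * (integral)`, so `p_0 = (C'/δ²) δ² (..)`, `p_1 = (C'/δ²) δ (..)` reduce to `0` if `δ` does: the same contradiction. -/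

namespace H8.QS

open H68.BB

private theorem bg_map_bs {R S : Type} [CommRing R] [CommRing S] (f : R →+* S) (q : Fin 5 → R) (x y z w : R)
    (i : Fin 5) : f (bs q x y z w i) = bs (fun j => f (q j)) (f x) (f y) (f z) (f w) i := by
  fin_cases i <;> simp [bs, bq, map_ofNat]

private theorem bg_map_qi {R S : Type} [CommRing R] [CommRing S] (f : R →+* S) (q : Fin 5 → R) :
    f (qi q) = qi (fun j => f (q j)) := by
  simp [qi, map_ofNat]

private theorem bg_map_qj {R S : Type} [CommRing R] [CommRing S] (f : R →+* S) (q : Fin 5 → R) :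
    f (qj q) = qj (fun j => f (q j)) := by
  simp [qj, map_ofNat]

private theorem bg_core {R κ : Type} [CommRing R] [Field κ] (φ : R →+* κ) (q : Fin 5 → R) (x y z w : R)
    (hd : (x * w - y * z) ^ 2 = 1) (h0 : φ (bs q x y z w 0) = 0) (h1 : φ (bs q x y z w 1) = 0) :
    4 * φ (qi q) ^ 3 = φ (qj q) ^ 2 := by
  have e1 : qi (bs q x y z w) = qi q := by
    rw [qi_bs, show (x * w - y * z) ^ 4 = ((x * w - y * z) ^ 2) ^ 2 by ring, hd]
    ring
  have e2 : qj (bs q x y z w) = qj q := by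
    rw [qj_bs, show (x * w - y * z) ^ 6 = ((x * w - y * z) ^ 2) ^ 3 by ring, hd]
    ring
  rw [← e1, ← e2, bg_map_qi, bg_map_qj]
  simp only [qi, qj, h0, h1]
  ring

private theorem bg_case1 {F : Type} [Field F] [CharZero F] (q : Fin 5 → F) (x y z w c δ C a b : F)
    (h : ∀ m n : F, bq q (m * x + n * (c * x + δ * z)) (m * y + n * (c * y + δ * w)) =
      C * (n * (m ^ 3 - 3 * a * m * n ^ 2 - 2 * b * n ^ 3))) :
    bs q x y z w 0 = 0 ∧ bs q x y z w 1 * δ = C := by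
  set p := bs q x y z w with hp
  have key : (![p 0, p 1 * δ, p 2 * δ ^ 2, p 3 * δ ^ 3, p 4 * δ ^ 4] : Fin 5 → F) =
      ![0, C, -3 * c * C, (3 * c ^ 2 - 3 * a) * C, (3 * a * c - c ^ 3 - 2 * b) * C] := by
    apply bq_inj
    intro m n
    have h1 : bq p m (δ * n) = C * (n * ((m - c * n) ^ 3 - 3 * a * (m - c * n) * n ^ 2 - 2 * b * n ^ 3)) := by
      rw [← h (m - c * n) n, hp, bq_bs]
      congr 1 <;> ring
    have h2 : bq (![p 0, p 1 * δ, p 2 * δ ^ 2, p 3 * δ ^ 3, p 4 * δ ^ 4] : Fin 5 → F) m n = bq p m (δ * n) := by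
      simp only [bq, Matrix.cons_val]
      ring
    rw [h2, h1]
    simp only [bq, Matrix.cons_val]
    ring
  exact ⟨congrFun key 0, congrFun key 1⟩

private theorem bg_case2 {F : Type} [Field F] [CharZero F] (q : Fin 5 → F) (x y z w c δ C a b : F)
    (h : ∀ m n : F, bq q (m * (c * x + δ * z) + n * x) (m * (c * y + δ * w) + n * y) =
      C * (n * (m ^ 3 - 3 * a * m * n ^ 2 - 2 * b * n ^ 3))) :
    bs q x y z w 0 = C * (-2 * b) ∧ bs q x y z w 1 * δ = C * (8 * b * c - 3 * a) := by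
  set p := bs q x y z w with hp
  have key : (![p 0, p 1 * δ, p 2 * δ ^ 2, p 3 * δ ^ 3, p 4 * δ ^ 4] : Fin 5 → F) =
      ![C * (-2 * b), C * (8 * b * c - 3 * a), C * (9 * a * c - 12 * b * c ^ 2),
        C * (1 - 9 * a * c ^ 2 + 8 * b * c ^ 3), C * (-c + 3 * a * c ^ 3 - 2 * b * c ^ 4)] := by
    apply bq_inj
    intro m n
    have h1 : bq p m (δ * n) =
        C * ((m - c * n) * (n ^ 3 - 3 * a * n * (m - c * n) ^ 2 - 2 * b * (m - c * n) ^ 3)) := by
      rw [← h n (m - c * n), hp, bq_bs]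
      congr 1 <;> ring
    have h2 : bq (![p 0, p 1 * δ, p 2 * δ ^ 2, p 3 * δ ^ 3, p 4 * δ ^ 4] : Fin 5 → F) m n = bq p m (δ * n) := by
      simp only [bq, Matrix.cons_val]
      ring
    rw [h2, h1]
    simp only [bq, Matrix.cons_val]
    ring
  exact ⟨congrFun key 0, congrFun key 1⟩

section unit
variable {F κ : Type} [Field F] [CharZero F] [Field κ] {V : ValuationSubring F} {φ : V →+* κ} {q : Fin 5 → V}

omit [CharZero F] in
private theorem bg_coe (x y z w : V) (i : Fin 5) :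
    ((bs q x y z w i : V) : F) = bs (fun j => (q j : F)) (x : F) (y : F) (z : F) (w : F) i :=
  bg_map_bs V.subtype q x y z w i

private theorem bg_V1 (hn : 4 * φ (qi q) ^ 3 ≠ φ (qj q) ^ 2) {x y z w c δ e a b : V}
    (hd : (x * w - y * z) ^ 2 = 1) (hδ : δ ≠ 0)
    (h : ∀ m n : F, bq (fun j => (q j : F)) (m * x + n * (c * x + δ * z)) (m * y + n * (c * y + δ * w)) =
      (e * δ ^ 2) * (n * (m ^ 3 - 3 * a * m * n ^ 2 - 2 * b * n ^ 3))) : φ δ ≠ 0 := by
  intro h0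
  obtain ⟨h1, h2⟩ := bg_case1 _ _ _ _ _ _ _ _ _ _ h
  rw [← bg_coe] at h1 h2
  have h3 : bs q x y z w 0 = 0 := Subtype.ext h1
  have h4 : bs q x y z w 1 * δ = e * δ ^ 2 := Subtype.ext h2
  have h5 : bs q x y z w 1 = e * δ := mul_right_cancel₀ hδ (by rw [h4]; ring)
  exact hn (bg_core φ q x y z w hd (by rw [h3, map_zero]) (by rw [h5, map_mul, h0, mul_zero]))

private theorem bg_V2 (hn : 4 * φ (qi q) ^ 3 ≠ φ (qj q) ^ 2) {x y z w c δ e a b : V}
    (hd : (x * w - y * z) ^ 2 = 1) (hδ : δ ≠ 0)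
    (h : ∀ m n : F, bq (fun j => (q j : F)) (m * (c * x + δ * z) + n * x) (m * (c * y + δ * w) + n * y) =
      (e * δ ^ 2) * (n * (m ^ 3 - 3 * a * m * n ^ 2 - 2 * b * n ^ 3))) : φ δ ≠ 0 := by
  intro h0
  obtain ⟨h1, h2⟩ := bg_case2 _ _ _ _ _ _ _ _ _ _ h
  rw [← bg_coe] at h1 h2
  have h3 : bs q x y z w 0 = e * δ ^ 2 * (-2 * b) := Subtype.ext h1
  have h4 : bs q x y z w 1 * δ = e * δ ^ 2 * (8 * b * c - 3 * a) := Subtype.ext h2
  have h5 : bs q x y z w 1 = e * δ * (8 * b * c - 3 * a) := mul_right_cancel₀ hδ (by rw [h4]; ring)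
  exact hn (bg_core φ q x y z w hd (by rw [h3]; simp [h0]) (by rw [h5]; simp [h0]))

private theorem bg_unit (hn : 4 * φ (qi q) ^ 3 ≠ φ (qj q) ^ 2) {x y z w e a b : V}
    (hone : x = 1 ∨ y = 1 ∨ z = 1 ∨ w = 1) (hδ : x * w - y * z ≠ 0)
    (h : ∀ m n : F, bq (fun j => (q j : F)) (m * x + n * z) (m * y + n * w) =
      (e * (x * w - y * z) ^ 2) * (n * (m ^ 3 - 3 * a * m * n ^ 2 - 2 * b * n ^ 3))) : φ (x * w - y * z) ≠ 0 := by
  rcases hone with rfl | rfl | rfl | rfl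
  · refine bg_V1 (x := 1) (y := y) (z := 0) (w := 1) (c := z) (e := e) (a := a) (b := b) hn (by ring) hδ ?_
    intro m n
    have := h m n
    push_cast at this ⊢
    rw [← this]
    congr 1 <;> ring
  · refine bg_V1 (x := x) (y := 1) (z := -1) (w := 0) (c := w) (e := e) (a := a) (b := b) hn (by ring) hδ ?_
    intro m n
    have := h m n
    push_cast at this ⊢
    rw [← this]
    congr 1 <;> ring
  · refine bg_V2 (x := 1) (y := w) (z := 0) (w := -1) (c := x) (e := e) (a := a) (b := b) hn (by ring) hδ ?_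
    intro m n
    have := h m n
    push_cast at this ⊢
    rw [← this]
    congr 1 <;> ring
  · refine bg_V2 (x := z) (y := 1) (z := 1) (w := 0) (c := y) (e := e) (a := a) (b := b) hn (by ring) hδ ?_
    intro m n
    have := h m n
    push_cast at this ⊢
    rw [← this]
    congr 1 <;> ring

end unit

private theorem bg_pow_mem {F : Type} [Field F] {V : ValuationSubring F} {e : F} (h6 : e ^ 6 ∈ V) : e ∈ V := by
  rcases V.mem_or_inv_mem e with h | h
  · exact h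
  · by_cases h0 : e = 0
    · rw [h0]
      exact V.zero_mem
    · have h1 : e = e ^ 6 * (e⁻¹) ^ 5 := by field_simp
      rw [h1]
      exact V.mul_mem _ _ h6 (pow_mem h 5)

private theorem bg_max {F : Type} [Field F] (V : ValuationSubring F) (g : Fin 4 → F) (hg : g ≠ 0) :
    ∃ i, g i ≠ 0 ∧ ∀ j, g j / g i ∈ V := by
  obtain ⟨i, hi⟩ := Finite.exists_max (fun j => V.valuation (g j))
  have h0 : g i ≠ 0 := by
    intro h0
    apply hg
    funext j
    have h1 := hi j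
    simp only [h0, map_zero, le_zero_iff] at h1
    exact (V.valuation.zero_iff).1 h1
  refine ⟨i, h0, fun j => ?_⟩
  rw [← V.valuation_le_one_iff, map_div₀]
  have h2 : V.valuation (g i) ≠ 0 := (V.valuation.ne_zero_iff).2 h0
  exact div_le_one_of_le₀ (hi j) zero_le

theorem bin_good {F κ : Type} [Field F] [CharZero F] [Field κ] [CharZero κ] {V : ValuationSubring F} {φ : V →+* κ}
    [IsLocalHom φ] {q : Fin 5 → F} {q0 : Fin 5 → κ} (hq : ∀ i, Rd V φ (q i) (q0 i)) (hn : 4 * qi q0 ^ 3 ≠ qj q0 ^ 2)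
    {g11 g12 g21 g22 C a b : F} (hg : g11 * g22 - g12 * g21 ≠ 0) (hC : C ≠ 0) (hab : b ^ 2 - a ^ 3 = 1)
    (h : ∀ m n : F, bq q (m * g11 + n * g21) (m * g12 + n * g22) =
      C * (n * (m ^ 3 - 3 * a * m * n ^ 2 - 2 * b * n ^ 3))) :
    a ∈ V ∧ b ∈ V ∧ ∃ l : F, l ≠ 0 ∧ g11 / l ∈ V ∧ g12 / l ∈ V ∧ g21 / l ∈ V ∧ g22 / l ∈ V ∧
      ∃ δ : κ, δ ≠ 0 ∧ Rd V φ ((g11 * g22 - g12 * g21) / l ^ 2) δ := by
  obtain ⟨i, hi0, hi⟩ := bg_max V ![g11, g12, g21, g22] (by
    intro h0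
    apply hg
    have e0 := congrFun h0 0
    have e1 := congrFun h0 1
    simp only [Matrix.cons_val, Pi.zero_apply] at e0 e1
    rw [e0, e1]
    ring)
  set l := (![g11, g12, g21, g22] : Fin 4 → F) i with hl
  have hone : g11 = l ∨ g12 = l ∨ g21 = l ∨ g22 = l := by
    fin_cases i
    · exact Or.inl rfl
    · exact Or.inr (Or.inl rfl)
    · exact Or.inr (Or.inr (Or.inl rfl))
    · exact Or.inr (Or.inr (Or.inr rfl))
  clear_value l
  have m1 : g11 / l ∈ V := hi 0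
  have m2 : g12 / l ∈ V := hi 1
  have m3 : g21 / l ∈ V := hi 2
  have m4 : g22 / l ∈ V := hi 3
  set x : V := ⟨g11 / l, m1⟩ with hx
  set y : V := ⟨g12 / l, m2⟩ with hy
  set z : V := ⟨g21 / l, m3⟩ with hz
  set w : V := ⟨g22 / l, m4⟩ with hw
  have ex : g11 = l * x := by rw [hx]; field_simp
  have ey : g12 = l * y := by rw [hy]; field_simp
  have ez : g21 = l * z := by rw [hz]; field_simp
  have ew : g22 = l * w := by rw [hw]; field_simp
  have hone' : x = 1 ∨ y = 1 ∨ z = 1 ∨ w = 1 := by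
    rcases hone with h1 | h1 | h1 | h1
    · left
      apply Subtype.ext
      change g11 / l = 1
      rw [h1, div_self hi0]
    · right; left
      apply Subtype.ext
      change g12 / l = 1
      rw [h1, div_self hi0]
    · right; right; left
      apply Subtype.ext
      change g21 / l = 1
      rw [h1, div_self hi0]
    · right; right; right
      apply Subtype.ext
      change g22 / l = 1
      rw [h1, div_self hi0]
  have hδF : (x : F) * w - y * z ≠ 0 := by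
    intro h0
    apply hg
    rw [ex, ey, ez, ew]
    linear_combination l ^ 2 * h0
  have hδ : x * w - y * z ≠ 0 := by
    intro h0
    apply hδF
    have := congrArg (fun t : V => (t : F)) h0
    push_cast at this
    exact this
  set q' : Fin 5 → V := fun i => ⟨q i, (hq i).mem⟩ with hq'
  have hqq : (fun j => (q' j : F)) = q := rfl
  have hφq : (fun j => φ (q' j)) = q0 := by
    funext j
    obtain ⟨h1, h2⟩ := hq j
    exact h2
  have hn' : 4 * φ (qi q') ^ 3 ≠ φ (qj q') ^ 2 := by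
    rw [bg_map_qi, bg_map_qj, hφq]
    exact hn
  set δ : F := (x : F) * w - y * z with hδd
  have h' : ∀ m n : F, bq q (m * x + n * z) (m * y + n * w) =
      (C / l ^ 4) * (n * (m ^ 3 - 3 * a * m * n ^ 2 - 2 * b * n ^ 3)) := by
    intro m n
    have h1 := h m n
    have h2 : bq q (m * g11 + n * g21) (m * g12 + n * g22) = l ^ 4 * bq q (m * x + n * z) (m * y + n * w) := by
      rw [ex, ey, ez, ew]
      simp only [bq]
      ring
    rw [h2] at h1
    rw [div_mul_eq_mul_div, eq_div_iff (pow_ne_zero 4 hi0), ← h1]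
    ring
  have hbs : bs q (x : F) y z w = ![0, C / l ^ 4, 0, -3 * a * (C / l ^ 4), -2 * b * (C / l ^ 4)] := by
    apply bq_inj
    intro m n
    rw [bq_bs, h' m n]
    simp only [bq, Matrix.cons_val]
    ring
  set C' := C / l ^ 4 with hC'
  have hC0 : C' ≠ 0 := div_ne_zero hC (pow_ne_zero 4 hi0)
  have hI : δ ^ 4 * qi q = 9 * a * C' ^ 2 := by
    rw [hδd, ← qi_bs, hbs]
    simp only [qi, Matrix.cons_val]
    ring
  have hJ : δ ^ 6 * qj q = 54 * b * C' ^ 3 := by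
    rw [hδd, ← qj_bs, hbs]
    simp only [qj, Matrix.cons_val]
    ring
  have hD : δ ^ 12 * (4 * qi q ^ 3 - qj q ^ 2) = -2916 * C' ^ 6 := by
    have h1 : δ ^ 12 * (4 * qi q ^ 3 - qj q ^ 2) = 4 * (δ ^ 4 * qi q) ^ 3 - (δ ^ 6 * qj q) ^ 2 := by ring
    rw [h1, hI, hJ]
    linear_combination (-2916) * C' ^ 6 * hab
  set e : F := C' / δ ^ 2 with he
  have he0 : e ≠ 0 := div_ne_zero hC0 (pow_ne_zero 2 hδF)
  have heC : C' = e * δ ^ 2 := by
    rw [he, div_mul_cancel₀ _ (pow_ne_zero 2 hδF)]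
  have hRi : Rd V φ (qi q) (qi q0) := by
    have h1 : Rd V φ ((qi q' : V) : F) (φ (qi q')) := ⟨(qi q').2, rfl⟩
    have h2 : ((qi q' : V) : F) = qi q := bg_map_qi V.subtype q'
    rw [h2, bg_map_qi, hφq] at h1
    exact h1
  have hRj : Rd V φ (qj q) (qj q0) := by
    have h1 : Rd V φ ((qj q' : V) : F) (φ (qj q')) := ⟨(qj q').2, rfl⟩
    have h2 : ((qj q' : V) : F) = qj q := bg_map_qj V.subtype q'
    rw [h2, bg_map_qj, hφq] at h1
    exact h1
  have hnat : ∀ k : ℕ, Rd V φ (k : F) (k : κ) := by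
    intro k
    refine ⟨natCast_mem V k, ?_⟩
    have h1 : (⟨(k : F), natCast_mem V k⟩ : V) = (k : V) := Subtype.ext (by simp)
    rw [h1, map_natCast]
  have hRD : Rd V φ (4 * qi q ^ 3 - qj q ^ 2) (4 * qi q0 ^ 3 - qj q0 ^ 2) := by
    have h4 := hnat 4
    push_cast at h4
    exact (h4.mul (hRi.pow 3)).sub (hRj.pow 2)
  have hD0 : 4 * qi q0 ^ 3 - qj q0 ^ 2 ≠ 0 := sub_ne_zero.2 hn
  have he6 : (-(e ^ 6)) * 2916 = 4 * qi q ^ 3 - qj q ^ 2 := by
    apply mul_left_cancel₀ (pow_ne_zero 12 hδF)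
    rw [hD, heC]
    ring
  have h2916 : ((2916 : ℕ) : κ) ≠ 0 := by
    exact_mod_cast (by norm_num : (2916 : ℕ) ≠ 0)
  have hRe : Rd V φ (-(e ^ 6)) ((4 * qi q0 ^ 3 - qj q0 ^ 2) / ((2916 : ℕ) : κ)) := by
    have h1 : -(e ^ 6) = (4 * qi q ^ 3 - qj q ^ 2) / ((2916 : ℕ) : F) := by
      rw [← he6]
      push_cast
      field_simp
    rw [h1]
    exact hRD.div (hnat 2916) h2916
  have hRe0 : (4 * qi q0 ^ 3 - qj q0 ^ 2) / ((2916 : ℕ) : κ) ≠ 0 := div_ne_zero hD0 h2916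
  have heV : e ∈ V := by
    apply bg_pow_mem
    have h1 := V.neg_mem _ hRe.mem
    rwa [neg_neg] at h1
  have heV' : e⁻¹ ∈ V := by
    apply bg_pow_mem
    have h1 := V.neg_mem _ (hRe.inv hRe0).mem
    have h2 : -(-(e ^ 6))⁻¹ = e⁻¹ ^ 6 := by
      rw [inv_neg, neg_neg, inv_pow]
    rwa [h2] at h1
  have haV : a ∈ V := by
    have h9 : a = qi q * ((9 : ℕ) : F)⁻¹ * (e⁻¹) ^ 2 := by
      have h1 : qi q = 9 * a * e ^ 2 := by
        apply mul_left_cancel₀ (pow_ne_zero 4 hδF)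
        rw [hI, heC]
        ring
      rw [h1]
      push_cast
      field_simp
    have h91 : ((9 : ℕ) : κ) ≠ 0 := by exact_mod_cast (by norm_num : (9 : ℕ) ≠ 0)
    rw [h9]
    exact V.mul_mem _ _ (V.mul_mem _ _ hRi.mem ((hnat 9).inv h91).mem) (pow_mem heV' 2)
  have hbV : b ∈ V := by
    have h9 : b = qj q * ((54 : ℕ) : F)⁻¹ * (e⁻¹) ^ 3 := by
      have h1 : qj q = 54 * b * e ^ 3 := by
        apply mul_left_cancel₀ (pow_ne_zero 6 hδF)
        rw [hJ, heC]
        ring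
      rw [h1]
      push_cast
      field_simp
    have h91 : ((54 : ℕ) : κ) ≠ 0 := by exact_mod_cast (by norm_num : (54 : ℕ) ≠ 0)
    rw [h9]
    exact V.mul_mem _ _ (V.mul_mem _ _ hRj.mem ((hnat 54).inv h91).mem) (pow_mem heV' 3)
  refine ⟨haV, hbV, l, hi0, m1, m2, m3, m4, φ (x * w - y * z), ?_, ?_⟩
  · refine bg_unit (e := ⟨e, heV⟩) (a := ⟨a, haV⟩) (b := ⟨b, hbV⟩) hn' hone' hδ ?_
    intro m n
    have h1 := h' m n
    rw [heC] at h1
    rw [hqq, h1, hδd]
  · refine ⟨?_, ?_⟩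
    · have h1 : (g11 * g22 - g12 * g21) / l ^ 2 = ((x * w - y * z : V) : F) := by
        push_cast
        rw [hx, hy, hz, hw]
        field_simp
      rw [h1]
      exact (x * w - y * z : V).2
    · congr 1
      apply Subtype.ext
      push_cast
      rw [hx, hy, hz, hw]
      field_simp

end H8.QS
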