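import Pool.Agent.H8.QS.DichR
import Pool.Agent.H8.QS.Bin

/-! # QS.Dich : a frame over a valued field has good reduction, or its tangent plane degenerates (about 200 lines, given `QS.Lat`, `QS.Bin`, `QS.Rdx`)

`lat` for `r.x`, `r.d`, `r.e`.  `c = sx f x' d' e'` (integral, reduction `c0 = sx f x0 d0 e0`: `rd_sx`).  `x'`, `d'`, `e'` are on `X` / tangent: `r.x = ρ x'` (`ev_smul`, `dg_smul`, `dg_self`, `dg_lc`, invert `g`).  For all `m`, `n`: `m r.d + n r.e = (m g11 + n g21) d' + (m g12 + n g22) e' + (m θ1 + n θ2) x'`, so by `dv_resc`, `dv_sx`, `Fr.dvl`: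
`bf c (m g11 + n g21) (m g12 + n g22) = dv f x' (..) = ρ⁻² dv f r.x (m r.d + n r.e) = ρ⁻² (s m + t n)² ψ(m, n)`.  `bin`.  In the second case: `κ' = l`, `d'' = (r.d - θ1 x') / l = (g11/l) d' + (g12/l) e'`, `e'' = (r.e - θ2 x') / l`, integral with reductions independent of `x0` (determinant `δ ≠ 0`); the frame
`r' = (x', d'', e'', s / (ρ l³), t / (ρ l³), a, b)` (`fr_mk`; `dv f x' (m d'' + n e'') = dv_resc`: `ρ⁻² l⁻⁶ (..)`).  `s' = s / (ρ l³)`, `t'`: `(s' X + t')² (X³ - 3 a X - 2 b)` has its coefficients in `V` (`rd_sx`): the coefficient of `X⁵` is `s'²`, so `s' ∈ V` (valuation ring), that of `X³` is `t'² - 3 a s'²`, so `t' ∈ V`.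
`fr_rd` gives the reduction `r0`.  (`θ`: `r.d = l d'' + θ1 x'`: in `Resc` take `θ1`, `θ2`.) -/

namespace H8.QS

open H68.BB H77.AF Polynomial

variable {K0 : Type} [Field K0] {f : MvPolynomial (Fin 4) K0} {F κ : Type} [Field F] [Algebra K0 F] [Field κ] [Algebra K0 κ]
  {V : ValuationSubring F} {φ : V →+* κ}

private theorem dc_ind {F : Type} [Field F] {x d e : Fin 4 → F} :
    Ind x d e ↔ ∀ a b c : F, (∀ j, a * x j + b * d j + c * e j = 0) → a = 0 ∧ b = 0 ∧ c = 0 := by
  unfold Ind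
  rw [Fintype.linearIndependent_iff]
  constructor
  · intro h a b c habc
    have h1 := h ![a, b, c] (by
      funext j
      rw [Fin.sum_univ_three]
      simpa using habc j)
    exact ⟨h1 0, h1 1, h1 2⟩
  · intro h g hg
    have h1 := h (g 0) (g 1) (g 2) (fun j => by
      have h2 := congrFun hg j
      rw [Fin.sum_univ_three] at h2
      simpa using h2)
    intro k
    fin_cases k
    · exact h1.1
    · exact h1.2.1
    · exact h1.2.2

private theorem dc_sq {F : Type} [Field F] (V : ValuationSubring F) {y : F} (h : y ^ 2 ∈ V) : y ∈ V := by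
  rcases V.mem_or_inv_mem y with h1 | h1
  · exact h1
  · by_cases h0 : y = 0
    · rw [h0]
      exact V.zero_mem
    · have h2 : y = y ^ 2 * y⁻¹ := by field_simp
      rw [h2]
      exact V.mul_mem _ _ h h1

private theorem dc_coef {F : Type} [Field F] (s t a b : F) :
    ((C s * X + C t) ^ 2 * (X ^ 3 - C (3 * a) * X - C (2 * b)) : F[X]).coeff 5 = s ^ 2 ∧
      ((C s * X + C t) ^ 2 * (X ^ 3 - C (3 * a) * X - C (2 * b)) : F[X]).coeff 3 = t ^ 2 - 3 * a * s ^ 2 := by
  have h : ((C s * X + C t) ^ 2 * (X ^ 3 - C (3 * a) * X - C (2 * b)) : F[X]) =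
      C (s ^ 2) * X ^ 5 + C (2 * s * t) * X ^ 4 + C (t ^ 2 - 3 * a * s ^ 2) * X ^ 3 +
        C (-2 * b * s ^ 2 - 6 * a * s * t) * X ^ 2 + C (-4 * b * s * t - 3 * a * t ^ 2) * X ^ 1 +
        C (-2 * b * t ^ 2) * X ^ 0 := by
    simp only [map_mul, map_sub, map_pow, map_ofNat, map_neg]
    ring
  rw [h]
  constructor
  · simp only [coeff_add, coeff_C_mul, coeff_X_pow]
    norm_num
  · simp only [coeff_add, coeff_C_mul, coeff_X_pow]
    norm_num

theorem dich [CharZero F] [IsAlgClosed κ] [CharZero κ] [IsLocalHom φ] (hf : f.IsHomogeneous 4) (hc : Cst K0 V φ) (r : Fr f F)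
    (hr : r.Nd) : BadL V φ f r.x r.d r.e ∨ GoodL V φ r := by
  obtain ⟨x', d', e', x0, d0, e0, ρ, θ1, θ2, g11, g12, g21, g22, L⟩ := lat (V := V) (φ := φ) hr
  have hrx : r.x = fun i => ρ * x' i := funext L.hx
  have hρ := L.hρ
  have hg := L.hg
  -- `x'` is on `X`, `d'`, `e'` are tangent
  have hx' : ev f x' = 0 := by
    have h := r.onx
    rw [hrx, ev_smul hf] at h
    exact (mul_eq_zero.1 h).resolve_left (pow_ne_zero 4 hρ)
  have hxx : dg f x' x' = 0 := by rw [dg_self hf, hx', mul_zero]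
  have htg : ∀ u, dg f r.x u = 0 → dg f x' u = 0 := fun u h => by
    rw [hrx, dg_smul hf] at h
    exact (mul_eq_zero.1 h).resolve_left (pow_ne_zero 3 hρ)
  have hrd : r.d = lc 1 θ1 (lc g11 g12 d' e') x' := by
    funext i
    rw [L.hd i]
    unfold lc
    ring
  have hre : r.e = lc 1 θ2 (lc g21 g22 d' e') x' := by
    funext i
    rw [L.he i]
    unfold lc
    ring
  have t1 : g11 * dg f x' d' + g12 * dg f x' e' = 0 := by
    have h := htg _ r.tgd
    rw [hrd, dg_lc, dg_lc, hxx] at h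
    linear_combination h
  have t2 : g21 * dg f x' d' + g22 * dg f x' e' = 0 := by
    have h := htg _ r.tge
    rw [hre, dg_lc, dg_lc, hxx] at h
    linear_combination h
  have hd' : dg f x' d' = 0 := by
    have h : (g11 * g22 - g12 * g21) * dg f x' d' = 0 := by linear_combination g22 * t1 - g12 * t2
    exact (mul_eq_zero.1 h).resolve_left hg
  have he' : dg f x' e' = 0 := by
    have h : (g11 * g22 - g12 * g21) * dg f x' e' = 0 := by linear_combination g11 * t2 - g21 * t1
    exact (mul_eq_zero.1 h).resolve_left hg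
  have hu' : ∀ m n : F, dg f x' (lc m n d' e') = 0 := fun m n => by rw [dg_lc, hd', he']; ring
  -- the sextic
  have key : ∀ m n : F, bf (sx f x' d' e') (m * g11 + n * g21) (m * g12 + n * g22) =
      (ρ ^ 2)⁻¹ * ((r.s * m + r.t * n) ^ 2 * (n * (m ^ 3 - 3 * r.a * m * n ^ 2 - 2 * r.b * n ^ 3))) := by
    intro m n
    have h1 : lc m n r.d r.e =
        lc (m * θ1 + n * θ2) 1 x' (lc (m * g11 + n * g21) (m * g12 + n * g22) d' e') := by
      rw [hrd, hre]
      funext i
      unfold lc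
      ring
    have h2 := dv_resc hf hx' (hu' (m * g11 + n * g21) (m * g12 + n * g22)) ρ 1 (m * θ1 + n * θ2)
    rw [← hrx, ← h1, dv_sx hf hx' hd' he', Fr.dvl hf r] at h2
    rw [h2]
    field_simp
  have hρ2 : (ρ ^ 2)⁻¹ ≠ 0 := inv_ne_zero (pow_ne_zero 2 hρ)
  have hc6 : ∀ i, Rd V φ (sx f x' d' e' i) (sx f x0 d0 e0 i) := fun i => rd_sx hc L.rx L.rd L.re i
  rcases bin hc6 hg hρ2 r.disc key with hD | ⟨haV, hbV, l, hl, h11, h12, h21, h22, δ, hδ, hδR⟩
  · left
    refine ⟨x', d', e', x0, d0, e0, ρ, θ1, θ2, g11, g12, g21, g22, L, ?_, ?_, ?_, hD⟩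
    · have h := rd_ev (f := f) hc L.rx
      rw [hx'] at h
      exact h.unique Rd.zero
    · have h := rd_dg (f := f) hc L.rx L.rd
      rw [hd'] at h
      exact h.unique Rd.zero
    · have h := rd_dg (f := f) hc L.rx L.re
      rw [he'] at h
      exact h.unique Rd.zero
  · right
    set d'' : Fin 4 → F := lc (g11 / l) (g12 / l) d' e' with hd''
    set e'' : Fin 4 → F := lc (g21 / l) (g22 / l) d' e' with he''
    have hdd : dg f x' d'' = 0 := hu' _ _
    have hee : dg f x' e'' = 0 := hu' _ _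
    have hval : ∀ m : F, dv f x' (lc m 1 d'' e'') =
        (r.s / (ρ * l ^ 3) * m + r.t / (ρ * l ^ 3)) ^ 2 * (m ^ 3 - 3 * r.a * m - 2 * r.b) := by
      intro m
      have h1 : lc m 1 r.d r.e = lc (m * θ1 + θ2) l x' (lc m 1 d'' e'') := by
        rw [hrd, hre, hd'', he'']
        funext i
        unfold lc
        field_simp
        ring
      have hu'' : dg f x' (lc m 1 d'' e'') = 0 := by rw [dg_lc, hdd, hee]; ring
      have h2 := dv_resc hf hx' hu'' ρ l (m * θ1 + θ2)
      rw [← hrx, ← h1, Fr.dvl hf r] at h2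
      have h3 : ρ ^ 2 * l ^ 6 ≠ 0 := mul_ne_zero (pow_ne_zero 2 hρ) (pow_ne_zero 6 hl)
      apply mul_left_cancel₀ h3
      rw [← h2]
      field_simp
    obtain ⟨r', rx', rd', re', rs', rt', ra', rb'⟩ := fr_mk hf hx' hdd hee r.disc hval
    -- reductions of the new vectors
    have R11 := Rd.of_mem (φ := φ) h11
    have R12 := Rd.of_mem (φ := φ) h12
    have R21 := Rd.of_mem (φ := φ) h21
    have R22 := Rd.of_mem (φ := φ) h22
    generalize φ ⟨g11 / l, h11⟩ = γ11 at R11
    generalize φ ⟨g12 / l, h12⟩ = γ12 at R12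
    generalize φ ⟨g21 / l, h21⟩ = γ21 at R21
    generalize φ ⟨g22 / l, h22⟩ = γ22 at R22
    have Rd'' : ∀ i, Rd V φ (d'' i) (lc γ11 γ12 d0 e0 i) := fun i =>
      (R11.mul (L.rd i)).add (R12.mul (L.re i))
    have Re'' : ∀ i, Rd V φ (e'' i) (lc γ21 γ22 d0 e0 i) := fun i =>
      (R21.mul (L.rd i)).add (R22.mul (L.re i))
    have hdet : γ11 * γ22 - γ12 * γ21 = δ := by
      have h := (R11.mul R22).sub (R12.mul R21)
      have h2 : g11 / l * (g22 / l) - g12 / l * (g21 / l) = (g11 * g22 - g12 * g21) / l ^ 2 := by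
        field_simp
      rw [h2] at h
      exact h.unique hδR
    -- `s` and `t` are integral
    have hsx : ∀ i, sx f x' d'' e'' i ∈ V := fun i => (rd_sx hc L.rx Rd'' Re'' i).mem
    have hln := r'.line
    rw [rx', rd', re', rs', rt', ra', rb'] at hln
    obtain ⟨c5, c3⟩ := dc_coef (r.s / (ρ * l ^ 3)) (r.t / (ρ * l ^ 3)) r.a r.b
    rw [← hln] at c5 c3
    have hs : r.s / (ρ * l ^ 3) ∈ V := by
      apply dc_sq
      rw [← c5]
      exact hsx 1
    have ht : r.t / (ρ * l ^ 3) ∈ V := by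
      apply dc_sq
      have h3 : (r.t / (ρ * l ^ 3)) ^ 2 = (dp f x' d'' e'').coeff 3 + 3 * r.a * (r.s / (ρ * l ^ 3)) ^ 2 := by
        rw [c3]
        ring
      rw [h3]
      exact V.add_mem _ _ (hsx 3) (V.mul_mem _ _ (V.mul_mem _ _ (Rd.three (V := V) (φ := φ)).mem haV) (pow_mem hs 2))
    obtain ⟨r0, hr0, e1, e2, e3⟩ := fr_rd hc r' (x0 := x0) (d0 := lc γ11 γ12 d0 e0) (e0 := lc γ21 γ22 d0 e0)
      (fun i => by rw [rx']; exact L.rx i) (fun i => by rw [rd']; exact Rd'' i) (fun i => by rw [re']; exact Re'' i)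
      (by rw [rs']; exact Rd.of_mem hs) (by rw [rt']; exact Rd.of_mem ht) (by rw [ra']; exact Rd.of_mem haV)
      (by rw [rb']; exact Rd.of_mem hbV)
    refine ⟨r', r0, ⟨ρ, l, θ1, θ2, hρ, hl, fun i => ?_, fun i => ?_, fun i => ?_, ?_, ?_, ra'.symm, rb'.symm⟩, hr0, ?_⟩
    · rw [rx']
      exact L.hx i
    · rw [rd', rx', hrd, hd'']
      unfold lc
      field_simp
    · rw [re', rx', hre, he'']
      unfold lc
      field_simp
    · rw [rs']
      field_simp
    · rw [rt']
      field_simp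
    · unfold Fr.Nd
      rw [e1, e2, e3, dc_ind]
      intro a b c h
      obtain ⟨ha, h1, h2⟩ := dc_ind.1 L.ind a (b * γ11 + c * γ21) (b * γ12 + c * γ22) (fun j => by
        have h3 := h j
        unfold lc at h3
        linear_combination h3)
      refine ⟨ha, ?_, ?_⟩
      · have h4 : b * δ = 0 := by
          rw [← hdet]
          linear_combination γ22 * h1 - γ21 * h2
        exact (mul_eq_zero.1 h4).resolve_right hδ
      · have h4 : c * δ = 0 := by
          rw [← hdet]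
          linear_combination γ11 * h2 - γ12 * h1
        exact (mul_eq_zero.1 h4).resolve_right hδ

end H8.QS
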