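import Pool.Agent.H8.QS.Base
import Pool.Agent.H8.QS.Dich

/-! # QS.CData : the frame at a closed point of the curve (about 200 lines, given `QS.Base`, `QS.Dich`)

`dich` for `V`, `π` of `vb_ex bd β` and the frame `r` over `Q` (`κ = K0`, `Cst` is the second property of `vb_ex`).  A place `π'` of `Om K` and `ψ : Q → Om K` with `Rd π'.V π'.φ (ψ (i q)) (β q)` (`Cpt`): if `Rd V π q c` then `Rd π'.V π'.φ (ψ q) (algebraMap K0 K c)`: `q * i m = i n`, `β m ≠ 0`, `ψ q = ψ (i n) / ψ (i m)`, `β n = c * β m` (`Rd.div`).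
Good case: `Resc (r.map ψ) (r'.map ψ)` (apply `ψ` to the equations), `RdF` of the entries; `r0.a = β a`: `Rd V π r.a r0.a` and `Rd V π (i a) (β a)`, `Rd.unique`.
Bad case: `Lt` for the images (the determinant is not zero; `Ind` of the images of `x0`, `d0`, `e0` under `K0 → K`: `LinearIndependent.map`-like or minors, e.g. `LinearIndependent.of_comp`/ `linearIndependent_algebraMap`-type lemma: the 3x3 minors), `ev_map`, `dg_map`, `sx` of the images (`dp_map`, `coeff_map`),
`Deg6` over `K0` gives `Deg6` over `K`: an identity of polynomials over an infinite field has the same coefficients: `bf c m 1 = (k0 m² + k1 m + k2)² (r0 m² + r1 m + r2)` for all `m ∈ K0`, so `c 0 = k0² r0`, ...; then `bf` over `K` with the images of the coefficients (`ring`). -/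

namespace H8.QS

open H68.BB H77.AF Polynomial

variable {K0 A Q : Type} [Field K0] [CommRing A] [IsDomain A] [Algebra K0 A] [Algebra K0[X] A] [IsScalarTower K0 K0[X] A]
  [Module.Finite K0[X] A] [FaithfulSMul K0[X] A] [Field Q] [Algebra K0 Q] [Algebra (RatFunc K0) Q]
  {f : MvPolynomial (Fin 4) K0}

/-- the point `ψ` of the curve specialises to the closed point `β` -/
def Cpt (bd : BD K0 A Q) (β : A →ₐ[K0] K0) {K : Type} [Field K] [Algebra K0 K] (π : Place K (Om K)) (ψ : Q →ₐ[K0] Om K) :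
    Prop := ∀ q : A, Rd π.V π.φ (ψ (bd.i q)) (algebraMap K0 K (β q))

/-- the frame `r0` at the closed point `β` is the limit of the frame `r` -/
structure GoodB (bd : BD K0 A Q) (r : Fr f Q) (β : A →ₐ[K0] K0) (r0 : Fr f K0) : Prop where
  nd : r0.Nd
  ha : ∀ a : A, bd.i a = r.a → r0.a = β a
  hb : ∀ b : A, bd.i b = r.b → r0.b = β b
  lim : ∀ (K : Type) [Field K] [Algebra K0 K] (π : Place K (Om K)) (ψ : Q →ₐ[K0] Om K), Cpt bd β π ψ →
    ∃ r' : Fr f (Om K), Resc (r.map ψ) r' ∧ RdF π.V π.φ r' (r0.map (Algebra.ofId K0 K))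

/-- the tangent plane of the frame degenerates at the closed point `β` -/
def BadB (bd : BD K0 A Q) (r : Fr f Q) (β : A →ₐ[K0] K0) : Prop :=
  ∀ (K : Type) [Field K] [Algebra K0 K] (π : Place K (Om K)) (ψ : Q →ₐ[K0] Om K), Cpt bd β π ψ →
    BadL π.V π.φ f (r.map ψ).x (r.map ψ).d (r.map ψ).e

omit [IsDomain A] [IsScalarTower K0 K0[X] A] [Module.Finite K0[X] A] [FaithfulSMul K0[X] A] in
/-- reductions over `Q` give reductions over `Om K` -/
private theorem cd_tr {bd : BD K0 A Q} {β : A →ₐ[K0] K0} {V : ValuationSubring Q} {π : V →+* K0}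
    (hs : ∀ (q : Q) (c : K0), Rd V π q c → ∃ n m : A, β m ≠ 0 ∧ q * bd.i m = bd.i n ∧ β n = c * β m)
    {K : Type} [Field K] [Algebra K0 K] {π' : Place K (Om K)} {ψ : Q →ₐ[K0] Om K} (h : Cpt bd β π' ψ) {q : Q} {c : K0}
    (hq : Rd V π q c) : Rd π'.V π'.φ (ψ q) (algebraMap K0 K c) := by
  obtain ⟨n, m, hm, hqm, hn⟩ := hs q c hq
  have hloc : IsLocalHom π'.φ := π'.isLocal
  have hm' : algebraMap K0 K (β m) ≠ 0 := by
    rw [Ne, map_eq_zero_iff _ (algebraMap K0 K).injective]
    exact hm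
  have h1 := (h n).div (h m) hm'
  have h2 : ψ (bd.i m) ≠ 0 := (h m).ne_zero hm'
  have h3 : ψ (bd.i n) / ψ (bd.i m) = ψ q := by
    rw [← hqm, map_mul, mul_div_assoc, div_self h2, mul_one]
  have h4 : algebraMap K0 K (β n) / algebraMap K0 K (β m) = algebraMap K0 K c := by
    rw [hn, map_mul, mul_div_assoc, div_self hm', mul_one]
  rw [h3, h4] at h1
  exact h1

/-- independent vectors stay independent over a larger field -/
private theorem cd_ind {K : Type} [Field K] [Algebra K0 K] {x d e : Fin 4 → K0} (h : Ind x d e) :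
    Ind (fun i => algebraMap K0 K (x i)) (fun i => algebraMap K0 K (d i)) (fun i => algebraMap K0 K (e i)) := by
  unfold Ind at h ⊢
  obtain ⟨g, hg⟩ := LinearMap.exists_leftInverse_of_injective (Fintype.linearCombination K0 ![x, d, e])
    (LinearMap.ker_eq_bot.2 (linearIndependent_iff_injective_fintypeLinearCombination.1 h))
  have hg1 : ∀ j : Fin 3, ∀ v : Fin 4 → K0, g v j = ∑ i, v i * g (Pi.single i 1) j := by
    intro j v
    have h1 := LinearMap.pi_apply_eq_sum_univ g v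
    rw [h1, Finset.sum_apply]
    refine Finset.sum_congr rfl fun i _ => ?_
    rw [Pi.smul_apply, smul_eq_mul]
    have h2 : (fun k => if i = k then 1 else 0 : Fin 4 → K0) = Pi.single i 1 := by
      funext k
      rw [Pi.single_apply]
      simp only [eq_comm]
    rw [h2]
  have hg2 : ∀ j k : Fin 3, g (![x, d, e] k) j = if k = j then 1 else 0 := by
    intro j k
    have h1 := congrFun (congrArg DFunLike.coe hg) (Pi.single k (1 : K0))
    rw [LinearMap.comp_apply, LinearMap.id_apply, Fintype.linearCombination_apply_single, one_smul] at h1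
    rw [h1, Pi.single_apply]
    simp only [eq_comm]
  rw [Fintype.linearIndependent_iff]
  intro c hc j
  have hv : ∀ k : Fin 3, (![fun i => algebraMap K0 K (x i), fun i => algebraMap K0 K (d i),
      fun i => algebraMap K0 K (e i)] : Fin 3 → Fin 4 → K) k = fun i => algebraMap K0 K (![x, d, e] k i) := by
    intro k
    fin_cases k <;> rfl
  have h2 : ∑ i : Fin 4, (∑ k : Fin 3, c k • (![fun i => algebraMap K0 K (x i), fun i => algebraMap K0 K (d i),
      fun i => algebraMap K0 K (e i)] : Fin 3 → Fin 4 → K) k) i * algebraMap K0 K (g (Pi.single i 1) j) = 0 := by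
    rw [hc]
    simp only [Pi.zero_apply, zero_mul, Finset.sum_const_zero]
  have h3 : ∑ k : Fin 3, c k * algebraMap K0 K (g (![x, d, e] k) j) = 0 := by
    rw [← h2]
    have h4 : ∀ i : Fin 4, (∑ k : Fin 3, c k • (![fun i => algebraMap K0 K (x i), fun i => algebraMap K0 K (d i),
        fun i => algebraMap K0 K (e i)] : Fin 3 → Fin 4 → K) k) i =
        ∑ k : Fin 3, c k * algebraMap K0 K (![x, d, e] k i) := by
      intro i
      rw [Finset.sum_apply]
      refine Finset.sum_congr rfl fun k _ => ?_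
      rw [Pi.smul_apply, smul_eq_mul, hv]
    have h5 : ∀ k : Fin 3, algebraMap K0 K (g (![x, d, e] k) j) =
        ∑ i : Fin 4, algebraMap K0 K (![x, d, e] k i) * algebraMap K0 K (g (Pi.single i 1) j) := by
      intro k
      rw [hg1, map_sum]
      exact Finset.sum_congr rfl fun i _ => map_mul _ _ _
    rw [Finset.sum_congr rfl fun k _ => congrArg (fun t => c k * t) (h5 k),
      Finset.sum_congr rfl fun i _ => congrArg (fun t => t * algebraMap K0 K (g (Pi.single i 1) j)) (h4 i)]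
    simp only [Finset.mul_sum, Finset.sum_mul]
    rw [Finset.sum_comm]
    refine Finset.sum_congr rfl fun i _ => Finset.sum_congr rfl fun k _ => ?_
    rw [mul_assoc]
  simp only [hg2] at h3
  rw [Finset.sum_eq_single j] at h3
  · rwa [if_pos rfl, map_one, mul_one] at h3
  · intro k _ hk
    rw [if_neg hk, map_zero, mul_zero]
  · intro hj
    exact absurd (Finset.mem_univ j) hj

private theorem cd_coef {a0 a1 a2 a3 a4 a5 a6 b0 b1 b2 b3 b4 b5 b6 : K0}
    (h : (C a0 * X ^ 6 + C a1 * X ^ 5 + C a2 * X ^ 4 + C a3 * X ^ 3 + C a4 * X ^ 2 + C a5 * X + C a6 : K0[X]) =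
      C b0 * X ^ 6 + C b1 * X ^ 5 + C b2 * X ^ 4 + C b3 * X ^ 3 + C b4 * X ^ 2 + C b5 * X + C b6) :
    a0 = b0 ∧ a1 = b1 ∧ a2 = b2 ∧ a3 = b3 ∧ a4 = b4 ∧ a5 = b5 ∧ a6 = b6 := by
  have hk : ∀ j : ℕ, (C a0 * X ^ 6 + C a1 * X ^ 5 + C a2 * X ^ 4 + C a3 * X ^ 3 + C a4 * X ^ 2 + C a5 * X +
      C a6 : K0[X]).coeff j = (C b0 * X ^ 6 + C b1 * X ^ 5 + C b2 * X ^ 4 + C b3 * X ^ 3 + C b4 * X ^ 2 + C b5 * X +
      C b6 : K0[X]).coeff j := fun j => congrArg (fun p => p.coeff j) h
  have e0 := hk 6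
  have e1 := hk 5
  have e2 := hk 4
  have e3 := hk 3
  have e4 := hk 2
  have e5 := hk 1
  have e6 := hk 0
  simp [coeff_X, coeff_C, coeff_X_pow] at e0 e1 e2 e3 e4 e5 e6
  exact ⟨e0, e1, e2, e3, e4, e5, e6⟩

/-- `Deg6` over a larger field -/
private theorem cd_deg [Infinite K0] {K : Type} [Field K] [Algebra K0 K] {c : Fin 7 → K0} (h : Deg6 c) :
    Deg6 (fun i => algebraMap K0 K (c i)) := by
  obtain ⟨k0, k1, k2, r0, r1, r2, h⟩ := h
  refine ⟨algebraMap K0 K k0, algebraMap K0 K k1, algebraMap K0 K k2, algebraMap K0 K r0, algebraMap K0 K r1,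
    algebraMap K0 K r2, fun m n => ?_⟩
  have h1 : (C (c 0) * X ^ 6 + C (c 1) * X ^ 5 + C (c 2) * X ^ 4 + C (c 3) * X ^ 3 + C (c 4) * X ^ 2 + C (c 5) * X +
      C (c 6) : K0[X]) = C (k0 ^ 2 * r0) * X ^ 6 + C (k0 ^ 2 * r1 + 2 * k0 * k1 * r0) * X ^ 5 +
        C (k0 ^ 2 * r2 + 2 * k0 * k1 * r1 + (k1 ^ 2 + 2 * k0 * k2) * r0) * X ^ 4 +
        C (2 * k0 * k1 * r2 + (k1 ^ 2 + 2 * k0 * k2) * r1 + 2 * k1 * k2 * r0) * X ^ 3 +
        C ((k1 ^ 2 + 2 * k0 * k2) * r2 + 2 * k1 * k2 * r1 + k2 ^ 2 * r0) * X ^ 2 +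
        C (2 * k1 * k2 * r2 + k2 ^ 2 * r1) * X + C (k2 ^ 2 * r2) := by
    refine Polynomial.funext fun z => ?_
    have h2 := h z 1
    unfold bf at h2
    rw [Fin.sum_univ_seven] at h2
    norm_num at h2
    simp only [eval_add, eval_mul, eval_C, eval_pow, eval_X]
    linear_combination h2
  obtain ⟨e0, e1, e2, e3, e4, e5, e6⟩ := cd_coef h1
  unfold bf
  rw [Fin.sum_univ_seven]
  beta_reduce
  rw [e0, e1, e2, e3, e4, e5, e6]
  simp only [map_add, map_mul, map_pow, map_ofNat]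
  norm_num
  ring

/-- the sextic over a larger field -/
private theorem cd_sx {K : Type} [Field K] [Algebra K0 K] (x d e : Fin 4 → K0) :
    sx f (fun i => algebraMap K0 K (x i)) (fun i => algebraMap K0 K (d i)) (fun i => algebraMap K0 K (e i)) =
      fun i => algebraMap K0 K (sx f x d e i) := by
  funext i
  unfold sx
  have h := dp_map (Algebra.ofId K0 K) f x d e
  have h1 := congrArg (fun p => p.coeff (6 - (i : ℕ))) h
  simp only [coeff_map] at h1
  exact h1.symm

theorem cdata [IsAlgClosed K0] [CharZero K0] [CharZero Q] (hf : f.IsHomogeneous 4) (bd : BD K0 A Q) (r : Fr f Q) (hr : r.Nd)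
    (β : A →ₐ[K0] K0) : (∃ r0, GoodB bd r β r0) ∨ BadB bd r β := by
  obtain ⟨V, π, hloc, hc, hi, hs⟩ := vb_ex bd β
  have hc' : Cst K0 V π := fun c => hc c
  rcases dich hf hc' r hr with hB | ⟨r', r0, hR, hF, hnd⟩
  · right
    intro K _ _ π' ψ hψ
    obtain ⟨x', d', e', x0, d0, e0, ρ, θ1, θ2, g11, g12, g21, g22, hL, h0, hd0, he0, hD⟩ := hB
    refine ⟨fun i => ψ (x' i), fun i => ψ (d' i), fun i => ψ (e' i), fun i => algebraMap K0 K (x0 i),
      fun i => algebraMap K0 K (d0 i), fun i => algebraMap K0 K (e0 i), ψ ρ, ψ θ1, ψ θ2, ψ g11, ψ g12, ψ g21, ψ g22,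
      ?_, ?_, ?_, ?_, ?_⟩
    · refine ⟨?_, ?_, ?_, ?_, ?_, ?_, ?_, ?_, ?_⟩
      · rw [Ne, map_eq_zero]
        exact hL.hρ
      · rw [← map_mul, ← map_mul, ← map_sub, Ne, map_eq_zero]
        exact hL.hg
      · intro i
        change ψ (r.x i) = _
        rw [hL.hx i, map_mul]
      · intro i
        change ψ (r.d i) = _
        rw [hL.hd i, map_add, map_add, map_mul, map_mul, map_mul]
      · intro i
        change ψ (r.e i) = _
        rw [hL.he i, map_add, map_add, map_mul, map_mul, map_mul]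
      · exact fun i => cd_tr hs hψ (hL.rx i)
      · exact fun i => cd_tr hs hψ (hL.rd i)
      · exact fun i => cd_tr hs hψ (hL.re i)
      · exact cd_ind hL.ind
    · have h1 := ev_map (Algebra.ofId K0 K) f x0
      rw [h0, map_zero] at h1
      exact h1.symm
    · have h1 := dg_map (Algebra.ofId K0 K) f x0 d0
      rw [hd0, map_zero] at h1
      exact h1.symm
    · have h1 := dg_map (Algebra.ofId K0 K) f x0 e0
      rw [he0, map_zero] at h1
      exact h1.symm
    · have hinf : Infinite K0 := inferInstance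
      rw [cd_sx]
      exact cd_deg hD
  · left
    obtain ⟨ρ, l, θ1, θ2, hρ, hl, hx, hd, he, hs', ht, ha, hb⟩ := hR
    obtain ⟨fx, fd, fe, fs, ft, fa, fb⟩ := hF
    refine ⟨r0, hnd, ?_, ?_, ?_⟩
    · intro a hai
      have h1 := hi a
      rw [hai, ha] at h1
      exact fa.unique h1
    · intro b hbi
      have h1 := hi b
      rw [hbi, hb] at h1
      exact fb.unique h1
    · intro K _ _ π' ψ hψ
      refine ⟨r'.map ψ, ⟨ψ ρ, ψ l, ψ θ1, ψ θ2, ?_, ?_, ?_, ?_, ?_, ?_, ?_, ?_, ?_⟩, ?_, ?_, ?_, ?_, ?_, ?_, ?_⟩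
      · rw [Ne, map_eq_zero]
        exact hρ
      · rw [Ne, map_eq_zero]
        exact hl
      · intro i
        change ψ (r.x i) = ψ ρ * ψ (r'.x i)
        rw [hx i, map_mul]
      · intro i
        change ψ (r.d i) = ψ l * ψ (r'.d i) + ψ θ1 * ψ (r'.x i)
        rw [hd i, map_add, map_mul, map_mul]
      · intro i
        change ψ (r.e i) = ψ l * ψ (r'.e i) + ψ θ2 * ψ (r'.x i)
        rw [he i, map_add, map_mul, map_mul]
      · change ψ r.s = ψ ρ * ψ l ^ 3 * ψ r'.s
        rw [hs', map_mul, map_mul, map_pow]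
      · change ψ r.t = ψ ρ * ψ l ^ 3 * ψ r'.t
        rw [ht, map_mul, map_mul, map_pow]
      · exact congrArg ψ ha
      · exact congrArg ψ hb
      · exact fun i => cd_tr hs hψ (fx i)
      · exact fun i => cd_tr hs hψ (fd i)
      · exact fun i => cd_tr hs hψ (fe i)
      · exact cd_tr hs hψ fs
      · exact cd_tr hs hψ ft
      · exact cd_tr hs hψ fa
      · exact cd_tr hs hψ fb

end H8.QS
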