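import Pool.Agent.H8.QS.SecP

/-! # QS.SecO : the section of a tangent line (about 80 lines, given `QS.Alg`, `QS.OnA`)

`R = α1 x + β1 u`, `S = α2 x + β2 u` the residual pair: `f(a x + b u) = b² (Q2 a² + Q3 a b + Q4 b²)` (`ev_lc`, `qc_zero`, `qc_one`).  From the relations: `2 Q2 α1 = (w - Q3) β1`, `2 Q2 α2 = (- w - Q3) β2`, `(Q3 + w) α1 = - 2 Q4 β1`, `(Q3 - w) α2 = - 2 Q4 β2`; these give
`2 (Q2 (α1 β2 + α2 β1) + Q3 β1 β2) = 0`, `2 (Q2 α1 α2 - Q4 β1 β2) = 0` (if `β1 β2 ≠ 0` or by cases: `β1 = 0` means `α1 ≠ 0`, `Q2 = 0`, `Q3 + w = 0`), `2 (Q4 (α1 β2 + α2 β1) + Q3 α1 α2) = 0`: `(Q2, Q3, Q4)` is proportional to `(β1 β2, -(α1 β2 + α2 β1), α1 α2) ≠ 0`, the coefficients of `(a β1 - b α1)(a β2 - b α2)` (two vectors of a space of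
dimension 3 with vanishing 2x2 minors, the second nonzero).  The points `x = 1 x + 0 u` twice: the factor `a * 0 - b * 1 = - b`. -/

namespace H8.QS

open H68.BB H77.AF Polynomial

variable {K0 : Type} [Field K0] {f : MvPolynomial (Fin 4) K0} {K : Type} [Field K] [Algebra K0 K]

private theorem prop_aux {Q2 Q3 Q4 a1 b1 a2 b2 w : K} (h2 : (2 : K) ≠ 0) (n1 : a1 ≠ 0 ∨ b1 ≠ 0)
    (n2 : a2 ≠ 0 ∨ b2 ≠ 0) (e1 : 2 * Q2 * a1 + (Q3 - w) * b1 = 0)
    (e2 : (Q3 + w) * a1 + 2 * Q4 * b1 = 0) (e3 : 2 * Q2 * a2 + (Q3 - -w) * b2 = 0)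
    (e4 : (Q3 + -w) * a2 + 2 * Q4 * b2 = 0) :
    ∃ κ : K, Q2 = κ * (b1 * b2) ∧ Q3 = -(κ * (a1 * b2 + a2 * b1)) ∧ Q4 = κ * (a1 * a2) := by
  have m1 : Q2 * (a1 * b2 + a2 * b1) + Q3 * (b1 * b2) = 0 := by
    refine (mul_eq_zero.1 ?_).resolve_left h2
    linear_combination b2 * e1 + b1 * e3
  have m2 : Q2 * (a1 * a2) - Q4 * (b1 * b2) = 0 := by
    refine (mul_eq_zero.1 ?_).resolve_left h2
    linear_combination a2 * e1 - b1 * e4
  have m3 : Q3 * (a1 * a2) + Q4 * (a1 * b2 + a2 * b1) = 0 := by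
    refine (mul_eq_zero.1 ?_).resolve_left h2
    linear_combination a2 * e2 + a1 * e4
  by_cases hb : b1 * b2 = 0
  · by_cases ha : a1 * a2 = 0
    · have hc : a1 * b2 + a2 * b1 ≠ 0 := by
        rcases mul_eq_zero.1 ha with h | h
        · have hb1 : b1 ≠ 0 := n1.resolve_left (fun h' => h' h)
          have hb2 : b2 = 0 := (mul_eq_zero.1 hb).resolve_left hb1
          have ha2 : a2 ≠ 0 := n2.resolve_right (fun h' => h' hb2)
          rw [h, zero_mul, zero_add]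
          exact mul_ne_zero ha2 hb1
        · have hb2 : b2 ≠ 0 := n2.resolve_left (fun h' => h' h)
          have hb1 : b1 = 0 := (mul_eq_zero.1 hb).resolve_right hb2
          have ha1 : a1 ≠ 0 := n1.resolve_right (fun h' => h' hb1)
          rw [h, zero_mul, add_zero]
          exact mul_ne_zero ha1 hb2
      rw [hb, mul_zero, add_zero] at m1
      rw [ha, mul_zero, zero_add] at m3
      refine ⟨-Q3 / (a1 * b2 + a2 * b1), ?_, ?_, ?_⟩
      · rw [hb, mul_zero]; exact (mul_eq_zero.1 m1).resolve_right hc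
      · rw [div_mul_cancel₀ _ hc, neg_neg]
      · rw [ha, mul_zero]; exact (mul_eq_zero.1 m3).resolve_right hc
    · refine ⟨Q4 / (a1 * a2), ?_, ?_, ?_⟩
      · rw [div_mul_eq_mul_div, eq_div_iff ha]
        linear_combination m2
      · rw [div_mul_eq_mul_div, ← neg_div, eq_div_iff ha]
        linear_combination m3
      · rw [div_mul_cancel₀ _ ha]
  · refine ⟨Q2 / (b1 * b2), ?_, ?_, ?_⟩
    · rw [div_mul_cancel₀ _ hb]
    · rw [div_mul_eq_mul_div, ← neg_div, eq_div_iff hb]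
      linear_combination m1
    · rw [div_mul_eq_mul_div, eq_div_iff hb]
      linear_combination -m2

theorem sec_on (hf : f.IsHomogeneous 4) (h2 : (2 : K) ≠ 0) {x : XQ f K} {u : Fin 4 → K} {w : K} (hu : dg f x.p u = 0)
    (hi : LinearIndependent K ![x.p, u]) {R S : XQ f K} (hR : On f x.p u w R.p) (hS : On f x.p u (-w) S.p) :
    Sec f x.p u ![x, x, R, S] := by
  obtain ⟨a1, b1, n1, r1, e1, e2⟩ := hR
  obtain ⟨a2, b2, n2, r2, e3, e4⟩ := hS
  obtain ⟨κ, k2, k3, k4⟩ := prop_aux h2 n1 n2 e1 e2 e3 e4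
  have hx : x.p = lc 1 0 x.p u := by
    funext i
    simp [lc]
  refine ⟨hi, ![1, 1, a1, a2], ![0, 0, b1, b2], κ, ?_, ?_, ?_⟩
  · intro i
    fin_cases i
    · exact Or.inl one_ne_zero
    · exact Or.inl one_ne_zero
    · exact n1
    · exact n2
  · intro i
    fin_cases i
    · exact hx
    · exact hx
    · exact r1
    · exact r2
  · intro y z
    rw [ev_lc hf, qc_zero, qc_one, x.eq, hu, k2, k3, k4, Fin.prod_univ_four]
    simp only [Matrix.cons_val_zero, Matrix.cons_val_one, Matrix.cons_val]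
    ring

end H8.QS
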