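import Pool.Agent.H8.QS.Sec
import Pool.Agent.H8.QS.SecO

/-! # QS.Cls : the class of a point of a residual pair (about 150 lines, given `QS.Sec`, `QS.SecO`, `QS.Alg`, `QS.OnA`)

`asy`: there is `(m', n') ≠ 0` with `Q2 (m' d + n' e) = 0`: if `Q2(d) = 0` take `(1, 0)`; otherwise `qc f x (m d + e) 2` is a polynomial in `m` of degree 2 (the coefficients over `K[X]`: `P = qc f (C x) (X d + e) 2 ∈ K[X]`, `P.eval m = qc f x (lc m 1 d e) 2` by `qc_map`), not a nonzero constant: by `qc_resc` for `n ≠ 0` (`κ = n`): `qc f x (d + n e) 2 =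
n² P(1/n)`, which is the value at `n` of the polynomial `P' = qc f (C x) (d + X e) 2` with `P'(0) = Q2(d) ≠ 0`; if `P` were a constant `c` then `P'(n) = c n²` for all `n ≠ 0`, so `P'(0) = 0`.  So `P` has positive degree and a root (`IsAlgClosed.exists_root`).
`cls`: `u' = m' d + n' e`, `w' = Q3(u')`: `dv = Q3² = w'²`; `x` is in the relation with `- w'` (`(α, β) = (1, 0)`: `2 Q2 = 0`, `Q3 + (- w') = 0`), `R'` from `on_ex`.
Sections: `{x, x, R, S} ~ c0 ~ {x, x, R', x}` (`sec_on`, `sec_rel`): `4 R - h - 2 (R - S) - (R' - x) = 2 (R + S) - h - R' + x` and `h = 2 x + R + S`, `h = 3 x + R'` modulo `RatEq`: the sum of `2 (R + S + 2 x - h)` and `-(R' + 3 x - h)`. -/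

namespace H8.QS

open H68.BB H77.AF Polynomial

variable {K0 : Type} [Field K0] {f : MvPolynomial (Fin 4) K0} {K : Type} [Field K] [Algebra K0 K]

/-- values of the coefficient over polynomials -/
private theorem qc_evl (x d e : Fin 4 → K) (p q : K[X]) (j : ℕ) (a : K) :
    (qc f (fun i => (C (x i) : K[X])) (lc p q (fun i => C (d i)) (fun i => C (e i))) j).eval a =
      qc f x (lc (p.eval a) (q.eval a) d e) j := by
  have h := qc_map ((Polynomial.aeval a : K[X] →ₐ[K] K).restrictScalars K0) f (fun i => (C (x i) : K[X]))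
    (lc p q (fun i => C (d i)) (fun i => C (e i))) j
  have h1 : ∀ P : K[X], ((Polynomial.aeval a : K[X] →ₐ[K] K).restrictScalars K0) P = P.eval a := fun P => by
    change Polynomial.aeval a P = _
    exact Polynomial.coe_aeval_eq_eval a ▸ rfl
  rw [h1] at h
  rw [h]
  congr 1
  · funext i
    rw [h1, Polynomial.eval_C]
  · funext i
    rw [h1]
    unfold lc
    rw [Polynomial.eval_add, Polynomial.eval_mul, Polynomial.eval_mul, Polynomial.eval_C, Polynomial.eval_C]

/-- an asymptotic direction -/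
theorem asy [IsAlgClosed K] (hf : f.IsHomogeneous 4) {x d e : Fin 4 → K} (hx : ev f x = 0) (hd : dg f x d = 0)
    (he : dg f x e = 0) : ∃ m' n' : K, (m' ≠ 0 ∨ n' ≠ 0) ∧ qc f x (lc m' n' d e) 2 = 0 := by
  have hd1 : lc (1 : K) 0 d e = d := by
    funext i
    unfold lc
    ring
  by_cases hq : qc f x d 2 = 0
  · exact ⟨1, 0, Or.inl one_ne_zero, by rw [hd1]; exact hq⟩
  set P : K[X] := qc f (fun i => (C (x i) : K[X])) (lc X 1 (fun i => C (d i)) (fun i => C (e i))) 2 with hP
  set P' : K[X] := qc f (fun i => (C (x i) : K[X])) (lc 1 X (fun i => C (d i)) (fun i => C (e i))) 2 with hP'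
  have hPe : ∀ m : K, P.eval m = qc f x (lc m 1 d e) 2 := fun m => by
    rw [hP, qc_evl, Polynomial.eval_X, Polynomial.eval_one]
  have hPe' : ∀ n : K, P'.eval n = qc f x (lc 1 n d e) 2 := fun n => by
    rw [hP', qc_evl, Polynomial.eval_X, Polynomial.eval_one]
  have hdeg : P.degree ≠ 0 := by
    intro h0
    have hc := Polynomial.eq_C_of_degree_eq_zero h0
    set c := P.coeff 0
    have h1 : ∀ n : K, n ≠ 0 → P'.eval n = n ^ 2 * c := by
      intro n hn
      have hu : dg f x (lc n⁻¹ 1 d e) = 0 := by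
        rw [dg_lc, hd, he]
        ring
      have h2 := (qc_resc hf hx hu 1 n 0).1
      have h3 : (fun i => (1 : K) * x i) = x := by
        funext i
        ring
      have h4 : lc (0 : K) n x (lc n⁻¹ 1 d e) = lc 1 n d e := by
        funext i
        unfold lc
        field_simp
        ring
      rw [h3, h4, ← hPe, hc, Polynomial.eval_C] at h2
      rw [hPe', h2]
      ring
    have h2 : X * (P' - C c * X ^ 2) = 0 := by
      refine Polynomial.funext fun n => ?_
      rw [Polynomial.eval_mul, Polynomial.eval_X, Polynomial.eval_sub, Polynomial.eval_mul, Polynomial.eval_C,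
        Polynomial.eval_pow, Polynomial.eval_X, Polynomial.eval_zero]
      by_cases hn : n = 0
      · rw [hn, zero_mul]
      · rw [h1 n hn]
        ring
    have h3 := (mul_eq_zero.1 h2).resolve_left Polynomial.X_ne_zero
    have h4 := congrArg (Polynomial.eval 0) h3
    rw [Polynomial.eval_sub, Polynomial.eval_mul, Polynomial.eval_C, Polynomial.eval_pow, Polynomial.eval_X,
      Polynomial.eval_zero, hPe', hd1] at h4
    apply hq
    linear_combination h4
  obtain ⟨m, hm⟩ := IsAlgClosed.exists_root P hdeg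
  refine ⟨m, 1, Or.inr one_ne_zero, ?_⟩
  rw [← hPe]
  exact hm

theorem cls [IsAlgClosed K] (hf : f.IsHomogeneous 4) (h0 : f ≠ 0) (h2 : (2 : K) ≠ 0) {g0 h0' : Fin 4 → K}
    {c0 : Fin 4 → XQ f K} (hc0 : Sec f g0 h0' c0) {x : XQ f K} {d e : Fin 4 → K} (hi : Ind x.p d e) (hd : dg f x.p d = 0)
    (he : dg f x.p e = 0) : ∃ (m' n' w' : K) (R' : XQ f K), (m' ≠ 0 ∨ n' ≠ 0) ∧ w' ^ 2 = dv f x.p (lc m' n' d e) ∧
      On f x.p (lc m' n' d e) w' R'.p ∧ On f x.p (lc m' n' d e) (-w') x.p ∧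
      ∀ (m n w : K) (R S : XQ f K), (m ≠ 0 ∨ n ≠ 0) → On f x.p (lc m n d e) w R.p → On f x.p (lc m n d e) (-w) S.p →
        (4 : ℤ) • pt R - ∑ i, pt (c0 i) - (2 : ℤ) • (pt R - pt S) - (pt R' - pt x) ∈ RatEq (xqd K f) 1 := by
  obtain ⟨m', n', hmn', hq⟩ := asy hf x.eq hd he
  have hdl : ∀ m n : K, dg f x.p (lc m n d e) = 0 := fun m n => by
    rw [dg_lc, hd, he]
    ring
  have hw' : (qc f x.p (lc m' n' d e) 3) ^ 2 = dv f x.p (lc m' n' d e) := by
    unfold dv
    rw [hq]
    ring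
  obtain ⟨R', hR'⟩ := on_ex hf h2 x.eq (hdl m' n') (ind_lc hi hmn') hw'
  have hx' : On f x.p (lc m' n' d e) (-(qc f x.p (lc m' n' d e) 3)) x.p := by
    refine ⟨1, 0, Or.inl one_ne_zero, ?_, ?_, ?_⟩
    · funext i
      unfold lc
      ring
    · rw [hq]
      ring
    · ring
  refine ⟨m', n', qc f x.p (lc m' n' d e) 3, R', hmn', hw', hR', hx', ?_⟩
  intro m n w R S hmn hR hS
  have hs1 := sec_rel hf h0 (sec_on hf h2 (hdl m n) (ind_lc hi hmn) hR hS) hc0
  have hs2 := sec_rel hf h0 (sec_on hf h2 (hdl m' n') (ind_lc hi hmn') hR' hx') hc0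
  have h3 := AddSubgroup.sub_mem _ (AddSubgroup.zsmul_mem _ hs1 2) hs2
  have e1 : ∑ i, pt (![x, x, R, S] i) = pt x + pt x + pt R + pt S := by
    rw [Fin.sum_univ_four]
    rfl
  have e2 : ∑ i, pt (![x, x, R', x] i) = pt x + pt x + pt R' + pt x := by
    rw [Fin.sum_univ_four]
    rfl
  rw [e1, e2] at h3
  have e3 : (4 : ℤ) • pt R - ∑ i, pt (c0 i) - (2 : ℤ) • (pt R - pt S) - (pt R' - pt x) =
      (2 : ℤ) • (pt x + pt x + pt R + pt S - ∑ i, pt (c0 i)) - (pt x + pt x + pt R' + pt x - ∑ i, pt (c0 i)) := by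
    module
  rw [e3]
  exact h3

end H8.QS
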