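import Pool.Agent.H8.QS.Line

/-! # QS.OnU : two points in the relation `On` with the same data are equivalent (about 80 lines, given `QS.Line`)

The two relations have the matrix `((2 Q2, Q3 - w), (Q3 + w, 2 Q4))`.  If it is not zero its kernel has dimension at most 1: `(α, β)` and `(α', β')` are proportional: `scl`.  If it is zero then (characteristic not 2) `Q2 = Q4 = 0`, `Q3 = w = - w`, so `Q3 = 0`:
`f = 0` on the line through `x`, `u` (`ev_lc`, `qc_0 = qc_1 = 0`): `onl`. -/

namespace H8.QS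

open H68.BB H77.AF Polynomial

variable {K0 : Type} [Field K0] {f : MvPolynomial (Fin 4) K0} {K : Type} [Field K] [Algebra K0 K]

private theorem prop_of {a b a' b' : K} (h0 : a ≠ 0 ∨ b ≠ 0) (h : a * b' = b * a') :
    ∃ c : K, a' = c * a ∧ b' = c * b := by
  by_cases ha : a = 0
  · have hb : b ≠ 0 := by
      rcases h0 with h0 | h0
      · exact absurd ha h0
      · exact h0
    refine ⟨b' / b, ?_, ?_⟩
    · rw [ha, zero_mul] at h
      rcases mul_eq_zero.mp h.symm with h1 | h1
      · exact absurd h1 hb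
      · rw [h1, ha, mul_zero]
    · field_simp
  · refine ⟨a' / a, ?_, ?_⟩
    · field_simp
    · field_simp
      linear_combination h

private theorem ker_one {p q a b a' b' : K} (h0 : p ≠ 0 ∨ q ≠ 0) (h : p * a + q * b = 0) (h' : p * a' + q * b' = 0) :
    a * b' = b * a' := by
  rcases h0 with h0 | h0
  · apply mul_left_cancel₀ h0
    linear_combination b' * h - b * h'
  · apply mul_left_cancel₀ h0
    linear_combination a * h' - a' * h

theorem on_uniq [IsAlgClosed K] (hf : f.IsHomogeneous 4) (h2 : (2 : K) ≠ 0) {x u : Fin 4 → K} {w : K} (hx : ev f x = 0)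
    (hu : dg f x u = 0) {R R' : XQ f K} (h : On f x u w R.p) (h' : On f x u w R'.p) : pt R - pt R' ∈ RatEq (xqd K f) 1 := by
  obtain ⟨α, β, h0, h1, e1, e2⟩ := h
  obtain ⟨α', β', h0', h1', e1', e2'⟩ := h'
  by_cases hM : (2 * qc f x u 2 ≠ 0 ∨ qc f x u 3 - w ≠ 0) ∨ (qc f x u 3 + w ≠ 0 ∨ 2 * qc f x u 4 ≠ 0)
  · have hd : α * β' = β * α' := by
      rcases hM with hM | hM
      · exact ker_one hM e1 e1'
      · exact ker_one hM e2 e2'
    obtain ⟨c, hc1, hc2⟩ := prop_of h0 hd
    refine scl (c := c) fun i => ?_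
    rw [h1, h1']
    unfold lc
    rw [hc1, hc2]
    ring
  · simp only [not_or, not_not] at hM
    obtain ⟨⟨m1, m2⟩, m3, m4⟩ := hM
    have q2 : qc f x u 2 = 0 := (mul_eq_zero.mp m1).resolve_left h2
    have q4 : qc f x u 4 = 0 := (mul_eq_zero.mp m4).resolve_left h2
    have q3 : qc f x u 3 = 0 := by
      have h3 : (2 : K) * qc f x u 3 = 0 := by linear_combination m2 + m3
      exact (mul_eq_zero.mp h3).resolve_left h2
    refine onl hf (fun s t => ?_) h1 h1'
    rw [ev_lc hf, qc_zero, qc_one, hx, hu, q2, q3, q4]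
    ring

end H8.QS
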