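import Pool.Agent.H8.QS.Cls
import Pool.Agent.H8.QS.OnU
import Pool.Agent.H8.QS.AlgF

/-! # QS.Cov : the class of a covered point (about 120 lines, given `QS.Cls`, `QS.OnU`)

(1) `cov_cls`: `P` covered by `φ`, `l`, `y`; `S` from `on_ex` with `- w`.  `cls` with `x = (r.map φ).x`, `d`, `e` and a fixed section `c0` (`sec_ex`), `m = l`, `n = 1`: `4 pt P - h - 2 (pt P - pt S) - (pt R' - pt x) ∈ RatEq`, `h = ∑ pt (c0 i)`.  `Pr r P S`.  The pair `(R', x)`: `u' = m' d + n' e`.  If `n' = 0` or `s m'/n' + t = 0` then `w' = 0`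
(`Fr.dvl`) and `pt R' - pt x ∈ RatEq` (`on_uniq`, both are in the relation with `0 = - 0`).  Otherwise `l' = m'/n'`, `y' = w' / (n'³ (s l' + t))`, `y'² = l'³ - 3 a l' - 2 b` and `on_inv` (`κ = n'`, `ρ = 1`, `θ = 0`) gives `Pr r R' x`.
So `4 • single P 1 - h ≡ 2 (single P 1 - single S 1) + ε (single R' 1 - single x 1)` modulo the `z : Cyc1` with `up z ∈ RatEq .. 1`, i.e. `4 • single P 1 - h0 = v + e`, `v ∈ closure {R - S | Pr r R S}`, `up e ∈ RatEq`, `h0 = ∑ single (c0 i) 1` in `Cyc1` (`up` of `single P 1` is `pt P`). -/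

namespace H8.QS

open H68.BB H77.AF Polynomial

/-- `R`, `S` is a residual pair of the frame `r` over `K` -/
def Pr {K0 Q : Type} [Field K0] [Field Q] [Algebra K0 Q] {f : MvPolynomial (Fin 4) K0} (r : Fr f Q) {K : Type} [Field K]
    [Algebra K0 K] (R S : XQ f K) : Prop :=
  ∃ (φ : Q →ₐ[K0] K) (l y : K), y ^ 2 = l ^ 3 - 3 * φ r.a * l - 2 * φ r.b ∧ OnF (r.map φ) l y R.p ∧ OnF (r.map φ) l (-y) S.p

/-- `P` is a point of a residual pair of the frame `r` over `K` -/
def Cov {K0 Q : Type} [Field K0] [Field Q] [Algebra K0 Q] {f : MvPolynomial (Fin 4) K0} (r : Fr f Q) {K : Type} [Field K]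
    [Algebra K0 K] (P : Fin 4 → K) : Prop :=
  ∃ (φ : Q →ₐ[K0] K) (l y : K), y ^ 2 = l ^ 3 - 3 * φ r.a * l - 2 * φ r.b ∧ OnF (r.map φ) l y P

/-- images of independent vectors under a homomorphism of fields are independent -/
theorem li_mapf {Q K : Type} [Field Q] [Field K] (φ : Q →+* K) {v : Fin 3 → Fin 4 → Q} (h : LinearIndependent Q v) :
    LinearIndependent K (fun i j => φ (v i j)) := by
  classical
  obtain ⟨g, hg⟩ := LinearMap.exists_leftInverse_of_injective (Fintype.linearCombination Q v)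
    (LinearMap.ker_eq_bot.2 (linearIndependent_iff_injective_fintypeLinearCombination.1 h))
  have hgi : ∀ i, g (v i) = Pi.single i 1 := fun i => by
    have h1 := LinearMap.congr_fun hg (Pi.single i (1 : Q))
    rw [LinearMap.comp_apply, Fintype.linearCombination_apply_single, one_smul] at h1
    exact h1
  have hgk : ∀ i k, ∑ j, v i j * g (Pi.single j 1) k = (Pi.single i 1 : Fin 3 → Q) k := fun i k => by
    rw [← hgi i]
    have h2 : v i = ∑ j, v i j • (Pi.single j 1 : Fin 4 → Q) := by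
      funext l
      rw [Finset.sum_apply]
      simp [Pi.single_apply]
    conv_rhs => rw [h2, map_sum, Finset.sum_apply]
    exact Finset.sum_congr rfl fun j _ => by rw [map_smul, Pi.smul_apply, smul_eq_mul]
  rw [Fintype.linearIndependent_iff]
  intro c hc k
  have h3 : ∑ j, (∑ i, c i * φ (v i j)) * φ (g (Pi.single j 1) k) = 0 := by
    refine Finset.sum_eq_zero fun j _ => ?_
    have h4 := congrFun hc j
    rw [Finset.sum_apply] at h4
    have h5 : ∑ i, c i * φ (v i j) = 0 := h4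
    rw [h5, zero_mul]
  have h6 : ∑ j, (∑ i, c i * φ (v i j)) * φ (g (Pi.single j 1) k) = ∑ i, c i * φ ((Pi.single i 1 : Fin 3 → Q) k) := by
    simp only [Finset.sum_mul]
    rw [Finset.sum_comm]
    refine Finset.sum_congr rfl fun i _ => ?_
    rw [← hgk i k, map_sum, Finset.mul_sum]
    exact Finset.sum_congr rfl fun j _ => by rw [map_mul, mul_assoc]
  rw [h6, Finset.sum_eq_single k] at h3
  · rw [Pi.single_eq_same, map_one, mul_one] at h3
    exact h3
  · intro i _ hik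
    rw [Pi.single_eq_of_ne (Ne.symm hik), map_zero, mul_zero]
  · intro h7
    exact absurd (Finset.mem_univ k) h7

/-- the cycle of a point -/
noncomputable def s1 {K0 K : Type} [Field K0] [Field K] [Algebra K0 K] {f : MvPolynomial (Fin 4) K0} (P : XQ f K) :
    Cyc1 (xqd K f) := Finsupp.single (α := (xqd K f).X) P 1

theorem up_s1 {K0 K : Type} [Field K0] [Field K] [Algebra K0 K] {f : MvPolynomial (Fin 4) K0} (P : XQ f K) :
    up (s1 P) = pt P := Finsupp.mapDomain_single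

theorem sum_s1 {K0 K : Type} [Field K0] [Field K] [Algebra K0 K] {f : MvPolynomial (Fin 4) K0} (c : Fin 4 → XQ f K) :
    ((∑ i, s1 (c i)).sum fun _ n => n) = 4 := by
  have h1 : ∀ z : Cyc1 (xqd K f), (z.sum fun _ n => n) =
      (Finsupp.liftAddHom fun _ : (xqd K f).X => AddMonoidHom.id ℤ) z := fun z => rfl
  rw [h1, map_sum, Finset.sum_congr rfl (fun i _ => show (Finsupp.liftAddHom fun _ : (xqd K f).X => AddMonoidHom.id ℤ)
    (s1 (c i)) = 1 from (Finsupp.liftAddHom_apply_single _ _ _))]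
  rfl

theorem cov_cls {K0 Q : Type} [Field K0] [CharZero K0] [Field Q] [Algebra K0 Q] {f : MvPolynomial (Fin 4) K0}
    (hf : f.IsHomogeneous 4) (h0 : f ≠ 0) (r : Fr f Q) (hr : r.Nd) {K : Type} [Field K] [IsAlgClosed K] [Algebra K0 K] :
    ∃ h : Cyc1 (xqd K f), (h.sum fun _ n => n) = 4 ∧ ∀ P : (xqd K f).X, Cov r P.p →
      ∃ v e : Cyc1 (xqd K f), (4 : ℤ) • (Finsupp.single P 1 : Cyc1 (xqd K f)) - h = v + e ∧
        v ∈ AddSubgroup.closure {w : Cyc1 (xqd K f) | ∃ R S : (xqd K f).X, Pr r R S ∧ w = Finsupp.single R 1 - Finsupp.single S 1} ∧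
        up e ∈ RatEq (xqd K f) 1 := by
  classical
  have hcz : CharZero K := charZero_of_injective_algebraMap (FaithfulSMul.algebraMap_injective K0 K)
  have h2 : (2 : K) ≠ 0 := two_ne_zero
  have hgh : LinearIndependent K ![(Pi.single 0 1 : Fin 4 → K), Pi.single 1 1] := by
    rw [LinearIndependent.pair_iff]
    intro s t hst
    have h1 := congrFun hst 0
    have h3 := congrFun hst 1
    simp at h1 h3
    exact ⟨h1, h3⟩
  obtain ⟨c0, hc0⟩ := sec_ex (f := f) hf hgh
  have hA : ∀ R S : XQ f K, Pr r R S → s1 R - s1 S ∈ AddSubgroup.closure {w : Cyc1 (xqd K f) | ∃ R S : (xqd K f).X,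
      Pr r R S ∧ w = Finsupp.single R 1 - Finsupp.single S 1} := fun R S h => AddSubgroup.subset_closure ⟨R, S, h, rfl⟩
  refine ⟨∑ i, s1 (c0 i), sum_s1 c0, fun (P : XQ f K) hP => ?_⟩
  obtain ⟨φ, l, y, hy, hon⟩ := hP
  set r' := r.map φ with hr'
  have hInd : Ind r'.x r'.d r'.e := by
    have h1 : LinearIndependent Q ![r.x, r.d, r.e] := hr
    have h3 := li_mapf (φ : Q →+* K) h1
    have h4 : (fun i j => (φ : Q →+* K) ((![r.x, r.d, r.e] : Fin 3 → Fin 4 → Q) i j)) = ![r'.x, r'.d, r'.e] := by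
      funext i j
      fin_cases i <;> rfl
    rw [h4] at h3
    exact h3
  have hxne : r'.x ≠ 0 := by
    have := hInd.ne_zero (0 : Fin 3)
    exact this
  let x : XQ f K := ⟨r'.x, hxne, r'.onx⟩
  have hdv : ∀ m n : K, dv f r'.x (lc m n r'.d r'.e) = (r'.s * m + r'.t * n) ^ 2 * (n * (m ^ 3 - 3 * r'.a * m * n ^ 2 - 2 * r'.b * n ^ 3)) :=
    Fr.dvl hf r'
  have hutg : ∀ m n : K, dg f r'.x (lc m n r'.d r'.e) = 0 := fun m n => by
    rw [dg_lc, r'.tgd, r'.tge, mul_zero, mul_zero, add_zero]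
  obtain ⟨S, hS⟩ := on_ex (u := lc l 1 r'.d r'.e) (w := -((r'.s * l + r'.t) * y)) hf h2 r'.onx (hutg l 1)
    (ind_lc hInd (Or.inr one_ne_zero)) (by
      rw [hdv, neg_sq, mul_pow]
      have h3 : y ^ 2 = l ^ 3 - 3 * r'.a * l - 2 * r'.b := hy
      rw [h3]
      ring)
  obtain ⟨m', n', w', R', hmn, hw, hR', hx', hall⟩ := cls hf h0 h2 hc0 (x := x) hInd r'.tgd r'.tge
  have hmain := hall l 1 _ P S (Or.inr one_ne_zero) hon hS
  have hPS : Pr r P S := ⟨φ, l, y, hy, hon, by
    unfold OnF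
    rw [mul_neg]
    exact hS⟩
  by_cases hz : n' = 0 ∨ r'.s * m' + r'.t * n' = 0
  · have hw0 : w' = 0 := by
      have h3 : w' ^ 2 = 0 := by
        rw [hw]
        change dv f r'.x (lc m' n' r'.d r'.e) = 0
        rw [hdv]
        rcases hz with hz | hz
        · rw [hz]; ring
        · rw [hz]; ring
      exact pow_eq_zero_iff (two_ne_zero) |>.1 h3
    rw [hw0] at hR' hx'
    rw [neg_zero] at hx'
    have h4 := on_uniq hf h2 (x := r'.x) (u := lc m' n' r'.d r'.e) r'.onx (hutg m' n') hR' hx'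
    refine ⟨(2 : ℤ) • (s1 P - s1 S), (4 : ℤ) • s1 P - (∑ i, s1 (c0 i)) - (2 : ℤ) • (s1 P - s1 S), ?_, ?_, ?_⟩
    · change (4 : ℤ) • s1 P - _ = _
      abel
    · exact AddSubgroup.zsmul_mem _ (hA P S hPS) 2
    · rw [map_sub, map_sub, map_zsmul, map_zsmul, map_sub, map_sum]
      simp only [up_s1]
      have h5 := (RatEq (xqd K f) 1).add_mem hmain h4
      refine (congrArg (fun z => z ∈ RatEq (xqd K f) 1) ?_).mp h5
      abel
  · push Not at hz
    obtain ⟨hn, hst⟩ := hz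
    have hst' : r'.s * (m' / n') + r'.t ≠ 0 := by
      intro h3
      apply hst
      have h4 : n' * (r'.s * (m' / n') + r'.t) = r'.s * m' + r'.t * n' := by
        field_simp
      rw [← h4, h3, mul_zero]
    have hy' : (w' / (n' ^ 3 * (r'.s * (m' / n') + r'.t))) ^ 2 = (m' / n') ^ 3 - 3 * r'.a * (m' / n') - 2 * r'.b := by
      rw [div_pow, hw]
      change dv f r'.x (lc m' n' r'.d r'.e) / _ = _
      rw [hdv, div_eq_iff (pow_ne_zero 2 (mul_ne_zero (pow_ne_zero 3 hn) hst'))]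
      field_simp
    have hwe0 : ∀ D : K, D ≠ 0 → D * (w' / (n' ^ 3 * D)) = w' / n' ^ 3 := fun D hD => by
      field_simp
    have hwe : (r'.s * (m' / n') + r'.t) * (w' / (n' ^ 3 * (r'.s * (m' / n') + r'.t))) = w' / n' ^ 3 := hwe0 _ hst'
    have hue : lc 0 n' r'.x (lc (m' / n') 1 r'.d r'.e) = lc m' n' r'.d r'.e := by
      funext i
      unfold lc
      field_simp
      ring
    have hxe : (fun i => (1 : K) * r'.x i) = r'.x := by
      funext i
      rw [one_mul]
    have key : ∀ (w : K) (R : Fin 4 → K), On f r'.x (lc m' n' r'.d r'.e) w R → On f r'.x (lc (m' / n') 1 r'.d r'.e) (w / n' ^ 3) R := by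
      intro w R h
      refine (on_inv hf r'.onx (hutg (m' / n') 1) (ρ := 1) (κ := n') (θ := 0) one_ne_zero hn).1 ?_
      rw [hue, hxe]
      have h5 : 1 * n' ^ 3 * (w / n' ^ 3) = w := by
        field_simp
      rw [h5]
      exact h
    have hPr : Pr r R' x := by
      refine ⟨φ, m' / n', w' / (n' ^ 3 * (r'.s * (m' / n') + r'.t)), hy', ?_, ?_⟩
      · unfold OnF
        change On f r'.x (lc (m' / n') 1 r'.d r'.e) ((r'.s * (m' / n') + r'.t) * _) _
        rw [hwe]
        exact key _ _ hR'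
      · unfold OnF
        change On f r'.x (lc (m' / n') 1 r'.d r'.e) ((r'.s * (m' / n') + r'.t) * _) _
        rw [mul_neg, hwe, ← neg_div]
        exact key _ _ hx'
    refine ⟨(2 : ℤ) • (s1 P - s1 S) + (s1 R' - s1 x),
      (4 : ℤ) • s1 P - (∑ i, s1 (c0 i)) - ((2 : ℤ) • (s1 P - s1 S) + (s1 R' - s1 x)), ?_, ?_, ?_⟩
    · change (4 : ℤ) • s1 P - _ = _
      abel
    · exact AddSubgroup.add_mem _ (AddSubgroup.zsmul_mem _ (hA P S hPS) 2) (hA R' x hPr)
    · rw [map_sub, map_sub, map_zsmul, map_add, map_zsmul, map_sub, map_sub, map_sum]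
      simp only [up_s1]
      refine (congrArg (fun z => z ∈ RatEq (xqd K f) 1) ?_).mp hmain
      abel

end H8.QS
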