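import Pool.Agent.H8.QS.ExtG
import Pool.Agent.H8.QS.OnA

/-! # QS.CovQ : the generic frame over a finite extension of `RatFunc U4` covers all generic points (about 200 lines, given `QS.ExtG`)

`Exi` gives `Ω`, `r`, `l`, `y`, `p`.  `Q = IntermediateField.adjoin U4 (r.ent)` (contains `r.a`), `Algebra (RatFunc U4) Q`: `X ↦ r.a` (`RatFunc.liftAlgHom`-like, `Transcendental U4 r.a`), with the given `Algebra U4 Q` a tower; the range of `RatFunc U4 → Ω` is `IntermediateField.adjoin U4 {r.a}`; `Q` is generated by finitely many elements which are algebraic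
over it: finite dimensional (`IntermediateField.finiteDimensional_adjoin`-like / `Algebra.FiniteType` and integral).  The frame over `Q` (all the entries are in `Q`; the identities hold because `Q → Ω` is injective: `ev_map`, `dg_map`, `dp_map`), independence of the vectors over `Q` (`LinearIndependent` of the images over `Ω` gives it: restrict scalars).
Covering: `P` over `L`: `ext_gen` gives `θ : Ω → L`; `φ` = restriction of `θ` to `Q`, `θ l`, `θ y`; `OnF (r.map φ) (θ l) (θ y) (θ ∘ p)` (`on_map`), `P = (P 3 / θ (p 3)) • θ ∘ p`: `on_smul`.  (`ev fU p = 0`: `on_ev`, characteristic 0; `Ω` has characteristic 0 because `U4` has.) -/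

namespace H8.QS

open Polynomial

/-- a finite extension of the rational function field inside `Ω` -/
private theorem cq_field {k Ω : Type} [Field k] [Field Ω] [Algebra k Ω] {a : Ω} (ha : Transcendental k a) {S : Set Ω}
    (hS : S.Finite) (hal : ∀ z ∈ S, IsAlgebraic (IntermediateField.adjoin k ({a} : Set Ω)) z) :
    ∃ (Q : Type) (_ : Field Q) (_ : Algebra (RatFunc k) Q) (_ : FiniteDimensional (RatFunc k) Q) (_ : Algebra k Q)
      (_ : IsScalarTower k (RatFunc k) Q) (ι : Q →ₐ[k] Ω), ι (algebraMap (RatFunc k) Q RatFunc.X) = a ∧ ∀ z ∈ S, ∃ q, ι q = z := by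
  have hinj : Function.Injective (Polynomial.aeval a : k[X] →ₐ[k] Ω) := transcendental_iff_injective.1 ha
  let f : RatFunc k →ₐ[k] Ω := RatFunc.liftAlgHom (Polynomial.aeval a)
    (nonZeroDivisors_le_comap_nonZeroDivisors_of_injective _ hinj)
  have hfX : f RatFunc.X = a := by
    have h := RatFunc.liftAlgHom_apply_div (φ := (Polynomial.aeval a : k[X] →ₐ[k] Ω))
      (hφ := nonZeroDivisors_le_comap_nonZeroDivisors_of_injective _ hinj) (X : k[X]) 1
    rw [map_one, div_one, RatFunc.algebraMap_X, Polynomial.aeval_X, map_one, div_one] at h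
    exact h
  let _ : Algebra (RatFunc k) Ω := f.toRingHom.toAlgebra
  have hmap : ∀ x : RatFunc k, algebraMap (RatFunc k) Ω x = f x := fun _ => rfl
  have : IsScalarTower k (RatFunc k) Ω := IsScalarTower.of_algebraMap_eq fun x => by
    rw [hmap]
    exact (f.commutes x).symm
  have hM : IntermediateField.adjoin k ({a} : Set Ω) ≤ f.fieldRange := by
    rw [IntermediateField.adjoin_le_iff]
    rintro x rfl
    exact ⟨RatFunc.X, hfX⟩
  have hint : ∀ z ∈ S, IsIntegral (RatFunc k) z := by
    intro z hz
    obtain ⟨p, hp0, hp⟩ := hal z hz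
    have hl : p.map (algebraMap (IntermediateField.adjoin k ({a} : Set Ω)) Ω) ∈ Polynomial.lifts (algebraMap (RatFunc k) Ω) := by
      rw [Polynomial.lifts_iff_coeff_lifts]
      intro n
      rw [Polynomial.coeff_map]
      obtain ⟨y, hy⟩ := hM (p.coeff n).2
      exact ⟨y, hy⟩
    obtain ⟨q, hq⟩ := hl
    have hq' : q.map (algebraMap (RatFunc k) Ω) = p.map (algebraMap (IntermediateField.adjoin k ({a} : Set Ω)) Ω) := hq
    refine IsAlgebraic.isIntegral ⟨q, ?_, ?_⟩
    · rintro rfl
      rw [Polynomial.map_zero] at hq'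
      exact hp0 ((Polynomial.map_eq_zero _).1 hq'.symm)
    · rw [← Polynomial.eval_map_algebraMap, hq', Polynomial.eval_map_algebraMap]
      exact hp
  have : Finite S := hS
  let Q : IntermediateField (RatFunc k) Ω := IntermediateField.adjoin (RatFunc k) S
  have hfd : FiniteDimensional (RatFunc k) Q := IntermediateField.finiteDimensional_adjoin hint
  refine ⟨Q, inferInstance, inferInstance, hfd, inferInstance, inferInstance, Q.val.restrictScalars k, ?_, ?_⟩
  · change algebraMap (RatFunc k) Ω RatFunc.X = a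
    rw [hmap, hfX]
  · intro z hz
    exact ⟨⟨z, IntermediateField.subset_adjoin _ _ hz⟩, rfl⟩

/-- a frame with entries in the image comes from a frame -/
private theorem cq_frame {k Q Ω : Type} [Field k] [Field Q] [Algebra k Q] [Field Ω] [Algebra k Ω] {f : MvPolynomial (Fin 4) k} (ι : Q →ₐ[k] Ω)
    (r : Fr f Ω) (h : ∀ z ∈ r.ent, ∃ q, ι q = z) : ∃ r' : Fr f Q, r'.map ι = r := by
  have hinj : Function.Injective ι := RingHom.injective (ι : Q →+* Ω)
  have hx : ∀ i, ∃ q, ι q = r.x i := fun i => h _ (Or.inl (Or.inl (Or.inl ⟨i, rfl⟩)))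
  have hd : ∀ i, ∃ q, ι q = r.d i := fun i => h _ (Or.inl (Or.inl (Or.inr ⟨i, rfl⟩)))
  have he : ∀ i, ∃ q, ι q = r.e i := fun i => h _ (Or.inl (Or.inr ⟨i, rfl⟩))
  choose x hx using hx
  choose d hd using hd
  choose e he using he
  obtain ⟨s, hs⟩ := h r.s (Or.inr (Or.inl rfl))
  obtain ⟨t, ht⟩ := h r.t (Or.inr (Or.inr (Or.inl rfl)))
  obtain ⟨a, ha⟩ := h r.a (Or.inr (Or.inr (Or.inr (Or.inl rfl))))
  obtain ⟨b, hb⟩ := h r.b (Or.inr (Or.inr (Or.inr (Or.inr rfl))))
  have hx' : (fun i => ι (x i)) = r.x := funext hx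
  have hd' : (fun i => ι (d i)) = r.d := funext hd
  have he' : (fun i => ι (e i)) = r.e := funext he
  refine ⟨⟨x, d, e, s, t, a, b, ?_, ?_, ?_, ?_, ?_⟩, ?_⟩
  · apply hinj
    rw [ev_map, hx', r.onx, map_zero]
  · apply hinj
    rw [dg_map, hx', hd', r.tgd, map_zero]
  · apply hinj
    rw [dg_map, hx', he', r.tge, map_zero]
  · apply Polynomial.map_injective (ι : Q →+* Ω) hinj
    rw [dp_map, hx', hd', he', r.line]
    simp only [Polynomial.map_sub, Polynomial.map_mul, Polynomial.map_add, Polynomial.map_pow, Polynomial.map_C,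
      Polynomial.map_X, RingHom.coe_coe, map_mul, map_ofNat, Polynomial.map_ofNat, hs, ht, ha, hb]
  · apply hinj
    rw [map_sub, map_pow, map_pow, map_one, ha, hb]
    exact r.disc
  · exact Fr.ext hx' hd' he' hs ht ha hb

private theorem cq_nd {k Q Ω : Type} [Field k] [Field Q] [Algebra k Q] [Field Ω] [Algebra k Ω] {f : MvPolynomial (Fin 4) k} (ι : Q →ₐ[k] Ω)
    (r : Fr f Q) (h : (r.map ι).Nd) : r.Nd := by
  unfold Fr.Nd Ind at h ⊢
  rw [Fintype.linearIndependent_iff] at h ⊢
  intro g hg i
  have hinj : Function.Injective ι := RingHom.injective (ι : Q →+* Ω)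
  have h1 := h (fun i => ι (g i)) (by
    rw [Fin.sum_univ_three] at hg ⊢
    funext j
    have h2 := congrArg ι (congrFun hg j)
    simp only [Matrix.cons_val_zero, Matrix.cons_val_one, Matrix.cons_val, Pi.add_apply, Pi.smul_apply, smul_eq_mul,
      Pi.zero_apply, map_add, map_mul, map_zero] at h2 ⊢
    exact h2) i
  exact hinj (by rw [map_zero]; exact h1)

theorem cov_q (h : Exi) : ExiQ := by
  obtain ⟨Ω, _, _, _, r, l, y, p, hnd, htr, hal, hy, hon, hgen, halg⟩ := h
  have hfin : r.ent.Finite := by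
    unfold Fr.ent
    exact (((Set.finite_range _).union (Set.finite_range _)).union (Set.finite_range _)).union (Set.toFinite _)
  obtain ⟨Q, _, _, hfd, _, hst, ι, hX, hS⟩ := cq_field htr hfin hal
  obtain ⟨r', hr'⟩ := cq_frame ι r hS
  have hinj : Function.Injective ι := RingHom.injective (ι : Q →+* Ω)
  have ha : ι r'.a = r.a := congrArg Fr.a hr'
  refine ⟨Q, inferInstance, inferInstance, hfd, inferInstance, hst, r', cq_nd ι r' (by rw [hr']; exact hnd), ?_, ?_⟩
  · apply hinj
    rw [hX, ha]
  · intro L _ _ _ P hP hPg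
    have hΩ : CharZero Ω := charZero_of_injective_algebraMap (algebraMap U4 Ω).injective
    have hp0 : ev fU p = 0 := by
      refine on_ev fU_hom two_ne_zero r.onx ?_ hon
      rw [dg_lc, r.tgd, r.tge]
      ring
    obtain ⟨θ, hθ⟩ := ext_gen hp0 hgen hP hPg halg
    refine ⟨θ.comp ι, θ l, θ y, ?_, ?_⟩
    · have h1 := congrArg θ hy
      have hb : ι r'.b = r.b := congrArg Fr.b hr'
      rw [map_pow, map_sub, map_sub, map_pow, map_mul, map_mul, map_mul, map_ofNat, map_ofNat, ← ha, ← hb] at h1
      exact h1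
    · have h1 := on_map θ hon
      have h2 : θ (p 3) ≠ 0 := fun h3 => hgen.1 ((map_eq_zero_iff θ (RingHom.injective (θ : Ω →+* L))).1 h3)
      have h4 := on_smul (c := P 3 / θ (p 3)) (div_ne_zero hPg.1 h2) h1
      have h5 : (fun i => P 3 / θ (p 3) * θ (p i)) = P := by
        funext i
        have h6 := hθ i
        rw [map_div₀] at h6
        have h7 := hPg.1
        field_simp at h6 ⊢
        linear_combination h6
      rw [h5] at h4
      have hm : r'.map (θ.comp ι) = r.map θ := by
        rw [← hr']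
        rfl
      rw [hm]
      unfold OnF
      have e1 : (fun i => θ (lc l 1 r.d r.e i)) = lc (θ l) 1 (r.map θ).d (r.map θ).e := by
        funext i
        simp only [lc, map_add, map_mul, map_one]
        rfl
      have e2 : θ ((r.s * l + r.t) * y) = ((r.map θ).s * θ l + (r.map θ).t) * θ y := by
        rw [map_mul, map_add, map_mul]
        rfl
      rw [← e1, ← e2]
      exact h4

end H8.QS
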