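import Pool.Agent.H77.AF.Surf
import Pool.Agent.H25.DP.Push
import Mathlib

/-! # QS.Def : quartic surfaces in `P^3`, points, residual pairs of tangent lines, frames (definitions and trivial facts, no sorry)

`f` a quartic form in four variables over `K0`, `X : f = 0`.  For vectors `x`, `u`: `f(x + T u) = ∑ (qc f x u j) T^j`, so `f(α x + β u) = ∑ (qc f x u j) α^(4-j) β^j`.
If `x` is on `X` and `u` is tangent at `x` (`dg f x u = qc f x u 1 = 0`) then `f(α x + β u) = β^2 (Q2 α^2 + Q3 α β + Q4 β^2)`; the residual pair of the line are the roots of the quadratic form; `dv f x u = Q3^2 - 4 Q2 Q4` is its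
discriminant.  `On f x u w R`: `R` is the point of the residual pair which belongs to the square root `w` of `dv f x u`.
`Fr f E`: a frame: a point `x` of `X`, tangent vectors `d`, `e`, such that the binary sextic `dv f x (m d + n e)` is `(s m + t n)^2 n (m^3 - 3 a m n^2 - 2 b n^3)`, `b^2 - a^3 = 1`: the tangent plane of `x` cuts `X` in a curve of
geometric genus 1 (the double root is the direction of the second node). -/

namespace H8.QS

open H68.BB H77.AF Polynomial

variable {K0 : Type} [Field K0]

/-- the value of a form at a vector -/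
noncomputable def ev {F : Type} [CommRing F] [Algebra K0 F] (f : MvPolynomial (Fin 4) K0) (p : Fin 4 → F) : F :=
  MvPolynomial.aeval p f

/-- the linear combination `x g + y h` -/
def lc {F : Type} [CommRing F] (x y : F) (g h : Fin 4 → F) : Fin 4 → F := fun i => x * g i + y * h i

/-- the derivative of `f` at `x` in the direction `u` -/
noncomputable def dg {F : Type} [CommRing F] [Algebra K0 F] (f : MvPolynomial (Fin 4) K0) (x u : Fin 4 → F) : F :=
  ∑ i, ev (MvPolynomial.pderiv i f) x * u i

/-- the polynomial `f(x + T u)` -/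
noncomputable def lin {F : Type} [CommRing F] [Algebra K0 F] (f : MvPolynomial (Fin 4) K0) (x u : Fin 4 → F) : F[X] :=
  MvPolynomial.aeval (fun i => C (x i) + C (u i) * X) f

/-- the coefficient of `T^j` in `f(x + T u)` -/
noncomputable def qc {F : Type} [CommRing F] [Algebra K0 F] (f : MvPolynomial (Fin 4) K0) (x u : Fin 4 → F) (j : ℕ) : F :=
  (lin f x u).coeff j

/-- the discriminant of the residual pair of the tangent line -/
noncomputable def dv {F : Type} [CommRing F] [Algebra K0 F] (f : MvPolynomial (Fin 4) K0) (x u : Fin 4 → F) : F :=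
  qc f x u 3 ^ 2 - 4 * qc f x u 2 * qc f x u 4

/-- `dv f x (X d + e)` as a polynomial -/
noncomputable def dp {F : Type} [CommRing F] [Algebra K0 F] (f : MvPolynomial (Fin 4) K0) (x d e : Fin 4 → F) : F[X] :=
  dv f (fun i => C (x i)) (fun i => C (d i) * X + C (e i))

/-- `x`, `d`, `e` are linearly independent -/
def Ind {F : Type} [Field F] (x d e : Fin 4 → F) : Prop := LinearIndependent F ![x, d, e]

/-- points of `X` over `F`, given by coordinate vectors -/
@[ext] structure XQ (f : MvPolynomial (Fin 4) K0) (F : Type) [Field F] [Algebra K0 F] where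
  p : Fin 4 → F
  ne : p ≠ 0
  eq : ev f p = 0

section
variable {f : MvPolynomial (Fin 4) K0}

theorem ev_map {F G : Type} [CommRing F] [Algebra K0 F] [CommRing G] [Algebra K0 G] (φ : F →ₐ[K0] G)
    (f : MvPolynomial (Fin 4) K0) (p : Fin 4 → F) : φ (ev f p) = ev f (fun i => φ (p i)) := by
  unfold ev
  rw [← MvPolynomial.comp_aeval_apply]

theorem dg_map {F G : Type} [CommRing F] [Algebra K0 F] [CommRing G] [Algebra K0 G] (φ : F →ₐ[K0] G)
    (f : MvPolynomial (Fin 4) K0) (x u : Fin 4 → F) : φ (dg f x u) = dg f (fun i => φ (x i)) (fun i => φ (u i)) := by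
  unfold dg
  rw [map_sum]
  exact Finset.sum_congr rfl fun i _ => by rw [map_mul, ev_map]

theorem lin_map {F G : Type} [CommRing F] [Algebra K0 F] [CommRing G] [Algebra K0 G] (φ : F →ₐ[K0] G)
    (f : MvPolynomial (Fin 4) K0) (x u : Fin 4 → F) :
    (lin f x u).map (φ : F →+* G) = lin f (fun i => φ (x i)) (fun i => φ (u i)) := by
  have h2 := MvPolynomial.comp_aeval_apply (f := fun i => C (x i) + C (u i) * X) (Polynomial.mapAlgHom φ) f
  unfold lin
  have h3 : (MvPolynomial.aeval (fun i => C (x i) + C (u i) * X) f : F[X]).map (φ : F →+* G) =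
    Polynomial.mapAlgHom φ (MvPolynomial.aeval (fun i => C (x i) + C (u i) * X) f) := rfl
  rw [h3]
  refine Eq.trans h2 ?_
  congr 2
  funext i
  change (C (x i) + C (u i) * X).map (φ : F →+* G) = _
  rw [Polynomial.map_add, Polynomial.map_mul, Polynomial.map_C, Polynomial.map_X, Polynomial.map_C]
  rfl

theorem qc_map {F G : Type} [CommRing F] [Algebra K0 F] [CommRing G] [Algebra K0 G] (φ : F →ₐ[K0] G)
    (f : MvPolynomial (Fin 4) K0) (x u : Fin 4 → F) (j : ℕ) :
    φ (qc f x u j) = qc f (fun i => φ (x i)) (fun i => φ (u i)) j := by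
  unfold qc
  rw [← lin_map, Polynomial.coeff_map]
  rfl

theorem dv_map {F G : Type} [CommRing F] [Algebra K0 F] [CommRing G] [Algebra K0 G] (φ : F →ₐ[K0] G)
    (f : MvPolynomial (Fin 4) K0) (x u : Fin 4 → F) : φ (dv f x u) = dv f (fun i => φ (x i)) (fun i => φ (u i)) := by
  unfold dv
  simp only [← qc_map, map_sub, map_mul, map_pow, map_ofNat]

theorem dp_map {F G : Type} [CommRing F] [Algebra K0 F] [CommRing G] [Algebra K0 G] (φ : F →ₐ[K0] G)
    (f : MvPolynomial (Fin 4) K0) (x d e : Fin 4 → F) :
    (dp f x d e).map (φ : F →+* G) = dp f (fun i => φ (x i)) (fun i => φ (d i)) (fun i => φ (e i)) := by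
  have h := dv_map (Polynomial.mapAlgHom φ) f (fun i => C (x i)) (fun i => C (d i) * X + C (e i))
  unfold dp
  refine Eq.trans h ?_
  congr 1
  · funext i
    exact Polynomial.map_C _
  · funext i
    change (C (d i) * X + C (e i)).map (φ : F →+* G) = _
    rw [Polynomial.map_add, Polynomial.map_mul, Polynomial.map_C, Polynomial.map_X, Polynomial.map_C]
    rfl

/-- a frame -/
@[ext] structure Fr (f : MvPolynomial (Fin 4) K0) (E : Type) [CommRing E] [Algebra K0 E] where
  x : Fin 4 → E
  d : Fin 4 → E
  e : Fin 4 → E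
  s : E
  t : E
  a : E
  b : E
  onx : ev f x = 0
  tgd : dg f x d = 0
  tge : dg f x e = 0
  line : dp f x d e = (C s * X + C t) ^ 2 * (X ^ 3 - C (3 * a) * X - C (2 * b))
  disc : b ^ 2 - a ^ 3 = 1

/-- image of a frame -/
noncomputable def Fr.map {E G : Type} [CommRing E] [Algebra K0 E] [CommRing G] [Algebra K0 G] (r : Fr f E)
    (φ : E →ₐ[K0] G) : Fr f G where
  x := fun i => φ (r.x i)
  d := fun i => φ (r.d i)
  e := fun i => φ (r.e i)
  s := φ r.s
  t := φ r.t
  a := φ r.a
  b := φ r.b
  onx := by rw [← ev_map, r.onx, map_zero]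
  tgd := by rw [← dg_map, r.tgd, map_zero]
  tge := by rw [← dg_map, r.tge, map_zero]
  line := by
    rw [← dp_map, r.line]
    simp only [Polynomial.map_sub, Polynomial.map_mul, Polynomial.map_add, Polynomial.map_pow, Polynomial.map_C,
      Polynomial.map_X, RingHom.coe_coe, map_mul, map_ofNat, Polynomial.map_ofNat]
  disc := by
    have h := congrArg φ r.disc
    rw [map_sub, map_pow, map_pow, map_one] at h
    exact h

/-- the vectors of the frame are independent -/
def Fr.Nd {E : Type} [Field E] [Algebra K0 E] (r : Fr f E) : Prop := Ind r.x r.d r.e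

/-- `R` is the point of the residual pair of the line through `x` and `u` which belongs to the square root `w` of `dv f x u` -/
def On (f : MvPolynomial (Fin 4) K0) {F : Type} [Field F] [Algebra K0 F] (x u : Fin 4 → F) (w : F) (R : Fin 4 → F) : Prop :=
  ∃ α β : F, (α ≠ 0 ∨ β ≠ 0) ∧ R = lc α β x u ∧ 2 * qc f x u 2 * α + (qc f x u 3 - w) * β = 0 ∧
    (qc f x u 3 + w) * α + 2 * qc f x u 4 * β = 0

/-- `R` is the point of `X` which belongs to the point `(l, y)` of the cubic `y^2 = l^3 - 3 a l - 2 b` of the frame -/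
def OnF {F : Type} [Field F] [Algebra K0 F] (r : Fr f F) (l y : F) (R : Fin 4 → F) : Prop :=
  On f r.x (lc l 1 r.d r.e) ((r.s * l + r.t) * y) R

/-- apply an automorphism to the coordinates -/
noncomputable def XQ.map {F G : Type} [Field F] [Algebra K0 F] [Field G] [Algebra K0 G] (P : XQ f F) (σ : F →ₐ[K0] G) : XQ f G where
  p := fun i => σ (P.p i)
  ne := fun h => P.ne (by
    funext i
    exact (map_eq_zero_iff σ (RingHom.injective (σ : F →+* G))).1 (congrFun h i))
  eq := by rw [← ev_map, P.eq, map_zero]

/-- the point data of `X`: every point specialises at every place -/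
noncomputable def xqd (K : Type) [Field K] [Algebra K0 K] (f : MvPolynomial (Fin 4) K0) : PD K where
  X := XQ f K
  Y := XQ f (Om K)
  act σ P := P.map (σ.toAlgHom.restrictScalars K0)
  sp π P p := ∃ c : Om K, c ≠ 0 ∧ ∀ i, Rd π.V π.φ (c * P.p i) (p.p i)
  off _ _ := False
  cst p := p.map (IsScalarTower.toAlgHom K0 K (Om K))
  act_cst := fun σ p => by
    have h : ∀ c : K, σ (algebraMap K (Om K) c) = algebraMap K (Om K) c := fun c => by
      rw [IsScalarTower.algebraMap_apply K (RatFunc K) (Om K), AlgEquiv.commutes]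
    refine XQ.ext ?_
    funext i
    exact h (p.p i)
  sp_cst := fun π p => ⟨1, one_ne_zero, fun i => by rw [one_mul]; exact π.const (p.p i)⟩

end

end H8.QS
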