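import Pool.Agent.H8.QS.Lat
import Pool.Agent.H8.QS.Rdx

/-! # QS.DichR : rescaled frames (about 60 lines, given `QS.OnA`)

`onf_resc`: `u = l r.d + r.e = κ u' + θ x'` with `u' = l r'.d + r'.e`, `κ` the scalar of `Resc`, `θ = l θ1 + θ2`, `r.x = ρ x'`; `w = (r.s l + r.t) y = ρ κ³ (r'.s l + r'.t) y`: `on_inv`; `Resc.symm_eqs` are not needed. -/

namespace H8.QS

open H68.BB H77.AF Polynomial

variable {K0 : Type} [Field K0] {f : MvPolynomial (Fin 4) K0} {F κ : Type} [Field F] [Algebra K0 F] [Field κ] [Algebra K0 κ]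
  {V : ValuationSubring F} {φ : V →+* κ}

/-- `r'` is obtained from `r` by scaling the vectors and adding multiples of `x` to `d` and `e` -/
def Resc (r r' : Fr f F) : Prop :=
  ∃ ρ l θ1 θ2 : F, ρ ≠ 0 ∧ l ≠ 0 ∧ (∀ i, r.x i = ρ * r'.x i) ∧ (∀ i, r.d i = l * r'.d i + θ1 * r'.x i) ∧
    (∀ i, r.e i = l * r'.e i + θ2 * r'.x i) ∧ r.s = ρ * l ^ 3 * r'.s ∧ r.t = ρ * l ^ 3 * r'.t ∧ r.a = r'.a ∧ r.b = r'.b

/-- the tangent plane of the frame degenerates at the place -/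
def BadL (V : ValuationSubring F) (φ : V →+* κ) (f : MvPolynomial (Fin 4) K0) (x d e : Fin 4 → F) : Prop :=
  ∃ (x' d' e' : Fin 4 → F) (x0 d0 e0 : Fin 4 → κ) (ρ θ1 θ2 g11 g12 g21 g22 : F),
    Lt V φ x d e x' d' e' x0 d0 e0 ρ θ1 θ2 g11 g12 g21 g22 ∧ ev f x0 = 0 ∧ dg f x0 d0 = 0 ∧ dg f x0 e0 = 0 ∧
    Deg6 (sx f x0 d0 e0)

/-- the frame has good reduction -/
def GoodL (V : ValuationSubring F) (φ : V →+* κ) (r : Fr f F) : Prop :=
  ∃ (r' : Fr f F) (r0 : Fr f κ), Resc r r' ∧ RdF V φ r' r0 ∧ r0.Nd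

/-- the point `R` of a point of the cubic is the same for both frames -/
theorem onf_resc (hf : f.IsHomogeneous 4) {r r' : Fr f F} (h : Resc r r') (l y : F) (R : Fin 4 → F) :
    OnF r l y R ↔ OnF r' l y R := by
  obtain ⟨ρ, k, θ1, θ2, hρ, hk, hx, hd, he, hs, ht, -, -⟩ := h
  have h1 : r.x = fun i => ρ * r'.x i := funext hx
  have h2 : lc l 1 r.d r.e = lc (l * θ1 + θ2) k r'.x (lc l 1 r'.d r'.e) := by
    funext i
    simp only [lc]
    rw [hd i, he i]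
    ring
  have h3 : (r.s * l + r.t) * y = ρ * k ^ 3 * ((r'.s * l + r'.t) * y) := by
    rw [hs, ht]
    ring
  have h4 : dg f r'.x (lc l 1 r'.d r'.e) = 0 := by
    rw [dg_lc, r'.tgd, r'.tge]
    ring
  unfold OnF
  rw [h1, h2, h3]
  exact on_inv hf r'.onx h4 hρ hk

end H8.QS
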