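import Pool.Agent.H8.QS.Ker

/-! # QS.ExtG : homomorphisms between generic points (about 120 lines, given `QS.Ker`)

The homomorphisms `MvPolynomial (Fin 3) U4 → Ω`, `→ L` given by the affine coordinates of `p`, `P` have the same kernel `(dhU)` (`ker_gen`, `dh_ev`).  So the homomorphism from the subalgebra `R0 = Algebra.adjoin U4 {p 0 / p 3, p 1 / p 3, p 2 / p 3}` (= the range) to `L` is well defined and injective; it extends to the fraction field
(`IntermediateField.adjoin U4 {..}`), and to `Ω`, which is algebraic over it: `IsAlgClosed.lift` (or `IntermediateField.exists_algHom_of_splits`-like; simplest: `L` as an algebra over the intermediate field `M` through the homomorphism, `IsAlgClosed.lift : Ω →ₐ[M] L`, `Algebra.IsAlgebraic M Ω` by the tower). -/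

namespace H8.QS

open Polynomial

private theorem eg_alg {k Ω : Type} [Field k] [Field Ω] [Algebra k Ω] {S T : Set Ω} (hST : S ⊆ T)
    (ha : Algebra.IsAlgebraic (IntermediateField.adjoin k S) Ω) : Algebra.IsAlgebraic (Algebra.adjoin k T) Ω := by
  rw [IntermediateField.isAlgebraic_adjoin_iff_top] at ha
  refine ⟨fun x => ?_⟩
  obtain ⟨f, hf0, hf⟩ := ha.isAlgebraic x
  have hle : Algebra.adjoin k S ≤ Algebra.adjoin k T := Algebra.adjoin_mono hST
  have hinj : Function.Injective (Subalgebra.inclusion hle : Algebra.adjoin k S →+* Algebra.adjoin k T) :=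
    Subalgebra.inclusion_injective hle
  refine ⟨f.map (Subalgebra.inclusion hle : Algebra.adjoin k S →+* Algebra.adjoin k T),
    fun h => hf0 ((Polynomial.map_eq_zero_iff hinj).1 h), ?_⟩
  rw [Polynomial.aeval_def, Polynomial.eval₂_map]
  exact hf

private theorem eg_gen {k Ω L : Type} [Field k] [Field Ω] [Algebra k Ω] [Field L] [IsAlgClosed L] [Algebra k L]
    (u : Fin 3 → Ω) (v : Fin 3 → L)
    (h : ∀ g : MvPolynomial (Fin 3) k, MvPolynomial.aeval u g = 0 ↔ MvPolynomial.aeval v g = 0)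
    (ha : Algebra.IsAlgebraic (IntermediateField.adjoin k ({u 0, u 1} : Set Ω)) Ω) :
    ∃ θ : Ω →ₐ[k] L, ∀ i, θ (u i) = v i := by
  have hST : ({u 0, u 1} : Set Ω) ⊆ Set.range u := by
    rintro x (rfl | rfl)
    · exact ⟨0, rfl⟩
    · exact ⟨1, rfl⟩
  have ha' := eg_alg hST ha
  rw [Algebra.adjoin_range_eq_range_aeval] at ha'
  set R0 : Subalgebra k Ω := (MvPolynomial.aeval u : MvPolynomial (Fin 3) k →ₐ[k] Ω).range with hR0
  let f : MvPolynomial (Fin 3) k →ₐ[k] R0 := (MvPolynomial.aeval u : MvPolynomial (Fin 3) k →ₐ[k] Ω).rangeRestrict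
  have hf : Function.Surjective f := AlgHom.rangeRestrict_surjective _
  have hk : RingHom.ker f.toRingHom ≤
      RingHom.ker (MvPolynomial.aeval v : MvPolynomial (Fin 3) k →ₐ[k] L).toRingHom := by
    intro g hg
    have h1 : f g = 0 := hg
    have h2 : MvPolynomial.aeval u g = 0 := congrArg (fun t : R0 => (t : Ω)) h1
    exact (h g).1 h2
  let ψ : R0 →ₐ[k] L := AlgHom.liftOfSurjective f hf (MvPolynomial.aeval v) hk
  have hψ : ∀ g, ψ (f g) = MvPolynomial.aeval v g := fun g => by
    exact AlgHom.liftOfSurjective_apply f hf (MvPolynomial.aeval v) hk g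
  have hinj : Function.Injective ψ := by
    rw [injective_iff_map_eq_zero]
    intro x hx
    obtain ⟨g, rfl⟩ := hf x
    rw [hψ] at hx
    exact Subtype.ext ((h g).2 hx)
  let _ : Algebra R0 L := ψ.toRingHom.toAlgebra
  have halg : ∀ x : R0, algebraMap R0 L x = ψ x := fun _ => rfl
  have : FaithfulSMul R0 L := (faithfulSMul_iff_algebraMap_injective R0 L).2 hinj
  have : IsScalarTower k R0 L := IsScalarTower.of_algebraMap_eq fun x => by
    rw [halg]
    exact (ψ.commutes x).symm
  have : Module.IsTorsionFree R0 L := inferInstance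
  have : Module.IsTorsionFree R0 Ω := inferInstance
  let θ : Ω →ₐ[R0] L := IsAlgClosed.lift
  refine ⟨θ.restrictScalars k, fun i => ?_⟩
  have h1 : u i = algebraMap R0 Ω (f (MvPolynomial.X i)) := by
    change u i = MvPolynomial.aeval u (MvPolynomial.X i)
    rw [MvPolynomial.aeval_X]
  have h2 : θ (u i) = v i := by
    rw [h1, θ.commutes, halg, hψ, MvPolynomial.aeval_X]
  exact h2

theorem ext_gen {Ω L : Type} [Field Ω] [Algebra U4 Ω] [Field L] [IsAlgClosed L] [Algebra U4 L] {p : Fin 4 → Ω} {P : Fin 4 → L}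
    (hp : ev fU p = 0) (hpg : Gen p) (hP : ev fU P = 0) (hPg : Gen P)
    (ha : Algebra.IsAlgebraic (IntermediateField.adjoin U4 ({p 0 / p 3, p 1 / p 3} : Set Ω)) Ω) :
    ∃ θ : Ω →ₐ[U4] L, ∀ i, θ (p i / p 3) = P i / P 3 := by
  have hdp : MvPolynomial.aeval ![p 0 / p 3, p 1 / p 3, p 2 / p 3] dhU = 0 := by
    have h1 := dh_ev hpg.1
    rw [hp] at h1
    exact (mul_eq_zero.1 h1.symm).resolve_left (pow_ne_zero 4 hpg.1)
  have hdP : MvPolynomial.aeval ![P 0 / P 3, P 1 / P 3, P 2 / P 3] dhU = 0 := by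
    have h1 := dh_ev hPg.1
    rw [hP] at h1
    exact (mul_eq_zero.1 h1.symm).resolve_left (pow_ne_zero 4 hPg.1)
  obtain ⟨θ, hθ⟩ := eg_gen ![p 0 / p 3, p 1 / p 3, p 2 / p 3] ![P 0 / P 3, P 1 / P 3, P 2 / P 3] (by
    intro g
    constructor
    · intro h
      obtain ⟨c, rfl⟩ := ker_gen hp hpg h
      rw [map_mul, hdP, zero_mul]
    · intro h
      obtain ⟨c, rfl⟩ := ker_gen hP hPg h
      rw [map_mul, hdp, zero_mul]) ha
  refine ⟨θ, fun i => ?_⟩
  fin_cases i
  · exact hθ 0
  · exact hθ 1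
  · exact hθ 2
  · change θ (p 3 / p 3) = P 3 / P 3
    rw [div_self hpg.1, div_self hPg.1, map_one]

end H8.QS
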