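import Mathlib

/-! # QS.Fac : binary quartic forms over an algebraically closed field: factorisation and its uniqueness (about 200 lines, Mathlib only)

`fac_ex`: `q0 x⁴ + .. + q4 y⁴ = κ ∏ (x β_i - y α_i)`, normalised: `β_i = 1` or `(α_i, β_i) = (1, 0)`.  If `q = 0`: `κ = 0`, `α_i = 1`, `β_i = 0`.  Otherwise `P = ∑ q_j X^(4-j)` (in `x`, `y = 1`), of degree `4 - m`; `P = C lead * ∏ (X - C root)` (`IsAlgClosed.splits`, `Polynomial.Splits.eq_prod_roots`); `m` of the pairs are `(1, 0)` (factor `- y`) and the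
others `(root, 1)` (factor `x - y root`).  Maybe easier: by induction on the degree of a binary form: prove first for every `n` and every `q : Fin (n+1) → K` (or `ℕ → K` with the form `∑_(j ≤ n) q j x^(n-j) y^j`): if `q 0 = 0` the factor `y` splits off, otherwise a root of `∑ q_j X^(n-j)` gives a factor `x - y root` (synthetic division: `Polynomial.dvd_iff_isRoot`).
`fac_uniq`: by induction over the number of factors (state it for `Finset`-products over `Fin n` or for lists): evaluate at `(x, y) = (α_0, β_0)`: some factor on the right vanishes there, so `(α'_j, β'_j)` is proportional to `(α_0, β_0)`; cancel this factor (two polynomial functions with zero product over an infinite field: use `MvPolynomial.funext` in two variables,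
`MvPolynomial (Fin 2) K` is a domain), induction; build the permutation with `Equiv.swap` / `Fin.succAbove` or `Equiv.Perm.decomposeFin`. -/

namespace H8.QS

/-- Horner form of a binary form of degree `m` with coefficients `q 0, .., q m`. -/
private def hF {K : Type} [Field K] (q : ℕ → K) (x y : K) : ℕ → K
  | 0 => q 0
  | m + 1 => x * hF q x y m + q (m + 1) * y ^ (m + 1)

private noncomputable def hP {K : Type} [Field K] (q : ℕ → K) : ℕ → Polynomial K
  | 0 => Polynomial.C (q 0)
  | m + 1 => Polynomial.X * hP q m + Polynomial.C (q (m + 1))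

private def hQ {K : Type} [Field K] (q : ℕ → K) (r : K) : ℕ → K
  | 0 => q 0
  | m + 1 => r * hQ q r m + q (m + 1)

private theorem hP_eval {K : Type} [Field K] (q : ℕ → K) (x : K) (m : ℕ) :
    (hP q m).eval x = hQ q x m := by
  induction m with
  | zero => simp [hP, hQ]
  | succ m ih => simp [hP, hQ, ih]

private theorem hP_deg {K : Type} [Field K] (q : ℕ → K) (h : q 0 ≠ 0) (m : ℕ) :
    (hP q m).degree = m := by
  induction m with
  | zero => simp [hP, Polynomial.degree_C h]
  | succ m ih =>
    have h1 : (Polynomial.X * hP q m).degree = ((m + 1 : ℕ) : WithBot ℕ) := by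
      rw [Polynomial.degree_mul, ih, Polynomial.degree_X]
      push_cast
      exact add_comm _ _
    rw [hP, Polynomial.degree_add_eq_left_of_degree_lt, h1]
    rw [h1]
    refine lt_of_le_of_lt Polynomial.degree_C_le ?_
    exact_mod_cast Nat.succ_pos m

private theorem hF_div {K : Type} [Field K] (q : ℕ → K) (r x y : K) (m : ℕ) :
    hF q x y (m + 1) = (x - r * y) * hF (hQ q r) x y m + hQ q r (m + 1) * y ^ (m + 1) := by
  induction m with
  | zero => simp only [hF, hQ]; ring
  | succ m ih =>
    rw [hF, ih]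
    simp only [hF, hQ]
    ring

private theorem hF_zero {K : Type} [Field K] (q : ℕ → K) (h : q 0 = 0) (x y : K) (m : ℕ) :
    hF q x y (m + 1) = y * hF (fun j => q (j + 1)) x y m := by
  induction m with
  | zero => simp only [hF, h]; ring
  | succ m ih =>
    rw [hF, ih]
    simp only [hF]
    ring

private theorem hF_neg {K : Type} [Field K] (q : ℕ → K) (x y : K) (m : ℕ) :
    hF (fun j => - q j) x y m = - hF q x y m := by
  induction m with
  | zero => simp only [hF]
  | succ m ih =>
    simp only [hF, ih]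
    ring

private theorem hfac {K : Type} [Field K] [IsAlgClosed K] (m : ℕ) : ∀ q : ℕ → K,
    ∃ (κ : K) (α β : Fin m → K), (∀ i, β i = 1 ∨ (α i = 1 ∧ β i = 0)) ∧
      ∀ x y : K, hF q x y m = κ * ∏ i, (x * β i - y * α i) := by
  induction m with
  | zero =>
    intro q
    exact ⟨q 0, Fin.elim0, Fin.elim0, fun i => i.elim0, fun x y => by simp [hF]⟩
  | succ m ih =>
    intro q
    by_cases h : q 0 = 0
    · obtain ⟨κ, α, β, h1, h2⟩ := ih (fun j => - q (j + 1))
      refine ⟨κ, Fin.cons 1 α, Fin.cons 0 β, ?_, ?_⟩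
      · intro i
        refine Fin.cases ?_ ?_ i
        · right; simp
        · intro j; simpa using h1 j
      · intro x y
        rw [Fin.prod_univ_succ]
        simp only [Fin.cons_zero, Fin.cons_succ]
        have := h2 x y
        rw [hF_neg (fun j => q (j + 1))] at this
        rw [hF_zero q h]
        linear_combination (-y) * this
    · obtain ⟨r, hr⟩ := IsAlgClosed.exists_root (hP q (m + 1))
        (by rw [hP_deg q h]; exact_mod_cast Nat.succ_ne_zero m)
      have hr' : hQ q r (m + 1) = 0 := by rw [← hP_eval]; exact hr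
      obtain ⟨κ, α, β, h1, h2⟩ := ih (hQ q r)
      refine ⟨κ, Fin.cons r α, Fin.cons 1 β, ?_, ?_⟩
      · intro i
        refine Fin.cases ?_ ?_ i
        · left; simp
        · intro j; simpa using h1 j
      · intro x y
        rw [Fin.prod_univ_succ]
        simp only [Fin.cons_zero, Fin.cons_succ]
        rw [hF_div q r, hr', h2 x y]
        ring

theorem fac_ex {K : Type} [Field K] [IsAlgClosed K] (q : Fin 5 → K) :
    ∃ (κ : K) (α β : Fin 4 → K), (∀ i, β i = 1 ∨ (α i = 1 ∧ β i = 0)) ∧
      ∀ x y : K, q 0 * x ^ 4 + q 1 * x ^ 3 * y + q 2 * x ^ 2 * y ^ 2 + q 3 * x * y ^ 3 + q 4 * y ^ 4 =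
        κ * ∏ i, (x * β i - y * α i) := by
  obtain ⟨κ, α, β, h1, h2⟩ := hfac 4 (fun j => if h : j < 5 then q ⟨j, h⟩ else 0)
  refine ⟨κ, α, β, h1, fun x y => ?_⟩
  rw [← h2 x y]
  have e0 : (⟨0, by norm_num⟩ : Fin 5) = 0 := rfl
  have e1 : (⟨1, by norm_num⟩ : Fin 5) = 1 := rfl
  have e2 : (⟨2, by norm_num⟩ : Fin 5) = 2 := rfl
  have e3 : (⟨3, by norm_num⟩ : Fin 5) = 3 := rfl
  have e4 : (⟨4, by norm_num⟩ : Fin 5) = 4 := rfl
  simp only [hF]
  norm_num [e0, e1, e2, e3, e4]
  ring

private noncomputable def hL {K : Type} [Field K] (a b : K) : MvPolynomial (Fin 2) K :=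
  MvPolynomial.X 0 * MvPolynomial.C b - MvPolynomial.X 1 * MvPolynomial.C a

private theorem hL_eval {K : Type} [Field K] (a b : K) (v : Fin 2 → K) :
    MvPolynomial.eval v (hL a b) = v 0 * b - v 1 * a := by
  simp [hL]

private theorem hL_ne {K : Type} [Field K] {a b : K} (h : a ≠ 0 ∨ b ≠ 0) : hL a b ≠ 0 := by
  intro h0
  rcases h with h | h
  · have := congrArg (MvPolynomial.eval ![0, 1]) h0
    rw [hL_eval] at this
    simp at this
    exact h this
  · have := congrArg (MvPolynomial.eval ![1, 0]) h0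
    rw [hL_eval] at this
    simp at this
    exact h this

private theorem huniq {K : Type} [Field K] (n : ℕ) : ∀ {κ κ' : K} {α β α' β' : Fin n → K},
    κ ≠ 0 → (∀ i, α i ≠ 0 ∨ β i ≠ 0) → (∀ i, α' i ≠ 0 ∨ β' i ≠ 0) →
    MvPolynomial.C κ * ∏ i, hL (α i) (β i) = MvPolynomial.C κ' * ∏ i, hL (α' i) (β' i) →
    ∃ (σ : Equiv.Perm (Fin n)), ∀ i, ∃ c : K, c ≠ 0 ∧ α' i = c * α (σ i) ∧ β' i = c * β (σ i) := by
  induction n with
  | zero =>
    intros
    exact ⟨1, fun i => i.elim0⟩
  | succ n ih =>
    intro κ κ' α β α' β' hκ h0 h0' h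
    have hκ' : κ' ≠ 0 := by
      rintro rfl
      rw [map_zero, zero_mul] at h
      rcases mul_eq_zero.mp h with h | h
      · exact hκ (by simpa using h)
      · rw [Finset.prod_eq_zero_iff] at h
        obtain ⟨i, -, hi⟩ := h
        exact hL_ne (h0 i) hi
    have hev := congrArg (MvPolynomial.eval ![α 0, β 0]) h
    rw [map_mul, map_mul, map_prod, map_prod, Fin.prod_univ_succ] at hev
    simp only [hL_eval, MvPolynomial.eval_C, Matrix.cons_val_zero, Matrix.cons_val_one] at hev
    have hev2 : κ' * ∏ i, (α 0 * β' i - β 0 * α' i) = 0 := by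
      rw [← hev]; ring
    rcases mul_eq_zero.mp hev2 with h1 | h1
    · exact absurd h1 hκ'
    rw [Finset.prod_eq_zero_iff] at h1
    obtain ⟨j, -, hj⟩ := h1
    obtain ⟨c, hc, hca, hcb⟩ : ∃ c : K, c ≠ 0 ∧ α' j = c * α 0 ∧ β' j = c * β 0 := by
      by_cases ha : α 0 = 0
      · have hb : β 0 ≠ 0 := by
          rcases h0 0 with h | h
          · exact absurd ha h
          · exact h
        have ha' : α' j = 0 := by
          rw [ha, zero_mul, zero_sub, neg_eq_zero] at hj
          rcases mul_eq_zero.mp hj with h | h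
          · exact absurd h hb
          · exact h
        have hb' : β' j ≠ 0 := by
          rcases h0' j with h | h
          · exact absurd ha' h
          · exact h
        refine ⟨β' j / β 0, div_ne_zero hb' hb, ?_, ?_⟩
        · rw [ha, ha', mul_zero]
        · field_simp
      · have ha' : α' j ≠ 0 := by
          intro h
          rw [h, mul_zero, sub_zero] at hj
          rcases mul_eq_zero.mp hj with h' | h'
          · exact ha h'
          · rcases h0' j with h'' | h''
            · exact h'' h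
            · exact h'' h'
        refine ⟨α' j / α 0, div_ne_zero ha' ha, ?_, ?_⟩
        · field_simp
        · field_simp
          linear_combination hj
    have hLj : hL (α' j) (β' j) = MvPolynomial.C c * hL (α 0) (β 0) := by
      rw [hca, hcb, hL, hL, map_mul, map_mul]
      ring
    rw [Fin.prod_univ_succ, Fin.prod_univ_succAbove _ j, hLj] at h
    have h2 : MvPolynomial.C κ * ∏ i : Fin n, hL (α i.succ) (β i.succ) =
        MvPolynomial.C (κ' * c) * ∏ i : Fin n, hL (α' (j.succAbove i)) (β' (j.succAbove i)) := by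
      apply mul_left_cancel₀ (hL_ne (h0 0))
      rw [map_mul]
      linear_combination h
    obtain ⟨σ, hσ⟩ := ih hκ (fun i => h0 i.succ) (fun i => h0' (j.succAbove i)) h2
    refine ⟨(finSuccEquiv' j).trans ((Equiv.optionCongr σ).trans (finSuccEquiv' 0).symm), ?_⟩
    intro i
    rcases Fin.eq_self_or_eq_succAbove j i with h3 | ⟨k, hk⟩
    · subst h3
      refine ⟨c, hc, ?_, ?_⟩
      · simpa using hca
      · simpa using hcb
    · subst hk
      obtain ⟨c', hc', ha, hb⟩ := hσ k
      refine ⟨c', hc', ?_, ?_⟩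
      · simpa using ha
      · simpa using hb

theorem fac_uniq {K : Type} [Field K] [Infinite K] {κ κ' : K} {α β α' β' : Fin 4 → K} (hκ : κ ≠ 0)
    (h0 : ∀ i, α i ≠ 0 ∨ β i ≠ 0) (h0' : ∀ i, α' i ≠ 0 ∨ β' i ≠ 0)
    (h : ∀ x y : K, κ * ∏ i, (x * β i - y * α i) = κ' * ∏ i, (x * β' i - y * α' i)) :
    ∃ (σ : Equiv.Perm (Fin 4)) (c : Fin 4 → K), (∀ i, c i ≠ 0) ∧ ∀ i, α' i = c i * α (σ i) ∧ β' i = c i * β (σ i) := by
  have h2 : MvPolynomial.C κ * ∏ i, hL (α i) (β i) = MvPolynomial.C κ' * ∏ i, hL (α' i) (β' i) := by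
    apply MvPolynomial.funext
    intro v
    rw [map_mul, map_mul, map_prod, map_prod]
    simp only [hL_eval, MvPolynomial.eval_C]
    exact h (v 0) (v 1)
  obtain ⟨σ, hσ⟩ := huniq 4 hκ h0 h0' h2
  choose c hc using hσ
  exact ⟨σ, c, fun i => (hc i).1, fun i => (hc i).2⟩

end H8.QS
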