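import Pool.Agent.H8.QS.Line
import Pool.Agent.H8.QS.Fac

/-! # QS.SecP : line sections of `X` (about 120 lines, given `QS.Fac`, `QS.Line`, `QS.Alg`)

`Sec f g h c`: the four points `c i = α_i g + β_i h` are the section of `X` with the line through the independent vectors `g`, `h`: `f(x g + y h) = κ ∏ (x β_i - y α_i)`; if `f = 0` on the line (`κ = 0`) they are arbitrary points of the line.
`sec_ex`: `ev_lc` and `fac_ex` (`q j = qc f g h j`); the points `α_i g + β_i h` are not zero (independence) and on `X`: put `x = α_i`, `y = β_i`.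
`sec_perm`: two sections of the same line.  If `κ ≠ 0`: `fac_uniq`, `c' i = scalar * c (σ i)`: `scl`; reorder the sum (`Equiv.sum_comp`).  If `κ = 0`: `f = 0` on the line: `onl`. -/

namespace H8.QS

open H68.BB H77.AF Polynomial

variable {K0 : Type} [Field K0] {f : MvPolynomial (Fin 4) K0} {K : Type} [Field K] [Algebra K0 K]

/-- the points `c i` are the section of `X` with the line through `g`, `h` -/
def Sec (f : MvPolynomial (Fin 4) K0) (g h : Fin 4 → K) (c : Fin 4 → XQ f K) : Prop :=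
  LinearIndependent K ![g, h] ∧ ∃ (α β : Fin 4 → K) (κ : K), (∀ i, α i ≠ 0 ∨ β i ≠ 0) ∧ (∀ i, (c i).p = lc (α i) (β i) g h) ∧
    ∀ x y : K, ev f (lc x y g h) = κ * ∏ i, (x * β i - y * α i)

theorem sec_ex [IsAlgClosed K] (hf : f.IsHomogeneous 4) {g h : Fin 4 → K} (hi : LinearIndependent K ![g, h]) :
    ∃ c : Fin 4 → XQ f K, Sec f g h c := by
  obtain ⟨κ, α, β, h1, h2⟩ := fac_ex (fun j : Fin 5 => qc f g h (j : ℕ))
  have h3 : ∀ x y : K, ev f (lc x y g h) = κ * ∏ i, (x * β i - y * α i) := by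
    intro x y
    rw [ev_lc hf, ← h2 x y]
    simp only [Fin.val_zero, Fin.val_one, Fin.val_two]
    norm_num
  have h4 : ∀ i, α i ≠ 0 ∨ β i ≠ 0 := by
    intro i
    rcases h1 i with h | h
    · exact Or.inr (by rw [h]; exact one_ne_zero)
    · exact Or.inl (by rw [h.1]; exact one_ne_zero)
  have h5 : ∀ i, lc (α i) (β i) g h ≠ 0 := by
    intro i h0
    have h6 := LinearIndependent.pair_iff.1 hi (α i) (β i) (by
      funext j
      exact congrFun h0 j)
    rcases h4 i with h | h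
    · exact h h6.1
    · exact h h6.2
  refine ⟨fun i => ⟨lc (α i) (β i) g h, h5 i, ?_⟩, hi, α, β, κ, h4, fun i => rfl, h3⟩
  rw [h3, Finset.prod_eq_zero (Finset.mem_univ i) (by ring), mul_zero]

theorem sec_perm [IsAlgClosed K] (hf : f.IsHomogeneous 4) {g h : Fin 4 → K} {c c' : Fin 4 → XQ f K}
    (hc : Sec f g h c) (hc' : Sec f g h c') : ∑ i, pt (c i) - ∑ i, pt (c' i) ∈ RatEq (xqd K f) 1 := by
  obtain ⟨hi, α, β, κ, h1, h2, h3⟩ := hc
  obtain ⟨_, α', β', κ', h1', h2', h3'⟩ := hc'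
  by_cases hκ : κ = 0
  · have h0 : ∀ x y : K, ev f (lc x y g h) = 0 := fun x y => by rw [h3, hκ, zero_mul]
    rw [← Finset.sum_sub_distrib]
    exact AddSubgroup.sum_mem _ fun i _ => onl hf h0 (h2 i) (h2' i)
  · obtain ⟨σ, d, hd, hs⟩ := fac_uniq hκ h1 h1' (fun x y => by rw [← h3, h3'])
    have e : ∑ i, pt (c i) = ∑ i, pt (c (σ i)) := (Equiv.sum_comp σ (fun i => pt (c i))).symm
    rw [e, ← Finset.sum_sub_distrib]
    refine AddSubgroup.sum_mem _ fun i _ => scl (c := d i) ?_
    intro j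
    rw [h2', h2, (hs i).1, (hs i).2]
    simp only [lc]
    ring

end H8.QS
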