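import Mathlib

/-! # QS.Span : counting algebraically independent elements (about 80 lines, Mathlib only)

`A` = the algebraic closure of `Algebra.adjoin R (Set.range s)` in `E` (`algebraicClosure` / `integralClosure` of the fraction field inside `E`: e.g. `A := algebraicClosure (IntermediateField.adjoin (FractionRing-like ..) ..) E` or directly the subalgebra of the elements of `E` which are algebraic over `Algebra.adjoin R (Set.range s)`: `Subalgebra.algebraicClosure`
or `algebraicClosure`), a domain, algebraic over the adjoin; `trdeg R A ≤ m` (`Algebra.IsAlgebraic.trdeg_le_cardinalMk`), `n ≤ trdeg R A` (`AlgebraicIndependent.cardinalMk_le_trdeg`-like for the `x i` in `A`).  If `n = m`: `Algebra.IsAlgebraic.isTranscendenceBasis_of_le_trdeg_of_finite` (file `Mathlib/RingTheory/AlgebraicIndependent/TranscendenceBasis.lean`). -/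

namespace H8.QS

private theorem span_key {R E : Type} [CommRing R] [IsDomain R] [Field E] [Algebra R E] {ι κ : Type} [Fintype ι]
    [Fintype κ] {x : ι → E} {s : κ → E} (hx : AlgebraicIndependent R x)
    (h : ∀ i, IsAlgebraic (Algebra.adjoin R (Set.range s)) (x i)) :
    ∃ _ : FaithfulSMul R E, (Fintype.card ι : ℕ∞) ≤ (AlgebraicIndependent.matroid R E).eRk (Set.range s) := by
  have hf : FaithfulSMul R E := (faithfulSMul_iff_algebraMap_injective R E).mpr hx.algebraMap_injective
  refine ⟨hf, ?_⟩
  have h1 : (AlgebraicIndependent.matroid R E).Indep (Set.range x) :=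
    AlgebraicIndependent.matroid_indep_iff.mpr hx.to_subtype_range
  have h2 : Set.range x ⊆ (AlgebraicIndependent.matroid R E).closure (Set.range s) := by
    rintro _ ⟨i, rfl⟩
    rw [AlgebraicIndependent.matroid_closure_eq]
    exact h i
  have h3 := h1.encard_le_eRk_of_subset h2
  rw [Matroid.eRk_closure_eq] at h3
  refine le_trans (le_of_eq ?_) h3
  rw [← Set.image_univ, hx.injective.encard_image, Set.encard_univ, ENat.card_eq_coe_fintype_card]

theorem span_card {R E : Type} [CommRing R] [IsDomain R] [Field E] [Algebra R E] {ι κ : Type} [Fintype ι] [Fintype κ]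
    {x : ι → E} {s : κ → E} (hx : AlgebraicIndependent R x)
    (h : ∀ i, IsAlgebraic (Algebra.adjoin R (Set.range s)) (x i)) : Fintype.card ι ≤ Fintype.card κ := by
  obtain ⟨_, h1⟩ := span_key hx h
  have h2 := h1.trans (Matroid.eRk_le_encard _ _)
  have h3 : (Set.range s).encard ≤ (Fintype.card κ : ℕ∞) := by
    rw [← Set.image_univ]
    refine (Set.encard_image_le s Set.univ).trans (le_of_eq ?_)
    rw [Set.encard_univ, ENat.card_eq_coe_fintype_card]
  exact_mod_cast h2.trans h3

theorem span_ind {R E : Type} [CommRing R] [IsDomain R] [Field E] [Algebra R E] {ι κ : Type} [Fintype ι] [Fintype κ]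
    {x : ι → E} {s : κ → E} (hx : AlgebraicIndependent R x)
    (h : ∀ i, IsAlgebraic (Algebra.adjoin R (Set.range s)) (x i)) (hc : Fintype.card κ ≤ Fintype.card ι) :
    AlgebraicIndependent R s := by
  obtain ⟨_, h1⟩ := span_key hx h
  have hκ : (Fintype.card κ : ℕ∞) ≤ Fintype.card ι := by exact_mod_cast hc
  have h3 : (Set.range s).encard ≤ (Fintype.card κ : ℕ∞) := by
    rw [← Set.image_univ]
    refine (Set.encard_image_le s Set.univ).trans (le_of_eq ?_)
    rw [Set.encard_univ, ENat.card_eq_coe_fintype_card]
  have h4 : (AlgebraicIndependent.matroid R E).Indep (Set.range s) := by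
    rw [Matroid.indep_iff_eRk_eq_encard_of_finite (Set.finite_range s)]
    exact le_antisymm (Matroid.eRk_le_encard _ _) (h3.trans (hκ.trans h1))
  have h5 : (Fintype.card κ : ℕ∞) ≤ (Set.range s).encard := hκ.trans (h1.trans (Matroid.eRk_le_encard _ _))
  have h6 : Function.Injective s := by
    classical
    have h7 : Fintype.card κ ≤ (Set.range s).ncard := by
      rw [← (Set.finite_range s).cast_ncard_eq] at h5
      exact_mod_cast h5
    have h8 : (Finset.univ.image s).card = Fintype.card κ := by
      refine le_antisymm Finset.card_image_le ?_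
      have h9 : ((Finset.univ.image s : Finset E) : Set E) = Set.range s := by
        rw [Finset.coe_image, Finset.coe_univ, Set.image_univ]
      rw [← h9, Set.ncard_coe_finset] at h7
      exact h7
    have h10 := Finset.card_image_iff.1 h8
    intro a b hab
    exact h10 (by simp) (by simp) hab
  exact .of_subtype_range h6 (AlgebraicIndependent.matroid_indep_iff.mp h4)

end H8.QS
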