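import Pool.Agent.H8.QS.UF
import Pool.Agent.H8.QS.Span
import Pool.Agent.H8.QS.Alg

/-! # QS.GenP : generic points on the universal quartic (about 150 lines, given `QS.Span`, `QS.UF`)

`P = y + r v`, the eight elements `y i`, `v i` algebraically independent over `U4`.
(1) `P 3 ≠ 0`: otherwise let `s = (P 0, P 1, P 2, r, v 0, .., v 3)` (8 elements): `y i = P i - r v i` (`P 3 = 0`) is in `Algebra.adjoin U4 (range s)`, so `span_ind`: `s` is algebraically independent, in particular `P 0, P 1, P 2`; but `ev fU (P 0, P 1, P 2, 0) = 0` is a nontrivial relation (the coefficient of `X0^4` is `toU (X ..) ≠ 0`).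
(2) `s = (P 0 / P 3, P 1 / P 3, P 3, r, v 0, .., v 3)` (8 elements).  `P 2 / P 3` is algebraic over `U4(P 0 / P 3, P 1 / P 3)`: it is a root of `fU(P 0 / P 3, P 1 / P 3, T, 1)` (homogeneity), whose coefficient of `T^4` is `toU (X ..) ≠ 0`.  So `y i = (P i / P 3) P 3 - r v i` is algebraic over `Algebra.adjoin U4 (range s)` (algebraic elements are closed under sums and products);
`span_ind`: `s` is algebraically independent, in particular `![P 0 / P 3, P 1 / P 3]` (`AlgebraicIndependent.comp`). -/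

namespace H8.QS

open Polynomial

private theorem gp_mem (k : Fin 4) : (Finsupp.single k 4 : Fin 4 →₀ ℕ) ∈ ex4 := by
  rw [mem_ex4, Finsupp.degree_single]

private theorem gp_toU_ne (m : Mo4) : (toU (MvPolynomial.X m) : U4) ≠ 0 := by
  intro h
  exact MvPolynomial.X_ne_zero m (toU_inj (by rw [h, map_zero]))

private theorem gp_eq {m : Mo4} {k : Fin 4} (h : m.1 k = 4) : m = ⟨Finsupp.single k 4, gp_mem k⟩ := by
  have h1 : m.1.degree = 4 := (mem_ex4 m.1).1 m.2
  apply Subtype.ext
  have h2 : ∀ i, i ≠ k → m.1 i = 0 := by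
    intro i hi
    have h3 : m.1.degree = ∑ j, m.1 j := by
      rw [Finsupp.degree_eq_sum]
    rw [h3] at h1
    have h4 : m.1 k + m.1 i ≤ ∑ j, m.1 j := by
      have h5 : ∑ j ∈ ({k, i} : Finset (Fin 4)), m.1 j ≤ ∑ j, m.1 j :=
        Finset.sum_le_sum_of_subset (Finset.subset_univ _)
      rwa [Finset.sum_pair (Ne.symm hi)] at h5
    omega
  ext i
  by_cases hi : i = k
  · subst hi
    simp [h]
  · rw [h2 i hi, Finsupp.single_apply, if_neg (Ne.symm hi)]

private theorem gp_aeval {B : Type} [CommRing B] [Algebra U4 B] (g : Fin 4 → B) :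
    MvPolynomial.aeval g fU = ∑ m : Mo4, algebraMap U4 B (toU (MvPolynomial.X m)) * ∏ i, g i ^ m.1 i := by
  unfold fU
  rw [map_sum]
  refine Finset.sum_congr rfl fun m _ => ?_
  rw [MvPolynomial.aeval_monomial, Finsupp.prod_fintype _ _ (fun i => pow_zero _)]

private theorem gp_eval0 : (MvPolynomial.aeval (Pi.single 0 1 : Fin 4 → U4)) fU ≠ 0 := by
  rw [gp_aeval, Finset.sum_eq_single (⟨Finsupp.single 0 4, gp_mem 0⟩ : Mo4)]
  · have h1 : ∏ i, (Pi.single 0 1 : Fin 4 → U4) i ^ (Finsupp.single (0 : Fin 4) 4 : Fin 4 →₀ ℕ) i = 1 := by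
      rw [Fin.prod_univ_four]
      simp
    rw [h1, mul_one]
    exact gp_toU_ne _
  · intro m _ hm
    have h1 : ∏ i, (Pi.single 0 1 : Fin 4 → U4) i ^ m.1 i = 0 := by
      by_contra h2
      apply hm
      have h3 : ∀ i : Fin 4, i ≠ 0 → m.1 i = 0 := by
        intro i hi
        by_contra h4
        apply h2
        refine Finset.prod_eq_zero (Finset.mem_univ i) ?_
        rw [Pi.single_eq_of_ne hi, zero_pow h4]
      apply gp_eq
      have h5 : m.1.degree = 4 := (mem_ex4 m.1).1 m.2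
      rw [Finsupp.degree_eq_sum, Fin.sum_univ_four, h3 1 (by decide), h3 2 (by decide), h3 3 (by decide)] at h5
      simpa using h5
    rw [h1, mul_zero]
  · intro h
    exact absurd (Finset.mem_univ _) h

private theorem gp_coeff {A : Type} [CommRing A] [Nontrivial A] [Algebra U4 A] (a b : A) :
    (MvPolynomial.aeval (![C a, C b, X, 1] : Fin 4 → A[X])) fU ≠ 0 := by
  intro h
  have h0 : ((MvPolynomial.aeval (![C a, C b, X, 1] : Fin 4 → A[X])) fU).coeff 4 = 0 := by
    rw [h, coeff_zero]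
  rw [gp_aeval, finset_sum_coeff] at h0
  have h1 : ∀ m : Mo4, (algebraMap U4 A[X] (toU (MvPolynomial.X m)) *
      ∏ i, (![C a, C b, X, 1] : Fin 4 → A[X]) i ^ m.1 i).coeff 4 =
      if m.1 2 = 4 then algebraMap U4 A (toU (MvPolynomial.X m)) * (a ^ m.1 0 * b ^ m.1 1) else 0 := by
    intro m
    have h2 : algebraMap U4 A[X] (toU (MvPolynomial.X m)) *
      ∏ i, (![C a, C b, X, 1] : Fin 4 → A[X]) i ^ m.1 i =
      C (algebraMap U4 A (toU (MvPolynomial.X m)) * (a ^ m.1 0 * b ^ m.1 1)) * X ^ m.1 2 := by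
      rw [Fin.prod_univ_four]
      simp only [Matrix.cons_val_zero, Matrix.cons_val_one, Matrix.cons_val, one_pow, mul_one, map_mul, map_pow]
      rw [Polynomial.algebraMap_apply]
      ring
    rw [h2, coeff_C_mul, coeff_X_pow]
    by_cases h3 : m.1 2 = 4
    · rw [if_pos h3.symm, if_pos h3, mul_one]
    · rw [if_neg (Ne.symm h3), if_neg h3, mul_zero]
  rw [Finset.sum_congr rfl (fun m _ => h1 m), Finset.sum_eq_single (⟨Finsupp.single 2 4, gp_mem 2⟩ : Mo4)] at h0
  · rw [if_pos (by simp)] at h0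
    have h4 : (Finsupp.single (2 : Fin 4) 4 : Fin 4 →₀ ℕ) 0 = 0 := by simp
    have h5 : (Finsupp.single (2 : Fin 4) 4 : Fin 4 →₀ ℕ) 1 = 0 := by simp
    rw [h4, h5, pow_zero, pow_zero, mul_one, mul_one] at h0
    exact gp_toU_ne _ ((map_eq_zero_iff _ (algebraMap U4 A).injective).1 h0)
  · intro m _ hm
    exact if_neg fun h => hm (gp_eq h)
  · intro h
    exact absurd (Finset.mem_univ _) h

private theorem gp_three {L : Type} [Field L] [Algebra U4 L] {y v : Fin 4 → L} {r : L}
    (hi : AlgebraicIndependent U4 (Sum.elim y v : Fin 4 ⊕ Fin 4 → L)) (h : ev fU (fun i => y i + r * v i) = 0) :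
    y 3 + r * v 3 ≠ 0 := by
  intro h3
  set P : Fin 4 → L := fun i => y i + r * v i with hP
  let s : Fin 3 ⊕ (Unit ⊕ Fin 4) → L := Sum.elim (fun i => P i.castSucc) (Sum.elim (fun _ => r) v)
  have hs : ∀ i, s i ∈ Algebra.adjoin U4 (Set.range s) := fun i => Algebra.subset_adjoin ⟨i, rfl⟩
  have hr : r ∈ Algebra.adjoin U4 (Set.range s) := hs (Sum.inr (Sum.inl ()))
  have hv : ∀ i, v i ∈ Algebra.adjoin U4 (Set.range s) := fun i => hs (Sum.inr (Sum.inr i))
  have hPm : ∀ i, P i ∈ Algebra.adjoin U4 (Set.range s) := by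
    intro i
    refine Fin.lastCases ?_ (fun j => hs (Sum.inl j)) i
    have h4 : P (Fin.last 3) = 0 := h3
    rw [h4]
    exact Subalgebra.zero_mem _
  have hy : ∀ i, y i ∈ Algebra.adjoin U4 (Set.range s) := by
    intro i
    have h5 : y i = P i - r * v i := by rw [hP]; ring
    rw [h5]
    exact Subalgebra.sub_mem _ (hPm i) (Subalgebra.mul_mem _ hr (hv i))
  have key : AlgebraicIndependent U4 s := by
    refine span_ind hi ?_ (by simp)
    rintro (i | i)
    · exact isAlgebraic_algebraMap (⟨y i, hy i⟩ : Algebra.adjoin U4 (Set.range s))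
    · exact isAlgebraic_algebraMap (⟨v i, hv i⟩ : Algebra.adjoin U4 (Set.range s))
  have key2 : AlgebraicIndependent U4 (fun i : Fin 3 => P i.castSucc) :=
    key.comp Sum.inl Sum.inl_injective
  let g : MvPolynomial (Fin 3) U4 := MvPolynomial.aeval (Fin.snoc (fun i => MvPolynomial.X i) 0 : Fin 4 → MvPolynomial (Fin 3) U4) fU
  have hg : MvPolynomial.aeval (fun i : Fin 3 => P i.castSucc) g = 0 := by
    have h6 : MvPolynomial.aeval (fun i : Fin 3 => P i.castSucc) g =
        MvPolynomial.aeval P fU := by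
      show MvPolynomial.aeval (fun i : Fin 3 => P i.castSucc) (MvPolynomial.aeval _ fU) = _
      rw [MvPolynomial.comp_aeval_apply]
      congr 2
      funext i
      refine Fin.lastCases ?_ (fun j => ?_) i
      · rw [Fin.snoc_last, map_zero]
        exact h3.symm
      · rw [Fin.snoc_castSucc, MvPolynomial.aeval_X]
    rw [h6]
    exact h
  have hg0 : g = 0 := by
    have h7 := algebraicIndependent_iff.1 key2
    exact h7 g hg
  have h8 : MvPolynomial.aeval (Pi.single 0 1 : Fin 3 → U4) g = 0 := by rw [hg0, map_zero]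
  apply gp_eval0
  rw [← h8]
  show _ = MvPolynomial.aeval (Pi.single 0 1 : Fin 3 → U4) (MvPolynomial.aeval _ fU)
  rw [MvPolynomial.comp_aeval_apply]
  congr 2
  funext i
  refine Fin.lastCases ?_ (fun j => ?_) i
  · rw [Fin.snoc_last, map_zero]
    exact Pi.single_eq_of_ne (by decide) _
  · rw [Fin.snoc_castSucc, MvPolynomial.aeval_X]
    by_cases hj : j = 0
    · subst hj
      rfl
    · rw [Pi.single_eq_of_ne hj, Pi.single_eq_of_ne]
      intro h9
      exact hj (Fin.castSucc_injective _ h9)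

theorem gen_of {L : Type} [Field L] [Algebra U4 L] {y v : Fin 4 → L} {r : L}
    (hi : AlgebraicIndependent U4 (Sum.elim y v : Fin 4 ⊕ Fin 4 → L)) (h : ev fU (fun i => y i + r * v i) = 0) :
    Gen (fun i => y i + r * v i) := by
  have h3 := gp_three hi h
  refine ⟨h3, ?_⟩
  set P : Fin 4 → L := fun i => y i + r * v i with hP
  have h3' : P 3 ≠ 0 := h3
  let s : Fin 2 ⊕ (Unit ⊕ (Unit ⊕ Fin 4)) → L :=
    Sum.elim ![P 0 / P 3, P 1 / P 3] (Sum.elim (fun _ => P 3) (Sum.elim (fun _ => r) v))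
  let A := Algebra.adjoin U4 (Set.range s)
  have hs : ∀ i, s i ∈ A := fun i => Algebra.subset_adjoin ⟨i, rfl⟩
  have ha : P 0 / P 3 ∈ A := hs (Sum.inl 0)
  have hb : P 1 / P 3 ∈ A := hs (Sum.inl 1)
  have hp3 : P 3 ∈ A := hs (Sum.inr (Sum.inl ()))
  have hr : r ∈ A := hs (Sum.inr (Sum.inr (Sum.inl ())))
  have hv : ∀ i, v i ∈ A := fun i => hs (Sum.inr (Sum.inr (Sum.inr i)))
  have alg : ∀ z : L, z ∈ A → IsAlgebraic A z := fun z hz => isAlgebraic_algebraMap (⟨z, hz⟩ : A)
  have h2 : IsAlgebraic A (P 2 / P 3) := by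
    refine ⟨MvPolynomial.aeval (![C ⟨P 0 / P 3, ha⟩, C ⟨P 1 / P 3, hb⟩, X, 1] : Fin 4 → A[X]) fU, gp_coeff _ _, ?_⟩
    have h4 : (Polynomial.aeval (P 2 / P 3) : A[X] →ₐ[A] L)
        (MvPolynomial.aeval (![C ⟨P 0 / P 3, ha⟩, C ⟨P 1 / P 3, hb⟩, X, 1] : Fin 4 → A[X]) fU) =
        MvPolynomial.aeval (fun i => (P 3)⁻¹ * P i) fU := by
      have h5 := MvPolynomial.comp_aeval_apply (![C ⟨P 0 / P 3, ha⟩, C ⟨P 1 / P 3, hb⟩, X, 1] : Fin 4 → A[X])
        ((Polynomial.aeval (P 2 / P 3) : A[X] →ₐ[A] L).restrictScalars U4) fU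
      rw [AlgHom.restrictScalars_apply] at h5
      rw [h5]
      congr 2
      funext i
      fin_cases i
      · simp [Subalgebra.algebraMap_def, div_eq_mul_inv, mul_comm]
      · simp [Subalgebra.algebraMap_def, div_eq_mul_inv, mul_comm]
      · simp [div_eq_mul_inv, mul_comm]
      · simp [inv_mul_cancel₀ h3']
    rw [h4]
    have h6 := ev_smul fU_hom (P 3)⁻¹ P
    rw [h, mul_zero] at h6
    exact h6
  have hP' : ∀ i, IsAlgebraic A (P i) := by
    intro i
    have h7 : P i = P i / P 3 * P 3 := by rw [div_mul_cancel₀ _ h3']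
    rw [h7]
    refine IsAlgebraic.mul ?_ (alg _ hp3)
    fin_cases i
    · exact alg _ ha
    · exact alg _ hb
    · exact h2
    · show IsAlgebraic A (P 3 / P 3)
      rw [div_self h3']
      exact isAlgebraic_one
  have key : AlgebraicIndependent U4 s := by
    refine span_ind hi ?_ (by simp)
    rintro (i | i)
    · show IsAlgebraic A (y i)
      have h5 : y i = P i - r * v i := by rw [hP]; ring
      rw [h5]
      exact (hP' i).sub ((alg _ hr).mul (alg _ (hv i)))
    · exact alg _ (hv i)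
  exact key.comp Sum.inl Sum.inl_injective

end H8.QS
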