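import Pool.Agent.H68.BB.Red
import Mathlib

/-! # QS.RootL : lifting a root of a polynomial over a valuation ring (about 80 lines)

`g.coeff 0` reduces to `0`.  If it is `0` then `r = 0`.  Otherwise all roots `r_i` of `g` are nonzero, `g = g.coeff 0 * ∏ (1 - X / r_i)` (`F` algebraically closed: `g = C lead * ∏ (X - C r_i)`).  If no root reduces to `0` then all `r_i⁻¹` are in `V` (`V.mem_or_inv_mem`; if `r_i ∈ V` with nonzero reduction: `Rd.inv`), so all coefficients of `∏ (1 - X / r_i)` are in `V`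
(a product of polynomials with coefficients in `V`: e.g. in the range of `Polynomial.map V.subtype`, `Polynomial.lifts`), and all the coefficients of `g` reduce to `0`: `g0 = 0`, a contradiction. -/

namespace H8.QS

open H68.BB Polynomial

private theorem rootL_prod {F : Type} [Field F] (V : ValuationSubring F) (s : Multiset F)
    (hs : ∀ r ∈ s, r ≠ 0 ∧ r⁻¹ ∈ V) :
    ∃ (c : F) (q : F[X]), (∀ j, q.coeff j ∈ V) ∧ q.coeff 0 = 1 ∧ (s.map (fun r => X - C r)).prod = C c * q := by
  induction s using Multiset.induction_on with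
  | empty =>
    refine ⟨1, 1, fun j => ?_, by simp, by simp⟩
    rw [coeff_one]
    split_ifs
    · exact V.one_mem
    · exact V.zero_mem
  | cons a s ih =>
    obtain ⟨c, q, h1, h2, h3⟩ := ih fun r hr => hs r (Multiset.mem_cons_of_mem hr)
    obtain ⟨ha, ha'⟩ := hs a (Multiset.mem_cons_self a s)
    refine ⟨c * (-a), q - C a⁻¹ * (X * q), fun j => ?_, ?_, ?_⟩
    · rw [coeff_sub, coeff_C_mul]
      refine sub_mem (h1 j) (V.mul_mem _ _ ha' ?_)
      cases j with
      | zero => rw [coeff_X_mul_zero]; exact V.zero_mem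
      | succ j => rw [coeff_X_mul]; exact h1 j
    · rw [coeff_sub, coeff_C_mul, coeff_X_mul_zero, h2, mul_zero, sub_zero]
    · rw [Multiset.map_cons, Multiset.prod_cons, h3]
      have h4 : (C a : F[X]) * C a⁻¹ = 1 := by rw [← C_mul, mul_inv_cancel₀ ha, C_1]
      rw [C_mul, C_neg]
      linear_combination (-(X * C c * q)) * h4

theorem root_lift {F κ : Type} [Field F] [IsAlgClosed F] [Field κ] {V : ValuationSubring F} {φ : V →+* κ} [IsLocalHom φ]
    {g : F[X]} {g0 : κ[X]} (h : ∀ j, Rd V φ (g.coeff j) (g0.coeff j)) (h0 : g0 ≠ 0) (hr : g0.eval 0 = 0) :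
    ∃ r : F, g.eval r = 0 ∧ Rd V φ r 0 := by
  by_contra hcon
  push Not at hcon
  have hg : g ≠ 0 := by
    rintro rfl
    apply h0
    ext j
    have h1 := h j
    rw [coeff_zero] at h1
    rw [coeff_zero]
    exact h1.unique Rd.zero
  have hroots : ∀ r ∈ g.roots, r ≠ 0 ∧ r⁻¹ ∈ V := by
    intro r hr
    have h1 : g.eval r = 0 := (mem_roots hg).1 hr
    have h2 := hcon r h1
    refine ⟨?_, ?_⟩
    · rintro rfl
      exact h2 Rd.zero
    · rcases V.mem_or_inv_mem r with h3 | h3
      · have h4 : Rd V φ r (φ ⟨r, h3⟩) := Rd.of_mem h3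
        by_cases h5 : φ ⟨r, h3⟩ = 0
        · rw [h5] at h4
          exact absurd h4 h2
        · exact (h4.inv h5).mem
      · exact h3
  obtain ⟨c, q, h1, h2, h3⟩ := rootL_prod V g.roots hroots
  have h4 : g = C g.leadingCoeff * (g.roots.map (fun r => X - C r)).prod :=
    (IsAlgClosed.splits g).eq_prod_roots
  rw [h3, ← mul_assoc, ← C_mul] at h4
  have h5 : ∀ j, g.coeff j = (g.leadingCoeff * c) * q.coeff j := by
    intro j
    conv_lhs => rw [h4]
    rw [coeff_C_mul]
  have h6 : Rd V φ (g.leadingCoeff * c) 0 := by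
    have h7 := h 0
    rw [h5, h2, mul_one, coeff_zero_eq_eval_zero, hr] at h7
    exact h7
  apply h0
  ext j
  have h7 := h6.mul (Rd.of_mem (φ := φ) (h1 j))
  rw [← h5, zero_mul] at h7
  rw [coeff_zero]
  exact (h j).unique h7

end H8.QS
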