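import Pool.Agent.H8.QS.RelQ
import Pool.Agent.H8.QS.RootL
import Pool.Agent.H8.QS.GenP
import Pool.Agent.H8.QS.Alg

/-! # QS.LiftQ : generic lifts of all points (about 150 lines, given `QS.RelQ`, `QS.RootL`, `QS.GenP`)

`f ≠ 0`, `K` infinite: there is `w` with `f(w) ≠ 0`; for `P : XQ f K` put `v = w - P.p`: the polynomial `lin f P.p v ∈ K[T]` is not zero (value at `1`), its value at `0` is `f(P) = 0`.  `rel_q` with `c m = coeff m f`, `I = XQ f K × (Fin 4 ⊕ Fin 4)`, `v (P, inl i) = P.p i`, `v (P, inr i) = w i - P.p i`: `y`, `v1` over `L1`.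
`g = lin fU y v1 ∈ L1[T]` reduces coefficientwise to `lin f P.p v` (the coefficients are polynomials in the coefficients of the forms and in the entries: reduction of sums and products; e.g. through `MvPolynomial.eval₂`-expansion: `lin f x u = ∑_m coeff m f * ∏ (C (x i) + C (u i) X)^(m i)`; a polynomial over `V` reduces: predicate
`fun g g0 => ∀ j, Rd V φ (g.coeff j) (g0.coeff j)` is closed under sums, products, powers: `Polynomial.coeff_mul`).  `root_lift`: `r` with `g(r) = 0`, `r` reduces to `0`.  `P1 = y + r v1`: `ev fU P1 = 0` (`(lin f x u).eval r = ev f (x + r u)`), reduces to `P.p`; `P1 ≠ 0`; `gen_of` (`AlgebraicIndependent.comp`).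
`coeff m fU` for `m ∉ ex4`: both zero (`f` homogeneous). -/

namespace H8.QS

open H68.BB Polynomial

section
variable {F κ : Type} [Field F] [Field κ] {V : ValuationSubring F} {φ : V →+* κ}

/-- coefficientwise reduction -/
private def CRd (V : ValuationSubring F) (φ : V →+* κ) (g : F[X]) (g0 : κ[X]) : Prop :=
  ∀ j, Rd V φ (g.coeff j) (g0.coeff j)

private theorem rd_sum {ι : Type} (s : Finset ι) {a : ι → F} {b : ι → κ} (h : ∀ i ∈ s, Rd V φ (a i) (b i)) :
    Rd V φ (∑ i ∈ s, a i) (∑ i ∈ s, b i) := by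
  classical
  induction s using Finset.induction_on with
  | empty => simpa using (Rd.zero (V := V) (φ := φ))
  | insert i s hi ih =>
    rw [Finset.sum_insert hi, Finset.sum_insert hi]
    exact (h i (Finset.mem_insert_self i s)).add (ih fun j hj => h j (Finset.mem_insert_of_mem hj))

private theorem crd_C {a : F} {b : κ} (h : Rd V φ a b) : CRd V φ (C a) (C b) := by
  intro j
  rw [coeff_C, coeff_C]
  split_ifs
  · exact h
  · exact Rd.zero

private theorem crd_X : CRd V φ X X := by
  intro j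
  rw [coeff_X, coeff_X]
  split_ifs
  · exact Rd.one
  · exact Rd.zero

private theorem crd_add {g h : F[X]} {g0 h0 : κ[X]} (h1 : CRd V φ g g0) (h2 : CRd V φ h h0) :
    CRd V φ (g + h) (g0 + h0) := by
  intro j
  rw [coeff_add, coeff_add]
  exact (h1 j).add (h2 j)

private theorem crd_mul {g h : F[X]} {g0 h0 : κ[X]} (h1 : CRd V φ g g0) (h2 : CRd V φ h h0) :
    CRd V φ (g * h) (g0 * h0) := by
  intro j
  rw [coeff_mul, coeff_mul]
  exact rd_sum _ fun p _ => (h1 p.1).mul (h2 p.2)

private theorem crd_one : CRd V φ 1 1 := by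
  have h := crd_C (V := V) (φ := φ) Rd.one
  rwa [C_1, C_1] at h

private theorem crd_pow {g : F[X]} {g0 : κ[X]} (h : CRd V φ g g0) (n : ℕ) : CRd V φ (g ^ n) (g0 ^ n) := by
  induction n with
  | zero => rw [pow_zero, pow_zero]; exact crd_one
  | succ n ih => rw [pow_succ, pow_succ]; exact crd_mul ih h

private theorem crd_sum {ι : Type} (s : Finset ι) {a : ι → F[X]} {b : ι → κ[X]} (h : ∀ i ∈ s, CRd V φ (a i) (b i)) :
    CRd V φ (∑ i ∈ s, a i) (∑ i ∈ s, b i) := by
  intro j
  rw [finsetSum_coeff, finsetSum_coeff]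
  exact rd_sum s fun i hi => h i hi j

private theorem crd_prod {ι : Type} (s : Finset ι) {a : ι → F[X]} {b : ι → κ[X]} (h : ∀ i ∈ s, CRd V φ (a i) (b i)) :
    CRd V φ (∏ i ∈ s, a i) (∏ i ∈ s, b i) := by
  classical
  induction s using Finset.induction_on with
  | empty => simpa using (crd_one (V := V) (φ := φ))
  | insert i s hi ih =>
    rw [Finset.prod_insert hi, Finset.prod_insert hi]
    exact crd_mul (h i (Finset.mem_insert_self i s)) (ih fun j hj => h j (Finset.mem_insert_of_mem hj))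

end

/-- expansion of `lin` over the exponents of degree 4 -/
private theorem lin_exp {K0 : Type} [Field K0] {f : MvPolynomial (Fin 4) K0} (hf : ∀ m, m ∉ ex4 → MvPolynomial.coeff m f = 0)
    {F : Type} [Field F] [Algebra K0 F] (x u : Fin 4 → F) :
    lin f x u = ∑ m ∈ ex4, C (algebraMap K0 F (MvPolynomial.coeff m f)) * ∏ i, (C (x i) + C (u i) * X) ^ m i := by
  unfold lin
  rw [MvPolynomial.aeval_def, MvPolynomial.eval₂_eq']
  have h1 : f.support ⊆ ex4 := by
    intro m hm
    by_contra h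
    exact (MvPolynomial.mem_support_iff.1 hm) (hf m h)
  rw [Finset.sum_subset h1]
  · refine Finset.sum_congr rfl fun m _ => ?_
    congr 1
  · intro m _ hm
    rw [MvPolynomial.notMem_support_iff.1 hm, map_zero, zero_mul]

private theorem lin_eval {K0 : Type} [Field K0] (f : MvPolynomial (Fin 4) K0)
    {F : Type} [Field F] [Algebra K0 F] (x u : Fin 4 → F) (r : F) :
    (lin f x u).eval r = ev f (fun i => x i + r * u i) := by
  have h := MvPolynomial.comp_aeval_apply (fun i => C (x i) + C (u i) * X)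
    ((Polynomial.aeval r : F[X] →ₐ[F] F).restrictScalars K0) f
  unfold lin ev
  have h2 : ((Polynomial.aeval r : F[X] →ₐ[F] F).restrictScalars K0)
      (MvPolynomial.aeval (fun i => C (x i) + C (u i) * X) f) =
      (MvPolynomial.aeval (fun i => C (x i) + C (u i) * X) f : F[X]).eval r := by
    rw [AlgHom.restrictScalars_apply, Polynomial.coe_aeval_eq_eval]
  rw [← h2, h]
  congr 2
  funext i
  rw [AlgHom.restrictScalars_apply, Polynomial.coe_aeval_eq_eval]
  rw [eval_add, eval_C, eval_mul, eval_C, eval_X, mul_comm]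

theorem lifts_q (K : Type) [Field K] [IsAlgClosed K] {f : MvPolynomial (Fin 4) K} (hf : f.IsHomogeneous 4) (h0 : f ≠ 0) :
    ∃ (L1 : Type) (_ : Field L1) (_ : IsAlgClosed L1) (_ : CharZero L1) (_ : Algebra U4 L1) (V : ValuationSubring L1) (φ : V →+* K),
      IsLocalHom φ ∧ (∀ m, Rd V φ (algebraMap U4 L1 (MvPolynomial.coeff m fU)) (MvPolynomial.coeff m f)) ∧
      ∀ P : XQ f K, ∃ P1 : XQ fU L1, Gen P1.p ∧ ∀ i, Rd V φ (P1.p i) (P.p i) := by
  have hinf : Infinite K := IsAlgClosed.instInfinite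
  obtain ⟨w, hw⟩ : ∃ w : Fin 4 → K, MvPolynomial.eval w f ≠ 0 := by
    by_contra hcon
    push Not at hcon
    exact h0 (MvPolynomial.funext fun w => by rw [hcon w, map_zero])
  have hf0 : ∀ m, m ∉ ex4 → MvPolynomial.coeff m f = 0 := by
    intro m hm
    by_contra h
    exact hm ((mem_ex4 m).2 (by
      have h1 := hf h
      rw [Finsupp.degree_eq_weight_one (R := ℕ)]
      exact h1))
  let I : Type := XQ f K × (Fin 4 ⊕ Fin 4)
  let v : I → K := fun z => Sum.elim z.1.p (fun i => w i - z.1.p i) z.2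
  obtain ⟨L1, i1, i2, i3, i4, V, φ, y, hloc, hsur, hc, hy, hind⟩ := rel_q K (fun m => MvPolynomial.coeff m.1 f) I v
  have hcoef : ∀ m, Rd V φ (algebraMap U4 L1 (MvPolynomial.coeff m fU)) (MvPolynomial.coeff m f) := by
    intro m
    by_cases hm : m ∈ ex4
    · have h1 := hc ⟨m, hm⟩
      rw [← coeff_fU ⟨m, hm⟩] at h1
      exact h1
    · rw [coeff_fU0 hm, hf0 m hm, map_zero]
      exact Rd.zero
  refine ⟨L1, i1, i2, i3, i4, V, φ, hloc, hcoef, fun P => ?_⟩
  let x1 : Fin 4 → L1 := fun i => y (P, Sum.inl i)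
  let u1 : Fin 4 → L1 := fun i => y (P, Sum.inr i)
  let u0 : Fin 4 → K := fun i => w i - P.p i
  have hx1 : ∀ i, Rd V φ (x1 i) (P.p i) := fun i => hy (P, Sum.inl i)
  have hu1 : ∀ i, Rd V φ (u1 i) (u0 i) := fun i => hy (P, Sum.inr i)
  have hred : ∀ j, Rd V φ ((lin fU x1 u1).coeff j) ((lin f P.p u0).coeff j) := by
    rw [lin_exp (fun m hm => coeff_fU0 hm), lin_exp hf0]
    refine crd_sum _ fun m _ => crd_mul (crd_C (hcoef m)) (crd_prod _ fun i _ => crd_pow ?_ _)
    exact crd_add (crd_C (hx1 i)) (crd_mul (crd_C (hu1 i)) crd_X)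
  have hne : lin f P.p u0 ≠ 0 := by
    intro h
    have h1 := lin_eval f P.p u0 1
    rw [h, eval_zero] at h1
    apply hw
    have h2 : (fun i => P.p i + 1 * u0 i) = w := by
      funext i
      show P.p i + 1 * (w i - P.p i) = w i
      ring
    rw [h2] at h1
    unfold ev at h1
    rw [MvPolynomial.aeval_eq_eval] at h1
    exact h1.symm
  have hev0 : (lin f P.p u0).eval 0 = 0 := by
    rw [lin_eval]
    have h2 : (fun i => P.p i + 0 * u0 i) = P.p := by
      funext i
      ring
    rw [h2]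
    exact P.eq
  obtain ⟨r, hr, hr0⟩ := root_lift hred hne hev0
  rw [lin_eval] at hr
  have hrd : ∀ i, Rd V φ (x1 i + r * u1 i) (P.p i) := by
    intro i
    have h1 := (hx1 i).add (hr0.mul (hu1 i))
    rwa [zero_mul, add_zero] at h1
  have hindP : AlgebraicIndependent U4 (Sum.elim x1 u1 : Fin 4 ⊕ Fin 4 → L1) := by
    have h1 : AlgebraicIndependent U4 (fun s : Fin 4 ⊕ Fin 4 => y (P, s)) :=
      hind.comp (fun s => (P, s)) (fun a b h => (Prod.ext_iff.1 h).2)
    have h2 : (fun s : Fin 4 ⊕ Fin 4 => y (P, s)) = Sum.elim x1 u1 := by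
      funext s
      rcases s with i | i <;> rfl
    rwa [h2] at h1
  refine ⟨⟨fun i => x1 i + r * u1 i, ?_, hr⟩, gen_of hindP hr, hrd⟩
  intro h
  apply P.ne
  funext i
  have h1 := hrd i
  rw [congrFun h i] at h1
  exact h1.unique Rd.zero

end H8.QS
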