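import Pool.Agent.H8.QS.T2
import Pool.Agent.H8.QS.CovQ
import Pool.Agent.H8.QS.LiftQ
import Pool.Agent.H8.QS.Glue

/-! # QS.FinQ : all quartic surfaces in all characteristics, given the existence of a generic frame (about 150 lines; compare `Pool/Agent/H71/SD/FinDP.lean`)

`rat_q`: `RatEq (xqd K f) k = H8.QR.RatEq f K k` (`xqd` has `off = False`: `Fibre π S c` iff `Multiset.Rel (SpT π) S c`).
`t2` for `K0 = U4`, `fU` (`fU_hom`, `fU_ne`), the frame of `ExiQ`: `k0`.  For `K`, `f`, `z`: `lifts_q`, `xq_spz`; the lifts `li P` of all points (injective by reduction), `z1 i = (z i).mapDomain li`: degree 0, every point of the support is generic, so covered (`ExiQ`).  `t2` gives `alt z1 ∈ tor` (`alt`, `prod` are `mul` of `exists_mul`: `prodM` and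
`H8.QR.prod` agree), `alt_map` as in `FinDP.lean`, `xq_spz`. -/

namespace H8.QS

open H68.BB H77.AF

private theorem fib_iff {K0 K : Type} [Field K0] [Field K] [Algebra K0 K] (f : MvPolynomial (Fin 4) K0) {k : ℕ}
    (π : Place K (Om K)) (S : Multiset (Fin k → (xqd K f).Y)) (c : Multiset (Fin k → (xqd K f).X)) :
    Fibre π S c ↔ Multiset.Rel (SpT π) S c := by
  constructor
  · rintro ⟨S1, S2, h1, h2, h3⟩
    have h4 : S2 = 0 := by
      refine Multiset.eq_zero_of_forall_notMem fun P hP => ?_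
      obtain ⟨i, hi⟩ := h3 P hP
      exact hi
    rw [h1, h4, add_zero]
    exact h2
  · intro h
    exact ⟨S, 0, (add_zero S).symm, h, fun P hP => absurd hP (Multiset.notMem_zero P)⟩

theorem rat_q {K0 K : Type} [Field K0] [Field K] [Algebra K0 K] (f : MvPolynomial (Fin 4) K0) (k : ℕ) :
    (RatEq (xqd K f) k : AddSubgroup (Cyc (xqd K f) k)) = H8.QR.RatEq f K k := by
  unfold H77.AF.RatEq H8.QR.RatEq
  refine le_antisymm ?_ ?_
  · refine (AddSubgroup.closure_le _).2 ?_
    rintro z ⟨S, π, π', c, c', hS, hc, hc', hz⟩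
    refine AddSubgroup.subset_closure ?_
    exact ⟨S, π, π', c, c', hS, (fib_iff f π S c).1 hc, (fib_iff f π' S c').1 hc', hz⟩
  · refine (AddSubgroup.closure_le _).2 ?_
    rintro z ⟨S, π, π', c, c', hS, hc, hc', hz⟩
    refine AddSubgroup.subset_closure ?_
    exact ⟨S, π, π', c, c', hS, (fib_iff f π S c).2 hc, (fib_iff f π' S c').2 hc', hz⟩

section
variable {K1 K L1 L : Type} [Field K1] [Field K] [Field L1] [Algebra K1 L1] [Field L] [Algebra K L]
  {f1 : MvPolynomial (Fin 4) K1} {f : MvPolynomial (Fin 4) K} {k : ℕ}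

private theorem prod_apply (z : Fin k → XQ f L →₀ ℤ) (t : Fin k → XQ f L) : H8.QR.prod z t = ∏ i, z i (t i) := by
  classical
  unfold H8.QR.prod
  rw [Finsupp.finsetSum_apply]
  by_cases h : t ∈ Fintype.piFinset (fun i => (z i).support)
  · rw [Finset.sum_eq_single t]
    · rw [Finsupp.single_eq_same]
    · intro s _ hs
      rw [Finsupp.single_eq_of_ne]
      exact fun e => hs e.symm
    · intro h'
      exact absurd h h'
  · rw [Finset.sum_eq_zero]
    · rw [Fintype.mem_piFinset] at h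
      push Not at h
      obtain ⟨i, hi⟩ := h
      exact (Finset.prod_eq_zero (f := fun i => z i (t i)) (Finset.mem_univ i) (Finsupp.notMem_support_iff.1 hi)).symm
    · intro s hs
      rw [Finsupp.single_eq_of_ne]
      rintro rfl
      exact h hs

private theorem prod_map {li : XQ f L → XQ f1 L1} (hli : Function.Injective li) (z : Fin k → XQ f L →₀ ℤ) :
    H8.QR.prod (fun i => (z i).mapDomain li) = (H8.QR.prod z).mapDomain (fun t i => li (t i)) := by
  classical
  have hinj : Function.Injective (fun (t : Fin k → XQ f L) i => li (t i)) := fun s t h =>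
    funext fun i => hli (congrFun h i)
  ext t
  rw [prod_apply]
  by_cases h : t ∈ Set.range (fun (t : Fin k → XQ f L) i => li (t i))
  · obtain ⟨s, rfl⟩ := h
    rw [Finsupp.mapDomain_apply hinj, prod_apply]
    refine Finset.prod_congr rfl fun i _ => ?_
    rw [Finsupp.mapDomain_apply hli]
  · rw [Finsupp.mapDomain_of_notMem_range _ _ h]
    have h1 : ∃ i, t i ∉ Set.range li := by
      by_contra hcon
      push Not at hcon
      choose s hs using hcon
      exact h ⟨s, funext hs⟩
    obtain ⟨i, hi⟩ := h1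
    exact Finset.prod_eq_zero (Finset.mem_univ i) (Finsupp.mapDomain_of_notMem_range _ _ hi)

private theorem alt_map {li : XQ f L → XQ f1 L1} (hli : Function.Injective li) (z : Fin k → XQ f L →₀ ℤ) :
    H8.QR.alt (fun i => (z i).mapDomain li) = (H8.QR.alt z).mapDomain (fun t i => li (t i)) := by
  unfold H8.QR.alt
  have h1 : (∑ σ : Equiv.Perm (Fin k), (Equiv.Perm.sign σ : ℤ) • H8.QR.prod (fun i => z (σ i))).mapDomain
      (fun (t : Fin k → XQ f L) i => li (t i)) =
      ∑ σ : Equiv.Perm (Fin k), (Equiv.Perm.sign σ : ℤ) • (H8.QR.prod (fun i => z (σ i))).mapDomain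
        (fun (t : Fin k → XQ f L) i => li (t i)) := by
    have h2 := map_sum (Finsupp.mapDomain.addMonoidHom (fun (t : Fin k → XQ f L) i => li (t i)) :
      (H8.QR.Cyc f L k) →+ (H8.QR.Cyc f1 L1 k)) (fun σ : Equiv.Perm (Fin k) => (Equiv.Perm.sign σ : ℤ) •
        H8.QR.prod (fun i => z (σ i))) Finset.univ
    refine h2.trans (Finset.sum_congr rfl fun σ _ => ?_)
    exact map_zsmul (Finsupp.mapDomain.addMonoidHom (fun (t : Fin k → XQ f L) i => li (t i)) :
      (H8.QR.Cyc f L k) →+ (H8.QR.Cyc f1 L1 k)) _ _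
  rw [h1]
  refine Finset.sum_congr rfl fun σ _ => ?_
  rw [← prod_map hli]

end

theorem quartic_univ (h : Exi) : ∃ N : ℕ, 0 < N ∧ ∀ (K : Type) [Field K] [IsAlgClosed K] (f : MvPolynomial (Fin 4) K),
    f.IsHomogeneous 4 → f ≠ 0 → ∀ k, N ≤ k → ∀ z : Fin k → XQ f K →₀ ℤ, (∀ i, H8.QR.deg (z i) = 0) →
      ∃ M : ℕ, 0 < M ∧ M • H8.QR.alt z ∈ H8.QR.RatEq f K k := by
  classical
  obtain ⟨Q, _, _, _, _, _, r, hr, hX, hcov⟩ := cov_q h
  obtain ⟨k0, hk0⟩ := t2 fU_hom fU_ne r hr hX
  refine ⟨k0 + 1, Nat.succ_pos _, ?_⟩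
  intro K _ _ f hf h0 k hk z hz
  obtain ⟨L1, _, _, _, _, V, φ, hloc, hrr, hlift⟩ := lifts_q K hf h0
  have hrr' : ∀ m, Rd V φ (algebraMap U4 L1 (MvPolynomial.coeff m fU)) (algebraMap K K (MvPolynomial.coeff m f)) := hrr
  obtain ⟨N', hN', hsp⟩ := xq_spz (k := k) hf fU_hom hrr'
  choose li hgen hli using hlift
  have hinj : Function.Injective li := by
    intro p q h
    have h1 := hli p
    have h2 := hli q
    rw [h] at h1
    exact XQ.ext (funext fun i => (h1 i).unique (h2 i))
  obtain ⟨mul, hmul, hpr⟩ := exists_mul (xqd L1 fU) k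
  have ht : H8.QR.alt (fun i => (z i).mapDomain li) ∈ tor (RatEq (xqd L1 fU) k) := by
    have h1 := hk0 k (by omega) L1 mul hpr (fun i => (z i).mapDomain li) (by
      intro i
      have h2 : ((z i).mapDomain li).sum (fun _ n => n) = (z i).sum fun _ n => n :=
        Finsupp.sum_mapDomain_index (fun _ => rfl) (fun _ _ _ => rfl)
      exact h2.trans (hz i)) (by
      intro i P hP
      have h3 : P ∈ (z i).support.image li := Finsupp.mapDomain_support hP
      obtain ⟨p, _, rfl⟩ := Finset.mem_image.1 h3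
      exact hcov L1 (li p).p (li p).eq (hgen p))
    have h4 : ∀ y : Fin k → XQ fU L1 →₀ ℤ, mul y = H8.QR.prod y := fun y => hmul y
    unfold H8.QR.alt
    simp only [← h4]
    exact h1
  obtain ⟨M, hM, hM1⟩ := ht
  rw [rat_q] at hM1
  rw [alt_map hinj] at hM1
  refine ⟨N' * M, Nat.mul_pos hN' hM, ?_⟩
  have e1 : ∀ (y : H8.QR.Cyc f K k), y = ∑ t ∈ y.support, y t • Finsupp.single t 1 := by
    intro y
    conv_lhs => rw [← Finsupp.sum_single y]
    unfold Finsupp.sum
    refine Finset.sum_congr rfl fun t _ => ?_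
    rw [Finsupp.smul_single, smul_eq_mul, mul_one]
  have h3 := hsp (Fin k → XQ f K) (H8.QR.alt z).support (fun t => (M : ℤ) * H8.QR.alt z t) (fun t i => li (t i)) (fun t => t)
    (fun t _ j => hli (t j)) ?_
  · rw [mul_smul]
    have h4 : M • H8.QR.alt z = ∑ t ∈ (H8.QR.alt z).support, ((M : ℤ) * H8.QR.alt z t) • Finsupp.single t 1 := by
      conv_lhs => rw [e1 (H8.QR.alt z)]
      rw [Finset.smul_sum]
      refine Finset.sum_congr rfl fun t _ => ?_
      rw [← natCast_zsmul, smul_smul]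
    rw [h4]
    exact h3
  · have h5 : M • Finsupp.mapDomain (fun (t : Fin k → XQ f K) i => li (t i)) (H8.QR.alt z) =
        ∑ t ∈ (H8.QR.alt z).support, ((M : ℤ) * H8.QR.alt z t) • Finsupp.single (fun i => li (t i)) 1 := by
      conv_lhs => rw [e1 (H8.QR.alt z)]
      rw [Finsupp.mapDomain_finsetSum, Finset.smul_sum]
      refine Finset.sum_congr rfl fun t _ => ?_
      rw [Finsupp.mapDomain_smul, Finsupp.mapDomain_single, ← natCast_zsmul, smul_smul]
    rw [← h5]
    exact hM1

end H8.QS
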