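import Pool.Agent.H8.QS.Rdx
import Pool.Agent.H68.BB.Plc

/-! # QS.Pd : the point data `xqd` (about 120 lines; compare `Pool/Agent/H25/EX/Gam.lean` (`conj_fin`, `xp_fin`), `Pool/Agent/H25/DP/Prp.lean` (`prp`))

`xq_one`, `xq_mul`: `XQ.ext`, `rfl`.  `xq_fin`: the coordinates are algebraic over `K(t)`: `H25.EX.conj_fin`-like (copy the proof or import `Pool.Agent.H25.EX.Gam`).  `xq_prp`: `sc_ex`, `ev_smul`, `rd_ev` (`Cst` of a place: `π.const`, `IsScalarTower.algebraMap_apply K0 K (Om K)`), `Rd.unique`.  `xq_uniq`: `sp_uniq` (`Place.isLocal`). -/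

namespace H8.QS

open H68.BB H77.AF Polynomial

variable {K0 : Type} [Field K0] {f : MvPolynomial (Fin 4) K0} {K : Type} [Field K] [Algebra K0 K]

theorem xq_one (y : (xqd K f).Y) : (xqd K f).act 1 y = y := by
  refine XQ.ext ?_
  funext i
  rfl

theorem xq_mul (σ τ : Om K ≃ₐ[RatFunc K] Om K) (y : (xqd K f).Y) :
    (xqd K f).act (σ * τ) y = (xqd K f).act σ ((xqd K f).act τ y) := by
  refine XQ.ext ?_
  funext i
  rfl

/-- an element of `Om K` has finitely many conjugates -/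
private theorem pd_conj_fin {K : Type} [Field K] (x : Om K) :
    (Set.range fun σ : Om K ≃ₐ[RatFunc K] Om K => σ x).Finite := by
  have hx : IsIntegral (RatFunc K) x := (Algebra.IsAlgebraic.isAlgebraic x).isIntegral
  refine ((minpoly (RatFunc K) x).rootSet_finite (Om K)).subset ?_
  rintro _ ⟨σ, rfl⟩
  rw [Polynomial.mem_rootSet]
  refine ⟨minpoly.ne_zero hx, ?_⟩
  have h1 := Polynomial.aeval_algHom_apply (σ : Om K →ₐ[RatFunc K] Om K) x (minpoly (RatFunc K) x)
  rw [minpoly.aeval, map_zero] at h1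
  exact h1

/-- a place is the identity on the constants of `K0` -/
private theorem pd_cst (π : Place K (Om K)) : Cst K0 π.V π.φ := fun c => by
  rw [IsScalarTower.algebraMap_apply K0 K (Om K)]
  exact π.const (algebraMap K0 K c)

theorem xq_fin (y : (xqd K f).Y) : (Set.range fun σ => (xqd K f).act σ y).Finite := by
  let v : XQ f (Om K) → (Fin 4 → Om K) := fun P => P.p
  have hv : Function.Injective v := fun P Q h => XQ.ext h
  refine Set.Finite.of_finite_image (f := v) ?_ hv.injOn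
  refine (Set.Finite.pi' fun i => pd_conj_fin (XQ.p y i)).subset ?_
  rintro _ ⟨_, ⟨σ, rfl⟩, rfl⟩
  exact fun i => ⟨σ, rfl⟩

/-- every point specialises at every place -/
theorem xq_prp (hf : f.IsHomogeneous 4) (π : Place K (Om K)) (R : (xqd K f).Y) : ∃ x, (xqd K f).sp π R x := by
  let R' : XQ f (Om K) := R
  obtain ⟨c, v0, hc, hv0, h⟩ := sc_ex π.V π.φ R'.ne
  have h1 := rd_ev (f := f) (pd_cst π) h
  rw [ev_smul hf, R'.eq, mul_zero] at h1
  exact ⟨(⟨v0, hv0, h1.unique Rd.zero⟩ : XQ f K), c, hc, h⟩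

/-- two specialisations of a point are equivalent -/
theorem xq_uniq [IsAlgClosed K] (π : Place K (Om K)) {R : (xqd K f).Y} {x x' : (xqd K f).X} (h : (xqd K f).sp π R x)
    (h' : (xqd K f).sp π R x') : ∃ c : K, ∀ i, x'.p i = c * x.p i := by
  have _ := π.isLocal
  obtain ⟨c, _, hc⟩ := h
  obtain ⟨c', _, hc'⟩ := h'
  obtain ⟨k, _, hk⟩ := sp_uniq (XQ.ne x) (XQ.ne x') hc hc'
  exact ⟨k, hk⟩

end H8.QS
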