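import Pool.Agent.H8.QS.CData
import Pool.Agent.H8.QS.Pd
import Pool.Agent.H8.QS.SecP

/-! # QS.Gam : the correspondence between the elliptic surface and the residual pairs (definition and the simple properties, about 150 lines)

`GB bd r g`: a choice of frames at the closed points.  `Gm bd r g P R S`: the pair `(R, S)` lies over the point `P` of the surface `y² = l³ - 3 a l - 2 b` over `Spec A`.
`gb_ex`: choice by `cdata`.  `gm_ex`: if `P.φ` is injective: `hat_ex`, `on_ex` with `w = (s l + t) y` (`Fr.dvl` with `m = l`, `n = 1`, `ψ r.a = P.φ a`); the vectors `r.x`, `l r.d + r.e` are independent (`ind_lc` for the image of the frame; independence over `Q` gives independence of the images).  If not: `cl_pt`, and `g β`: `on_ex` again, or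
any point of `X` over `E` (a point over `K0` exists: `XQ f K0` nonempty, e.g. by `sec_ex` for the line through two unit vectors; map it).
`gm_act`: compose `ψ` with `σ` (a `K0`-algebra homomorphism); `on_map`; for the constant frames `σ` fixes the constants. -/

namespace H8.QS

open H68.BB H77.AF Polynomial

variable {K0 A Q : Type} [Field K0] [CommRing A] [IsDomain A] [Algebra K0 A] [Algebra K0[X] A] [IsScalarTower K0 K0[X] A]
  [Module.Finite K0[X] A] [FaithfulSMul K0[X] A] [Field Q] [Algebra K0 Q] [Algebra (RatFunc K0) Q]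
  {f : MvPolynomial (Fin 4) K0}

/-- `g` chooses a frame at the closed points with good reduction -/
structure GB (bd : BD K0 A Q) (r : Fr f Q) (g : (A →ₐ[K0] K0) → Option (Fr f K0)) : Prop where
  good : ∀ β r0, g β = some r0 → GoodB bd r β r0
  bad : ∀ β, g β = none → BadB bd r β

/-- the pair of points `R`, `S` over the point `P` of the surface -/
def Gm (bd : BD K0 A Q) (r : Fr f Q) (g : (A →ₐ[K0] K0) → Option (Fr f K0)) {a b : A} {E : Type} [Field E] [Algebra K0 E]
    (P : SP K0 A E a b) (R S : XQ f E) : Prop :=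
  (∃ ψ : Q →ₐ[K0] E, (∀ q, ψ (bd.i q) = P.φ q) ∧ OnF (r.map ψ) P.x P.y R.p ∧ OnF (r.map ψ) P.x (-P.y) S.p) ∨
    ∃ β : A →ₐ[K0] K0, (∀ q, P.φ q = algebraMap K0 E (β q)) ∧
      ((∃ r0, g β = some r0 ∧ OnF (r0.map (Algebra.ofId K0 E)) P.x P.y R.p ∧
        OnF (r0.map (Algebra.ofId K0 E)) P.x (-P.y) S.p) ∨ (g β = none ∧ R = S))

theorem gb_ex [IsAlgClosed K0] [CharZero K0] [CharZero Q] (hf : f.IsHomogeneous 4) (bd : BD K0 A Q) (r : Fr f Q) (hr : r.Nd) :
    ∃ g : (A →ₐ[K0] K0) → Option (Fr f K0), GB bd r g := by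
  classical
  refine ⟨fun β => if h : ∃ r0, GoodB bd r β r0 then some h.choose else none, ⟨fun β r0 h => ?_, fun β h => ?_⟩⟩
  · by_cases h1 : ∃ r0, GoodB bd r β r0
    · simp only [dif_pos h1, Option.some.injEq] at h
      rw [← h]
      exact h1.choose_spec
    · simp only [dif_neg h1] at h
      exact absurd h (by simp)
  · by_cases h1 : ∃ r0, GoodB bd r β r0
    · simp only [dif_pos h1] at h
      exact absurd h (by simp)
    · exact (cdata hf bd r hr β).resolve_left h1

private theorem gam_ind {E G : Type} [Field E] [Field G] (ψ : E →+* G) {x d e : Fin 4 → E} (h : Ind x d e) :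
    Ind (fun i => ψ (x i)) (fun i => ψ (d i)) (fun i => ψ (e i)) := by
  classical
  unfold Ind at h ⊢
  obtain ⟨L, hL⟩ := (Fintype.linearCombination E ![x, d, e]).exists_leftInverse_of_injective
    (LinearMap.ker_eq_bot.2 (linearIndependent_iff_injective_fintypeLinearCombination.1 h))
  have hL' : ∀ k : Fin 3, L ((![x, d, e] : Fin 3 → Fin 4 → E) k) = Pi.single k 1 := by
    intro k
    have h1 := LinearMap.congr_fun hL (Pi.single k 1)
    rw [LinearMap.comp_apply, Fintype.linearCombination_apply_single, one_smul, LinearMap.id_apply] at h1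
    exact h1
  have hsum : ∀ k j : Fin 3, ∑ i, (![x, d, e] : Fin 3 → Fin 4 → E) k i * L (Pi.single i 1) j =
      (Pi.single k 1 : Fin 3 → E) j := by
    intro k j
    rw [← hL' k]
    conv_rhs => rw [← Finset.univ_sum_single ((![x, d, e] : Fin 3 → Fin 4 → E) k), map_sum, Finset.sum_apply]
    refine Finset.sum_congr rfl fun i _ => ?_
    have h2 : (Pi.single i ((![x, d, e] : Fin 3 → Fin 4 → E) k i) : Fin 4 → E) =
        ((![x, d, e] : Fin 3 → Fin 4 → E) k i) • (Pi.single i 1 : Fin 4 → E) := by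
      funext j'
      rw [Pi.smul_apply, smul_eq_mul]
      by_cases hj : j' = i
      · subst hj
        simp
      · simp [Pi.single_eq_of_ne hj]
    rw [h2, map_smul, Pi.smul_apply, smul_eq_mul]
  rw [Fintype.linearIndependent_iff]
  intro c hc j
  have hv : ∀ k i, (![fun i => ψ (x i), fun i => ψ (d i), fun i => ψ (e i)] : Fin 3 → Fin 4 → G) k i =
      ψ ((![x, d, e] : Fin 3 → Fin 4 → E) k i) := by
    intro k i
    fin_cases k <;> rfl
  have h3 : ∀ i, ∑ k, c k * ψ ((![x, d, e] : Fin 3 → Fin 4 → E) k i) = 0 := by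
    intro i
    have h4 := congrFun hc i
    rw [Finset.sum_apply] at h4
    refine Eq.trans ?_ h4
    refine Finset.sum_congr rfl fun k _ => ?_
    rw [Pi.smul_apply, smul_eq_mul, hv]
  have h5 : ∑ i, (∑ k, c k * ψ ((![x, d, e] : Fin 3 → Fin 4 → E) k i)) * ψ (L (Pi.single i 1) j) = c j := by
    simp_rw [Finset.sum_mul]
    rw [Finset.sum_comm]
    have h6 : ∀ k, ∑ i, c k * ψ ((![x, d, e] : Fin 3 → Fin 4 → E) k i) * ψ (L (Pi.single i 1) j) =
        c k * ψ ((Pi.single k 1 : Fin 3 → E) j) := by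
      intro k
      rw [← hsum k j, map_sum, Finset.mul_sum]
      refine Finset.sum_congr rfl fun i _ => ?_
      rw [map_mul, mul_assoc]
    simp_rw [h6]
    rw [Finset.sum_eq_single j]
    · rw [Pi.single_eq_same, map_one, mul_one]
    · intro k _ hk
      rw [Pi.single_eq_of_ne hk.symm, map_zero, mul_zero]
    · intro h7
      exact absurd (Finset.mem_univ j) h7
  rw [← h5]
  exact Finset.sum_eq_zero fun i _ => by rw [h3, zero_mul]

theorem nd_map {E G : Type} [Field E] [Algebra K0 E] [Field G] [Algebra K0 G] (ψ : E →ₐ[K0] G) {r : Fr f E} (hr : r.Nd) :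
    (r.map ψ).Nd :=
  gam_ind (ψ : E →+* G) hr

private theorem gam_pts {E : Type} [Field E] [Algebra K0 E] [CharZero E] (hf : f.IsHomogeneous 4) {r : Fr f E}
    (hr : r.Nd) {x y : E} (h : y ^ 2 = x ^ 3 - 3 * r.a * x - 2 * r.b) :
    (∃ R : XQ f E, OnF r x y R.p) ∧ ∃ S : XQ f E, OnF r x (-y) S.p := by
  have hu : dg f r.x (lc x 1 r.d r.e) = 0 := by
    rw [dg_lc, r.tgd, r.tge, mul_zero, mul_zero, add_zero]
  have hi : LinearIndependent E ![r.x, lc x 1 r.d r.e] := ind_lc hr (Or.inr one_ne_zero)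
  have hd : ∀ z : E, z ^ 2 = y ^ 2 → ((r.s * x + r.t) * z) ^ 2 = dv f r.x (lc x 1 r.d r.e) := by
    intro z hz
    rw [r.dvl hf, mul_pow, hz, h]
    ring
  exact ⟨on_ex hf two_ne_zero r.onx hu hi (hd y rfl), on_ex hf two_ne_zero r.onx hu hi (hd (-y) (neg_sq y))⟩

private theorem gam_pt [IsAlgClosed K0] (hf : f.IsHomogeneous 4) : Nonempty (XQ f K0) := by
  have hi : LinearIndependent K0 ![(Pi.single 0 1 : Fin 4 → K0), Pi.single 1 1] := by
    rw [LinearIndependent.pair_iff]
    intro s t h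
    have h0 := congrFun h 0
    have h1 := congrFun h 1
    simp at h0 h1
    exact ⟨h0, h1⟩
  obtain ⟨c, -⟩ := sec_ex hf hi
  exact ⟨c 0⟩

theorem gm_ex [IsAlgClosed K0] [CharZero K0] (hf : f.IsHomogeneous 4) {bd : BD K0 A Q} {r : Fr f Q} (hr : r.Nd)
    {g : (A →ₐ[K0] K0) → Option (Fr f K0)} (hg : GB bd r g) {a b : A} (ha : bd.i a = r.a) (hb : bd.i b = r.b)
    {E : Type} [Field E] [Algebra K0 E] (P : SP K0 A E a b) : ∃ R S, Gm bd r g P R S := by
  have hE : CharZero E := charZero_of_injective_algebraMap (algebraMap K0 E).injective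
  by_cases hinj : ∀ q, P.φ q = 0 → q = 0
  · obtain ⟨ψ, hψ⟩ := hat_ex bd P.φ hinj
    have h : P.y ^ 2 = P.x ^ 3 - 3 * (r.map ψ).a * P.x - 2 * (r.map ψ).b := by
      have h1 : (r.map ψ).a = P.φ a := by
        change ψ r.a = _
        rw [← ha, hψ]
      have h2 : (r.map ψ).b = P.φ b := by
        change ψ r.b = _
        rw [← hb, hψ]
      rw [h1, h2]
      exact P.eq
    obtain ⟨⟨R, hR⟩, S, hS⟩ := gam_pts hf (nd_map ψ hr) h
    exact ⟨R, S, Or.inl ⟨ψ, hψ, hR, hS⟩⟩
  · push Not at hinj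
    obtain ⟨q, hq, hq0⟩ := hinj
    obtain ⟨β, hβ⟩ := cl_pt P.φ hq0 hq
    rcases h0 : g β with _ | r0
    · obtain ⟨R0⟩ := gam_pt (f := f) hf
      exact ⟨R0.map (Algebra.ofId K0 E), R0.map (Algebra.ofId K0 E), Or.inr ⟨β, hβ, Or.inr ⟨h0, rfl⟩⟩⟩
    · have hG := hg.good β r0 h0
      have h : P.y ^ 2 = P.x ^ 3 - 3 * (r0.map (Algebra.ofId K0 E)).a * P.x - 2 * (r0.map (Algebra.ofId K0 E)).b := by
        have h1 : (r0.map (Algebra.ofId K0 E)).a = P.φ a := by
          change algebraMap K0 E r0.a = _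
          rw [hG.ha a ha, hβ]
        have h2 : (r0.map (Algebra.ofId K0 E)).b = P.φ b := by
          change algebraMap K0 E r0.b = _
          rw [hG.hb b hb, hβ]
        rw [h1, h2]
        exact P.eq
      obtain ⟨⟨R, hR⟩, S, hS⟩ := gam_pts hf (nd_map (Algebra.ofId K0 E) hG.nd) h
      exact ⟨R, S, Or.inr ⟨β, hβ, Or.inl ⟨r0, h0, hR, hS⟩⟩⟩

private theorem gam_onf {E G : Type} [Field E] [Algebra K0 E] [Field G] [Algebra K0 G] (σ : E →ₐ[K0] G) {r : Fr f E}
    {l y : E} {R : Fin 4 → E} (h : OnF r l y R) : OnF (r.map σ) (σ l) (σ y) (fun i => σ (R i)) := by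
  have h1 := on_map σ h
  unfold OnF
  have h2 : lc (σ l) 1 (r.map σ).d (r.map σ).e = fun i => σ (lc l 1 r.d r.e i) := by
    funext i
    simp only [lc, Fr.map, map_add, map_mul, map_one]
  have h3 : ((r.map σ).s * σ l + (r.map σ).t) * σ y = σ ((r.s * l + r.t) * y) := by
    simp only [Fr.map, map_add, map_mul]
  rw [h2, h3]
  exact h1

theorem gm_act {bd : BD K0 A Q} {r : Fr f Q} {g : (A →ₐ[K0] K0) → Option (Fr f K0)} {a b : A} {K : Type} [Field K]
    [Algebra K0 K] (σ : Om K ≃ₐ[RatFunc K] Om K) (P : (surf K0 K A a b).Y) (R S : (xqd K f).Y) (h : Gm bd r g P R S) :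
    Gm bd r g ((surf K0 K A a b).act σ P) ((xqd K f).act σ R) ((xqd K f).act σ S) := by
  set τ : Om K →ₐ[K0] Om K := σ.toAlgHom.restrictScalars K0 with hτ
  rcases h with ⟨ψ, hψ, hR, hS⟩ | ⟨β, hβ, h⟩
  · refine Or.inl ⟨τ.comp ψ, fun q => ?_, ?_, ?_⟩
    · change σ (ψ (bd.i q)) = σ (P.φ q)
      rw [hψ]
    · exact gam_onf τ hR
    · have h1 := gam_onf τ hS
      rw [map_neg] at h1
      exact h1
  · refine Or.inr ⟨β, fun q => ?_, ?_⟩
    · change σ (P.φ q) = _
      rw [hβ q]
      exact τ.commutes (β q)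
    · rcases h with ⟨r0, h0, hR, hS⟩ | ⟨h0, h1⟩
      · have h2 : (r0.map (Algebra.ofId K0 (Om K))).map τ = r0.map (Algebra.ofId K0 (Om K)) := by
          have h3 : ∀ c : K0, τ (algebraMap K0 (Om K) c) = algebraMap K0 (Om K) c := fun c => τ.commutes c
          refine Fr.ext ?_ ?_ ?_ (h3 _) (h3 _) (h3 _) (h3 _)
          · funext i
            exact h3 _
          · funext i
            exact h3 _
          · funext i
            exact h3 _
        refine Or.inl ⟨r0, h0, ?_, ?_⟩
        · have h4 := gam_onf τ hR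
          rw [h2] at h4
          exact h4
        · have h4 := gam_onf τ hS
          rw [h2, map_neg] at h4
          exact h4
      · exact Or.inr ⟨h0, congrArg _ h1⟩

end H8.QS
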