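import Pool.Agent.H8.QS.Lim
import Pool.Agent.H8.QS.Bad

/-! # QS.LimB : residual pairs at a place where the tangent plane degenerates (about 120 lines, given `QS.Rdx`, `QS.Bad`)

`u = l d + e = m d' + n e' + θ x'`, `m = l g11 + g21`, `n = l g12 + g22`, `(m, n) ≠ 0` (the determinant is not zero: `(l, 1) ≠ 0`); `sc_ex` for `![m, n]`: `γ m`, `γ n` reduce to `m0`, `n0`, not both zero.  `on_inv` (`x = ρ x'`; from `x`, `u` to `x'`, `u' = γ (m d' + n e')`: `x' = ρ⁻¹ x`,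
`u' = γ u - (γ θ / ρ) x`): `On f x' u' w' R` with `w'² = dv f x' u'` (`dv_resc`, `Fr.dvl`, `hy`) integral, so `w'` is integral, reduction `w0`, `w0² = dv f x0 (m0 d0 + n0 e0)`; for `S` the same with `- w'`.  `on_rd`, then `bad`. -/

namespace H8.QS

open H68.BB H77.AF Polynomial

variable {K0 : Type} [Field K0] {f : MvPolynomial (Fin 4) K0} {K : Type} [Field K] [Algebra K0 K]

/-- a square root of an integral element is integral -/
private theorem rd_sq {F κ : Type} [Field F] [Field κ] {V : ValuationSubring F} {φ : V →+* κ} [IsLocalHom φ] {w : F}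
    {c : κ} (h : Rd V φ (w ^ 2) c) : ∃ w0 : κ, Rd V φ w w0 ∧ w0 ^ 2 = c := by
  have hw : w ∈ V := by
    by_contra hw
    have h1 := (Rd.inv_zero (φ := φ) hw).pow 2
    have hw0 : w ≠ 0 := fun h0 => hw (h0 ▸ V.zero_mem)
    have h2 := h1.mul h
    rw [← mul_pow, inv_mul_cancel₀ hw0, one_pow, zero_pow two_ne_zero, zero_mul] at h2
    exact one_ne_zero (Rd.one.unique h2)
  exact ⟨_, Rd.of_mem hw, ((Rd.of_mem hw).pow 2).unique h⟩

theorem bad_lim [IsAlgClosed K] [CharZero K] (hf : f.IsHomogeneous 4) (π : Place K (Om K)) {r : Fr f (Om K)}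
    (h : BadL π.V π.φ f r.x r.d r.e) {l y : Om K} (hy : y ^ 2 = l ^ 3 - 3 * r.a * l - 2 * r.b) {R S : XQ f (Om K)}
    {x x' : XQ f K} (hR : OnF r l y R.p) (hS : OnF r l (-y) S.p) (hx : (xqd K f).sp π R x)
    (hx' : (xqd K f).sp π S x') : pt x - pt x' ∈ RatEq (xqd K f) 1 := by
  have hloc : IsLocalHom π.φ := π.isLocal
  have hc : Cst K0 π.V π.φ := plc_cst π
  obtain ⟨z, d, e, x0, d0, e0, ρ, θ1, θ2, g11, g12, g21, g22, hL, h0, hd0, he0, hD⟩ := h
  set m : Om K := l * g11 + g21 with hm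
  set n : Om K := l * g12 + g22 with hn
  set θ : Om K := l * θ1 + θ2 with hθ
  have hmn : (![m, n] : Fin 2 → Om K) ≠ 0 := by
    intro h1
    have h2 : m = 0 := congrFun h1 0
    have h3 : n = 0 := congrFun h1 1
    apply hL.hg
    linear_combination g11 * h3 - g12 * h2
  obtain ⟨γ, v0, hγ, hv0, hv⟩ := sc_ex π.V π.φ hmn
  have hm0 : Rd π.V π.φ (γ * m) (v0 0) := hv 0
  have hn0 : Rd π.V π.φ (γ * n) (v0 1) := hv 1
  have hmn0 : v0 0 ≠ 0 ∨ v0 1 ≠ 0 := by
    by_contra h1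
    push Not at h1
    apply hv0
    funext i
    fin_cases i
    · exact h1.1
    · exact h1.2
  -- the tangent vector
  have hu : dg f r.x (lc l 1 r.d r.e) = 0 := by
    rw [dg_lc, r.tgd, r.tge, mul_zero, mul_zero, add_zero]
  have ex : (fun i => ρ⁻¹ * r.x i) = z := by
    funext i
    rw [hL.hx, ← mul_assoc, inv_mul_cancel₀ hL.hρ, one_mul]
  have eu : lc (-(γ * θ * ρ⁻¹)) γ r.x (lc l 1 r.d r.e) = lc (γ * m) (γ * n) d e := by
    funext i
    simp only [lc]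
    rw [hL.hx i, hL.hd i, hL.he i, hm, hn, hθ]
    have h1 : ρ⁻¹ * ρ = 1 := inv_mul_cancel₀ hL.hρ
    linear_combination (-(γ * (l * θ1 + θ2) * z i)) * h1
  have hinf : Infinite (Om K) := inferInstance
  have hdv : dv f r.x (lc l 1 r.d r.e) = ((r.s * l + r.t) * y) ^ 2 := by
    rw [r.dvl hf, mul_pow, hy]
    ring
  set w' : Om K := ρ⁻¹ * γ ^ 3 * ((r.s * l + r.t) * y) with hw'
  have hdv' : dv f z (lc (γ * m) (γ * n) d e) = w' ^ 2 := by
    rw [← ex, ← eu, dv_resc hf r.onx hu, hdv, hw']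
    ring
  have hR' : On f z (lc (γ * m) (γ * n) d e) w' R.p := by
    rw [← ex, ← eu, hw']
    exact (on_inv hf r.onx hu (inv_ne_zero hL.hρ) hγ).2 hR
  have hS' : On f z (lc (γ * m) (γ * n) d e) (-w') S.p := by
    have h1 : -w' = ρ⁻¹ * γ ^ 3 * ((r.s * l + r.t) * -y) := by
      rw [hw']
      ring
    rw [← ex, ← eu, h1]
    exact (on_inv hf r.onx hu (inv_ne_zero hL.hρ) hγ).2 hS
  -- reductions
  have hu0 : ∀ i, Rd π.V π.φ (lc (γ * m) (γ * n) d e i) (lc (v0 0) (v0 1) d0 e0 i) := fun i =>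
    (hm0.mul (hL.rd i)).add (hn0.mul (hL.re i))
  have hdr := rd_dv (f := f) hc hL.rx hu0
  rw [hdv'] at hdr
  obtain ⟨w0, hw0, hw02⟩ := rd_sq hdr
  have hind : LinearIndependent K ![x0, lc (v0 0) (v0 1) d0 e0] := ind_lc hL.ind hmn0
  obtain ⟨c, -, hcR⟩ := hx
  obtain ⟨c', -, hcS⟩ := hx'
  have hRr := on_rd hc hL.rx hu0 hind hw0 hR' x.ne hcR
  have hSr := on_rd hc hL.rx hu0 hind hw0.neg hS' x'.ne hcS
  exact bad hf two_ne_zero hL.ind h0 hd0 he0 hD hmn0 hw02 hRr hSr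

end H8.QS
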