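import Pool.Agent.H8.QS.Lim
import Pool.Agent.H8.QS.OnU

/-! # QS.LimI : a point of the cubic at infinity (about 100 lines, given `QS.Rdx`, `QS.OnU`)

`l ∉ V`, `l⁻¹` reduces to `0`.  `OnF r' l y R` is `On f x' (l d' + e') w R`, `w = (s' l + t') y`; by `on_inv` (`ρ = 1`, `κ = l⁻¹`, `θ = 0`): `On f x' (d' + l⁻¹ e') (l⁻³ w) R`, and `(l⁻³ w)² = dv f x' (d' + l⁻¹ e')` (`Fr.dvl` for `r'` with `m = 1`, `n = l⁻¹`, or from `hy`) reduces to `dv f x0 d0 = 0` (`Fr.dvl` for `r0` with `m = 1`, `n = 0`),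
so `l⁻³ w` reduces to `0` (it is in `V`: its square is).  `on_rd`: both limits are in the relation `On f x0 d0 0`: `on_uniq`. -/

namespace H8.QS

open H68.BB H77.AF Polynomial

variable {K0 : Type} [Field K0] {f : MvPolynomial (Fin 4) K0} {K : Type} [Field K] [Algebra K0 K]

/-- a square root of an integral element is integral -/
private theorem limi_sq {F κ : Type} [Field F] [Field κ] {V : ValuationSubring F} {φ : V →+* κ} [IsLocalHom φ] {w : F}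
    {c : κ} (h : Rd V φ (w ^ 2) c) : ∃ w0 : κ, Rd V φ w w0 ∧ w0 ^ 2 = c := by
  have hw : w ∈ V := by
    by_contra hw
    have h1 := (Rd.inv_zero (φ := φ) hw).pow 2
    have hw0 : w ≠ 0 := fun h0 => hw (h0 ▸ V.zero_mem)
    have h2 := h1.mul h
    rw [← mul_pow, inv_mul_cancel₀ hw0, one_pow, zero_pow two_ne_zero, zero_mul] at h2
    exact one_ne_zero (Rd.one.unique h2)
  exact ⟨_, Rd.of_mem hw, ((Rd.of_mem hw).pow 2).unique h⟩

theorem inf_lim [IsAlgClosed K] [CharZero K] (hf : f.IsHomogeneous 4) (π : Place K (Om K)) {r' : Fr f (Om K)} {r0 : Fr f K}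
    (h : RdF π.V π.φ r' r0) (h0 : r0.Nd) {l y : Om K} (hl : l ∉ π.V) (hy : y ^ 2 = l ^ 3 - 3 * r'.a * l - 2 * r'.b)
    {R S : XQ f (Om K)} {x x' : XQ f K} (hR : OnF r' l y R.p) (hS : OnF r' l (-y) S.p) (hx : (xqd K f).sp π R x)
    (hx' : (xqd K f).sp π S x') : pt x - pt x' ∈ RatEq (xqd K f) 1 := by
  have hloc : IsLocalHom π.φ := π.isLocal
  have hc : Cst K0 π.V π.φ := plc_cst π
  obtain ⟨g1, g2, g3, g4, g5, _, _⟩ := h
  have hl0 : l ≠ 0 := by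
    intro h1
    rw [h1] at hl
    exact hl π.V.zero_mem
  have hli : l⁻¹ * l = 1 := inv_mul_cancel₀ hl0
  have hk : Rd π.V π.φ l⁻¹ 0 := Rd.inv_zero hl
  have hu : dg f r'.x (lc l 1 r'.d r'.e) = 0 := by
    rw [dg_lc, r'.tgd, r'.tge, mul_zero, mul_zero, add_zero]
  have ex : (fun i => (1 : Om K) * r'.x i) = r'.x := by
    funext i
    rw [one_mul]
  have eu : lc 0 l⁻¹ r'.x (lc l 1 r'.d r'.e) = lc 1 l⁻¹ r'.d r'.e := by
    funext i
    simp only [lc]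
    linear_combination (r'.d i) * hli
  have hinf : Infinite (Om K) := inferInstance
  have hinf2 : Infinite K := IsAlgClosed.instInfinite
  have ew : (1 : Om K) * l⁻¹ ^ 3 * ((r'.s * l + r'.t) * y) = l⁻¹ ^ 3 * ((r'.s * l + r'.t) * y) := by
    ring
  have hdv : dv f r'.x (lc 1 l⁻¹ r'.d r'.e) = (l⁻¹ ^ 3 * ((r'.s * l + r'.t) * y)) ^ 2 := by
    rw [r'.dvl hf, mul_pow, mul_pow, hy]
    field_simp
  have hR' : On f r'.x (lc 1 l⁻¹ r'.d r'.e) (l⁻¹ ^ 3 * ((r'.s * l + r'.t) * y)) R.p := by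
    have h1 := (on_inv hf r'.onx hu (one_ne_zero (α := Om K)) (inv_ne_zero hl0) (θ := 0)).2 hR
    rw [ex, eu, ew] at h1
    exact h1
  have hS' : On f r'.x (lc 1 l⁻¹ r'.d r'.e) (-(l⁻¹ ^ 3 * ((r'.s * l + r'.t) * y))) S.p := by
    have h1 := (on_inv hf r'.onx hu (one_ne_zero (α := Om K)) (inv_ne_zero hl0) (θ := 0)).2 hS
    have e1 : (1 : Om K) * l⁻¹ ^ 3 * ((r'.s * l + r'.t) * -y) = -(l⁻¹ ^ 3 * ((r'.s * l + r'.t) * y)) := by
      ring
    rw [ex, eu, e1] at h1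
    exact h1
  have hu0 : ∀ i, Rd π.V π.φ (lc 1 l⁻¹ r'.d r'.e i) (lc 1 0 r0.d r0.e i) := fun i =>
    (Rd.one.mul (g2 i)).add (hk.mul (g3 i))
  have hdr := rd_dv (f := f) hc g1 hu0
  rw [hdv] at hdr
  obtain ⟨w0, hw0, hw02⟩ := limi_sq hdr
  have hd0 : dv f r0.x (lc 1 0 r0.d r0.e) = 0 := by
    rw [r0.dvl hf, zero_mul, mul_zero]
  rw [hd0] at hw02
  have hw00 : w0 = 0 := by
    exact pow_eq_zero_iff two_ne_zero |>.1 hw02
  rw [hw00] at hw0
  have hw0' := hw0.neg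
  rw [neg_zero] at hw0'
  have hind : LinearIndependent K ![r0.x, lc 1 0 r0.d r0.e] := ind_lc h0 (Or.inl one_ne_zero)
  obtain ⟨c, -, hcR⟩ := hx
  obtain ⟨c', -, hcS⟩ := hx'
  have hRr := on_rd hc g1 hu0 hind hw0 hR' x.ne hcR
  have hSr := on_rd hc g1 hu0 hind hw0' hS' x'.ne hcS
  have ht0 : dg f r0.x (lc 1 0 r0.d r0.e) = 0 := by
    rw [dg_lc, r0.tgd, r0.tge, mul_zero, mul_zero, add_zero]
  exact on_uniq hf two_ne_zero r0.onx ht0 hRr hSr

end H8.QS
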