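import Pool.Agent.H8.QS.Gam
import Pool.Agent.H8.QS.LimB
import Pool.Agent.H8.QS.LimI

/-! # QS.GmO : points of the surface which leave it at a place (about 120 lines, given `QS.Gam`, `QS.LimI`, `QS.LimB`, `QS.Dich`)

`gm_off`: `P` is `off` at `π`.  (1) by `ψ`: `dich` for `r.map ψ` (`nd_map`): bad: `bad_lim`.  Good: `r'` with `Resc (r.map ψ) r'`, `a, b ∈ V`: `P.φ a = ψ r.a ∈ V`; `r.a = X` (`hX`), so `int_V`: all `P.φ q ∈ V`; so `P.x ∉ V` or `P.y ∉ V`; if `P.x ∈ V` then `P.y² ∈ V`, `P.y ∈ V`; so `P.x ∉ V`: `inf_lim` (with `onf_resc`).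
(2) by `β`: `P.φ q ∈ K0 ⊆ V`; again `P.x ∉ V`; `some r0`: `inf_lim` for the constant frame; `none`: `R = S`: `xq_uniq`, `scl`. -/

namespace H8.QS

open H68.BB H77.AF Polynomial

variable {K0 A Q : Type} [Field K0] [CommRing A] [IsDomain A] [Algebra K0 A] [Algebra K0[X] A] [IsScalarTower K0 K0[X] A]
  [Module.Finite K0[X] A] [FaithfulSMul K0[X] A] [Field Q] [Algebra K0 Q] [Algebra (RatFunc K0) Q]
  {f : MvPolynomial (Fin 4) K0}

/-- a square root of an integral element is integral -/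
private theorem gmo_sq {F : Type} [Field F] {V : ValuationSubring F} {y : F} (h : y ^ 2 ∈ V) : y ∈ V := by
  rcases V.mem_or_inv_mem y with h1 | h1
  · exact h1
  · by_cases hy : y = 0
    · rw [hy]
      exact V.zero_mem
    · have h2 : y = y ^ 2 * y⁻¹ := by
        rw [pow_two, mul_assoc, mul_inv_cancel₀ hy, mul_one]
      rw [h2]
      exact V.mul_mem _ _ h h1

/-- if all functions are integral then the coordinate `x` is not -/
private theorem gmo_x {F : Type} [Field F] {V : ValuationSubring F} {x y a b : F} (ha : a ∈ V) (hb : b ∈ V)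
    (h : y ^ 2 = x ^ 3 - 3 * a * x - 2 * b) (hxy : x ∉ V ∨ y ∉ V) : x ∉ V := by
  intro hx
  have h2 : (2 : F) ∈ V := by
    rw [← one_add_one_eq_two]
    exact V.add_mem _ _ V.one_mem V.one_mem
  have h3 : (3 : F) ∈ V := by
    rw [← two_add_one_eq_three]
    exact V.add_mem _ _ h2 V.one_mem
  have h4 : y ^ 2 ∈ V := by
    rw [h]
    exact V.sub_mem (V.sub_mem (V.toSubring.pow_mem hx 3) (V.mul_mem _ _ (V.mul_mem _ _ h3 ha) hx))
      (V.mul_mem _ _ h2 hb)
  rcases hxy with h5 | h5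
  · exact h5 hx
  · exact h5 (gmo_sq h4)

theorem gm_off [IsAlgClosed K0] [CharZero K0] (hf : f.IsHomogeneous 4) {bd : BD K0 A Q} {r : Fr f Q} (hr : r.Nd)
    (hX : r.a = algebraMap (RatFunc K0) Q RatFunc.X) {g : (A →ₐ[K0] K0) → Option (Fr f K0)} (hg : GB bd r g) {a b : A}
    (ha : bd.i a = r.a) (hb : bd.i b = r.b) {K : Type} [Field K] [IsAlgClosed K] [Algebra K0 K] (π : Place K (Om K))
    {P : (surf K0 K A a b).Y} {R S : (xqd K f).Y} {x x' : (xqd K f).X} (hP : (surf K0 K A a b).off π P)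
    (h : Gm bd r g P R S) (hx : (xqd K f).sp π R x) (hx' : (xqd K f).sp π S x') : pt x - pt x' ∈ RatEq (xqd K f) 1 := by
  have hK : CharZero K := charZero_of_injective_algebraMap (algebraMap K0 K).injective
  have hO : CharZero (Om K) := charZero_of_injective_algebraMap (algebraMap K0 (Om K)).injective
  have hloc : IsLocalHom π.φ := π.isLocal
  have hc : Cst K0 π.V π.φ := plc_cst π
  have heq : P.y ^ 2 = P.x ^ 3 - 3 * P.φ a * P.x - 2 * P.φ b := P.eq
  have hcm : ∀ c : K0, algebraMap K0 (Om K) c ∈ π.V := fun c => (hc c).mem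
  have hoff : (∀ q, P.φ q ∈ π.V) → P.x ∉ π.V := by
    intro hV
    refine gmo_x (hV a) (hV b) heq ?_
    rcases hP with ⟨q, hq⟩ | hP
    · exact absurd (hV q) hq
    · exact hP
  rcases h with ⟨ψ, hψ, hR, hS⟩ | ⟨β, hβ, h⟩
  · have ea : (r.map ψ).a = P.φ a := by
      change ψ r.a = _
      rw [← ha, hψ]
    have eb : (r.map ψ).b = P.φ b := by
      change ψ r.b = _
      rw [← hb, hψ]
    have heq' : P.y ^ 2 = P.x ^ 3 - 3 * (r.map ψ).a * P.x - 2 * (r.map ψ).b := by
      rw [ea, eb]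
      exact heq
    rcases dich hf hc (r.map ψ) (nd_map ψ hr) with hB | ⟨r', r0, hres, hrd, hnd⟩
    · exact bad_lim hf π hB heq' hR hS hx hx'
    · have hres' := hres
      obtain ⟨ρ, l, θ1, θ2, -, -, -, -, -, -, -, ea', eb'⟩ := hres'
      have haV : P.φ a ∈ π.V := by
        rw [← ea, ea']
        exact hrd.2.2.2.2.2.1.mem
      have hXa : a = algebraMap K0[X] A X := bd.inj (by rw [ha, hX, bd.gen])
      have hV : ∀ q, P.φ q ∈ π.V := fun q => int_V hcm P.φ (hXa ▸ haV) q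
      rw [ea', eb'] at heq'
      exact inf_lim hf π hrd hnd (hoff hV) heq' ((onf_resc hf hres _ _ _).1 hR) ((onf_resc hf hres _ _ _).1 hS) hx hx'
  · have hV : ∀ q, P.φ q ∈ π.V := fun q => by
      rw [hβ q]
      exact hcm _
    rcases h with ⟨r0, h0, hR, hS⟩ | ⟨h0, h1⟩
    · have hG := hg.good β r0 h0
      have ea : (r0.map (Algebra.ofId K0 (Om K))).a = P.φ a := by
        change algebraMap K0 (Om K) r0.a = _
        rw [hG.ha a ha, hβ]
      have eb : (r0.map (Algebra.ofId K0 (Om K))).b = P.φ b := by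
        change algebraMap K0 (Om K) r0.b = _
        rw [hG.hb b hb, hβ]
      rw [← ea, ← eb] at heq
      have hrd : RdF π.V π.φ (r0.map (Algebra.ofId K0 (Om K))) (r0.map (Algebra.ofId K0 K)) :=
        ⟨fun i => hc _, fun i => hc _, fun i => hc _, hc _, hc _, hc _, hc _⟩
      exact inf_lim hf π hrd (nd_map (Algebra.ofId K0 K) hG.nd) (hoff hV) heq hR hS hx hx'
    · subst h1
      obtain ⟨c, hc'⟩ := xq_uniq π hx hx'
      exact scl hc'

end H8.QS
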