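import Pool.Agent.H8.QS.Gam
import Pool.Agent.H8.QS.LimB
import Pool.Agent.H8.QS.OnU

/-! # QS.GmS : specialisation of the correspondence (about 180 lines, given `QS.Gam`, `QS.Lim`, `QS.LimB`, `QS.CData`)

`gm_sp`: `P` specialises to `p` at `π`, `(R, S)` over `P`, `(R', S')` over `p`, `R ↦ x`, `S ↦ x'`: `pt x - pt x' ∼ pt R' - pt S'`.
(1) `P` by `ψ`, `p` by `ψ'`: for `q ∈ Q`, `q * i m = i n`, `m ≠ 0`, `p.φ m = ψ' (i m) ≠ 0`: `ψ q` reduces to `ψ' q` (`Rd.div`); so `RdF` of `r.map ψ` to `r.map ψ'`; `good_lim` twice (for `R` with `y`, for `S` with `- y`), `on_uniq` (`OnF` unfolds to `On` for `r0.x`, `l0 r0.d + r0.e`; tangent: `Fr.tgd`, `Fr.tge`, `dg_lc`; on `X`: `onx`).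
(2) `P` by `ψ`, `p` by `β`: `Cpt bd β π ψ`.  `g β = some r0`: `GoodB.lim`, `onf_resc` (`OnF (r.map ψ) .. ↔ OnF r' ..`), `good_lim` for `r'`, `r0.map ..` (`nd_map`), `on_uniq`.  `g β = none`: `BadB`, `bad_lim` (the equation of `P` with `ψ r.a = P.φ a`), and `R' = S'`.
(3) `P` by `β`, `p` by `β'`: `β = β'` (the constants reduce to themselves, `algebraMap K0 K` injective).  `some r0`: `RdF` of the constant frame `r0.map (ofId K0 (Om K))` to `r0.map (ofId K0 K)` (`plc_cst`), `good_lim`, `on_uniq`.  `none`: `R = S`: `xq_uniq`, `scl`; `R' = S'`.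
(4) `P` by `β`, `p` by `ψ'`: impossible: `cl_ne`: `q ≠ 0`, `β q = 0`, so `P.φ q = 0`, `p.φ q = 0 = ψ' (i q)`.
 -/

namespace H8.QS

open H68.BB H77.AF Polynomial

variable {K0 A Q : Type} [Field K0] [CommRing A] [IsDomain A] [Algebra K0 A] [Algebra K0[X] A] [IsScalarTower K0 K0[X] A]
  [Module.Finite K0[X] A] [FaithfulSMul K0[X] A] [Field Q] [Algebra K0 Q] [Algebra (RatFunc K0) Q]
  {f : MvPolynomial (Fin 4) K0}

/-- two points over the same point of the cubic of a frame are equivalent -/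
private theorem gs_uniq (hf : f.IsHomogeneous 4) {K : Type} [Field K] [IsAlgClosed K] [Algebra K0 K] (h2 : (2 : K) ≠ 0)
    {r0 : Fr f K} {l y : K} {R R' : XQ f K} (h : OnF r0 l y R.p) (h' : OnF r0 l y R'.p) :
    pt R - pt R' ∈ RatEq (xqd K f) 1 :=
  on_uniq hf h2 r0.onx (by rw [dg_lc, r0.tgd, r0.tge, mul_zero, mul_zero, add_zero]) h h'

private theorem gs_fin {K : Type} [Field K] [Algebra K0 K] {x x' R' S' : XQ f K}
    (h1 : pt x - pt R' ∈ RatEq (xqd K f) 1) (h2 : pt x' - pt S' ∈ RatEq (xqd K f) 1) :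
    pt x - pt x' - (pt R' - pt S') ∈ RatEq (xqd K f) 1 := by
  have h := (RatEq (xqd K f) 1).sub_mem h1 h2
  have e : pt x - pt x' - (pt R' - pt S') = pt x - pt R' - (pt x' - pt S') := by abel
  rw [e]
  exact h

theorem gm_sp [IsAlgClosed K0] [CharZero K0] (hf : f.IsHomogeneous 4) {bd : BD K0 A Q} {r : Fr f Q} (hr : r.Nd)
    {g : (A →ₐ[K0] K0) → Option (Fr f K0)} (hg : GB bd r g) {a b : A} (ha : bd.i a = r.a) (hb : bd.i b = r.b)
    {K : Type} [Field K] [IsAlgClosed K] [Algebra K0 K] (π : Place K (Om K)) {P : (surf K0 K A a b).Y}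
    {p : (surf K0 K A a b).X} {R S : (xqd K f).Y} {x x' R' S' : (xqd K f).X} (hP : (surf K0 K A a b).sp π P p)
    (h : Gm bd r g P R S) (h' : Gm bd r g p R' S') (hx : (xqd K f).sp π R x) (hx' : (xqd K f).sp π S x') :
    pt x - pt x' - (pt R' - pt S') ∈ RatEq (xqd K f) 1 := by
  have : CharZero K := charZero_of_injective_algebraMap (algebraMap K0 K).injective
  have h2 : (2 : K) ≠ 0 := two_ne_zero
  have : IsLocalHom π.φ := Place.isLocal π
  obtain ⟨hφ, hl, hy⟩ := hP
  -- the common end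
  have key : ∀ {r1 : Fr f (Om K)} {r0 : Fr f K}, RdF π.V π.φ r1 r0 → r0.Nd → OnF r1 P.x P.y R.p →
      OnF r1 P.x (-P.y) S.p → OnF r0 p.x p.y R'.p → OnF r0 p.x (-p.y) S'.p →
      pt x - pt x' - (pt R' - pt S') ∈ RatEq (xqd K f) 1 := by
    intro r1 r0 hrd hnd hR hS hR' hS'
    have e1 := good_lim hf π hrd hnd hl hy hR hx
    have e2 := good_lim hf π hrd hnd hl hy.neg hS hx'
    exact gs_fin (gs_uniq hf h2 e1 hR') (gs_uniq hf h2 e2 hS')
  rcases h with ⟨ψ, hψ, hR, hS⟩ | ⟨β, hβ, h⟩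
  · rcases h' with ⟨ψ', hψ', hR', hS'⟩ | ⟨β, hβ, h'⟩
    · -- both generic
      have hrd : ∀ q : Q, Rd π.V π.φ (ψ q) (ψ' q) := by
        intro q
        obtain ⟨n, m, hm, hq⟩ := bd.frac q
        have hm' : p.φ m ≠ 0 := by
          rw [← hψ' m]
          intro h0
          have h1 : bd.i m = 0 := (map_eq_zero_iff ψ' (RingHom.injective (ψ' : Q →+* K))).1 h0
          exact hm (bd.inj (by rw [h1, map_zero]))
        have e1 : ψ q * P.φ m = P.φ n := by rw [← hψ m, ← hψ n, ← map_mul, hq]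
        have e2 : ψ' q * p.φ m = p.φ n := by rw [← hψ' m, ← hψ' n, ← map_mul, hq]
        have hm2 : P.φ m ≠ 0 := (hφ m).ne_zero hm'
        have e3 : ψ q = P.φ n / P.φ m := (eq_div_iff hm2).2 e1
        have e4 : ψ' q = p.φ n / p.φ m := (eq_div_iff hm').2 e2
        rw [e3, e4]
        exact (hφ n).div (hφ m) hm'
      exact key (r1 := r.map ψ) (r0 := r.map ψ')
        ⟨fun i => hrd _, fun i => hrd _, fun i => hrd _, hrd _, hrd _, hrd _, hrd _⟩ (nd_map ψ' hr) hR hS hR' hS'
    · have hC : Cpt bd β π ψ := by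
        intro q
        have e := hφ q
        rw [hβ q, ← hψ q] at e
        exact e
      rcases h' with ⟨r0, hg0, hR', hS'⟩ | ⟨hg0, hRS⟩
      · have hG := hg.good β r0 hg0
        obtain ⟨r', hres, hrd⟩ := hG.lim K π ψ hC
        exact key hrd (nd_map _ hG.nd) ((onf_resc hf hres _ _ _).1 hR) ((onf_resc hf hres _ _ _).1 hS) hR' hS'
      · have hB := hg.bad β hg0 K π ψ hC
        have heq : P.y ^ 2 = P.x ^ 3 - 3 * (r.map ψ).a * P.x - 2 * (r.map ψ).b := by
          have ea : (r.map ψ).a = P.φ a := by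
            change ψ r.a = P.φ a
            rw [← ha, hψ]
          have eb : (r.map ψ).b = P.φ b := by
            change ψ r.b = P.φ b
            rw [← hb, hψ]
          rw [ea, eb]
          exact P.eq
        have e := bad_lim hf π hB heq hR hS hx hx'
        rw [hRS, sub_self, sub_zero]
        exact e
  · rcases h' with ⟨ψ', hψ', hR', hS'⟩ | ⟨β', hβ', h'⟩
    · exfalso
      obtain ⟨q, hq, hq0⟩ := cl_ne (K0 := K0) (A := A) β
      have e := hφ q
      rw [hβ q, hq0, map_zero] at e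
      have e1 : p.φ q = 0 := e.unique Rd.zero
      rw [← hψ' q] at e1
      have h1 : bd.i q = 0 := (map_eq_zero_iff ψ' (RingHom.injective (ψ' : Q →+* K))).1 e1
      exact hq (bd.inj (by rw [h1, map_zero]))
    · have hcst := plc_cst (K0 := K0) π
      have hbb : β = β' := by
        ext q
        have e := hφ q
        rw [hβ q, hβ' q] at e
        exact (algebraMap K0 K).injective ((hcst (β q)).unique e)
      subst hbb
      rcases h with ⟨r0, hg0, hR, hS⟩ | ⟨hg0, hRS⟩
      · rcases h' with ⟨r0', hg0', hR', hS'⟩ | ⟨hg0', _⟩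
        · have e : r0 = r0' := Option.some.inj (hg0.symm.trans hg0')
          subst e
          have hG := hg.good β r0 hg0
          exact key (r1 := r0.map (Algebra.ofId K0 (Om K))) (r0 := r0.map (Algebra.ofId K0 K))
            ⟨fun i => hcst _, fun i => hcst _, fun i => hcst _, hcst _, hcst _, hcst _, hcst _⟩ (nd_map _ hG.nd)
            hR hS hR' hS'
        · rw [hg0] at hg0'
          exact absurd hg0' (by simp)
      · rcases h' with ⟨r0', hg0', _, _⟩ | ⟨_, hRS'⟩
        · rw [hg0] at hg0'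
          exact absurd hg0' (by simp)
        · subst hRS
          obtain ⟨c, hc⟩ := xq_uniq π hx hx'
          rw [hRS', sub_self, sub_zero]
          exact scl hc

end H8.QS
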