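import Pool.Agent.H8.QS.Gam
import Pool.Agent.H8.QS.OnU

/-! # QS.GmU : two pairs over the same point of the surface (about 80 lines, given `QS.Gam`, `QS.OnU`)

Both by `ψ`, `ψ'`: `ψ = ψ'` (both are determined by `P.φ` on `A`: `q * i m = i n`, `bd.frac`), `on_uniq` for `R`, `R'` and for `S`, `S'` (`OnF` unfolds to `On` for `r.x`, `l r.d + r.e`; tangent: `Fr.tgd`, `Fr.tge`, `dg_lc`; on `X`: `onx`).  By `β`, `β'`: `β = β'` (`algebraMap K0 K` is injective): the same frame, `on_uniq`, or `R = S`, `R' = S'`.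
Mixed: `cl_ne`: `q ≠ 0`, `β q = 0`, so `ψ (i q) = 0`: impossible. -/

namespace H8.QS

open H68.BB H77.AF Polynomial

variable {K0 A Q : Type} [Field K0] [CommRing A] [IsDomain A] [Algebra K0 A] [Algebra K0[X] A] [IsScalarTower K0 K0[X] A]
  [Module.Finite K0[X] A] [FaithfulSMul K0[X] A] [Field Q] [Algebra K0 Q] [Algebra (RatFunc K0) Q]
  {f : MvPolynomial (Fin 4) K0}

/-- two extensions to the function field of the same point of the curve agree -/
private theorem gmu_psi (bd : BD K0 A Q) {E : Type} [Field E] [Algebra K0 E] {φ : A →ₐ[K0] E} {ψ ψ' : Q →ₐ[K0] E}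
    (h : ∀ q, ψ (bd.i q) = φ q) (h' : ∀ q, ψ' (bd.i q) = φ q) : ψ = ψ' := by
  refine AlgHom.ext fun q => ?_
  obtain ⟨n, m, hm, hq⟩ := bd.frac q
  have hm' : φ m ≠ 0 := by
    intro h0
    rw [← h m] at h0
    have h1 := (map_eq_zero_iff ψ (RingHom.injective (ψ : Q →+* E))).1 h0
    exact hm (bd.inj (by rw [h1, map_zero]))
  have e1 := congrArg ψ hq
  have e2 := congrArg ψ' hq
  rw [map_mul, h, h] at e1
  rw [map_mul, h', h'] at e2
  exact mul_right_cancel₀ hm' (e1.trans e2.symm)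

/-- a point of the curve which extends to the function field is not a closed point -/
private theorem gmu_mix (bd : BD K0 A Q) {E : Type} [Field E] [Algebra K0 E] {φ : A →ₐ[K0] E} {ψ : Q →ₐ[K0] E}
    (h : ∀ q, ψ (bd.i q) = φ q) {β : A →ₐ[K0] K0} (h' : ∀ q, φ q = algebraMap K0 E (β q)) : False := by
  obtain ⟨q, hq, h0⟩ := cl_ne (K0 := K0) β
  have h1 : ψ (bd.i q) = 0 := by rw [h, h', h0, map_zero]
  have h2 := (map_eq_zero_iff ψ (RingHom.injective (ψ : Q →+* E))).1 h1
  exact hq (bd.inj (by rw [h2, map_zero]))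

/-- two points of the surface over the same point of the cubic of the frame are equivalent -/
private theorem gmu_on {K : Type} [Field K] [IsAlgClosed K] [Algebra K0 K] (hf : f.IsHomogeneous 4) (h2 : (2 : K) ≠ 0)
    (r : Fr f K) {l y : K} {R R' : XQ f K} (h : OnF r l y R.p) (h' : OnF r l y R'.p) :
    pt R - pt R' ∈ RatEq (xqd K f) 1 :=
  on_uniq hf h2 r.onx (by rw [dg_lc, r.tgd, r.tge, mul_zero, mul_zero, add_zero]) h h'

theorem gm_uniq [IsAlgClosed K0] [CharZero K0] (hf : f.IsHomogeneous 4) {bd : BD K0 A Q} {r : Fr f Q} (hr : r.Nd)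
    {g : (A →ₐ[K0] K0) → Option (Fr f K0)} (hg : GB bd r g) {a b : A} (ha : bd.i a = r.a) (hb : bd.i b = r.b)
    {K : Type} [Field K] [IsAlgClosed K] [Algebra K0 K] (P : (surf K0 K A a b).X) {R S R' S' : (xqd K f).X}
    (h : Gm bd r g P R S) (h' : Gm bd r g P R' S') : pt R - pt S - (pt R' - pt S') ∈ RatEq (xqd K f) 1 := by
  have hinj : Function.Injective (algebraMap K0 K) := RingHom.injective _
  have h2 : (2 : K) ≠ 0 := by
    intro h0
    have h1 : algebraMap K0 K 2 = algebraMap K0 K 0 := by rw [map_ofNat, map_zero, h0]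
    exact two_ne_zero (hinj h1)
  have key : ∀ r1 : Fr f K, OnF r1 P.x P.y R.p → OnF r1 P.x (-P.y) S.p → OnF r1 P.x P.y R'.p → OnF r1 P.x (-P.y) S'.p →
      pt R - pt S - (pt R' - pt S') ∈ RatEq (xqd K f) 1 := by
    intro r1 a1 a2 a3 a4
    have e := AddSubgroup.sub_mem _ (gmu_on hf h2 r1 a1 a3) (gmu_on hf h2 r1 a2 a4)
    have e' : pt R - pt S - (pt R' - pt S') = pt R - pt R' - (pt S - pt S') := by abel
    rw [e']
    exact e
  rcases h with ⟨ψ, h1, h3, h4⟩ | ⟨β, h1, h3⟩
  · rcases h' with ⟨ψ', h1', h3', h4'⟩ | ⟨β', h1', h3'⟩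
    · obtain rfl := gmu_psi bd h1 h1'
      exact key _ h3 h4 h3' h4'
    · exact (gmu_mix bd h1 h1').elim
  · rcases h' with ⟨ψ', h1', h3', h4'⟩ | ⟨β', h1', h3'⟩
    · exact (gmu_mix bd h1' h1).elim
    · have hb' : β = β' := AlgHom.ext fun q => hinj ((h1 q).symm.trans (h1' q))
      subst hb'
      rcases h3 with ⟨r0, g0, h3, h4⟩ | ⟨g0, h3⟩
      · rcases h3' with ⟨r0', g0', h3', h4'⟩ | ⟨g0', h3'⟩
        · rw [g0] at g0'
          obtain rfl := Option.some.inj g0'
          exact key _ h3 h4 h3' h4'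
        · rw [g0] at g0'
          exact absurd g0' (by simp)
      · rcases h3' with ⟨r0', g0', h3', h4'⟩ | ⟨g0', h3'⟩
        · rw [g0] at g0'
          exact absurd g0' (by simp)
        · subst h3
          subst h3'
          rw [sub_self, sub_self, sub_self]
          exact AddSubgroup.zero_mem _

end H8.QS
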