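import Pool.Agent.H8.QS.UF
import Pool.Agent.H8.QS.Span

/-! # QS.Irr : the dehomogenised universal quartic is irreducible (about 200 lines, given `QS.UF`, `QS.Span`)

`dhU = F(X0, X1, X2, 1)`; its coefficients: for `n : Fin 3 →₀ ℕ` of degree at most 4 the coefficient at `n` is that of `fU` at `(n 0, n 1, n 2, 4 - |n|)`, so all 35 of them are the `toU (X m)`; `totalDegree dhU = 4`.
Let `dhU = G * H`, `G`, `H` of total degrees `d`, `4 - d` (`MvPolynomial.totalDegree_mul_of_isDomain`).  Every coefficient of `dhU` is in `Algebra.adjoin ℤ (coefficients of G and H)`, which are at most `C(d+3,3) + C(7-d,3)` elements (indices = the exponents in `Fin 3` of degree at most `d`, resp. `4 - d`: `4 + 20 = 24` or `10 + 10 = 20` for `1 ≤ d ≤ 3`), and the 35 elements `toU (X m)` are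
algebraically independent over `ℤ` (`cf_ind`): `span_card` gives `35 ≤ 24`.  So `d = 0` or `d = 4`: `G` or `H` is a constant, not zero: a unit.  For the count use e.g. `Fintype.card {n : Fin 3 → Fin 5 // ∑ i, (n i : ℕ) ≤ d}` by `decide`, or a cruder but sufficient bound. -/

namespace H8.QS

open Polynomial

/-- the dehomogenised universal quartic -/
noncomputable def dhU : MvPolynomial (Fin 3) U4 :=
  MvPolynomial.aeval ![MvPolynomial.X 0, MvPolynomial.X 1, MvPolynomial.X 2, (1 : MvPolynomial (Fin 3) U4)] fU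

private noncomputable def tri (a b c : ℕ) : Fin 3 →₀ ℕ := Finsupp.equivFunOnFinite.symm ![a, b, c]

private noncomputable def drp (m : Fin 4 →₀ ℕ) : Fin 3 →₀ ℕ := tri (m 0) (m 1) (m 2)

private theorem tri_eta (n : Fin 3 →₀ ℕ) : tri (n 0) (n 1) (n 2) = n := by
  ext i
  fin_cases i <;> rfl

private theorem tri_sum (a b c : ℕ) : ((tri a b c).sum fun _ e => e) = a + b + c := by
  rw [Finsupp.sum_fintype _ _ (fun _ => rfl), Fin.sum_univ_three]
  rfl

private theorem aeval_mon (m : Fin 4 →₀ ℕ) (c : U4) :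
    MvPolynomial.aeval ![MvPolynomial.X 0, MvPolynomial.X 1, MvPolynomial.X 2, (1 : MvPolynomial (Fin 3) U4)]
      (MvPolynomial.monomial m c) = MvPolynomial.monomial (drp m) c := by
  rw [MvPolynomial.aeval_monomial, Finsupp.prod_fintype _ _ (by simp), Fin.prod_univ_four,
    MvPolynomial.monomial_eq, Finsupp.prod_fintype _ _ (by simp), Fin.prod_univ_three]
  simp [drp, tri, MvPolynomial.algebraMap_eq]

private theorem dhU_eq : dhU = ∑ m : Mo4, MvPolynomial.monomial (drp m.1) (toU (MvPolynomial.X m)) := by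
  unfold dhU fU
  rw [map_sum]
  exact Finset.sum_congr rfl fun m _ => aeval_mon _ _

private theorem mo_sum (m : Mo4) : m.1 0 + m.1 1 + m.1 2 + m.1 3 = 4 := by
  have h := (mem_ex4 m.1).1 m.2
  rw [Finsupp.degree_eq_sum, Fin.sum_univ_four] at h
  exact h

private theorem drp_inj (m m' : Mo4) (h : drp m.1 = drp m'.1) : m = m' := by
  have h0 : m.1 0 = m'.1 0 := DFunLike.congr_fun h 0
  have h1 : m.1 1 = m'.1 1 := DFunLike.congr_fun h 1
  have h2 : m.1 2 = m'.1 2 := DFunLike.congr_fun h 2
  have h3 : m.1 3 = m'.1 3 := by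
    have := mo_sum m
    have := mo_sum m'
    omega
  apply Subtype.ext
  ext i
  fin_cases i
  · exact h0
  · exact h1
  · exact h2
  · exact h3

private theorem coeff_dhU (m : Mo4) : MvPolynomial.coeff (drp m.1) dhU = toU (MvPolynomial.X m) := by
  classical
  rw [dhU_eq, MvPolynomial.coeff_sum, Finset.sum_eq_single m]
  · rw [MvPolynomial.coeff_monomial, if_pos rfl]
  · intro m' _ h
    rw [MvPolynomial.coeff_monomial, if_neg fun h' => h (drp_inj _ _ h')]
  · intro h
    exact absurd (Finset.mem_univ _) h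

/-- the indices of the coefficients of a polynomial of degree at most `d` in three variables -/
private abbrev Ix (d : ℕ) : Type := {q : Fin 5 × Fin 5 × Fin 5 // q.1.val + q.2.1.val + q.2.2.val ≤ d}

private noncomputable def mk4 (q : Ix 4) : Mo4 :=
  ⟨Finsupp.equivFunOnFinite.symm ![q.1.1.val, q.1.2.1.val, q.1.2.2.val, 4 - q.1.1.val - q.1.2.1.val - q.1.2.2.val], by
    rw [mem_ex4, Finsupp.degree_eq_sum, Fin.sum_univ_four]
    have := q.2
    change q.1.1.val + q.1.2.1.val + q.1.2.2.val + (4 - q.1.1.val - q.1.2.1.val - q.1.2.2.val) = 4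
    omega⟩

private theorem drp_mk4 (q : Ix 4) : drp (mk4 q).1 = tri q.1.1.val q.1.2.1.val q.1.2.2.val := rfl

private theorem mk4_inj : Function.Injective mk4 := by
  intro q q' h
  have h0 : (mk4 q).1 0 = (mk4 q').1 0 := by rw [h]
  have h1 : (mk4 q).1 1 = (mk4 q').1 1 := by rw [h]
  have h2 : (mk4 q).1 2 = (mk4 q').1 2 := by rw [h]
  apply Subtype.ext
  refine Prod.ext (Fin.ext h0) (Prod.ext (Fin.ext h1) (Fin.ext h2))

private theorem ind_mk4 : AlgebraicIndependent ℤ (fun q : Ix 4 => (toU (MvPolynomial.X (mk4 q)) : U4)) :=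
  cf_ind.comp mk4 mk4_inj

private theorem toU_ne (m : Mo4) : toU (MvPolynomial.X m) ≠ 0 := by
  intro h
  rw [← map_zero toU] at h
  exact MvPolynomial.X_ne_zero _ (toU_inj h)

private theorem dhU_deg : dhU.totalDegree = 4 := by
  classical
  apply le_antisymm
  · rw [dhU_eq]
    refine MvPolynomial.totalDegree_finsetSum_le ?_
    intro m _
    rw [MvPolynomial.totalDegree_monomial _ (toU_ne m)]
    have h1 := tri_sum (m.1 0) (m.1 1) (m.1 2)
    have h2 := mo_sum m
    unfold drp
    omega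
  · let q : Ix 4 := ⟨(4, 0, 0), by decide⟩
    have h1 : drp (mk4 q).1 ∈ dhU.support := by
      rw [MvPolynomial.mem_support_iff, coeff_dhU]
      exact toU_ne _
    have h2 := MvPolynomial.le_totalDegree h1
    rw [drp_mk4, tri_sum] at h2
    exact h2

private theorem card_ix : Fintype.card (Ix 0) = 1 ∧ Fintype.card (Ix 1) = 4 ∧ Fintype.card (Ix 2) = 10 ∧
    Fintype.card (Ix 3) = 20 ∧ Fintype.card (Ix 4) = 35 := by
  decide +kernel

private theorem coeff_mem {G : MvPolynomial (Fin 3) U4} {d : ℕ} (hd : G.totalDegree ≤ d) (hd4 : d ≤ 4)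
    (n : Fin 3 →₀ ℕ) : MvPolynomial.coeff n G = 0 ∨
      ∃ q : Ix d, MvPolynomial.coeff n G = MvPolynomial.coeff (tri q.1.1.val q.1.2.1.val q.1.2.2.val) G := by
  by_cases h : (n.sum fun _ e => e) ≤ d
  · right
    have h1 := tri_sum (n 0) (n 1) (n 2)
    rw [tri_eta] at h1
    have h2 : n 0 + n 1 + n 2 ≤ d := by omega
    refine ⟨⟨(⟨n 0, by omega⟩, ⟨n 1, by omega⟩, ⟨n 2, by omega⟩), h2⟩, ?_⟩
    change _ = MvPolynomial.coeff (tri (n 0) (n 1) (n 2)) G
    rw [tri_eta]
  · left
    exact MvPolynomial.coeff_eq_zero_of_totalDegree_lt (by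
      have h3 : (∑ i ∈ n.support, n i) = n.sum fun _ e => e := rfl
      rw [h3]
      omega)

private theorem count {G H : MvPolynomial (Fin 3) U4} (h : dhU = G * H) {d e : ℕ} (hd : G.totalDegree ≤ d)
    (he : H.totalDegree ≤ e) (hd4 : d ≤ 4) (he4 : e ≤ 4) : 35 ≤ Fintype.card (Ix d) + Fintype.card (Ix e) := by
  classical
  let s : Ix d ⊕ Ix e → U4 := Sum.elim
    (fun q => MvPolynomial.coeff (tri q.1.1.val q.1.2.1.val q.1.2.2.val) G)
    (fun q => MvPolynomial.coeff (tri q.1.1.val q.1.2.1.val q.1.2.2.val) H)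
  have hG : ∀ n, MvPolynomial.coeff n G ∈ Algebra.adjoin ℤ (Set.range s) := by
    intro n
    rcases coeff_mem hd hd4 n with h0 | ⟨q, hq⟩
    · rw [h0]; exact zero_mem _
    · rw [hq]
      exact Algebra.subset_adjoin ⟨Sum.inl q, rfl⟩
  have hH : ∀ n, MvPolynomial.coeff n H ∈ Algebra.adjoin ℤ (Set.range s) := by
    intro n
    rcases coeff_mem he he4 n with h0 | ⟨q, hq⟩
    · rw [h0]; exact zero_mem _
    · rw [hq]
      exact Algebra.subset_adjoin ⟨Sum.inr q, rfl⟩
  have hD : ∀ n, MvPolynomial.coeff n dhU ∈ Algebra.adjoin ℤ (Set.range s) := by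
    intro n
    rw [h, MvPolynomial.coeff_mul]
    exact sum_mem fun x _ => mul_mem (hG _) (hH _)
  have h1 := span_card (R := ℤ) (s := s) ind_mk4 (fun q => by
    have h2 := hD (drp (mk4 q).1)
    rw [coeff_dhU] at h2
    exact isAlgebraic_algebraMap (⟨_, h2⟩ : Algebra.adjoin ℤ (Set.range s)))
  rw [Fintype.card_sum] at h1
  have h3 := card_ix.2.2.2.2
  omega

private theorem unit_of_deg {G : MvPolynomial (Fin 3) U4} (h : G.totalDegree = 0) (h0 : G ≠ 0) : IsUnit G := by
  rw [MvPolynomial.totalDegree_eq_zero_iff_eq_C] at h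
  rw [h]
  refine IsUnit.map MvPolynomial.C (isUnit_iff_ne_zero.2 ?_)
  intro h1
  rw [h1, map_zero] at h
  exact h0 h

theorem dhU_irr : Irreducible dhU := by
  have hne : dhU ≠ 0 := by
    intro h
    have h1 := dhU_deg
    rw [h, MvPolynomial.totalDegree_zero] at h1
    omega
  refine ⟨?_, ?_⟩
  · intro h
    obtain ⟨g, hg⟩ := h.exists_right_inv
    have hg0 : g ≠ 0 := by
      intro h0
      rw [h0, mul_zero] at hg
      exact zero_ne_one hg
    have h1 := MvPolynomial.totalDegree_mul_of_isDomain hne hg0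
    rw [hg, MvPolynomial.totalDegree_one, dhU_deg] at h1
    omega
  · intro G H h
    have hG : G ≠ 0 := by
      intro h0
      rw [h0, zero_mul] at h
      exact hne h
    have hH : H ≠ 0 := by
      intro h0
      rw [h0, mul_zero] at h
      exact hne h
    have h1 := MvPolynomial.totalDegree_mul_of_isDomain hG hH
    rw [← h, dhU_deg] at h1
    by_cases hd : G.totalDegree = 0
    · exact Or.inl (unit_of_deg hd hG)
    by_cases he : H.totalDegree = 0
    · exact Or.inr (unit_of_deg he hH)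
    exfalso
    have h2 : 1 ≤ G.totalDegree ∧ G.totalDegree ≤ 3 := by omega
    have hc := card_ix
    rcases (by omega : (G.totalDegree = 1 ∧ H.totalDegree = 3) ∨ (G.totalDegree = 2 ∧ H.totalDegree = 2) ∨
      (G.totalDegree = 3 ∧ H.totalDegree = 1)) with ⟨ha, hb⟩ | ⟨ha, hb⟩ | ⟨ha, hb⟩
    · have h3 := count h ha.le hb.le (by norm_num) (by norm_num)
      omega
    · have h3 := count h ha.le hb.le (by norm_num) (by norm_num)
      omega
    · have h3 := count h ha.le hb.le (by norm_num) (by norm_num)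
      omega

end H8.QS
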