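import Pool.Agent.H8.QS.Irr

/-! # QS.Ker : the relations between the coordinates of a generic point (about 150 lines, given `QS.Irr`)

Let `g` vanish at `(P0/P3, P1/P3, P2/P3)` and `dhU ∤ g`.  Write both as polynomials in the last variable over `B = MvPolynomial (Fin 2) U4` (`MvPolynomial.finSuccEquiv` splits off the variable `0`: first rename the variables by `Fin.rev` or a cyclic permutation, or use `MvPolynomial.finSuccEquiv` and the analogous statement with `P0` in the role of the dependent
coordinate: both orders are fine as long as the independent ones are `P0/P3`, `P1/P3`).  `dhU` is irreducible and of positive degree in the last variable (the coefficient of `X2^4` is `toU (X ..) ≠ 0`), so primitive, so irreducible over the fraction field of `B` (`Polynomial.IsPrimitive.irreducible_iff_irreducible_map_fraction_map`, Gauss), and `dhU ∤ g` over the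
fraction field (`Polynomial.IsPrimitive.dvd_iff_fraction_map_dvd_fraction_map`-like); so they are coprime there: `a dhU + b g = h` with `h ≠ 0` in `B` after clearing denominators.  Evaluate: `h(P0/P3, P1/P3) = 0`: contradiction to `Gen`.
`dh_ev`: `ev fU P = P3^4 * dhU(P0/P3, P1/P3, P2/P3)` (homogeneity; `aeval` of `aeval`). -/

namespace H8.QS

open Polynomial

theorem dh_ev {L : Type} [Field L] [Algebra U4 L] {P : Fin 4 → L} (h3 : P 3 ≠ 0) :
    ev fU P = P 3 ^ 4 * MvPolynomial.aeval ![P 0 / P 3, P 1 / P 3, P 2 / P 3] dhU := by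
  have h1 : MvPolynomial.aeval ![P 0 / P 3, P 1 / P 3, P 2 / P 3] dhU =
      MvPolynomial.aeval (fun i => P i / P 3) fU := by
    unfold dhU
    have hc : ((MvPolynomial.aeval (R := U4) ![P 0 / P 3, P 1 / P 3, P 2 / P 3]).comp
        (MvPolynomial.aeval ![MvPolynomial.X 0, MvPolynomial.X 1, MvPolynomial.X 2,
          (1 : MvPolynomial (Fin 3) U4)])) = MvPolynomial.aeval (fun i => P i / P 3) := by
      apply MvPolynomial.algHom_ext
      intro i
      fin_cases i
      · simp
      · simp
      · simp
      · simp [div_self h3]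
    exact DFunLike.congr_fun hc fU
  rw [h1]
  unfold ev fU
  rw [map_sum, map_sum, Finset.mul_sum]
  refine Finset.sum_congr rfl fun m _ => ?_
  rw [MvPolynomial.aeval_monomial, MvPolynomial.aeval_monomial, mul_left_comm]
  congr 1
  have hm : (m.1 0 + m.1 1 + m.1 2 + m.1 3) = 4 := by
    have h := m.2
    unfold ex4 at h
    rw [Finset.mem_finsuppAntidiag] at h
    have h2 := h.1
    rw [Fin.sum_univ_four] at h2
    exact h2
  have h4 : P 3 ^ 4 = P 3 ^ (m.1 0 + m.1 1 + m.1 2 + m.1 3) := by rw [hm]
  rw [Finsupp.prod_fintype _ _ (fun i => pow_zero _), Finsupp.prod_fintype _ _ (fun i => pow_zero _),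
    Fin.prod_univ_four, Fin.prod_univ_four, h4]
  simp only [div_pow, pow_add]
  field_simp

/-- the polynomial ring in three variables as the ring of polynomials in the last variable -/
private noncomputable def lastVar (k : Type) [Field k] :
    MvPolynomial (Fin 3) k ≃ₐ[k] Polynomial (MvPolynomial (Fin 2) k) :=
  (MvPolynomial.renameEquiv k (finRotate 3)).trans (MvPolynomial.finSuccEquiv k 2)

private theorem lastVar_zero (k : Type) [Field k] :
    lastVar k (MvPolynomial.X 0) = Polynomial.C (MvPolynomial.X 0) := by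
  unfold lastVar
  rw [AlgEquiv.trans_apply, MvPolynomial.renameEquiv_apply, MvPolynomial.rename_X]
  exact MvPolynomial.finSuccEquiv_X_succ (j := (0 : Fin 2))

private theorem lastVar_one (k : Type) [Field k] :
    lastVar k (MvPolynomial.X 1) = Polynomial.C (MvPolynomial.X 1) := by
  unfold lastVar
  rw [AlgEquiv.trans_apply, MvPolynomial.renameEquiv_apply, MvPolynomial.rename_X]
  exact MvPolynomial.finSuccEquiv_X_succ (j := (1 : Fin 2))

private theorem lastVar_two (k : Type) [Field k] :
    lastVar k (MvPolynomial.X 2) = Polynomial.X := by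
  unfold lastVar
  rw [AlgEquiv.trans_apply, MvPolynomial.renameEquiv_apply, MvPolynomial.rename_X]
  exact MvPolynomial.finSuccEquiv_X_zero

private theorem lastVar_C (k : Type) [Field k] (r : k) :
    lastVar k (MvPolynomial.C r) = Polynomial.C (MvPolynomial.C r) := by
  exact (lastVar k).commutes r

private theorem eval_lastVar {k L : Type} [Field k] [Field L] [Algebra k L] (q : Fin 3 → L)
    (p : MvPolynomial (Fin 3) k) :
    MvPolynomial.aeval q p = Polynomial.eval₂
      ((MvPolynomial.aeval ![q 0, q 1] : MvPolynomial (Fin 2) k →ₐ[k] L) : MvPolynomial (Fin 2) k →+* L)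
      (q 2) (lastVar k p) := by
  have h : ((MvPolynomial.aeval q : MvPolynomial (Fin 3) k →ₐ[k] L) : MvPolynomial (Fin 3) k →+* L) =
      (Polynomial.eval₂RingHom
        ((MvPolynomial.aeval ![q 0, q 1] : MvPolynomial (Fin 2) k →ₐ[k] L) : MvPolynomial (Fin 2) k →+* L)
        (q 2)).comp ((lastVar k : MvPolynomial (Fin 3) k ≃ₐ[k] _) : MvPolynomial (Fin 3) k →+* _) := by
    apply MvPolynomial.ringHom_ext
    · intro r
      rw [RingHom.comp_apply]
      show MvPolynomial.aeval q (MvPolynomial.C r) = Polynomial.eval₂ _ (q 2) (lastVar k (MvPolynomial.C r))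
      rw [lastVar_C, Polynomial.eval₂_C]
      show MvPolynomial.aeval q (MvPolynomial.C r) =
        MvPolynomial.aeval ![q 0, q 1] (MvPolynomial.C r : MvPolynomial (Fin 2) k)
      rw [MvPolynomial.aeval_C, MvPolynomial.aeval_C]
    · intro i
      rw [RingHom.comp_apply]
      show MvPolynomial.aeval q (MvPolynomial.X i) = Polynomial.eval₂ _ (q 2) (lastVar k (MvPolynomial.X i))
      rw [MvPolynomial.aeval_X]
      fin_cases i
      · show q 0 = Polynomial.eval₂ _ (q 2) (lastVar k (MvPolynomial.X 0))
        rw [lastVar_zero, Polynomial.eval₂_C]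
        show q 0 = MvPolynomial.aeval ![q 0, q 1] (MvPolynomial.X 0 : MvPolynomial (Fin 2) k)
        rw [MvPolynomial.aeval_X]
        rfl
      · show q 1 = Polynomial.eval₂ _ (q 2) (lastVar k (MvPolynomial.X 1))
        rw [lastVar_one, Polynomial.eval₂_C]
        show q 1 = MvPolynomial.aeval ![q 0, q 1] (MvPolynomial.X 1 : MvPolynomial (Fin 2) k)
        rw [MvPolynomial.aeval_X]
        rfl
      · show q 2 = Polynomial.eval₂ _ (q 2) (lastVar k (MvPolynomial.X 2))
        rw [lastVar_two, Polynomial.eval₂_X]
  exact DFunLike.congr_fun h p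

private theorem gauss_aux {B L : Type} [CommRing B] [IsDomain B] [UniqueFactorizationMonoid B] [Field L]
    (φ : B →+* L) (hinj : Function.Injective φ) (x : L) {F G : Polynomial B} (hFi : Irreducible F)
    (hF0 : Polynomial.eval₂ φ x F = 0) (hG0 : Polynomial.eval₂ φ x G = 0) : F ∣ G := by
  have hdeg : F.natDegree ≠ 0 := by
    intro h0
    rw [Polynomial.eq_C_of_natDegree_eq_zero h0, Polynomial.eval₂_C] at hF0
    have h1 : F.coeff 0 = 0 := hinj (by rw [hF0, map_zero])
    apply hFi.ne_zero
    rw [Polynomial.eq_C_of_natDegree_eq_zero h0, h1, map_zero]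
  have hprim : F.IsPrimitive := hFi.isPrimitive hdeg
  have hFK : Irreducible (F.map (algebraMap B (FractionRing B))) :=
    (hprim.irreducible_iff_irreducible_map_fraction_map (K := FractionRing B)).1 hFi
  let ψ : FractionRing B →+* L := IsFractionRing.lift hinj
  let _ : Algebra (FractionRing B) L := ψ.toAlgebra
  have hψ : ∀ p : Polynomial B, Polynomial.aeval x (p.map (algebraMap B (FractionRing B))) =
      Polynomial.eval₂ φ x p := by
    intro p
    rw [Polynomial.aeval_def, Polynomial.eval₂_map]
    congr 1
    refine RingHom.ext fun b => ?_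
    exact IsFractionRing.lift_algebraMap hinj b
  have h1 : minpoly (FractionRing B) x ∣ F.map (algebraMap B (FractionRing B)) :=
    minpoly.dvd (FractionRing B) x (by rw [hψ, hF0])
  have h2 : minpoly (FractionRing B) x ∣ G.map (algebraMap B (FractionRing B)) :=
    minpoly.dvd (FractionRing B) x (by rw [hψ, hG0])
  have hint : IsIntegral (FractionRing B) x := by
    rw [← isAlgebraic_iff_isIntegral]
    exact ⟨F.map (algebraMap B (FractionRing B)), hFK.ne_zero, by rw [hψ, hF0]⟩
  have h3 : F.map (algebraMap B (FractionRing B)) ∣ minpoly (FractionRing B) x :=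
    (minpoly.irreducible hint).dvd_symm hFK h1
  exact hprim.dvd_of_fraction_map_dvd_fraction_map (K := FractionRing B) (h3.trans h2)

/-- the relations of three elements of transcendence degree two -/
private theorem ker_aux {k L : Type} [Field k] [Field L] [Algebra k L] {q : Fin 3 → L}
    (hi : AlgebraicIndependent k ![q 0, q 1]) {f g : MvPolynomial (Fin 3) k} (hf : Irreducible f)
    (hf0 : MvPolynomial.aeval q f = 0) (hg0 : MvPolynomial.aeval q g = 0) : f ∣ g := by
  have hFi : Irreducible (lastVar k f) := (MulEquiv.irreducible_iff (lastVar k)).2 hf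
  rw [eval_lastVar] at hf0 hg0
  exact (map_dvd_iff (lastVar k)).1 (gauss_aux _ hi (q 2) hFi hf0 hg0)

theorem ker_gen {L : Type} [Field L] [Algebra U4 L] {P : Fin 4 → L} (hP : ev fU P = 0) (hg : Gen P)
    {g : MvPolynomial (Fin 3) U4} (h : MvPolynomial.aeval ![P 0 / P 3, P 1 / P 3, P 2 / P 3] g = 0) : dhU ∣ g := by
  have h0 : MvPolynomial.aeval ![P 0 / P 3, P 1 / P 3, P 2 / P 3] dhU = 0 := by
    have h1 := dh_ev (P := P) hg.1
    rw [hP] at h1
    rcases mul_eq_zero.1 h1.symm with h2 | h2
    · exact absurd h2 (pow_ne_zero _ hg.1)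
    · exact h2
  exact ker_aux (q := ![P 0 / P 3, P 1 / P 3, P 2 / P 3]) hg.2 dhU_irr h0 h

end H8.QS
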