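import Pool.Agent.H8.QS.Def

/-! # QS.Lat : a good basis of the tangent space over a valuation ring (about 200 lines, linear algebra; uses only `Ind`, `Rd`)

`x`, `d`, `e` independent vectors over `F`, `V` a valuation ring.  Choose `i` with `x i ≠ 0` and `x j / x i ∈ V` for all `j` (finite set, `V` is a valuation ring), `ρ = x i`, `x' = x / x i` (`x' i = 1`).  `d1 = d - (d i) x'`, `e1 = e - (e i) x'` (coordinate `i` is zero), still independent.
Choose `(j, l)` such that the minor `M = d1 j * e1 l - d1 l * e1 j` is not zero and all the other minors divided by `M` are in `V` (not all minors are zero: `x`, `d`, `e` are independent; then `j ≠ l`, both `≠ i`).  `d' = (e1 l • d1 - d1 l • e1) / M`, `e' = (- e1 j • d1 + d1 j • e1) / M`: their entries are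
quotients of minors by `M` (up to sign), so in `V`; `d' i = e' i = 0`, `d' j = 1`, `d' l = 0`, `e' j = 0`, `e' l = 1`.  `d1 = d1 j • d' + d1 l • e'`, `e1 = e1 j • d' + e1 l • e'`: `g11 = d1 j`, `g12 = d1 l`, `g21 = e1 j`, `g22 = e1 l`, determinant `M`; `θ1 = d i`, `θ2 = e i`.
The reductions `x0`, `d0`, `e0` are independent (look at the coordinates `i`, `j`, `l`). -/

namespace H8.QS

open H68.BB H77.AF Polynomial

variable {F κ : Type} [Field F] [Field κ] {V : ValuationSubring F} {φ : V →+* κ}

/-- a basis `x'`, `d'`, `e'` over the valuation ring with independent reductions `x0`, `d0`, `e0` -/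
structure Lt (V : ValuationSubring F) (φ : V →+* κ) (x d e x' d' e' : Fin 4 → F) (x0 d0 e0 : Fin 4 → κ)
    (ρ θ1 θ2 g11 g12 g21 g22 : F) : Prop where
  hρ : ρ ≠ 0
  hg : g11 * g22 - g12 * g21 ≠ 0
  hx : ∀ i, x i = ρ * x' i
  hd : ∀ i, d i = g11 * d' i + g12 * e' i + θ1 * x' i
  he : ∀ i, e i = g21 * d' i + g22 * e' i + θ2 * x' i
  rx : ∀ i, Rd V φ (x' i) (x0 i)
  rd : ∀ i, Rd V φ (d' i) (d0 i)
  re : ∀ i, Rd V φ (e' i) (e0 i)
  ind : Ind x0 d0 e0

private theorem ind_iff {F : Type} [Field F] {x d e : Fin 4 → F} :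
    Ind x d e ↔ ∀ a b c : F, (∀ j, a * x j + b * d j + c * e j = 0) → a = 0 ∧ b = 0 ∧ c = 0 := by
  unfold Ind
  rw [Fintype.linearIndependent_iff]
  constructor
  · intro h a b c habc
    have h1 := h ![a, b, c] (by
      funext j
      rw [Fin.sum_univ_three]
      simpa using habc j)
    exact ⟨h1 0, h1 1, h1 2⟩
  · intro h g hg
    have h1 := h (g 0) (g 1) (g 2) (fun j => by
      have h2 := congrFun hg j
      rw [Fin.sum_univ_three] at h2
      simpa using h2)
    intro k
    fin_cases k
    · exact h1.1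
    · exact h1.2.1
    · exact h1.2.2

private theorem max_val {F : Type} [Field F] (V : ValuationSubring F) {ι : Type} [Finite ι] (v : ι → F) {i1 : ι}
    (h1 : v i1 ≠ 0) : ∃ i, v i ≠ 0 ∧ ∀ j, v j / v i ∈ V := by
  have : Nonempty ι := ⟨i1⟩
  obtain ⟨i, hi⟩ := Finite.exists_max (fun j => V.valuation (v j))
  refine ⟨i, ?_, fun j => ?_⟩
  · intro h
    apply h1
    have h2 := hi i1
    rw [h, map_zero] at h2
    exact (map_eq_zero V.valuation).1 (le_antisymm h2 zero_le)
  · rw [← ValuationSubring.valuation_le_one_iff, map_div₀]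
    exact div_le_one_of_le₀ (hi j) zero_le

theorem lat [IsLocalHom φ] {x d e : Fin 4 → F} (hi : Ind x d e) :
    ∃ (x' d' e' : Fin 4 → F) (x0 d0 e0 : Fin 4 → κ) (ρ θ1 θ2 g11 g12 g21 g22 : F),
      Lt V φ x d e x' d' e' x0 d0 e0 ρ θ1 θ2 g11 g12 g21 g22 := by
  classical
  rw [ind_iff] at hi
  obtain ⟨i1, hi1⟩ : ∃ i, x i ≠ 0 := by
    by_contra hno
    push Not at hno
    have h := hi 1 0 0 (fun j => by rw [hno j]; ring)
    exact one_ne_zero h.1
  obtain ⟨i, hxi, hx'⟩ := max_val V x hi1
  set x' : Fin 4 → F := fun j => x j / x i with hx'd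
  have hx'i : x' i = 1 := div_self hxi
  set d1 : Fin 4 → F := fun j => d j - d i * x' j with hd1
  set e1 : Fin 4 → F := fun j => e j - e i * x' j with he1
  have hd1i : d1 i = 0 := by rw [hd1]; simp only [hx'i]; ring
  have he1i : e1 i = 0 := by rw [he1]; simp only [hx'i]; ring
  have hxx : ∀ j, x j = x i * x' j := fun j => by rw [hx'd]; field_simp
  have hmin : ∃ p : Fin 4 × Fin 4, d1 p.1 * e1 p.2 - d1 p.2 * e1 p.1 ≠ 0 := by
    by_contra hno
    push Not at hno
    by_cases hd0 : ∀ l, d1 l = 0
    · have h := hi (d i / x i) (-1) 0 (fun j => by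
        have h1 := hd0 j
        rw [hd1] at h1
        simp only at h1
        have h2 : d i / x i * x j = d i * x' j := by rw [hx'd]; ring
        rw [h2]
        linear_combination -h1)
      have h3 := h.2.1
      exact one_ne_zero (neg_eq_zero.1 h3)
    · push Not at hd0
      obtain ⟨l, hl⟩ := hd0
      have h := hi (e i / x i - e1 l / d1 l * (d i / x i)) (e1 l / d1 l) (-1) (fun j => by
        have h1 : e1 j = e1 l / d1 l * d1 j := by
          have h2 := hno (j, l)
          simp only at h2
          field_simp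
          linear_combination -h2
        have h2 : (e i / x i - e1 l / d1 l * (d i / x i)) * x j = e i * x' j - e1 l / d1 l * (d i * x' j) := by
          rw [hx'd]; ring
        have h3 : d1 j = d j - d i * x' j := rfl
        have h4 : e1 j = e j - e i * x' j := rfl
        rw [h2]
        rw [h3, h4] at h1
        linear_combination -h1)
      exact one_ne_zero (neg_eq_zero.1 h.2.2)
  obtain ⟨p1, hp1⟩ := hmin
  obtain ⟨⟨j, l⟩, hM, hMV⟩ := max_val V (fun p : Fin 4 × Fin 4 => d1 p.1 * e1 p.2 - d1 p.2 * e1 p.1) hp1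
  simp only at hM
  set M := d1 j * e1 l - d1 l * e1 j with hMd
  set d' : Fin 4 → F := fun k => (d1 k * e1 l - d1 l * e1 k) / M with hd'
  set e' : Fin 4 → F := fun k => (d1 j * e1 k - d1 k * e1 j) / M with he'
  have hdV : ∀ k, d' k ∈ V := fun k => hMV (k, l)
  have heV : ∀ k, e' k ∈ V := fun k => hMV (j, k)
  have hd'i : d' i = 0 := by rw [hd']; simp only [hd1i, he1i]; ring
  have he'i : e' i = 0 := by rw [he']; simp only [hd1i, he1i]; ring
  have hd'j : d' j = 1 := div_self hM
  have he'l : e' l = 1 := div_self hM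
  have hd'l : d' l = 0 := by rw [hd']; simp only; rw [sub_self, zero_div]
  have he'j : e' j = 0 := by rw [he']; simp only; rw [sub_self, zero_div]
  refine ⟨x', d', e', fun k => φ ⟨x' k, hx' k⟩, fun k => φ ⟨d' k, hdV k⟩, fun k => φ ⟨e' k, heV k⟩, x i, d i, e i,
    d1 j, d1 l, e1 j, e1 l, hxi, hM, hxx, fun k => ?_, fun k => ?_, fun k => Rd.of_mem (hx' k), fun k => Rd.of_mem (hdV k),
    fun k => Rd.of_mem (heV k), ?_⟩
  · have h1 : d1 k = d1 j * d' k + d1 l * e' k := by
      rw [hd', he']
      simp only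
      field_simp
      rw [hMd]
      ring
    have h2 : d1 k = d k - d i * x' k := rfl
    linear_combination h1 - h2
  · have h1 : e1 k = e1 j * d' k + e1 l * e' k := by
      rw [hd', he']
      simp only
      field_simp
      rw [hMd]
      ring
    have h2 : e1 k = e k - e i * x' k := rfl
    linear_combination h1 - h2
  · rw [ind_iff]
    have r1 : ∀ {y : F} (hy : y ∈ V), y = 1 → φ ⟨y, hy⟩ = 1 := fun hy h => by
      subst h
      exact (Rd.of_mem hy).unique Rd.one
    have r0 : ∀ {y : F} (hy : y ∈ V), y = 0 → φ ⟨y, hy⟩ = 0 := fun hy h => by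
      subst h
      exact (Rd.of_mem hy).unique Rd.zero
    intro a b c h
    have ha : a = 0 := by
      have h1 := h i
      rw [r1 (hx' i) hx'i, r0 (hdV i) hd'i, r0 (heV i) he'i] at h1
      linear_combination h1
    have hb : b = 0 := by
      have h1 := h j
      rw [ha, r1 (hdV j) hd'j, r0 (heV j) he'j] at h1
      linear_combination h1
    have hc : c = 0 := by
      have h1 := h l
      rw [ha, hb, r1 (heV l) he'l] at h1
      linear_combination h1
    exact ⟨ha, hb, hc⟩

end H8.QS
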