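import Pool.Agent.H8.QS.DichR

/-! # QS.Lim : specialisation of the residual pairs of a frame with good reduction (about 60 lines, given `QS.Rdx`)

`plc_cst`: `IsScalarTower.algebraMap_apply K0 K (Om K)`, `π.const`.  `good_lim`: `on_rd` for the frame `r'`: `u = l d' + e'`, `w = (s' l + t') y`, reductions; `xqd .. sp` gives the scalar `c` (`Place.isLocal`). -/

namespace H8.QS

open H68.BB H77.AF Polynomial

variable {K0 : Type} [Field K0] {f : MvPolynomial (Fin 4) K0} {K : Type} [Field K] [Algebra K0 K]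

theorem plc_cst (π : Place K (Om K)) : Cst K0 π.V π.φ := fun c => by
  rw [IsScalarTower.algebraMap_apply K0 K (Om K)]
  exact π.const (algebraMap K0 K c)

theorem good_lim (hf : f.IsHomogeneous 4) (π : Place K (Om K)) {r' : Fr f (Om K)} {r0 : Fr f K} (h : RdF π.V π.φ r' r0)
    (h0 : r0.Nd) {l y : Om K} {l0 y0 : K} (hl : Rd π.V π.φ l l0) (hy : Rd π.V π.φ y y0) {R : XQ f (Om K)} {x : XQ f K}
    (hR : OnF r' l y R.p) (hx : (xqd K f).sp π R x) : OnF r0 l0 y0 x.p := by
  have := π.isLocal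
  obtain ⟨c, _, hc⟩ := hx
  obtain ⟨h1, h2, h3, h4, h5, _, _⟩ := h
  exact on_rd (plc_cst π) h1 (fun i => (hl.mul (h2 i)).add (Rd.one.mul (h3 i))) (ind_lc h0 (Or.inr one_ne_zero))
    (((h4.mul hl).add h5).mul hy) hR x.ne hc

end H8.QS
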