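import Pool.Agent.H8.QS.OnA

/-! # QS.Line : proportional vectors, points of a line contained in `X` (about 150 lines)

`K` algebraically closed.  `scl`: the constant multiset of the point `P` over `Om K` specialises to `P` (`c = 1`) and to `Q` (`c` constant) at any place (`H68.BB.place_exists K 0`), `RatEq` = closure of the differences of two fibres; compare `scale` in `Pool/Agent/H25/DP/RatC.lean`.
`onl`: `P = α g + β h`, `Q = γ g + δ h`, `g`, `h` independent, `f = 0` on the line.  The point `(1 - t) P + t Q` over `Om K`, `t = tt K`, fixed by the automorphisms; if `P`, `Q` are proportional use `scl`, otherwise it is nonzero and its reductions at the places with `tt ↦ 0`, `tt ↦ 1` are `P`, `Q`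
(`place_exists K 0`, `place_exists K 1`).  It is on `X`: `f(x g + y h) = 0` for all `x, y ∈ Om K` because the polynomial `f(x g + y h)` in `x, y` is zero (the coefficients `qc f g h j` are zero: `ev_lc` over `K`, `K` infinite; then `ev_lc` over `Om K` and `qc_map`). -/

namespace H8.QS

open H68.BB H77.AF Polynomial

variable {K0 : Type} [Field K0] {f : MvPolynomial (Fin 4) K0} {K : Type} [Field K] [Algebra K0 K]

/-- the class of a point -/
noncomputable def pt (P : XQ f K) : Cyc (xqd K f) 1 := Finsupp.single (fun _ => P) 1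

/-- if a quartic form vanishes on a line over an infinite field then it vanishes on it over every extension -/
theorem line_ext [Infinite K] (hf : f.IsHomogeneous 4) {g h : Fin 4 → K} (h0 : ∀ x y : K, ev f (lc x y g h) = 0) {G : Type}
    [CommRing G] [Algebra K0 G] (φ : K →ₐ[K0] G) (x y : G) : ev f (lc x y (fun i => φ (g i)) (fun i => φ (h i))) = 0 := by
  have e1 : lin f g h = 0 := by
    refine Polynomial.funext fun y => ?_
    have e2 := MvPolynomial.comp_aeval_apply (f := fun i => (C (g i) + C (h i) * X : K[X]))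
      ((Polynomial.aeval (y : K)).restrictScalars K0) f
    have e3 : ((Polynomial.aeval (y : K)).restrictScalars K0)
        (MvPolynomial.aeval (fun i => (C (g i) + C (h i) * X : K[X])) f) = (lin f g h).eval y := by
      rw [AlgHom.restrictScalars_apply, ← coe_aeval_eq_eval]
      rfl
    rw [← e3, e2, eval_zero, ← h0 1 y]
    unfold ev
    congr 2
    funext i
    simp only [AlgHom.restrictScalars_apply, map_add, map_mul, aeval_C, aeval_X, Algebra.algebraMap_self, RingHom.id_apply, lc]
    ring
  have e4 : ∀ j, qc f g h j = 0 := fun j => by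
    unfold qc
    rw [e1, coeff_zero]
  rw [ev_lc hf, ← qc_map, ← qc_map, ← qc_map, ← qc_map, ← qc_map, e4, e4, e4, e4, e4, map_zero]
  ring

/-- a one-point family -/
private theorem ln_one {K : Type} [Field K] {D : PD K} {P : D.Y} {P0 P1 : D.X} {π π' : Place K (Om K)}
    (hσ : ∀ σ, D.act σ P = P) (h0 : D.sp π P P0) (h1 : D.sp π' P P1) :
    (Finsupp.single (fun _ => P0) 1 - Finsupp.single (fun _ => P1) 1 : Cyc D 1) ∈ RatEq D 1 := by
  refine AddSubgroup.subset_closure ⟨{fun _ => P}, π, π', {fun _ => P0}, {fun _ => P1}, ?_, ?_, ?_, ?_⟩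
  · intro σ
    rw [Multiset.map_singleton]
    congr 1
    funext _
    exact hσ σ
  · refine ⟨{fun _ => P}, 0, (add_zero _).symm, ?_, fun Q hQ => absurd hQ (Multiset.notMem_zero Q)⟩
    exact Multiset.Rel.cons (fun _ => h0) Multiset.Rel.zero
  · refine ⟨{fun _ => P}, 0, (add_zero _).symm, ?_, fun Q hQ => absurd hQ (Multiset.notMem_zero Q)⟩
    exact Multiset.Rel.cons (fun _ => h1) Multiset.Rel.zero
  · unfold cyc
    rw [Multiset.map_singleton, Multiset.map_singleton, Multiset.sum_singleton, Multiset.sum_singleton]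

theorem scl [IsAlgClosed K] {P Q : XQ f K} {c : K} (h : ∀ i, Q.p i = c * P.p i) : pt P - pt Q ∈ RatEq (xqd K f) 1 := by
  have hc : c ≠ 0 := by
    rintro rfl
    refine Q.ne ?_
    funext i
    rw [h i, zero_mul]
    rfl
  obtain ⟨π, -⟩ := H68.BB.place_exists K (0 : K)
  refine ln_one (D := xqd K f) (P := (xqd K f).cst P) (π := π) (π' := π) (fun σ => (xqd K f).act_cst σ P)
    ((xqd K f).sp_cst π P) ?_
  refine ⟨algebraMap K (Om K) c, ?_, fun i => ?_⟩
  · rw [Ne, map_eq_zero_iff (algebraMap K (Om K)) (algebraMap K (Om K)).injective]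
    exact hc
  · rw [h i]
    exact Rd.mul (π.const c) (π.const (P.p i))

theorem onl [IsAlgClosed K] (hf : f.IsHomogeneous 4) {g h : Fin 4 → K} (h0 : ∀ x y : K, ev f (lc x y g h) = 0)
    {P Q : XQ f K} {α β γ δ : K} (hP : P.p = lc α β g h) (hQ : Q.p = lc γ δ g h) : pt P - pt Q ∈ RatEq (xqd K f) 1 := by
  obtain ⟨π, hπ⟩ := H68.BB.place_exists K (0 : K)
  obtain ⟨π', hπ'⟩ := H68.BB.place_exists K (1 : K)
  have hr : Rd π.V π.φ (tt K) 0 := hπ
  have hr' : Rd π'.V π'.φ (tt K) 1 := hπ'
  have hk : ∀ (ρ : Place K (Om K)) (c : K), Rd ρ.V ρ.φ (algebraMap K (Om K) c) c := fun ρ c => ρ.const c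
  have r0 : ∀ i, Rd π.V π.φ ((1 - tt K) * algebraMap K (Om K) (P.p i) + tt K * algebraMap K (Om K) (Q.p i)) (P.p i) := by
    intro i
    have e := ((Rd.one.sub hr).mul (hk π (P.p i))).add (hr.mul (hk π (Q.p i)))
    rw [sub_zero, one_mul, zero_mul, add_zero] at e
    exact e
  have r1 : ∀ i, Rd π'.V π'.φ ((1 - tt K) * algebraMap K (Om K) (P.p i) + tt K * algebraMap K (Om K) (Q.p i)) (Q.p i) := by
    intro i
    have e := ((Rd.one.sub hr').mul (hk π' (P.p i))).add (hr'.mul (hk π' (Q.p i)))
    rw [sub_self, one_mul, zero_mul, zero_add] at e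
    exact e
  have hev : ev f (fun i => (1 - tt K) * algebraMap K (Om K) (P.p i) + tt K * algebraMap K (Om K) (Q.p i)) = 0 := by
    have e := line_ext hf h0 (IsScalarTower.toAlgHom K0 K (Om K))
      ((1 - tt K) * algebraMap K (Om K) α + tt K * algebraMap K (Om K) γ)
      ((1 - tt K) * algebraMap K (Om K) β + tt K * algebraMap K (Om K) δ)
    rw [← e]
    congr 1
    funext i
    rw [hP, hQ]
    simp only [lc, map_add, map_mul, IsScalarTower.coe_toAlgHom']
    ring
  let R : XQ f (Om K) :=
    { p := fun i => (1 - tt K) * algebraMap K (Om K) (P.p i) + tt K * algebraMap K (Om K) (Q.p i)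
      ne := fun e => P.ne (by
        funext i
        have e1 := r0 i
        have e2 : (1 - tt K) * algebraMap K (Om K) (P.p i) + tt K * algebraMap K (Om K) (Q.p i) = 0 := congrFun e i
        rw [e2] at e1
        exact e1.unique Rd.zero)
      eq := hev }
  refine ln_one (D := xqd K f) (P := R) (π := π) (π' := π') ?_ ?_ ?_
  · intro σ
    refine XQ.ext ?_
    funext i
    have hc : ∀ c : K, σ (algebraMap K (Om K) c) = algebraMap K (Om K) c := fun c => by
      rw [IsScalarTower.algebraMap_apply K (RatFunc K) (Om K), AlgEquiv.commutes]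
    have ht : σ (tt K) = tt K := by
      unfold tt
      exact σ.commutes _
    change σ ((1 - tt K) * algebraMap K (Om K) (P.p i) + tt K * algebraMap K (Om K) (Q.p i)) = _
    rw [map_add, map_mul, map_mul, map_sub, map_one, hc, hc, ht]
  · refine ⟨1, one_ne_zero, fun i => ?_⟩
    rw [one_mul]
    exact r0 i
  · refine ⟨1, one_ne_zero, fun i => ?_⟩
    rw [one_mul]
    exact r1 i

end H8.QS
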