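import Pool.Agent.H8.QS.AlgF

/-! # QS.RdA : reduction of the values of the form and of its coefficients along a line (about 150 lines; uses only `QS.Def`, `sx`)

`V` a valuation subring of `F`, `φ : V → κ` a homomorphism to a field which maps the constants of `K0` to the constants of `K0` (`Cst`).
`rd_ev`: `MvPolynomial.induction_on` or the sum over the monomials (see `gd_rd_ev` in `Pool/Agent/H71/SD/GlueDP.lean` or `rd_ev` in `Pool/Agent/H25/DP/Val.lean`).  `rd_qc`, `rd_sx`: the entries are in `V`: work in the ring `V` with the `K0`-algebra structure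
(`let _ : Algebra K0 V := (RingHom.codRestrict (algebraMap K0 F) V.toSubring ..).toAlgebra`, `IsScalarTower K0 V F`), `qc_map` for `V → F` and for `φ : V → κ` as `K0`-algebra homomorphisms.  The same trick proves all five (a common private lemma: there is a `K0`-algebra structure on `V` such that the inclusion and `φ` are `K0`-algebra homomorphisms). -/

namespace H8.QS

open H68.BB H77.AF Polynomial

variable {K0 : Type} [Field K0] {f : MvPolynomial (Fin 4) K0} {F κ : Type} [Field F] [Algebra K0 F] [Field κ] [Algebra K0 κ]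
  {V : ValuationSubring F} {φ : V →+* κ}

/-- the homomorphism `φ` is the identity on the constants -/
def Cst (K0 : Type) [Field K0] {F κ : Type} [Field F] [Algebra K0 F] [Field κ] [Algebra K0 κ] (V : ValuationSubring F)
    (φ : V →+* κ) : Prop := ∀ c : K0, Rd V φ (algebraMap K0 F c) (algebraMap K0 κ c)

private theorem rda_alg (hc : Cst K0 V φ) : ∃ (_ : Algebra K0 V) (ι : V →ₐ[K0] F) (ψ : V →ₐ[K0] κ),
    (∀ v : V, ι v = (v : F)) ∧ ∀ v : V, ψ v = φ v := by
  let i1 : Algebra K0 V := (RingHom.codRestrict (algebraMap K0 F) V (fun c => (hc c).1)).toAlgebra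
  refine ⟨i1, { V.subtype with commutes' := fun c => rfl }, { φ with commutes' := fun c => (hc c).2 }, fun v => rfl,
    fun v => rfl⟩

private theorem rda_of {a : F} {b : κ} (v : V) (h1 : (v : F) = a) (h2 : φ v = b) : Rd V φ a b := by
  subst h1
  exact ⟨v.2, h2⟩

theorem rd_ev (hc : Cst K0 V φ) {x : Fin 4 → F} {x0 : Fin 4 → κ} (hx : ∀ i, Rd V φ (x i) (x0 i)) :
    Rd V φ (ev f x) (ev f x0) := by
  obtain ⟨_, ι, ψ, h1, h2⟩ := rda_alg hc
  choose x1 x2 using hx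
  refine rda_of (ev f (fun i => (⟨x i, x1 i⟩ : V))) ?_ ?_
  · rw [← h1, ev_map]
    simp only [h1]
  · rw [← h2, ev_map]
    simp only [h2, x2]

theorem rd_dg (hc : Cst K0 V φ) {x u : Fin 4 → F} {x0 u0 : Fin 4 → κ} (hx : ∀ i, Rd V φ (x i) (x0 i))
    (hu : ∀ i, Rd V φ (u i) (u0 i)) : Rd V φ (dg f x u) (dg f x0 u0) := by
  obtain ⟨_, ι, ψ, h1, h2⟩ := rda_alg hc
  choose x1 x2 using hx
  choose u1 u2 using hu
  refine rda_of (dg f (fun i => (⟨x i, x1 i⟩ : V)) (fun i => (⟨u i, u1 i⟩ : V))) ?_ ?_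
  · rw [← h1, dg_map]
    simp only [h1]
  · rw [← h2, dg_map]
    simp only [h2, x2, u2]

theorem rd_qc (hc : Cst K0 V φ) {x u : Fin 4 → F} {x0 u0 : Fin 4 → κ} (hx : ∀ i, Rd V φ (x i) (x0 i))
    (hu : ∀ i, Rd V φ (u i) (u0 i)) (j : ℕ) : Rd V φ (qc f x u j) (qc f x0 u0 j) := by
  obtain ⟨_, ι, ψ, h1, h2⟩ := rda_alg hc
  choose x1 x2 using hx
  choose u1 u2 using hu
  refine rda_of (qc f (fun i => (⟨x i, x1 i⟩ : V)) (fun i => (⟨u i, u1 i⟩ : V)) j) ?_ ?_
  · rw [← h1, qc_map]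
    simp only [h1]
  · rw [← h2, qc_map]
    simp only [h2, x2, u2]

theorem rd_dv (hc : Cst K0 V φ) {x u : Fin 4 → F} {x0 u0 : Fin 4 → κ} (hx : ∀ i, Rd V φ (x i) (x0 i))
    (hu : ∀ i, Rd V φ (u i) (u0 i)) : Rd V φ (dv f x u) (dv f x0 u0) := by
  obtain ⟨_, ι, ψ, h1, h2⟩ := rda_alg hc
  choose x1 x2 using hx
  choose u1 u2 using hu
  refine rda_of (dv f (fun i => (⟨x i, x1 i⟩ : V)) (fun i => (⟨u i, u1 i⟩ : V))) ?_ ?_
  · rw [← h1, dv_map]
    simp only [h1]
  · rw [← h2, dv_map]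
    simp only [h2, x2, u2]

theorem rd_sx (hc : Cst K0 V φ) {x d e : Fin 4 → F} {x0 d0 e0 : Fin 4 → κ} (hx : ∀ i, Rd V φ (x i) (x0 i))
    (hd : ∀ i, Rd V φ (d i) (d0 i)) (he : ∀ i, Rd V φ (e i) (e0 i)) (i : Fin 7) :
    Rd V φ (sx f x d e i) (sx f x0 d0 e0 i) := by
  obtain ⟨_, ι, ψ, h1, h2⟩ := rda_alg hc
  choose x1 x2 using hx
  choose d1 d2 using hd
  choose e1 e2 using he
  have k1 := dp_map ι f (fun i => (⟨x i, x1 i⟩ : V)) (fun i => (⟨d i, d1 i⟩ : V)) (fun i => (⟨e i, e1 i⟩ : V))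
  have k2 := dp_map ψ f (fun i => (⟨x i, x1 i⟩ : V)) (fun i => (⟨d i, d1 i⟩ : V)) (fun i => (⟨e i, e1 i⟩ : V))
  simp only [h1] at k1
  simp only [h2, x2, d2, e2] at k2
  refine rda_of ((dp f (fun i => (⟨x i, x1 i⟩ : V)) (fun i => (⟨d i, d1 i⟩ : V)) (fun i => (⟨e i, e1 i⟩ : V))).coeff
    (6 - (i : ℕ))) ?_ ?_
  · unfold sx
    rw [← k1, Polynomial.coeff_map]
    exact (h1 _).symm
  · unfold sx
    rw [← k2, Polynomial.coeff_map]
    exact (h2 _).symm

end H8.QS
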