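import Pool.Agent.H8.QS.UF
import Pool.Agent.H71.SD.Lang

/-! # QS.RelQ : specialisation of the universal quartic, with additional variables (about 180 lines; compare `Pool/Agent/H71/SD/RelU.lean`)

`L1 = AlgebraicClosure (FractionRing (MvPolynomial (Mo4 ⊕ (K ⊕ I)) ℤ))`, `a_m`, `x_l`, `y_i` the variables.  `U4 → L1` as in `RelU.lean` (`IsFractionRing.lift`, `IsAlgClosed.lift`).  `R` = the image of the polynomial ring, `χ : R → K`, `a_m ↦ coeff m f`, `x_l ↦ l`, `y_i ↦ v i`; `SD.lang_exists`.  Surjective since `x_l ↦ l`.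
`AlgebraicIndependent U4 y`: the `y_i` are algebraically independent over the image of `ℤ[a]`, so over its fraction field, so over its algebraic closure (`AlgebraicIndependent` over an algebraic extension of the scalars: see `Mathlib/RingTheory/AlgebraicIndependent/AlgebraicClosure.lean`, `AlgebraicIndependent.extendScalars`-like, `AlgebraicIndependent.sumElim_iff`). -/

namespace H8.QS

open H68.BB Polynomial

/-- the polynomial ring in the coefficients, in elements of `K` and in more variables -/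
private abbrev R0 (K I : Type) : Type := MvPolynomial (Mo4 ⊕ (K ⊕ I)) ℤ

/-- the big field -/
private abbrev L0 (K I : Type) : Type := AlgebraicClosure (FractionRing (R0 K I))

private noncomputable def toL (K I : Type) : R0 K I →+* L0 K I := algebraMap (R0 K I) (L0 K I)

private theorem toL_inj (K I : Type) : Function.Injective (toL K I) := by
  have h : toL K I = (algebraMap (FractionRing (R0 K I)) (L0 K I)).comp (algebraMap (R0 K I) (FractionRing (R0 K I))) :=
    IsScalarTower.algebraMap_eq _ _ _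
  rw [h]
  exact (algebraMap (FractionRing (R0 K I)) (L0 K I)).injective.comp (IsFractionRing.injective (R0 K I) (FractionRing (R0 K I)))

private theorem uhom_exists (K I : Type) : ∃ g : U4 →+* L0 K I, ∀ p : MvPolynomial Mo4 ℤ,
    g (toU p) = toL K I (MvPolynomial.rename Sum.inl p) := by
  let g0 : MvPolynomial Mo4 ℤ →+* L0 K I :=
    (toL K I).comp (MvPolynomial.rename (R := ℤ) (Sum.inl : Mo4 → Mo4 ⊕ (K ⊕ I))).toRingHom
  have hg0 : Function.Injective g0 := (toL_inj K I).comp (MvPolynomial.rename_injective _ Sum.inl_injective)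
  let g1 : FractionRing (MvPolynomial Mo4 ℤ) →+* L0 K I := IsFractionRing.lift hg0
  let _ : Algebra (FractionRing (MvPolynomial Mo4 ℤ)) (L0 K I) := g1.toAlgebra
  let g2 : U4 →ₐ[FractionRing (MvPolynomial Mo4 ℤ)] L0 K I := IsAlgClosed.lift
  refine ⟨g2.toRingHom, fun p => ?_⟩
  have h1 : toU p = algebraMap (FractionRing (MvPolynomial Mo4 ℤ)) U4 (algebraMap (MvPolynomial Mo4 ℤ) _ p) := by
    unfold toU
    rw [IsScalarTower.algebraMap_apply (MvPolynomial Mo4 ℤ) (FractionRing (MvPolynomial Mo4 ℤ)) U4]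
  rw [h1]
  have h2 : g2.toRingHom (algebraMap (FractionRing (MvPolynomial Mo4 ℤ)) U4 (algebraMap (MvPolynomial Mo4 ℤ) _ p)) =
      g1 (algebraMap (MvPolynomial Mo4 ℤ) _ p) := g2.commutes _
  rw [h2]
  have h3 : g1 (algebraMap (MvPolynomial Mo4 ℤ) _ p) = g0 p := IsFractionRing.lift_algebraMap hg0 p
  rw [h3]
  rfl

private theorem alg_u : Algebra.IsAlgebraic (MvPolynomial Mo4 ℤ) U4 := by
  have h1 : Algebra.IsAlgebraic (MvPolynomial Mo4 ℤ) (FractionRing (MvPolynomial Mo4 ℤ)) :=
    IsLocalization.isAlgebraic _ (nonZeroDivisors (MvPolynomial Mo4 ℤ))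
  exact Algebra.IsAlgebraic.trans (MvPolynomial Mo4 ℤ) (FractionRing (MvPolynomial Mo4 ℤ)) U4

private theorem ind_g {A : Type} [Field A] (K I : Type) (t : R0 K I →+* A) (ht : Function.Injective t)
    (g0 : MvPolynomial Mo4 ℤ →+* A) (hg0 : ∀ p : MvPolynomial Mo4 ℤ, g0 p = t (MvPolynomial.rename Sum.inl p)) :
    @AlgebraicIndependent I (MvPolynomial Mo4 ℤ) A (fun i => t (MvPolynomial.X (Sum.inr (Sum.inr i)))) _ _ g0.toAlgebra := by
  classical
  let _ : Algebra (MvPolynomial Mo4 ℤ) A := g0.toAlgebra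
  have hal : ∀ p, algebraMap (MvPolynomial Mo4 ℤ) A p = g0 p := fun p => rfl
  rw [algebraicIndependent_iff_injective_aeval]
  let em : I ⊕ Mo4 → Mo4 ⊕ (K ⊕ I) := Sum.elim (fun i => Sum.inr (Sum.inr i)) Sum.inl
  have hem : Function.Injective em := by
    rintro (i | m) (i' | m') h
    · have h1 : (Sum.inr (Sum.inr i) : Mo4 ⊕ (K ⊕ I)) = Sum.inr (Sum.inr i') := h
      rw [Sum.inr_injective (Sum.inr_injective h1)]
    · exact absurd (show (Sum.inr (Sum.inr i) : Mo4 ⊕ (K ⊕ I)) = Sum.inl m' from h) (by simp)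
    · exact absurd (show (Sum.inl m : Mo4 ⊕ (K ⊕ I)) = Sum.inr (Sum.inr i') from h) (by simp)
    · have h1 : (Sum.inl m : Mo4 ⊕ (K ⊕ I)) = Sum.inl m' := h
      rw [Sum.inl_injective h1]
  have key : ∀ p : MvPolynomial (I ⊕ Mo4) ℤ,
      MvPolynomial.aeval (fun i => t (MvPolynomial.X (Sum.inr (Sum.inr i)))) (MvPolynomial.sumAlgEquiv ℤ I Mo4 p) =
        t (MvPolynomial.rename em p) := by
    intro p
    have e : ((MvPolynomial.aeval (R := MvPolynomial Mo4 ℤ)
        (fun i => t (MvPolynomial.X (Sum.inr (Sum.inr i))))).toRingHom.comp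
        (MvPolynomial.sumAlgEquiv ℤ I Mo4).toAlgHom.toRingHom) =
        t.comp (MvPolynomial.rename (R := ℤ) em).toRingHom := by
      apply MvPolynomial.ringHom_ext
      · intro z
        simp
      · rintro (i | m)
        · simp [em]
        · simp [em, hal, hg0]
    exact DFunLike.congr_fun e p
  intro a b hab
  obtain ⟨p, rfl⟩ := (MvPolynomial.sumAlgEquiv ℤ I Mo4).surjective a
  obtain ⟨q, rfl⟩ := (MvPolynomial.sumAlgEquiv ℤ I Mo4).surjective b
  rw [key, key] at hab
  rw [MvPolynomial.rename_injective _ hem (ht hab)]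

private theorem ind_e {A : Type} [Field A] (I : Type) (y : I → A) (g : U4 →+* A)
    (h0 : @AlgebraicIndependent I (MvPolynomial Mo4 ℤ) A y _ _ (g.comp toU).toAlgebra) :
    @AlgebraicIndependent I U4 A y _ _ g.toAlgebra := by
  let _ : Algebra U4 A := g.toAlgebra
  let _ : Algebra (MvPolynomial Mo4 ℤ) A := (g.comp toU).toAlgebra
  have h1 : IsScalarTower (MvPolynomial Mo4 ℤ) U4 A := IsScalarTower.of_algebraMap_eq (fun p => rfl)
  have h2 := alg_u
  exact AlgebraicIndependent.extendScalars (R := MvPolynomial Mo4 ℤ) U4 h0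

theorem rel_q (K : Type) [Field K] [IsAlgClosed K] (c : Mo4 → K) (I : Type) (v : I → K) :
    ∃ (L1 : Type) (_ : Field L1) (_ : IsAlgClosed L1) (_ : CharZero L1) (_ : Algebra U4 L1) (V : ValuationSubring L1) (φ : V →+* K)
      (y : I → L1), IsLocalHom φ ∧ Function.Surjective φ ∧
      (∀ m : Mo4, Rd V φ (algebraMap U4 L1 (toU (MvPolynomial.X m))) (c m)) ∧ (∀ i, Rd V φ (y i) (v i)) ∧
      AlgebraicIndependent U4 y := by
  classical
  obtain ⟨g, hg⟩ := uhom_exists K I
  have hcz : CharZero (L0 K I) := by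
    have h1 : Function.Injective (algebraMap (R0 K I) (L0 K I)) := toL_inj K I
    exact charZero_of_injective_algebraMap h1
  let E : R0 K I ≃+* (toL K I).range := RingEquiv.ofBijective (toL K I).rangeRestrict
    ⟨fun x y h => toL_inj K I (congrArg Subtype.val h), (toL K I).rangeRestrict_surjective⟩
  let ev : R0 K I →+* K := MvPolynomial.eval₂Hom (Int.castRingHom K) (Sum.elim c (Sum.elim id v))
  obtain ⟨V, φ, hloc, hR⟩ := SD.lang_exists (toL K I).range (ev.comp E.symm.toRingHom)
  have hp : ∀ p : R0 K I, Rd V φ (toL K I p) (ev p) := by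
    intro p
    have h1 := hR (E p)
    have h2 : (ev.comp E.symm.toRingHom) (E p) = ev p := by
      show ev (E.symm (E p)) = ev p
      rw [E.symm_apply_apply]
    rw [h2] at h1
    exact h1
  have hev : ∀ s, ev (MvPolynomial.X s) = Sum.elim c (Sum.elim id v) s := by
    intro s
    show MvPolynomial.eval₂Hom (Int.castRingHom K) _ (MvPolynomial.X s) = _
    rw [MvPolynomial.eval₂Hom_X']
  refine ⟨L0 K I, inferInstance, inferInstance, hcz, g.toAlgebra, V, φ,
    fun i => toL K I (MvPolynomial.X (Sum.inr (Sum.inr i))), hloc, ?_, ?_, ?_, ?_⟩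
  · intro l
    obtain ⟨h1, h2⟩ := hp (MvPolynomial.X (Sum.inr (Sum.inl l)))
    refine ⟨⟨_, h1⟩, h2.trans ?_⟩
    rw [hev]
    rfl
  · intro m
    show Rd V φ (g (toU (MvPolynomial.X m))) (c m)
    rw [hg]
    have h1 := hp (MvPolynomial.X (Sum.inl m))
    rw [hev] at h1
    have h3 : MvPolynomial.rename (Sum.inl : Mo4 → Mo4 ⊕ (K ⊕ I)) (MvPolynomial.X m : MvPolynomial Mo4 ℤ) =
        MvPolynomial.X (Sum.inl m) := MvPolynomial.rename_X _ _
    rw [h3]
    exact h1
  · intro i
    have h1 := hp (MvPolynomial.X (Sum.inr (Sum.inr i)))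
    rw [hev] at h1
    exact h1
  · exact ind_e I _ g (ind_g K I (toL K I) (toL_inj K I) (g.comp toU) hg)

end H8.QS
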