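import Pool.Agent.H8.QS.SecF

/-! # QS.Sec : all line sections of `X` are equivalent (about 80 lines, given `QS.SecF`, `QS.SecP`)

`f ≠ 0` and `K` is infinite: there is a vector `v` with `f(v) ≠ 0` (`MvPolynomial.funext` over `K`: `ev f v = aeval v f = eval v (map f)`), and a line through it (a vector independent of `v`: `v ≠ 0` because `f` is homogeneous of degree 4; take a unit vector).  `sec_fam` from this line to `(g, h)` and to `(g', h')`, `sec_perm` on all three lines. -/

namespace H8.QS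

open H68.BB H77.AF Polynomial

variable {K0 : Type} [Field K0] {f : MvPolynomial (Fin 4) K0} {K : Type} [Field K] [Algebra K0 K]

private theorem sec_aux_ex [IsAlgClosed K] (h0 : f ≠ 0) : ∃ v : Fin 4 → K, ev f v ≠ 0 := by
  by_contra hcon
  push Not at hcon
  have : Infinite K := IsAlgClosed.instInfinite
  have h1 : MvPolynomial.map (algebraMap K0 K) f = 0 := by
    apply MvPolynomial.funext
    intro v
    rw [map_zero, MvPolynomial.eval_map]
    have h2 := hcon v
    unfold ev at h2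
    rw [MvPolynomial.aeval_def] at h2
    exact h2
  exact h0 ((MvPolynomial.map_injective (algebraMap K0 K) (algebraMap K0 K).injective)
    (by rw [h1, map_zero]))

private theorem sec_aux_zero (hf : f.IsHomogeneous 4) : ev f (0 : Fin 4 → K) = 0 := by
  unfold ev
  rw [MvPolynomial.aeval_zero, MvPolynomial.constantCoeff_eq]
  have h1 : MvPolynomial.coeff 0 f = 0 := by
    apply hf.coeff_eq_zero
    simp
  rw [h1, map_zero]

theorem sec_rel [IsAlgClosed K] (hf : f.IsHomogeneous 4) (h0 : f ≠ 0) {g h g' h' : Fin 4 → K} {c c' : Fin 4 → XQ f K}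
    (hc : Sec f g h c) (hc' : Sec f g' h' c') : ∑ i, pt (c i) - ∑ i, pt (c' i) ∈ RatEq (xqd K f) 1 := by
  obtain ⟨v, hv⟩ := sec_aux_ex (K := K) h0
  have hv0 : v ≠ 0 := by
    rintro rfl
    exact hv (sec_aux_zero hf)
  obtain ⟨w, hw⟩ := exists_linearIndependent_pair_of_one_lt_finrank (R := K) (M := Fin 4 → K)
    (by simp) hv0
  have hne : ∃ x y : K, ev f (lc x y v w) ≠ 0 := by
    refine ⟨1, 0, ?_⟩
    have h2 : lc (1 : K) 0 v w = v := by
      funext i
      simp [lc]
    rw [h2]
    exact hv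
  obtain ⟨c1, c2, h1, h2, h3⟩ := sec_fam hf hw hc.1 hne
  obtain ⟨c3, c4, h4, h5, h6⟩ := sec_fam hf hw hc'.1 hne
  have e1 := sec_perm hf hc h2
  have e2 := sec_perm hf h1 h4
  have e3 := sec_perm hf h5 hc'
  have e : ∑ i, pt (c i) - ∑ i, pt (c' i) =
      (∑ i, pt (c i) - ∑ i, pt (c2 i)) - (∑ i, pt (c1 i) - ∑ i, pt (c2 i)) +
      (∑ i, pt (c1 i) - ∑ i, pt (c3 i)) + (∑ i, pt (c3 i) - ∑ i, pt (c4 i)) +
      (∑ i, pt (c4 i) - ∑ i, pt (c' i)) := by abel
  rw [e]
  exact add_mem (add_mem (add_mem (sub_mem e1 h3) e2) h6) e3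

end H8.QS
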