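import Pool.Agent.H8.QS.SecP
import Pool.Agent.H8.QS.Rdx

/-! # QS.SecF : the family of line sections which joins two lines (about 250 lines, given `QS.SecP`, `QS.Fac`, `QS.Rdx`)

Over `Om K`, `t = tt K`: `G = (1 - t) g + t g'`, `H = (1 - t) h + t h'` (`g`, ... as constants).  `q j = qc f G H j`; `fac_ex` over `Om K`: `f(x G + y H) = κ ∏ (x β_i - y α_i)` (`ev_lc`), normalised.
`κ ≠ 0`: at a place `π` with `tt ↦ 0` (`H68.BB.place_exists K 0`), `G`, `H` reduce to `g`, `h`, and `f(x G + y H)` reduces to `f(x g + y h) ≠ 0` for the given constants `x`, `y` (`rd_ev`).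
LEMMA (fibre): at a place `π` where `G`, `H` reduce to independent `g0`, `h0`: `sc_ex` for the pairs `(α_i, β_i)`: `c_i (α_i, β_i)` reduces to `(a_i, b_i) ≠ 0`.  `f(x G + y H) = κ'' ∏ (x c_i β_i - y c_i α_i)`, `κ'' = κ / ∏ c_i`.  `κ'' ∈ V`: otherwise `κ''⁻¹` reduces to `0` (`Rd.inv_zero`) and the product `∏ (x b_i - y a_i)` is zero for all constants `x`, `y` (`K`
infinite: there is a point which is not a zero of four nonzero linear forms: contradiction).  So `f(x g0 + y h0) = κ0 ∏ (x b_i - y a_i)`: the points `a_i g0 + b_i h0` (nonzero by independence; on `X`: put `x = a_i`, `y = b_i`) form a section `Sec f g0 h0 _`, and `C_i = α_i G + β_i H` specialises to them (scalar `c_i`).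
The points `C_i` are not zero (the reduction of `c_i C_i` at `tt ↦ 0` is not zero) and on `X` (`x = α_i`, `y = β_i`): `C i : XQ f (Om K)`.  The multiset of the one-tuples `C i` is stable: for an automorphism `σ`: `σ G = G`, `σ H = H`, `σ (q j) = q j` (`qc_map`), so `κ ∏ (x β_i - y α_i) = σ κ ∏ (x σ β_i - y σ α_i)` for all `x`, `y` in `Om K` (apply `σ` to the
identity at `σ⁻¹ x`, `σ⁻¹ y`), `fac_uniq`: a permutation and scalars, the scalars are `1` by the normalisation.  So `Multiset.map` of `Finset.univ.val` by `i ↦ σ (C i) = C (τ i)` is the same multiset (`Finset.univ.map τ`).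
Fibres at `tt ↦ 0` and `tt ↦ 1`. -/

namespace H8.QS

open H68.BB H77.AF Polynomial

variable {K0 : Type} [Field K0] {f : MvPolynomial (Fin 4) K0} {K : Type} [Field K] [Algebra K0 K]

private theorem sf_cst [IsAlgClosed K] (π : Place K (Om K)) : Cst K0 π.V π.φ := by
  intro c
  rw [IsScalarTower.algebraMap_apply K0 K (Om K)]
  exact π.const (algebraMap K0 K c)

private theorem sf_lc {F κ : Type} [Field F] [Field κ] {V : ValuationSubring F} {φ : V →+* κ} {x y : F} {x0 y0 : κ}
    {G H : Fin 4 → F} {g h : Fin 4 → κ} (hx : Rd V φ x x0) (hy : Rd V φ y y0) (hG : ∀ i, Rd V φ (G i) (g i))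
    (hH : ∀ i, Rd V φ (H i) (h i)) (i : Fin 4) : Rd V φ (lc x y G H i) (lc x0 y0 g h i) :=
  (hx.mul (hG i)).add (hy.mul (hH i))

private theorem sf_prod {F κ : Type} [Field F] [Field κ] {V : ValuationSubring F} {φ : V →+* κ} {n : ℕ} {u : Fin n → F}
    {u0 : Fin n → κ} (h : ∀ i, Rd V φ (u i) (u0 i)) : Rd V φ (∏ i, u i) (∏ i, u0 i) := by
  classical
  have key : ∀ s : Finset (Fin n), Rd V φ (∏ i ∈ s, u i) (∏ i ∈ s, u0 i) := by
    intro s
    induction s using Finset.induction_on with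
    | empty => exact Rd.one
    | insert a s ha ih =>
      rw [Finset.prod_insert ha, Finset.prod_insert ha]
      exact (h a).mul ih
  exact key Finset.univ

private theorem sf_pt {K : Type} [Field K] [Infinite K] {a b : Fin 4 → K} (h : ∀ i, a i ≠ 0 ∨ b i ≠ 0) :
    ∃ x y : K, ∏ i, (x * b i - y * a i) ≠ 0 := by
  by_contra hcon
  push Not at hcon
  have h1 : (∏ i, (C (b i) * X - C (a i)) : K[X]) = 0 := by
    refine Polynomial.funext fun x => ?_
    rw [Polynomial.eval_prod, Polynomial.eval_zero, ← hcon x 1]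
    refine Finset.prod_congr rfl fun i _ => ?_
    rw [eval_sub, eval_mul, eval_C, eval_X, eval_C]
    ring
  obtain ⟨i, -, hi⟩ := Finset.prod_eq_zero_iff.1 h1
  have hb : b i = 0 := by
    have h2 := congrArg (fun q : K[X] => q.coeff 1) hi
    simpa using h2
  have ha : a i = 0 := by
    have h2 := congrArg (fun q : K[X] => q.coeff 0) hi
    simpa using h2
  exact (h i).elim (fun h => h ha) (fun h => h hb)

private theorem sf_ne {F : Type} [Field F] {g h : Fin 4 → F} (hi : LinearIndependent F ![g, h]) {a b : F}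
    (hab : a ≠ 0 ∨ b ≠ 0) : lc a b g h ≠ 0 := by
  intro h0
  rw [LinearIndependent.pair_iff] at hi
  have h1 : a • g + b • h = 0 := by
    funext j
    exact congrFun h0 j
  obtain ⟨h2, h3⟩ := hi a b h1
  exact hab.elim (fun h => h h2) (fun h => h h3)

/-- the fibre of the family of sections at a place -/
private theorem sf_fib [IsAlgClosed K] {G H : Fin 4 → Om K} {κ : Om K} {α β : Fin 4 → Om K} (hκ : κ ≠ 0)
    (hn : ∀ i, α i ≠ 0 ∨ β i ≠ 0) (hfac : ∀ x y : Om K, ev f (lc x y G H) = κ * ∏ i, (x * β i - y * α i))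
    (π : Place K (Om K)) {g h : Fin 4 → K} (hG : ∀ i, Rd π.V π.φ (G i) (g i)) (hH : ∀ i, Rd π.V π.φ (H i) (h i)) :
    ∃ (c : Fin 4 → Om K) (a b : Fin 4 → K) (κ0 : K), (∀ i, c i ≠ 0) ∧ (∀ i, a i ≠ 0 ∨ b i ≠ 0) ∧
      (∀ i, Rd π.V π.φ (c i * α i) (a i)) ∧ (∀ i, Rd π.V π.φ (c i * β i) (b i)) ∧
      ∀ x y : K, ev f (lc x y g h) = κ0 * ∏ i, (x * b i - y * a i) := by
  have : IsLocalHom π.φ := π.isLocal
  have : Infinite K := IsAlgClosed.instInfinite
  have h1 : ∀ i, ∃ (c : Om K) (a b : K), c ≠ 0 ∧ (a ≠ 0 ∨ b ≠ 0) ∧ Rd π.V π.φ (c * α i) a ∧ Rd π.V π.φ (c * β i) b := by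
    intro i
    have hv : (![α i, β i] : Fin 2 → Om K) ≠ 0 := by
      intro h0
      have e0 : α i = 0 := congrFun h0 0
      have e1 : β i = 0 := congrFun h0 1
      exact (hn i).elim (fun h => h e0) (fun h => h e1)
    obtain ⟨c, v0, hc, hv0, hr⟩ := sc_ex (κ := K) π.V π.φ hv
    refine ⟨c, v0 0, v0 1, hc, ?_, hr 0, hr 1⟩
    by_contra hcon
    push Not at hcon
    apply hv0
    funext j
    fin_cases j
    · exact hcon.1
    · exact hcon.2
  choose c a b hc hab ha hb using h1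
  have hP : ∏ i, c i ≠ 0 := Finset.prod_ne_zero_iff.2 fun i _ => hc i
  obtain ⟨κ2, hκ2⟩ : ∃ κ2 : Om K, κ2 = κ / ∏ i, c i := ⟨_, rfl⟩
  have hκ20 : κ2 ≠ 0 := by
    rw [hκ2]
    exact div_ne_zero hκ hP
  have hfac2 : ∀ x y : Om K, ev f (lc x y G H) = κ2 * ∏ i, (x * (c i * β i) - y * (c i * α i)) := by
    intro x y
    have e1 : ∏ i, (x * (c i * β i) - y * (c i * α i)) = (∏ i, c i) * ∏ i, (x * β i - y * α i) := by
      rw [← Finset.prod_mul_distrib]
      exact Finset.prod_congr rfl fun i _ => by ring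
    rw [hfac, e1, ← mul_assoc, hκ2, div_mul_cancel₀ _ hP]
  have hred : ∀ x y : K, Rd π.V π.φ (ev f (lc (algebraMap K (Om K) x) (algebraMap K (Om K) y) G H))
      (ev f (lc x y g h)) := fun x y =>
    rd_ev (sf_cst π) (sf_lc (π.const x) (π.const y) hG hH)
  have hredp : ∀ x y : K, Rd π.V π.φ
      (∏ i, (algebraMap K (Om K) x * (c i * β i) - algebraMap K (Om K) y * (c i * α i)))
      (∏ i, (x * b i - y * a i)) := fun x y => by
    have hx : Rd π.V π.φ (algebraMap K (Om K) x) x := π.const x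
    have hy : Rd π.V π.φ (algebraMap K (Om K) y) y := π.const y
    exact sf_prod fun i => (hx.mul (hb i)).sub (hy.mul (ha i))
  have hmem : κ2 ∈ π.V := by
    by_contra hcon
    have h2 := Rd.inv_zero (φ := π.φ) hcon
    obtain ⟨x, y, hxy⟩ := sf_pt hab
    apply hxy
    have h3 := h2.mul (hred x y)
    rw [hfac2, ← mul_assoc, inv_mul_cancel₀ hκ20, one_mul, zero_mul] at h3
    exact (hredp x y).unique h3
  refine ⟨c, a, b, π.φ ⟨κ2, hmem⟩, hc, hab, ha, hb, fun x y => ?_⟩
  have h3 := (Rd.of_mem (φ := π.φ) hmem).mul (hredp x y)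
  rw [← hfac2] at h3
  exact (hred x y).unique h3

private theorem sf_cyc {D : PD K} (c : Fin 4 → D.X) :
    cyc (D := D) (Finset.univ.val.map fun (i : Fin 4) (_ : Fin 1) => c i) =
      ∑ i, (Finsupp.single (fun _ => c i) 1 : H77.AF.Cyc D 1) := by
  unfold cyc
  rw [Multiset.map_map]
  rfl

/-- a family of four points over the line, permuted by the automorphisms -/
private theorem sf_fam {D : PD K} {P : Fin 4 → D.Y} {Q Q' : Fin 4 → D.X} {π π' : Place K (Om K)}
    (hσ : ∀ σ, ∃ τ : Equiv.Perm (Fin 4), ∀ i, D.act σ (P i) = P (τ i)) (h : ∀ i, D.sp π (P i) (Q i))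
    (h' : ∀ i, D.sp π' (P i) (Q' i)) :
    (∑ i, (Finsupp.single (fun _ => Q i) 1 : H77.AF.Cyc D 1)) - ∑ i, (Finsupp.single (fun _ => Q' i) 1 : H77.AF.Cyc D 1) ∈
      H77.AF.RatEq D 1 := by
  rw [← sf_cyc Q, ← sf_cyc Q']
  refine AddSubgroup.subset_closure ⟨Finset.univ.val.map fun (i : Fin 4) (_ : Fin 1) => P i, π, π', _, _, ?_, ?_, ?_, rfl⟩
  · intro σ
    obtain ⟨τ, hτ⟩ := hσ σ
    have e3 : (Finset.univ.val.map fun (i : Fin 4) (_ : Fin 1) => P i).map (fun R i => D.act σ (R i)) =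
        (Finset.univ.val.map τ).map fun (i : Fin 4) (_ : Fin 1) => P i := by
      rw [Multiset.map_map, Multiset.map_map]
      refine Multiset.map_congr rfl fun i _ => ?_
      funext _
      exact hτ i
    rw [e3, Multiset.map_univ_val_equiv τ]
  · refine ⟨_, 0, (add_zero _).symm, ?_, fun R hR => absurd hR (Multiset.notMem_zero R)⟩
    rw [Multiset.rel_map]
    exact Multiset.rel_refl_of_refl_on fun i _ _ => h i
  · refine ⟨_, 0, (add_zero _).symm, ?_, fun R hR => absurd hR (Multiset.notMem_zero R)⟩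
    rw [Multiset.rel_map]
    exact Multiset.rel_refl_of_refl_on fun i _ _ => h' i

theorem sec_fam [IsAlgClosed K] (hf : f.IsHomogeneous 4) {g h g' h' : Fin 4 → K} (hi : LinearIndependent K ![g, h])
    (hi' : LinearIndependent K ![g', h']) (hne : ∃ x y : K, ev f (lc x y g h) ≠ 0) :
    ∃ c c' : Fin 4 → XQ f K, Sec f g h c ∧ Sec f g' h' c' ∧ ∑ i, pt (c i) - ∑ i, pt (c' i) ∈ RatEq (xqd K f) 1 := by
  classical
  have : Infinite K := IsAlgClosed.instInfinite
  have : Infinite (Om K) := IsAlgClosed.instInfinite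
  obtain ⟨t, ht⟩ : ∃ t : Om K, t = tt K := ⟨_, rfl⟩
  obtain ⟨G, hGd⟩ : ∃ G : Fin 4 → Om K, G = fun i => (1 - t) * algebraMap K (Om K) (g i) + t * algebraMap K (Om K) (g' i) :=
    ⟨_, rfl⟩
  obtain ⟨H, hHd⟩ : ∃ H : Fin 4 → Om K, H = fun i => (1 - t) * algebraMap K (Om K) (h i) + t * algebraMap K (Om K) (h' i) :=
    ⟨_, rfl⟩
  obtain ⟨π, hπ⟩ := H68.BB.place_exists K (0 : K)
  obtain ⟨π', hπ'⟩ := H68.BB.place_exists K (1 : K)
  have hr : Rd π.V π.φ t 0 := by rw [ht]; exact hπ
  have hr' : Rd π'.V π'.φ t 1 := by rw [ht]; exact hπ'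
  have hc1 : ∀ (ρ : Place K (Om K)) (z : K), Rd ρ.V ρ.φ (algebraMap K (Om K) z) z := fun ρ z => ρ.const z
  have hG0 : ∀ i, Rd π.V π.φ (G i) (g i) := fun i => by
    have e := ((Rd.one.sub hr).mul (hc1 π (g i))).add (hr.mul (hc1 π (g' i)))
    rw [hGd]
    convert e using 1
    ring
  have hH0 : ∀ i, Rd π.V π.φ (H i) (h i) := fun i => by
    have e := ((Rd.one.sub hr).mul (hc1 π (h i))).add (hr.mul (hc1 π (h' i)))
    rw [hHd]
    convert e using 1
    ring
  have hG1 : ∀ i, Rd π'.V π'.φ (G i) (g' i) := fun i => by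
    have e := ((Rd.one.sub hr').mul (hc1 π' (g i))).add (hr'.mul (hc1 π' (g' i)))
    rw [hGd]
    convert e using 1
    ring
  have hH1 : ∀ i, Rd π'.V π'.φ (H i) (h' i) := fun i => by
    have e := ((Rd.one.sub hr').mul (hc1 π' (h i))).add (hr'.mul (hc1 π' (h' i)))
    rw [hHd]
    convert e using 1
    ring
  obtain ⟨κ, α, β, hnorm, hfac0⟩ := fac_ex (fun j : Fin 5 => qc f G H j)
  have hfac : ∀ x y : Om K, ev f (lc x y G H) = κ * ∏ i, (x * β i - y * α i) := fun x y => by
    rw [← hfac0 x y, ev_lc hf]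
    rfl
  have hn : ∀ i, α i ≠ 0 ∨ β i ≠ 0 := fun i => by
    rcases hnorm i with h1 | ⟨h1, -⟩
    · exact Or.inr (by rw [h1]; exact one_ne_zero)
    · exact Or.inl (by rw [h1]; exact one_ne_zero)
  have hκ : κ ≠ 0 := by
    obtain ⟨x, y, hxy⟩ := hne
    rintro rfl
    apply hxy
    have e := rd_ev (f := f) (sf_cst π) (sf_lc (π.const x) (π.const y) hG0 hH0)
    rw [hfac, zero_mul] at e
    exact e.unique Rd.zero
  obtain ⟨c, a, b, κ0, hc, hab, ha, hb, hfib⟩ := sf_fib hκ hn hfac π hG0 hH0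
  obtain ⟨c', a', b', κ0', hc', hab', ha', hb', hfib'⟩ := sf_fib hκ hn hfac π' hG1 hH1
  have hsp : ∀ i j, Rd π.V π.φ (c i * lc (α i) (β i) G H j) (lc (a i) (b i) g h j) := fun i j => by
    have e : Rd π.V π.φ _ (lc (a i) (b i) g h j) := ((ha i).mul (hG0 j)).add ((hb i).mul (hH0 j))
    convert e using 1
    unfold lc
    ring
  have hsp' : ∀ i j, Rd π'.V π'.φ (c' i * lc (α i) (β i) G H j) (lc (a' i) (b' i) g' h' j) := fun i j => by
    have e : Rd π'.V π'.φ _ (lc (a' i) (b' i) g' h' j) := ((ha' i).mul (hG1 j)).add ((hb' i).mul (hH1 j))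
    convert e using 1
    unfold lc
    ring
  let P : Fin 4 → XQ f (Om K) := fun i =>
    { p := lc (α i) (β i) G H
      ne := fun h0 => sf_ne hi (hab i) (by
        funext j
        have e := hsp i j
        rw [h0, Pi.zero_apply, mul_zero] at e
        exact e.unique Rd.zero)
      eq := by
        rw [hfac, Finset.prod_eq_zero (Finset.mem_univ i) (by ring), mul_zero] }
  let Q : Fin 4 → XQ f K := fun i =>
    { p := lc (a i) (b i) g h
      ne := sf_ne hi (hab i)
      eq := by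
        rw [hfib, Finset.prod_eq_zero (Finset.mem_univ i) (by ring), mul_zero] }
  let Q' : Fin 4 → XQ f K := fun i =>
    { p := lc (a' i) (b' i) g' h'
      ne := sf_ne hi' (hab' i)
      eq := by
        rw [hfib', Finset.prod_eq_zero (Finset.mem_univ i) (by ring), mul_zero] }
  refine ⟨Q, Q', ⟨hi, a, b, κ0, hab, fun i => rfl, hfib⟩, ⟨hi', a', b', κ0', hab', fun i => rfl, hfib'⟩, ?_⟩
  refine sf_fam (D := xqd K f) (P := P) (Q := Q) (Q' := Q') (π := π) (π' := π') ?_ (fun i => ⟨c i, hc i, hsp i⟩)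
    (fun i => ⟨c' i, hc' i, hsp' i⟩)
  · intro σ
    have hσc : ∀ z : K, σ (algebraMap K (Om K) z) = algebraMap K (Om K) z := fun z => by
      rw [IsScalarTower.algebraMap_apply K (RatFunc K) (Om K), AlgEquiv.commutes]
    have hσt : σ t = t := by
      rw [ht]
      exact σ.commutes _
    have hσG : ∀ i, σ (G i) = G i := fun i => by
      rw [hGd]
      change σ ((1 - t) * algebraMap K (Om K) (g i) + t * algebraMap K (Om K) (g' i)) = _
      rw [map_add, map_mul, map_mul, map_sub, map_one, hσt, hσc, hσc]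
    have hσH : ∀ i, σ (H i) = H i := fun i => by
      rw [hHd]
      change σ ((1 - t) * algebraMap K (Om K) (h i) + t * algebraMap K (Om K) (h' i)) = _
      rw [map_add, map_mul, map_mul, map_sub, map_one, hσt, hσc, hσc]
    have hσe : ∀ x y : Om K, κ * ∏ i, (x * β i - y * α i) = σ κ * ∏ i, (x * σ (β i) - y * σ (α i)) := by
      intro x y
      have e1 := ev_map (σ.toAlgHom.restrictScalars K0) f (lc (σ.symm x) (σ.symm y) G H)
      have e2 : (fun i => (σ.toAlgHom.restrictScalars K0) (lc (σ.symm x) (σ.symm y) G H i)) = lc x y G H := by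
        funext i
        change σ (σ.symm x * G i + σ.symm y * H i) = x * G i + y * H i
        rw [map_add, map_mul, map_mul, AlgEquiv.apply_symm_apply, AlgEquiv.apply_symm_apply, hσG, hσH]
      rw [e2, hfac, hfac] at e1
      rw [← e1]
      change σ (κ * ∏ i, (σ.symm x * β i - σ.symm y * α i)) = _
      rw [map_mul, map_prod]
      congr 1
      refine Finset.prod_congr rfl fun i _ => ?_
      rw [map_sub, map_mul, map_mul, AlgEquiv.apply_symm_apply, AlgEquiv.apply_symm_apply]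
    have hn' : ∀ i, σ (α i) ≠ 0 ∨ σ (β i) ≠ 0 := fun i => (hn i).imp
      (fun h0 h1 => h0 ((map_eq_zero_iff σ σ.injective).1 h1)) (fun h0 h1 => h0 ((map_eq_zero_iff σ σ.injective).1 h1))
    obtain ⟨τ, d, hd, hτ⟩ := fac_uniq hκ hn hn' hσe
    have hd1 : ∀ i, d i = 1 := fun i => by
      obtain ⟨e1, e2⟩ := hτ i
      rcases hnorm i with h1 | ⟨h1, h2⟩
      · rw [h1, map_one] at e2
        rcases hnorm (τ i) with h3 | ⟨-, h3⟩
        · rw [h3, mul_one] at e2
          exact e2.symm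
        · rw [h3, mul_zero] at e2
          exact absurd e2 one_ne_zero
      · rw [h1, map_one] at e1
        rw [h2, map_zero] at e2
        rcases hnorm (τ i) with h3 | ⟨h3, -⟩
        · rw [h3, mul_one] at e2
          exact absurd e2.symm (hd i)
        · rw [h3, mul_one] at e1
          exact e1.symm
    refine ⟨τ, fun i => ?_⟩
    refine XQ.ext ?_
    funext j
    change σ (α i * G j + β i * H j) = α (τ i) * G j + β (τ i) * H j
    rw [map_add, map_mul, map_mul, hσG, hσH, (hτ i).1, (hτ i).2, hd1, one_mul, one_mul]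

end H8.QS
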