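import Pool.Agent.H8.QS.GmS
import Pool.Agent.H8.QS.GmO
import Pool.Agent.H8.QS.GmU
import Pool.Agent.H8.QS.BaseE
import Pool.Agent.H8.QS.Cov
import Pool.Agent.H79.GM.Pair
import Pool.Agent.H77.UB.Iso

/-! # QS.T1 : antisymmetrised products of residual pairs (about 150 lines, given `QS.GmS`)

`base_ex`: `A`, `bd`; `a = algebraMap K0[X] A X` (`bd.i a = r.a` by `bd.gen` and `hX`), `b` with `bd.i b = r.b` (`bd.sqr`: `r.b² = 1 + r.a³`).  `CharZero Q`: `charZero_of_injective_algebraMap`.  `gb_ex`.  `H77.UB.halt a b`: `k0`.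
For `K`, `mul`, `R`, `S`: choose `φ i`, `l i`, `y i`; `P i : SP K0 A K a b` with `φ := (φ i).comp bd.i`.  `gp`, `gm` : choose by `gm_ex` for every point of the surface over `K`.  `H79.GM.trans_pair` for `D = surf K0 K A a b`, `D' = xqd K f`, `Γ = Gm bd r g`: the group axioms of `surf` (`SP.ext`, `rfl`), `xq_one`, `xq_mul`, `xq_fin`, `gm_ex`,
`gm_act`, `xq_prp`, `gm_sp`, `gm_off` (`le_tor`).  The image of `∑ sign σ • single (fun i => P (σ i)) 1` under `H25.DP.phi` is `∑ sign σ • pr2 gp gm (fun i => P (σ i))` (`phi_single`), `pr2_eq`: `mul (fun i => single (gp (P (σ i))) 1 - single (gm (P (σ i))) 1)`; `H77.PB.mul_con` with `gm_uniq` replaces `gp (P j)`, `gm (P j)` by `R j`, `S j`. -/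

namespace H8.QS

open H68.BB H77.AF Polynomial

private theorem t1_pr2 {K : Type} [Field K] {D' : PD K} {k : ℕ} {mul : MultilinearMap ℤ (fun _ : Fin k => Cyc1 D') (Cyc D' k)}
    (hm : IsPr mul) {X : Type} (gp gm : X → D'.X) (P : Fin k → X) :
    H25.DP.pr2 gp gm P = mul (fun i => Finsupp.single (gp (P i)) 1 - Finsupp.single (gm (P i)) 1) := by
  have h0 : (fun i => (Finsupp.single (gp (P i)) 1 - Finsupp.single (gm (P i)) 1 : Cyc1 D')) =
      (fun i => -(Finsupp.single (gm (P i)) 1 : Cyc1 D')) + fun i => (Finsupp.single (gp (P i)) 1 : Cyc1 D') := by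
    funext i
    rw [Pi.add_apply]
    abel
  rw [h0, MultilinearMap.map_add_univ]
  unfold H25.DP.pr2
  refine Finset.sum_congr rfl fun J _ => ?_
  have h1 : J.piecewise (fun i => -(Finsupp.single (gm (P i)) 1 : Cyc1 D')) (fun i => (Finsupp.single (gp (P i)) 1 : Cyc1 D')) =
      J.piecewise (fun i => (-1 : ℤ) • (Finsupp.single (if i ∈ J then gm (P i) else gp (P i)) 1 : Cyc1 D'))
        (fun i => (Finsupp.single (if i ∈ J then gm (P i) else gp (P i)) 1 : Cyc1 D')) := by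
    funext i
    by_cases hi : i ∈ J
    · rw [Finset.piecewise_eq_of_mem _ _ _ hi, Finset.piecewise_eq_of_mem _ _ _ hi, if_pos hi, neg_one_smul]
    · rw [Finset.piecewise_eq_of_notMem _ _ _ hi, Finset.piecewise_eq_of_notMem _ _ _ hi, if_neg hi]
  rw [h1, MultilinearMap.map_piecewise_smul, Finset.prod_const, hm]

private theorem t1_phi {K : Type} [Field K] {D D' : PD K} (gp gm : D.X → D'.X) {k : ℕ} (c : ℤ) (P : Fin k → D.X) :
    H25.DP.phi D gp gm k (c • (Finsupp.single P 1 : Cyc D k)) = c • H25.DP.pr2 gp gm P := by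
  rw [map_zsmul, H25.DP.phi_single, one_smul]

private theorem t1_core {K : Type} [Field K] {D D' : PD K} {k : ℕ}
    {mul : MultilinearMap ℤ (fun _ : Fin k => Cyc1 D') (Cyc D' k)} (hm : IsPr mul) (gp gm : D.X → D'.X)
    (P : Fin k → D.X) (R S : Fin k → D'.X)
    (hz : H25.DP.phi D gp gm k (∑ σ : Equiv.Perm (Fin k), (Equiv.Perm.sign σ : ℤ) •
      (Finsupp.single (fun i => P (σ i)) 1 : Cyc D k)) ∈ tor (RatEq D' k))
    (h : ∀ i, ((Finsupp.single (fun _ => R i) 1 - Finsupp.single (fun _ => S i) 1) -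
      (Finsupp.single (fun _ => gp (P i)) 1 - Finsupp.single (fun _ => gm (P i)) 1) : Cyc D' 1) ∈ RatEq D' 1) :
    ∑ σ : Equiv.Perm (Fin k), (Equiv.Perm.sign σ : ℤ) •
      mul (fun i => (Finsupp.single (R (σ i)) 1 - Finsupp.single (S (σ i)) 1 : Cyc1 D')) ∈ tor (RatEq D' k) := by
  rw [map_sum, Finset.sum_congr rfl fun σ _ => t1_phi gp gm _ _] at hz
  have hdiff : (∑ σ : Equiv.Perm (Fin k), (Equiv.Perm.sign σ : ℤ) •
      mul (fun i => (Finsupp.single (R (σ i)) 1 - Finsupp.single (S (σ i)) 1 : Cyc1 D'))) -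
      ∑ σ : Equiv.Perm (Fin k), (Equiv.Perm.sign σ : ℤ) •
        H25.DP.pr2 gp gm (fun i => P (σ i)) ∈ tor (RatEq D' k) := by
    rw [← Finset.sum_sub_distrib]
    refine AddSubgroup.sum_mem _ fun σ _ => ?_
    rw [t1_pr2 hm, ← smul_sub]
    refine AddSubgroup.zsmul_mem _ (H77.PB.mul_con hm _ _ fun i => le_tor _ ?_) _
    rw [map_sub, map_sub, map_sub]
    unfold up
    simp only [Finsupp.mapDomain.addMonoidHom_apply, Finsupp.mapDomain_single]
    exact h (σ i)
  have h3 := AddSubgroup.add_mem _ hdiff hz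
  rw [sub_add_cancel] at h3
  exact h3

private theorem t1_one {K0 K A : Type} [Field K0] [Field K] [Algebra K0 K] [CommRing A] [Algebra K0 A] {a b : A}
    (y : (surf K0 K A a b).Y) : (surf K0 K A a b).act 1 y = y := by
  refine SP.ext ?_ rfl rfl
  ext q
  rfl

private theorem t1_mul {K0 K A : Type} [Field K0] [Field K] [Algebra K0 K] [CommRing A] [Algebra K0 A] {a b : A}
    (σ τ : Om K ≃ₐ[RatFunc K] Om K) (y : (surf K0 K A a b).Y) :
    (surf K0 K A a b).act (σ * τ) y = (surf K0 K A a b).act σ ((surf K0 K A a b).act τ y) := by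
  refine SP.ext ?_ rfl rfl
  ext q
  rfl

theorem t1 {K0 Q : Type} [Field K0] [IsAlgClosed K0] [CharZero K0] [Field Q] [Algebra (RatFunc K0) Q]
    [FiniteDimensional (RatFunc K0) Q] [Algebra K0 Q] [IsScalarTower K0 (RatFunc K0) Q] {f : MvPolynomial (Fin 4) K0}
    (hf : f.IsHomogeneous 4) (r : Fr f Q) (hr : r.Nd) (hX : r.a = algebraMap (RatFunc K0) Q RatFunc.X) :
    ∃ k0 : ℕ, ∀ k, k0 ≤ k → ∀ (K : Type) [Field K] [IsAlgClosed K] [Algebra K0 K]
      (mul : MultilinearMap ℤ (fun _ : Fin k => Cyc1 (xqd K f)) (Cyc (xqd K f) k)), IsPr mul →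
      ∀ R S : Fin k → (xqd K f).X, (∀ i, Pr r (R i) (S i)) →
        ∑ σ : Equiv.Perm (Fin k), (Equiv.Perm.sign σ : ℤ) •
          mul (fun i => (Finsupp.single (R (σ i)) 1 - Finsupp.single (S (σ i)) 1 : Cyc1 (xqd K f))) ∈
          tor (RatEq (xqd K f) k) := by
  classical
  have hcQ : CharZero Q := charZero_of_injective_algebraMap (algebraMap K0 Q).injective
  obtain ⟨A, _, _, _, _, _, _, _, ⟨bd⟩⟩ := base_ex (K0 := K0) (Q := Q)
  obtain ⟨b, hb⟩ := bd.sqr r.b (1 + (algebraMap K0[X] A X) ^ 3) (by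
    rw [map_add, map_one, map_pow, bd.gen, ← hX]
    linear_combination r.disc)
  have ha : bd.i (algebraMap K0[X] A X) = r.a := by rw [bd.gen, hX]
  obtain ⟨g, hg⟩ := gb_ex hf bd r hr
  obtain ⟨k0, hk0⟩ := H77.UB.halt (K0 := K0) (A := A) (algebraMap K0[X] A X) b
  refine ⟨k0, fun k hk K _ _ _ mul hmul R S hRS => ?_⟩
  choose φ l y hy hR hS using hRS
  let P : Fin k → SP K0 A K (algebraMap K0[X] A X) b := fun i =>
    { φ := (φ i).comp bd.i
      x := l i
      y := y i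
      eq := by
        have h := hy i
        rw [← ha, ← hb] at h
        exact h }
  have hP : ∀ i, Gm bd r g (P i) (R i) (S i) := fun i => Or.inl ⟨φ i, fun _ => rfl, hR i, hS i⟩
  choose gp gm hgg using fun p : (surf K0 K A (algebraMap K0[X] A X) b).X => gm_ex hf hr hg ha hb p
  have hz := H79.GM.trans_pair (D := surf K0 K A (algebraMap K0[X] A X) b) (D' := xqd K f) t1_one t1_mul xq_one xq_mul
    xq_fin gp gm (fun y R S => Gm bd r g y R S) (fun y => gm_ex hf hr hg ha hb y)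
    (fun σ y R S h => gm_act σ y R S h) (fun π R => xq_prp hf π R)
    (fun π y R S p x x' h1 h2 h3 h4 => le_tor _ (gm_sp hf hr hg ha hb π h1 h2 (hgg p) h3 h4))
    (fun π y R S x x' h1 h2 h3 h4 => le_tor _ (gm_off hf hr hX hg ha hb π h1 h2 h3 h4)) (hk0 k hk K P)
  exact t1_core (D := surf K0 K A (algebraMap K0[X] A X) b) hmul gp gm P R S hz
    (fun i => gm_uniq hf hr hg ha hb (P i) (hP i) (hgg (P i)))

end H8.QS
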