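import Pool.Agent.H8.QS.T1
import Pool.Agent.H8.QS.Cov

/-! # QS.T2 : antisymmetrised products of zero-cycles of degree 0 supported on covered points (about 120 lines, given `QS.T1`, `QS.Cov`)

(1) `z` of degree 0 supported on covered points: `4 • z = ∑ z P • (4 • single P 1 - h0)`, so `4 • z = v + e` with `v` in the closure and `up e ∈ RatEq`.
(2) `M z = ∑ sign σ • mul (fun i => z (σ i))` as a multilinear map (`MultilinearMap.domDomCongr`, a sum of multilinear maps); `M (v) ∈ tor` by `H77.AF.multi_mem` and `t1`; `mul (fun i => 4 • z (σ i)) ≡ mul (fun i => v (σ i))` modulo `tor` (`H77.PB.mul_con`), `mul (fun i => 4 • z i) = 4 ^ k • mul z` (`MultilinearMap.map_smul_univ`), `tor_sat`. -/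

namespace H8.QS

open H68.BB H77.AF Polynomial

private theorem t2_step {K : Type} [Field K] {D : PD K} (S : Set (Cyc1 D)) (h : Cyc1 D) (z : Cyc1 D)
    (hz : (z.sum fun _ n => n) = 0)
    (hc : ∀ P ∈ z.support, ∃ v e : Cyc1 D, (4 : ℤ) • (Finsupp.single P 1 : Cyc1 D) - h = v + e ∧
      v ∈ AddSubgroup.closure S ∧ up e ∈ RatEq D 1) :
    ∃ v e : Cyc1 D, (4 : ℤ) • z = v + e ∧ v ∈ AddSubgroup.closure S ∧ up e ∈ RatEq D 1 := by
  have h1 : ∑ P ∈ z.support, z P • ((4 : ℤ) • (Finsupp.single P 1 : Cyc1 D) - h) ∈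
      AddSubgroup.closure S ⊔ (RatEq D 1).comap up := by
    refine AddSubgroup.sum_mem _ fun P hP => AddSubgroup.zsmul_mem _ ?_ _
    obtain ⟨v, e, h2, h3, h4⟩ := hc P hP
    rw [h2]
    exact AddSubgroup.add_mem_sup h3 (AddSubgroup.mem_comap.2 h4)
  have h5 : ∑ P ∈ z.support, z P • ((4 : ℤ) • (Finsupp.single P 1 : Cyc1 D) - h) = (4 : ℤ) • z := by
    have h6 : ∑ P ∈ z.support, z P • (Finsupp.single P 1 : Cyc1 D) = z := by
      conv_rhs => rw [← Finsupp.sum_single z]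
      unfold Finsupp.sum
      refine Finset.sum_congr rfl fun P _ => ?_
      rw [Finsupp.smul_single, smul_eq_mul, mul_one]
    have h7 : ∑ P ∈ z.support, z P • h = 0 := by
      rw [← Finset.sum_smul]
      have h8 : ∑ P ∈ z.support, z P = 0 := hz
      rw [h8, zero_smul]
    have h9 : ∀ P ∈ z.support, z P • ((4 : ℤ) • (Finsupp.single P 1 : Cyc1 D) - h) =
        (4 : ℤ) • (z P • (Finsupp.single P 1 : Cyc1 D)) - z P • h := by
      intro P _
      rw [smul_sub, smul_comm]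
    rw [Finset.sum_congr rfl h9, Finset.sum_sub_distrib, h7, ← Finset.smul_sum, h6, sub_zero]
  rw [h5] at h1
  obtain ⟨v, hv, e, he, h10⟩ := AddSubgroup.mem_sup.1 h1
  exact ⟨v, e, h10.symm, hv, AddSubgroup.mem_comap.1 he⟩

theorem t2 {K0 Q : Type} [Field K0] [IsAlgClosed K0] [CharZero K0] [Field Q] [Algebra (RatFunc K0) Q]
    [FiniteDimensional (RatFunc K0) Q] [Algebra K0 Q] [IsScalarTower K0 (RatFunc K0) Q] {f : MvPolynomial (Fin 4) K0}
    (hf : f.IsHomogeneous 4) (h0 : f ≠ 0) (r : Fr f Q) (hr : r.Nd) (hX : r.a = algebraMap (RatFunc K0) Q RatFunc.X) :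
    ∃ k0 : ℕ, ∀ k, k0 ≤ k → ∀ (K : Type) [Field K] [IsAlgClosed K] [Algebra K0 K]
      (mul : MultilinearMap ℤ (fun _ : Fin k => Cyc1 (xqd K f)) (Cyc (xqd K f) k)), IsPr mul →
      ∀ z : Fin k → Cyc1 (xqd K f), (∀ i, ((z i).sum fun _ n => n) = 0) → (∀ i, ∀ P ∈ (z i).support, Cov r P.p) →
        ∑ σ : Equiv.Perm (Fin k), (Equiv.Perm.sign σ : ℤ) • mul (fun i => z (σ i)) ∈ tor (RatEq (xqd K f) k) := by
  obtain ⟨k0, hk0⟩ := t1 hf r hr hX
  refine ⟨k0, fun k hk K _ _ _ mul hm z hz hc => ?_⟩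
  obtain ⟨h, _, hh⟩ := cov_cls hf h0 r hr (K := K)
  have h1 : ∀ i, ∃ v e : Cyc1 (xqd K f), (4 : ℤ) • z i = v + e ∧
      v ∈ AddSubgroup.closure {w : Cyc1 (xqd K f) | ∃ R S : (xqd K f).X, Pr r R S ∧
        w = Finsupp.single R 1 - Finsupp.single S 1} ∧ up e ∈ RatEq (xqd K f) 1 :=
    fun i => t2_step _ h (z i) (hz i) fun P hP => hh P (hc i P hP)
  choose v e h2 h3 h4 using h1
  let M : MultilinearMap ℤ (fun _ : Fin k => Cyc1 (xqd K f)) (Cyc (xqd K f) k) :=
    ∑ σ : Equiv.Perm (Fin k), (Equiv.Perm.sign σ : ℤ) • mul.domDomCongr σ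
  have hM : ∀ y : Fin k → Cyc1 (xqd K f), M y = ∑ σ : Equiv.Perm (Fin k),
      (Equiv.Perm.sign σ : ℤ) • mul (fun i => y (σ i)) := by
    intro y
    simp only [M, MultilinearMap.sum_apply, MultilinearMap.smul_apply]
    rfl
  have hMv : M v ∈ tor (RatEq (xqd K f) k) := by
    refine multi_mem _ M (fun _ => {w : Cyc1 (xqd K f) | ∃ R S : (xqd K f).X, Pr r R S ∧
        w = Finsupp.single R 1 - Finsupp.single S 1}) ?_ v h3
    intro y hy
    choose R S hRS hw using hy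
    rw [hM]
    have h5 := hk0 k hk K mul hm R S hRS
    have h6 : ∀ σ : Equiv.Perm (Fin k), (fun i => y (σ i)) =
        fun i => (Finsupp.single (R (σ i)) 1 - Finsupp.single (S (σ i)) 1 : Cyc1 (xqd K f)) :=
      fun σ => funext fun i => hw (σ i)
    simp only [h6]
    exact h5
  have h7 : ∀ σ : Equiv.Perm (Fin k), mul (fun i => (4 : ℤ) • z (σ i)) - mul (fun i => v (σ i)) ∈
      tor (RatEq (xqd K f) k) := by
    intro σ
    refine H77.PB.mul_con hm (fun i => (4 : ℤ) • z (σ i)) (fun i => v (σ i)) fun i => ?_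
    have h8 : (4 : ℤ) • z (σ i) - v (σ i) = e (σ i) := by
      rw [h2 (σ i), add_sub_cancel_left]
    rw [h8]
    exact le_tor _ (h4 (σ i))
  have h9 : ∀ σ : Equiv.Perm (Fin k), mul (fun i => (4 : ℤ) • z (σ i)) =
      ((4 ^ k : ℕ) : ℤ) • mul (fun i => z (σ i)) := by
    intro σ
    have h10 := mul.map_smul_univ (fun _ => (4 : ℤ)) (fun i => z (σ i))
    rw [Finset.prod_const, Finset.card_univ, Fintype.card_fin] at h10
    rw [h10, Nat.cast_pow, Nat.cast_ofNat]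
  have h11 : (4 ^ k : ℕ) • (∑ σ : Equiv.Perm (Fin k), (Equiv.Perm.sign σ : ℤ) • mul (fun i => z (σ i))) =
      (∑ σ : Equiv.Perm (Fin k), (Equiv.Perm.sign σ : ℤ) •
        (mul (fun i => (4 : ℤ) • z (σ i)) - mul (fun i => v (σ i)))) + M v := by
    rw [hM, ← Finset.sum_add_distrib, Finset.smul_sum]
    refine Finset.sum_congr rfl fun σ _ => ?_
    rw [smul_sub, sub_add_cancel, h9, ← natCast_zsmul, smul_comm]
  refine tor_sat (N := 4 ^ k) (pow_pos (by norm_num) k) ?_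
  rw [h11]
  refine AddSubgroup.add_mem _ (AddSubgroup.sum_mem _ fun σ _ => AddSubgroup.zsmul_mem _ (h7 σ) _) hMv

end H8.QS
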