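import Pool.Agent.H8.QS.Def

/-! # QS.UDef : the universal quartic form, generic points, the statement of existence (definitions only, no sorry)

`Mo4` = the exponents of degree 4 in four variables (35 elements), `U4` = the algebraic closure of `ℚ(a_m)`, `fU = ∑ a_m X^m`. -/

namespace H8.QS

open Polynomial

/-- the exponents of degree 4 -/
noncomputable def ex4 : Finset (Fin 4 →₀ ℕ) := Finset.finsuppAntidiag Finset.univ 4

/-- indices of the coefficients -/
abbrev Mo4 : Type := {m : Fin 4 →₀ ℕ // m ∈ ex4}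

/-- the universal field -/
abbrev U4 : Type := AlgebraicClosure (FractionRing (MvPolynomial Mo4 ℤ))

/-- the image of the polynomial ring -/
noncomputable def toU : MvPolynomial Mo4 ℤ →+* U4 := algebraMap (MvPolynomial Mo4 ℤ) U4

/-- the universal quartic form -/
noncomputable def fU : MvPolynomial (Fin 4) U4 := ∑ m : Mo4, MvPolynomial.monomial m.1 (toU (MvPolynomial.X m))

/-- generic points of the universal quartic -/
def Gen {L : Type} [Field L] [Algebra U4 L] (P : Fin 4 → L) : Prop :=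
  P 3 ≠ 0 ∧ AlgebraicIndependent U4 ![P 0 / P 3, P 1 / P 3]

/-- the entries of a frame -/
def Fr.ent {K0 : Type} [Field K0] {f : MvPolynomial (Fin 4) K0} {E : Type} [CommRing E] [Algebra K0 E] (r : Fr f E) : Set E :=
  Set.range r.x ∪ Set.range r.d ∪ Set.range r.e ∪ {r.s, r.t, r.a, r.b}

/-- existence of a generic frame with a generic point -/
def Exi : Prop :=
  ∃ (Ω : Type) (_ : Field Ω) (_ : IsAlgClosed Ω) (_ : Algebra U4 Ω) (r : Fr fU Ω) (l y : Ω) (p : Fin 4 → Ω),
    r.Nd ∧ Transcendental U4 r.a ∧ (∀ z ∈ r.ent, IsAlgebraic (IntermediateField.adjoin U4 ({r.a} : Set Ω)) z) ∧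
    y ^ 2 = l ^ 3 - 3 * r.a * l - 2 * r.b ∧ OnF r l y p ∧ Gen p ∧
    Algebra.IsAlgebraic (IntermediateField.adjoin U4 ({p 0 / p 3, p 1 / p 3} : Set Ω)) Ω

/-- the generic frame over a finite extension `Q` of the rational function field, which covers all generic points -/
def ExiQ : Prop :=
  ∃ (Q : Type) (_ : Field Q) (_ : Algebra (RatFunc U4) Q) (_ : FiniteDimensional (RatFunc U4) Q) (_ : Algebra U4 Q)
    (_ : IsScalarTower U4 (RatFunc U4) Q) (r : Fr fU Q), r.Nd ∧ r.a = algebraMap (RatFunc U4) Q RatFunc.X ∧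
    ∀ (L : Type) [Field L] [IsAlgClosed L] [Algebra U4 L] (P : Fin 4 → L), ev fU P = 0 → Gen P →
      ∃ (φ : Q →ₐ[U4] L) (l y : L), y ^ 2 = l ^ 3 - 3 * φ r.a * l - 2 * φ r.b ∧ OnF (r.map φ) l y P

end H8.QS
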