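import Pool.Agent.H8.QS.UDef

/-! # QS.UF : the universal quartic form (about 80 lines; compare `Pool/Agent/H71/SD/Gen.lean`)

`toU_inj` as there.  `cf_ind`: `MvPolynomial.aeval (fun m => toU (X m)) = toU` as ring homomorphisms from `MvPolynomial Mo4 ℤ`, injective. -/

namespace H8.QS

open Polynomial

theorem toU_inj : Function.Injective toU := by
  have h1 : Function.Injective (algebraMap (MvPolynomial Mo4 ℤ) (FractionRing (MvPolynomial Mo4 ℤ))) :=
    IsFractionRing.injective _ _
  have h2 : Function.Injective (algebraMap (FractionRing (MvPolynomial Mo4 ℤ)) U4) :=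
    (algebraMap (FractionRing (MvPolynomial Mo4 ℤ)) U4).injective
  unfold toU
  rw [IsScalarTower.algebraMap_eq (MvPolynomial Mo4 ℤ) (FractionRing (MvPolynomial Mo4 ℤ)) U4]
  exact h2.comp h1

instance instU4 : CharZero U4 := by
  exact charZero_of_injective_algebraMap (R := MvPolynomial Mo4 ℤ) toU_inj

theorem mem_ex4 (m : Fin 4 →₀ ℕ) : m ∈ ex4 ↔ m.degree = 4 := by
  unfold ex4
  rw [Finset.mem_finsuppAntidiag, Finsupp.degree_eq_sum]
  constructor
  · rintro ⟨h, -⟩
    exact h
  · intro h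
    exact ⟨h, Finset.subset_univ _⟩

theorem coeff_fU (m : Mo4) : MvPolynomial.coeff m.1 fU = toU (MvPolynomial.X m) := by
  classical
  unfold fU
  rw [MvPolynomial.coeff_sum, Finset.sum_eq_single m]
  · rw [MvPolynomial.coeff_monomial, if_pos rfl]
  · intro m' _ h
    rw [MvPolynomial.coeff_monomial, if_neg fun h' => h (Subtype.ext h')]
  · intro h
    exact absurd (Finset.mem_univ _) h

theorem coeff_fU0 {m : Fin 4 →₀ ℕ} (h : m ∉ ex4) : MvPolynomial.coeff m fU = 0 := by
  classical
  unfold fU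
  rw [MvPolynomial.coeff_sum]
  refine Finset.sum_eq_zero fun m' _ => ?_
  rw [MvPolynomial.coeff_monomial]
  refine if_neg fun h' => h ?_
  rw [← h']
  exact m'.2

theorem fU_hom : fU.IsHomogeneous 4 := by
  unfold fU
  refine MvPolynomial.IsHomogeneous.sum _ _ _ fun m _ => ?_
  exact MvPolynomial.isHomogeneous_monomial _ ((mem_ex4 m.1).1 m.2)

theorem fU_ne : fU ≠ 0 := by
  intro h
  have hm : (Finsupp.single 0 4 : Fin 4 →₀ ℕ) ∈ ex4 := by
    rw [mem_ex4, Finsupp.degree_single]
  have h1 := coeff_fU ⟨_, hm⟩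
  rw [h, MvPolynomial.coeff_zero] at h1
  have h2 : toU (MvPolynomial.X ⟨_, hm⟩) = toU 0 := by rw [map_zero, ← h1]
  exact MvPolynomial.X_ne_zero _ (toU_inj h2)

/-- the coefficients are independent -/
theorem cf_ind : AlgebraicIndependent ℤ (fun m : Mo4 => (toU (MvPolynomial.X m) : U4)) := by
  have h1 : ((MvPolynomial.aeval (fun m : Mo4 => (toU (MvPolynomial.X m) : U4)) :
      MvPolynomial Mo4 ℤ →ₐ[ℤ] U4) : MvPolynomial Mo4 ℤ →+* U4) = toU := by
    refine MvPolynomial.ringHom_ext (fun r => ?_) fun m => ?_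
    · rw [RingHom.coe_coe, MvPolynomial.aeval_C]
      simp
    · rw [RingHom.coe_coe, MvPolynomial.aeval_X]
  intro p q hpq
  apply toU_inj
  rw [← h1]
  exact hpq

end H8.QS
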